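import Pool.Agent.H89.IP.FDefs
import Pool.Agent.H19.FD.Fin

/-!
# IP.FrD : powers of Frobenius elements are dense

PROOF. `frobPow_conj`: `x⁻¹ φ ^ j x = (x⁻¹ φ x) ^ j`, and `x⁻¹ φ x` is a Frobenius element at `x⁻¹ • Q` (`IsArithFrobAt.conj`), which is above the same `v` (see `unram_conj`, `frob_conj` in H71/Patch/Local and `Ideal.under_smul`). `frobPow_dense`: let `g : GalK F` and `U` an open set containing `g`; there is a finite Galois extension `M` with `g G_M ⊆ U` (`krullTopology`,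
see `exists_coset` in H19/OD/Trace or `exists_openNormal_le` in H71/Patch/Fields). `Pool.Agent.H19.FD.frobDiv F M` for `S` and `x = g`: `v ∉ S`, `Q`, `φ`, `k` with `g⁻¹ φ ^ k ∈ G_M`. If `k = 0` replace it by `k + [M : F]` (or any positive multiple of the index of `G_M`): `φ ^ index ∈ G_M` (`Subgroup.pow_index_mem`; `G_M` is normal of finite index), so
`g⁻¹ φ ^ (k + index) ∈ G_M`. About 60 lines.
-/

set_option autoImplicit false

open scoped Pointwise NumberField
open Matrix IsDedekindDomain Pool.Agent.H71.Patch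

namespace Pool.Agent.H89.IP

theorem frobPow_anti {F : Type*} [Field F] [NumberField F] {S S' : Set (HeightOneSpectrum (𝓞 F))}
    (h : S ⊆ S') : FrobPow F S' ⊆ FrobPow F S := by
  rintro g ⟨v, hv, Q, hQ, φ, hφ, j, hj, e⟩
  exact ⟨v, fun hvS => hv (h hvS), Q, hQ, φ, hφ, j, hj, e⟩

theorem frobPow_conj {F : Type*} [Field F] [NumberField F] {S : Set (HeightOneSpectrum (𝓞 F))}
    {g : GalK F} (hg : g ∈ FrobPow F S) (x : GalK F) : x⁻¹ * g * x ∈ FrobPow F S := by
  obtain ⟨v, hv, Q, hQ, φ, hφ, j, hj, e⟩ := hg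
  have hQp : Q.IsPrime := hQ.1
  have hconj := IsArithFrobAt.conj hφ x⁻¹
  rw [inv_inv] at hconj
  refine ⟨v, hv, x⁻¹ • Q, ⟨inferInstance, ?_⟩, x⁻¹ * φ * x, hconj, j, hj, ?_⟩
  · rw [← hQ.2]
    exact Ideal.under_smul (𝓞 F) Q x⁻¹
  · rw [e]
    have h1 := conj_pow (i := j) (a := x⁻¹) (b := φ)
    rw [inv_inv] at h1
    exact h1.symm

theorem frobPow_dense (F : Type) [Field F] [NumberField F] {S : Set (HeightOneSpectrum (𝓞 F))}
    (hS : S.Finite) : Dense (FrobPow F S) := by
  rw [dense_iff_inter_open]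
  rintro U hU ⟨g, hg⟩
  have h2 : (fun y : GalK F => g * y) ⁻¹' U ∈ nhds (1 : GalK F) :=
    (continuous_const_mul g).continuousAt.preimage_mem_nhds (by simpa using hU.mem_nhds hg)
  obtain ⟨W, hW, hW'⟩ := (krullTopology_mem_nhds_one_iff F (AlgebraicClosure F) _).1 h2
  have hWf : FiniteDimensional F W := hW
  let M := IntermediateField.normalClosure F W (AlgebraicClosure F)
  have hMf : FiniteDimensional F M := inferInstance
  have hMg : IsGalois F M := IsGalois.mk
  have hMW : M.fixingSubgroup ≤ W.fixingSubgroup :=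
    W.fixingSubgroup_le (IntermediateField.le_normalClosure W)
  have hMn : M.fixingSubgroup.Normal := (InfiniteGalois.normal_iff_isGalois M).mpr hMg
  have hMi : M.fixingSubgroup.FiniteIndex := by
    have hop : IsOpen (M.fixingSubgroup : Set (GalK F)) := M.fixingSubgroup_isOpen
    have hfq : Finite (GalK F ⧸ M.fixingSubgroup) := Subgroup.quotient_finite_of_isOpen _ hop
    exact Subgroup.finiteIndex_of_finite_quotient
  obtain ⟨v, hv, Q, hQ, -, φ, hφ, k, hk⟩ :=
    Pool.Agent.H19.FD.frobDiv F M hMf hMg S hS g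
  have hφi : φ ^ M.fixingSubgroup.index ∈ M.fixingSubgroup := Subgroup.pow_index_mem _ φ
  have hi : 0 < M.fixingSubgroup.index := Nat.pos_of_ne_zero Subgroup.FiniteIndex.index_ne_zero
  refine ⟨φ ^ (k + M.fixingSubgroup.index), ?_, v, hv, Q, hQ, φ, hφ, _, by omega, rfl⟩
  have h3 : g⁻¹ * φ ^ (k + M.fixingSubgroup.index) ∈ M.fixingSubgroup := by
    rw [pow_add, ← mul_assoc]
    exact mul_mem hk hφi
  have h4 := hW' (hMW h3)
  rw [Set.mem_preimage, mul_inv_cancel_left] at h4
  exact h4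

end Pool.Agent.H89.IP
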