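import Pool.Agent.H89.IP.Sys

/-!
# IP.GDat : the data on the big group

`ind H f g` is the sum over the cosets `x H` with `x⁻¹ g x ∈ H` of `f (x⁻¹ g x)` : the character of the induced representation if `f` is the character of
a representation of `H`. `twi χ ρ` is the twist of `ρ` with the character `χ`. `GDat` are the data and the hypotheses of the theorem. `Dt.BadH C` are the
`h ∈ H` such that for some `x ∉ H` the element `x⁻¹ h x` is in `H` and is not separated from `h` by the characters in `C`.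
-/

set_option autoImplicit false

open Matrix

namespace Pool.Agent.H89.IP

section

variable {G E : Type*} [Group G] [Field E]

open Classical in
/-- the induced class function -/
noncomputable def ind (H : Subgroup G) (f : H → E) (g : G) : E :=
  ∑ᶠ q : G ⧸ H, if h : q.out⁻¹ * g * q.out ∈ H then f ⟨q.out⁻¹ * g * q.out, h⟩ else 0

/-- the twist of a representation with a character -/
def twi {Γ : Type*} [Group Γ] {n : ℕ} (χ : Γ →* Eˣ) (ρ : Γ →* Matrix (Fin n) (Fin n) E) :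
    Γ →* Matrix (Fin n) (Fin n) E where
  toFun g := ((χ g : Eˣ) : E) • ρ g
  map_one' := by rw [map_one, map_one, Units.val_one, one_smul]
  map_mul' g h := by
    rw [map_mul, map_mul, Units.val_mul, Matrix.smul_mul, Matrix.mul_smul, smul_smul]

theorem twi_apply {Γ : Type*} [Group Γ] {n : ℕ} (χ : Γ →* Eˣ) (ρ : Γ →* Matrix (Fin n) (Fin n) E)
    (g : Γ) : twi χ ρ g = ((χ g : Eˣ) : E) • ρ g := rfl

theorem chi_twi {Γ : Type*} [Group Γ] {n : ℕ} (χ : Γ →* Eˣ) (ρ : Γ →* Matrix (Fin n) (Fin n) E)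
    (g : Γ) : chi (twi χ ρ) g = ((χ g : Eˣ) : E) * chi ρ g := by
  rw [chi, twi_apply, Matrix.trace_smul, smul_eq_mul, chi]

theorem MSem.twi {Γ : Type*} [Group Γ] {n : ℕ} (χ : Γ →* Eˣ) {ρ : Γ →* Matrix (Fin n) (Fin n) E}
    (h : MSem ρ) : MSem (twi χ ρ) := by
  have key : ∀ W : Submodule E (Fin n → E), (∀ g, ∀ x ∈ W, IP.twi χ ρ g *ᵥ x ∈ W) ↔
      ∀ g, ∀ x ∈ W, ρ g *ᵥ x ∈ W := by
    intro W
    refine forall_congr' fun g => forall_congr' fun x => forall_congr' fun _ => ?_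
    rw [twi_apply, Matrix.smul_mulVec]
    exact W.smul_mem_iff (χ g).ne_zero
  intro W hW
  obtain ⟨W', h1, h2⟩ := h W ((key W).1 hW)
  exact ⟨W', (key W').2 h1, h2⟩

theorem twi_inv_twi {Γ : Type*} [Group Γ] {n : ℕ} (χ : Γ →* Eˣ)
    (ρ : Γ →* Matrix (Fin n) (Fin n) E) (g : Γ) : twi χ⁻¹ (twi χ ρ) g = ρ g := by
  rw [twi_apply, twi_apply, smul_smul, MonoidHom.inv_apply, Units.inv_mul, one_smul]

end

/-- the data and hypotheses -/
structure GDat (G E : Type*) [Group G] [TopologicalSpace G] [Field E] [TopologicalSpace E]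
    (H : Subgroup G) (N : ℕ) (X : Subgroup (H →* Eˣ)) where
  R : X → G →* Matrix (Fin N) (Fin N) E
  a : H → E
  D : X → Set G
  hH : IsOpen (H : Set G)
  tor : ∀ χ : X, IsOfFinOrder χ
  cont : ∀ χ : X, Continuous fun h : H => ((χ.1 h : Eˣ) : E)
  big : ∀ x, x ∉ H → ∀ U : Subgroup G, IsOpen (U : Set G) → ∃ χ : X, ∃ g ∈ U,
    ∃ (h₁ : g ∈ H) (h₂ : x⁻¹ * g * x ∈ H), χ.1 ⟨x⁻¹ * g * x, h₂⟩ ≠ χ.1 ⟨g, h₁⟩
  cR : ∀ χ, Continuous (R χ)
  conjD : ∀ χ, ∀ g ∈ D χ, ∀ x, x⁻¹ * g * x ∈ D χ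
  den : ∀ F : Finset X, Dense (⋂ χ ∈ F, D χ)
  cl : ∀ g h : H, a (h⁻¹ * g * h) = a g
  tr : ∀ χ, ∀ g ∈ D χ, (R χ g).trace = ind H (fun h => a h * ((χ.1 h : Eˣ) : E)) g

variable {G E : Type*} [Group G] [TopologicalSpace G] [Field E] [TopologicalSpace E]
  {H : Subgroup G} {N : ℕ} {X : Subgroup (H →* Eˣ)}

/-- the exceptional set -/
def GDat.BadH (_ : GDat G E H N X) (C : Finset X) : Set H :=
  {h | ∃ x : G, x ∉ H ∧ ∃ hh : x⁻¹ * (h : G) * x ∈ H, ∀ χ ∈ C, χ.1 ⟨x⁻¹ * h * x, hh⟩ = χ.1 h}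

end Pool.Agent.H89.IP
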