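import Pool.Agent.H41.TP.Defs
import Pool.Agent.H89.IP.GDat

/-!
# IP.FDefs : definitions for the final theorem

`FrobPow F S` : the powers `φ ^ j`, `j > 0`, of the arithmetic Frobenius elements `φ` at the primes `Q` above some `v ∉ S`. `GenPosX X` : general
position of a group `X` of characters of `H ≤ G`: for every `x ∉ H` and every open subgroup `U` of `G` some `χ ∈ X` distinguishes `g` and `x⁻¹ g x` for some `g ∈ U`
(both in `H`). `Semis ρ` : every invariant subspace has an invariant complement. `SepdBy` : the condition for the value at `g`. `TwistSummand` :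
the twist of `ρ` by `χ` is a direct summand of the restriction of `R` to `H`.
-/

set_option autoImplicit false

open scoped Pointwise NumberField
open Matrix IsDedekindDomain Pool.Agent.H71.Patch

namespace Pool.Agent.H89.IP

/-- the powers of the Frobenius elements at the primes outside `S` -/
def FrobPow (F : Type*) [Field F] [NumberField F] (S : Set (HeightOneSpectrum (𝓞 F))) :
    Set (GalK F) :=
  {g | ∃ v, v ∉ S ∧ ∃ Q, Above v Q ∧ ∃ φ : GalK F, IsArithFrobAt (𝓞 F) φ Q ∧
    ∃ j : ℕ, 0 < j ∧ g = φ ^ j}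

/-- the group `X` of characters of `H` is in general position in `G` -/
def GenPosX {G E : Type*} [Group G] [TopologicalSpace G] [Field E] {H : Subgroup G}
    (X : Subgroup (H →* Eˣ)) : Prop :=
  ∀ x, x ∉ H → ∀ U : Subgroup G, IsOpen (U : Set G) → ∃ χ ∈ X, ∃ g ∈ U,
    ∃ (h₁ : g ∈ H) (h₂ : x⁻¹ * g * x ∈ H), χ ⟨x⁻¹ * g * x, h₂⟩ ≠ χ ⟨g, h₁⟩

/-- every invariant subspace has an invariant complement -/
def Semis {A E : Type*} [Group A] [Field E] {n : ℕ} (ρ : A →* GL (Fin n) E) : Prop :=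
  ∀ W : Submodule E (Fin n → E), (∀ g, ∀ x ∈ W, (ρ g).val *ᵥ x ∈ W) →
    ∃ W' : Submodule E (Fin n → E), (∀ g, ∀ x ∈ W', (ρ g).val *ᵥ x ∈ W') ∧ IsCompl W W'

/-- `ρ ⊗ χ` is a direct summand of the restriction of `R` to `H` -/
def TwistSummand {G E : Type*} [Group G] [Field E] {H : Subgroup G} {n N : ℕ} (χ : H →* Eˣ)
    (ρ : H →* GL (Fin n) E) (R : G →* GL (Fin N) E) : Prop :=
  ∃ (B : Matrix (Fin N) (Fin n) E) (C : Matrix (Fin n) (Fin N) E), C * B = 1 ∧
    ∀ g : H, (R g).val * B = ((χ g : Eˣ) : E) • (B * (ρ g).val) ∧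
      C * (R g).val = ((χ g : Eˣ) : E) • ((ρ g).val * C)

end Pool.Agent.H89.IP
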