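import Pool.Agent.H89.IP.Defs

/-!
# IP.Fs : finite subgroups of a torsion abelian group

PROOF. `fs_ex`: the subgroup generated by a finite set of elements of finite order in an abelian group is finite: induction on `F` (`Finset.induction_on`): if `C` is a finite subgroup and `χ ^ n = 1` then `{c * χ ^ i | c ∈ C, i < n}` is one. `orth`: with `χ₀ ∈ C`, `f χ₀ ≠ 1`: `f χ₀ * ∑ f χ = ∑ f (χ₀ * χ) = ∑ f χ` (`Finset.sum_bij`, `C` is
stable under multiplication by `χ₀` and `χ₀⁻¹`). About 60 lines.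
-/

set_option autoImplicit false

namespace Pool.Agent.H89.IP

variable {X : Type*} [CommGroup X]

theorem fs_ex (tor : ∀ χ : X, IsOfFinOrder χ) (F : Finset X) : ∃ C : Finset X, IsFS C ∧ F ⊆ C := by
  classical
  have hfg : Group.FG (Subgroup.closure (F : Set X)) :=
    (Group.fg_iff_subgroup_fg _).2 ⟨F, rfl⟩
  have htor : Monoid.IsTorsion (Subgroup.closure (F : Set X)) := by
    intro x
    exact (Submonoid.isOfFinOrder_coe (H := (Subgroup.closure (F : Set X)).toSubmonoid)).1 (tor (x : X))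
  have hfin : Finite (Subgroup.closure (F : Set X)) := CommGroup.finite_of_fg_torsion _ htor
  have hfs : (Subgroup.closure (F : Set X) : Set X).Finite := Set.toFinite _
  refine ⟨hfs.toFinset, ⟨?_, ?_, ?_⟩, ?_⟩
  · rw [Set.Finite.mem_toFinset]; exact Subgroup.one_mem _
  · intro a ha b hb
    rw [Set.Finite.mem_toFinset] at ha hb ⊢
    exact Subgroup.mul_mem _ ha hb
  · intro a ha
    rw [Set.Finite.mem_toFinset] at ha ⊢
    exact Subgroup.inv_mem _ ha
  · intro a ha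
    rw [Set.Finite.mem_toFinset]
    exact Subgroup.subset_closure (Finset.mem_coe.2 ha)

theorem orth {E : Type*} [Field E] {C : Finset X} (hC : IsFS C) (f : X → E)
    (hm : ∀ χ χ', f (χ * χ') = f χ * f χ') (hne : ∃ χ ∈ C, f χ ≠ 1) : ∑ χ ∈ C, f χ = 0 := by
  obtain ⟨χ₀, h0, h1⟩ := hne
  have h2 : ∑ χ ∈ C, f (χ₀ * χ) = ∑ χ ∈ C, f χ := by
    refine Finset.sum_bij' (fun χ _ => χ₀ * χ) (fun χ _ => χ₀⁻¹ * χ) ?_ ?_ ?_ ?_ ?_
    · intro a ha; exact hC.2.1 _ h0 _ ha
    · intro a ha; exact hC.2.1 _ (hC.2.2 _ h0) _ ha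
    · intro a _; simp
    · intro a _; simp
    · intro a _; rfl
  have h3 : f χ₀ * ∑ χ ∈ C, f χ = ∑ χ ∈ C, f χ := by
    rw [Finset.mul_sum, ← h2]
    exact Finset.sum_congr rfl (fun χ _ => (hm χ₀ χ).symm)
  have h4 : (f χ₀ - 1) * ∑ χ ∈ C, f χ = 0 := by
    rw [sub_mul, one_mul, h3, sub_self]
  rcases mul_eq_zero.1 h4 with h | h
  · exact absurd (sub_eq_zero.1 h) h1
  · exact h

end Pool.Agent.H89.IP
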