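import Pool.Agent.H89.IP.Sys
import Pool.Agent.H89.IP.Fs

/-!
# IP.Avg : orthogonality

PROOF of `avgA`. `S.tr`: `∑ χ ∈ C, T (χ₂ χ) g = card * a g + ∑ y, b y g * ∑ χ ∈ C, ψ y (χ₂ * χ) g`. If `g ∉ P y` then `b y g = 0` (`S.hb`). If `g ∈ P y` then `ψ y (χ₂ * χ) g = ψ y χ₂ g * ψ y χ g` (`S.ψm`) and `∑ χ ∈ C, ψ y χ g = 0` by `orth`, because `g ∉ S.B C y` gives `χ ∈ C` with `ψ y χ g ≠ 1`. `avgB`: the same with the
products `(a g + ∑ y, b y g ψ y χ g) (a g' + ∑ z, b z g' ψ z χ g')`: the function `χ ↦ ψ y χ g * ψ z χ g'` is multiplicative, not trivial on `C` because `(g, g') ∉ S.Bad2 C`. About 100 lines.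
-/

set_option autoImplicit false

namespace Pool.Agent.H89.IP

variable {H E X Y : Type*} [Group H] [TopologicalSpace H] [Field E] [TopologicalSpace E]
  [CommGroup X] [Fintype Y] (S : Sys H E X Y)

namespace Sys

private theorem avg_one {C : Finset X} (hC : IsFS C) {y : Y} {g : H} (hb : g ∉ S.B C y) :
    S.b y g * ∑ χ ∈ C, S.ψ y χ g = 0 := by
  by_cases hg : g ∈ S.P y
  · have h1 : ∃ χ ∈ C, S.ψ y χ g ≠ 1 := by
      by_contra hne
      push Not at hne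
      exact hb ⟨hg, hne⟩
    rw [orth hC (fun χ => S.ψ y χ g) (fun χ χ' => S.ψm y g hg χ χ') h1, mul_zero]
  · rw [S.hb y g hg, zero_mul]

private theorem avg_two {C : Finset X} (hC : IsFS C) {y z : Y} {g g' : H}
    (hb : (g, g') ∉ S.Bad2 C) :
    S.b y g * S.b z g' * ∑ χ ∈ C, S.ψ y χ g * S.ψ z χ g' = 0 := by
  by_cases hg : g ∈ S.P y
  · by_cases hg' : g' ∈ S.P z
    · have h1 : ∃ χ ∈ C, S.ψ y χ g * S.ψ z χ g' ≠ 1 := by
        by_contra hne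
        push Not at hne
        exact hb (Or.inr (Or.inr ⟨y, z, hg, hg', hne⟩))
      rw [orth hC (fun χ => S.ψ y χ g * S.ψ z χ g') (fun χ χ' => ?_) h1, mul_zero]
      rw [S.ψm y g hg χ χ', S.ψm z g' hg' χ χ']
      ring
    · rw [S.hb z g' hg', mul_zero, zero_mul]
  · rw [S.hb y g hg, zero_mul, zero_mul]

theorem avgA {C : Finset X} (hC : IsFS C) (χ₂ : X) {g : H} (hg : ∀ χ ∈ C, g ∈ S.D (χ₂ * χ))
    (hb : g ∉ S.Bad C) : ∑ χ ∈ C, S.T (χ₂ * χ) g = (C.card : E) * S.a g := by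
  have h1 : ∀ χ ∈ C, S.T (χ₂ * χ) g = S.a g + ∑ y, S.b y g * S.ψ y (χ₂ * χ) g :=
    fun χ hχ => S.tr _ g (hg χ hχ)
  rw [Finset.sum_congr rfl h1, Finset.sum_add_distrib, Finset.sum_const, nsmul_eq_mul,
    Finset.sum_comm]
  have h2 : ∀ y, ∑ χ ∈ C, S.b y g * S.ψ y (χ₂ * χ) g = 0 := by
    intro y
    by_cases hgy : g ∈ S.P y
    · have h3 : ∀ χ ∈ C, S.b y g * S.ψ y (χ₂ * χ) g = S.ψ y χ₂ g * (S.b y g * S.ψ y χ g) := by
        intro χ _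
        rw [S.ψm y g hgy]
        ring
      rw [Finset.sum_congr rfl h3, ← Finset.mul_sum, ← Finset.mul_sum,
        avg_one S hC (fun h => hb ⟨y, h⟩), mul_zero]
    · simp [S.hb y g hgy]
  rw [Finset.sum_eq_zero fun y _ => h2 y, add_zero]

theorem avgB {C : Finset X} (hC : IsFS C) {g g' : H} (hg : ∀ χ ∈ C, g ∈ S.D χ)
    (hg' : ∀ χ ∈ C, g' ∈ S.D χ) (hb : (g, g') ∉ S.Bad2 C) :
    ∑ χ ∈ C, S.T χ g * S.T χ g' = (C.card : E) * (S.a g * S.a g') := by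
  have hb1 : ∀ y, g ∉ S.B C y := fun y h => hb (Or.inl ⟨y, h⟩)
  have hb2 : ∀ y, g' ∉ S.B C y := fun y h => hb (Or.inr (Or.inl ⟨y, h⟩))
  have h1 : ∀ χ ∈ C, S.T χ g * S.T χ g' = S.a g * S.a g' +
      (S.a g * ∑ z, S.b z g' * S.ψ z χ g' + S.a g' * ∑ y, S.b y g * S.ψ y χ g) +
      ∑ y, ∑ z, S.b y g * S.b z g' * (S.ψ y χ g * S.ψ z χ g') := by
    intro χ hχ
    have h2 : ∑ y, ∑ z, S.b y g * S.b z g' * (S.ψ y χ g * S.ψ z χ g') =
        (∑ y, S.b y g * S.ψ y χ g) * ∑ z, S.b z g' * S.ψ z χ g' := by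
      rw [Finset.sum_mul_sum]
      refine Finset.sum_congr rfl fun y _ => Finset.sum_congr rfl fun z _ => ?_
      ring
    rw [S.tr χ g (hg χ hχ), S.tr χ g' (hg' χ hχ), h2]
    ring
  rw [Finset.sum_congr rfl h1, Finset.sum_add_distrib, Finset.sum_add_distrib,
    Finset.sum_add_distrib, Finset.sum_const, nsmul_eq_mul]
  have e1 : ∀ {g : H}, (∀ y, g ∉ S.B C y) → ∑ χ ∈ C, ∑ y, S.b y g * S.ψ y χ g = 0 := by
    intro g hg0
    rw [Finset.sum_comm]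
    refine Finset.sum_eq_zero fun y _ => ?_
    rw [← Finset.mul_sum]
    exact avg_one S hC (hg0 y)
  have e2 : ∑ χ ∈ C, ∑ y, ∑ z, S.b y g * S.b z g' * (S.ψ y χ g * S.ψ z χ g') = 0 := by
    rw [Finset.sum_comm]
    refine Finset.sum_eq_zero fun y _ => ?_
    rw [Finset.sum_comm]
    refine Finset.sum_eq_zero fun z _ => ?_
    rw [← Finset.mul_sum]
    exact avg_two S hC hb
  rw [← Finset.mul_sum, ← Finset.mul_sum, e1 hb1, e1 hb2, e2]
  ring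


end Sys

end Pool.Agent.H89.IP
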