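import Pool.Agent.H89.IP.Defs

/-!
# IP.Clif : Clifford theorem

PROOF. Let `𝓛` be the `V`-invariant subspaces of `Fin n → E`. Let `W₀ ≠ ⊥` be a minimal nonzero element (dimension). For `g : Γ` the image `ρ g W₀` is in `𝓛` (`ρ v ρ g x = ρ g ρ (g⁻¹ v g) x`, `V` normal) and minimal nonzero again.
The sum of all `ρ g W₀` is `Γ`-invariant and nonzero, so it is `⊤` (`h.2`). A module which is a sum of simple submodules is semisimple: work with the module over `MonoidAlgebra E V` given by `Representation.asModule`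
(submodules = invariant subspaces, `Representation.invtSubmodule`, `Subrepresentation`), `isSemisimpleModule_iff`, `sSup_simples_eq_top_iff_isSemisimpleModule` (or the lattice theorem `complementedLattice_of_sSup_atoms_eq_top`); or directly: given invariant `W` take
`W'` maximal among the `W' ∈ 𝓛` with `W ⊓ W' = ⊥`; if `W ⊔ W' ≠ ⊤` some `ρ g W₀` is not contained in it, so meets it in `⊥`, and `W' ⊔ ρ g W₀` contradicts maximality. About 120 lines.
-/

set_option autoImplicit false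

open Matrix

namespace Pool.Agent.H89.IP

variable {Γ E : Type*} [Group Γ] [Field E]

private def Inv {n : ℕ} (ρ : Γ →* Matrix (Fin n) (Fin n) E) (V : Subgroup Γ)
    (W : Submodule E (Fin n → E)) : Prop := ∀ g ∈ V, ∀ x ∈ W, ρ g *ᵥ x ∈ W

private noncomputable def tr {n : ℕ} (ρ : Γ →* Matrix (Fin n) (Fin n) E) (g : Γ)
    (W : Submodule E (Fin n → E)) : Submodule E (Fin n → E) := W.map (Matrix.mulVecLin (ρ g))

private theorem mem_tr {n : ℕ} {ρ : Γ →* Matrix (Fin n) (Fin n) E} {g : Γ}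
    {W : Submodule E (Fin n → E)} {y : Fin n → E} : y ∈ tr ρ g W ↔ ∃ x ∈ W, ρ g *ᵥ x = y := by
  rw [tr, Submodule.mem_map]
  rfl

private theorem tr_tr {n : ℕ} (ρ : Γ →* Matrix (Fin n) (Fin n) E) (g h : Γ)
    (W : Submodule E (Fin n → E)) : tr ρ g (tr ρ h W) = tr ρ (g * h) W := by
  ext y
  rw [mem_tr, mem_tr]
  constructor
  · rintro ⟨x, hx, rfl⟩
    obtain ⟨z, hz, rfl⟩ := mem_tr.1 hx
    exact ⟨z, hz, by rw [map_mul, Matrix.mulVec_mulVec]⟩
  · rintro ⟨z, hz, rfl⟩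
    exact ⟨_, mem_tr.2 ⟨z, hz, rfl⟩, by rw [map_mul, Matrix.mulVec_mulVec]⟩

private theorem tr_one {n : ℕ} (ρ : Γ →* Matrix (Fin n) (Fin n) E)
    (W : Submodule E (Fin n → E)) : tr ρ 1 W = W := by
  ext y
  rw [mem_tr]
  constructor
  · rintro ⟨x, hx, rfl⟩
    rw [map_one, Matrix.one_mulVec]
    exact hx
  · intro hy
    exact ⟨y, hy, by rw [map_one, Matrix.one_mulVec]⟩

private theorem tr_mono {n : ℕ} (ρ : Γ →* Matrix (Fin n) (Fin n) E) (g : Γ)
    {W W' : Submodule E (Fin n → E)} (h : W ≤ W') : tr ρ g W ≤ tr ρ g W' := Submodule.map_mono h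

private theorem tr_inv {n : ℕ} {ρ : Γ →* Matrix (Fin n) (Fin n) E} {V : Subgroup Γ} [hV : V.Normal]
    {W : Submodule E (Fin n → E)} (h : Inv ρ V W) (g : Γ) : Inv ρ V (tr ρ g W) := by
  intro v hv y hy
  obtain ⟨x, hx, rfl⟩ := mem_tr.1 hy
  have h1 : g⁻¹ * v * g ∈ V := by
    have := hV.conj_mem v hv g⁻¹
    rwa [inv_inv] at this
  refine mem_tr.2 ⟨ρ (g⁻¹ * v * g) *ᵥ x, h _ h1 x hx, ?_⟩
  rw [Matrix.mulVec_mulVec, Matrix.mulVec_mulVec, ← map_mul, ← map_mul]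
  congr 2
  group

theorem clif {n : ℕ} {ρ : Γ →* Matrix (Fin n) (Fin n) E} (h : MIrr ρ) (V : Subgroup Γ) [V.Normal] :
    MSem (ρ.comp V.subtype) := by
  have hn : n ≠ 0 := h.1
  have : NeZero n := ⟨hn⟩
  -- a minimal nonzero invariant subspace
  obtain ⟨W0, ⟨hW0, hW0n⟩, hmin⟩ := (wellFounded_lt (α := Submodule E (Fin n → E))).has_min
    {W | Inv ρ V W ∧ W ≠ ⊥} ⟨⊤, fun _ _ _ _ => Submodule.mem_top, top_ne_bot⟩
  have hmin' : ∀ g : Γ, ∀ U : Submodule E (Fin n → E), Inv ρ V U → U ≤ tr ρ g W0 →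
      U ≠ tr ρ g W0 → U = ⊥ := by
    intro g U hU hle hne
    by_contra hb
    have h1 : tr ρ g⁻¹ U ≤ W0 := by
      have := tr_mono ρ g⁻¹ hle
      rwa [tr_tr, inv_mul_cancel, tr_one] at this
    have h2 : tr ρ g⁻¹ U ≠ ⊥ := by
      intro h3
      apply hb
      have h4 : tr ρ g (tr ρ g⁻¹ U) = U := by rw [tr_tr, mul_inv_cancel, tr_one]
      rw [← h4, h3, tr, Submodule.map_bot]
    have h3 : tr ρ g⁻¹ U ≠ W0 := by
      intro h4
      apply hne
      rw [← h4, tr_tr, mul_inv_cancel, tr_one]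
    exact hmin _ ⟨tr_inv hU g⁻¹, h2⟩ (lt_of_le_of_ne h1 h3)
  have hsup : (⨆ g : Γ, tr ρ g W0) = ⊤ := by
    refine (h.2 _ ?_).resolve_left ?_
    · intro k x hx
      have h1 : ρ k *ᵥ x ∈ tr ρ k (⨆ g : Γ, tr ρ g W0) := mem_tr.2 ⟨x, hx, rfl⟩
      have h2 : tr ρ k (⨆ g : Γ, tr ρ g W0) ≤ ⨆ g : Γ, tr ρ g W0 := by
        rw [tr, Submodule.map_iSup]
        refine iSup_le fun g => ?_
        have h3 : (tr ρ g W0).map (Matrix.mulVecLin (ρ k)) = tr ρ (k * g) W0 := tr_tr ρ k g W0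
        rw [h3]
        exact le_iSup (fun g : Γ => tr ρ g W0) (k * g)
      exact h2 h1
    · intro hb
      apply hW0n
      have h1 : tr ρ 1 W0 ≤ ⊥ := hb ▸ le_iSup (fun g : Γ => tr ρ g W0) 1
      rw [tr_one] at h1
      exact le_bot_iff.1 h1
  intro W hW
  have hW' : Inv ρ V W := fun g hg x hx => hW ⟨g, hg⟩ x hx
  obtain ⟨C, ⟨hC, hCd⟩, hmax⟩ := (wellFounded_gt (α := Submodule E (Fin n → E))).has_min
    {C | Inv ρ V C ∧ Disjoint W C} ⟨⊥, fun g _ x hx => by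
      rw [Submodule.mem_bot] at hx ⊢
      rw [hx, Matrix.mulVec_zero], disjoint_bot_right⟩
  refine ⟨C, fun g x hx => hC g g.2 x hx, hCd, ?_⟩
  rw [codisjoint_iff]
  by_contra hne
  have hex : ∃ g : Γ, ¬ tr ρ g W0 ≤ W ⊔ C := by
    by_contra hall
    push Not at hall
    apply hne
    rw [eq_top_iff, ← hsup]
    exact iSup_le hall
  obtain ⟨g, hg⟩ := hex
  have hInvSup : Inv ρ V (W ⊔ C) := by
    intro v hv x hx
    obtain ⟨y, hy, z, hz, rfl⟩ := Submodule.mem_sup.1 hx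
    rw [Matrix.mulVec_add]
    exact Submodule.add_mem_sup (hW' v hv y hy) (hC v hv z hz)
  have hgi := tr_inv hW0 g
  have hdis : Disjoint (W ⊔ C) (tr ρ g W0) := by
    rw [disjoint_iff]
    refine hmin' g _ ?_ inf_le_right ?_
    · intro v hv x hx
      exact ⟨hInvSup v hv x hx.1, hgi v hv x hx.2⟩
    · intro h1
      exact hg (h1 ▸ inf_le_left)
  have hd2 : Disjoint W (C ⊔ tr ρ g W0) := hCd.disjoint_sup_right_of_disjoint_sup_left hdis
  refine hmax (C ⊔ tr ρ g W0) ⟨?_, hd2⟩ ?_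
  · intro v hv x hx
    obtain ⟨y, hy, z, hz, rfl⟩ := Submodule.mem_sup.1 hx
    rw [Matrix.mulVec_add]
    exact Submodule.add_mem_sup (hC v hv y hy) (hgi v hv z hz)
  · refine lt_of_le_of_ne le_sup_left fun h1 => hg ?_
    rw [h1]
    exact le_sup_right.trans le_sup_right

/-- the whole group as a subgroup -/
theorem MSem.top {n : ℕ} {ρ : Γ →* Matrix (Fin n) (Fin n) E} (h : MSem ρ) :
    MSem (ρ.comp (⊤ : Subgroup Γ).subtype) := by
  intro W hW
  obtain ⟨W', h1, h2⟩ := h W fun g x hx => hW ⟨g, Subgroup.mem_top g⟩ x hx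
  exact ⟨W', fun g x hx => h1 g x hx, h2⟩

theorem MIrr.sem {n : ℕ} {ρ : Γ →* Matrix (Fin n) (Fin n) E} (h : MIrr ρ) : MSem ρ := by
  intro W hW
  rcases h.2 W hW with rfl | rfl
  · exact ⟨⊤, fun _ _ _ => Submodule.mem_top, isCompl_bot_top⟩
  · refine ⟨⊥, fun g x hx => ?_, isCompl_top_bot⟩
    rw [Submodule.mem_bot] at hx ⊢
    rw [hx, Matrix.mulVec_zero]

end Pool.Agent.H89.IP
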