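import Pool.Agent.H89.IP.Defs

/-!
# IP.DSum : direct sums of matrix representations

PROOF. `dsum`: `Matrix.reindex finSumFinEquiv finSumFinEquiv (Matrix.fromBlocks (ρ₁ g) 0 0 (ρ₂ g))`, `Matrix.fromBlocks_multiply`, `Matrix.trace_fromBlocks`. Semisimple: the invariant subspaces `F₁`, `F₂` (vectors supported in the first, second block) are semisimple and span; to show that an invariant `W` has an invariant complement: let `W'` be maximal invariant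
with `W ⊓ W' = ⊥` ... or use the module theorem: the product of two semisimple modules over `MonoidAlgebra E Γ` is semisimple (`Representation.asModule`). Or directly: `W ⊓ F₁` has an invariant complement `A` in `F₁`; `W + F₁` corresponds to an invariant subspace of `F₂` (the projection of `W`), with an invariant complement `B` in `F₂`;
then `A + B` is a complement of `W`. `mk_rho`: `Finsupp` induction (`Finsupp.induction_linear` or induction on `∑ k θ`), adding one `θ` at a time, starting with size `0`. About 150 lines.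
-/

set_option autoImplicit false

open Matrix

namespace Pool.Agent.H89.IP

variable {Γ E : Type*} [Group Γ] [Field E]

/-- the block diagonal representation -/
private def ds_rho {n₁ n₂ : ℕ} (ρ₁ : Γ →* Matrix (Fin n₁) (Fin n₁) E)
    (ρ₂ : Γ →* Matrix (Fin n₂) (Fin n₂) E) :
    Γ →* Matrix (Fin (n₁ + n₂)) (Fin (n₁ + n₂)) E where
  toFun g := (Matrix.fromBlocks (ρ₁ g) 0 0 (ρ₂ g)).submatrix finSumFinEquiv.symm finSumFinEquiv.symm
  map_one' := by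
    rw [map_one, map_one, Matrix.fromBlocks_one, Matrix.submatrix_one_equiv]
  map_mul' g h := by
    rw [map_mul, map_mul, Matrix.submatrix_mul_equiv, Matrix.fromBlocks_multiply]
    simp only [Matrix.mul_zero, Matrix.zero_mul, add_zero, zero_add]

private theorem ds_apply {n₁ n₂ : ℕ} (ρ₁ : Γ →* Matrix (Fin n₁) (Fin n₁) E)
    (ρ₂ : Γ →* Matrix (Fin n₂) (Fin n₂) E) (g : Γ) : ds_rho ρ₁ ρ₂ g =
      (Matrix.fromBlocks (ρ₁ g) 0 0 (ρ₂ g)).submatrix finSumFinEquiv.symm finSumFinEquiv.symm := rfl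

private theorem ds_chi {n₁ n₂ : ℕ} (ρ₁ : Γ →* Matrix (Fin n₁) (Fin n₁) E)
    (ρ₂ : Γ →* Matrix (Fin n₂) (Fin n₂) E) (g : Γ) :
    chi (ds_rho ρ₁ ρ₂) g = chi ρ₁ g + chi ρ₂ g := by
  unfold chi
  rw [ds_apply]
  unfold Matrix.trace
  have h := Equiv.sum_comp (finSumFinEquiv (m := n₁) (n := n₂)).symm
    (fun i => (Matrix.fromBlocks (ρ₁ g) 0 0 (ρ₂ g)).diag i)
  refine h.trans ?_
  rw [Fintype.sum_sum_type]
  rfl

/-- the two projections -/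
private def ds_Q (E : Type*) [Field E] (n₁ n₂ : ℕ) : (Fin (n₁ + n₂) → E) →ₗ[E] (Fin n₁ → E) :=
  LinearMap.funLeft E E fun i => finSumFinEquiv (Sum.inl i)

private def ds_P (E : Type*) [Field E] (n₁ n₂ : ℕ) : (Fin (n₁ + n₂) → E) →ₗ[E] (Fin n₂ → E) :=
  LinearMap.funLeft E E fun i => finSumFinEquiv (Sum.inr i)

private theorem ds_Qr {n₁ n₂ : ℕ} (ρ₁ : Γ →* Matrix (Fin n₁) (Fin n₁) E)
    (ρ₂ : Γ →* Matrix (Fin n₂) (Fin n₂) E) (g : Γ) (v : Fin (n₁ + n₂) → E) :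
    ds_Q E n₁ n₂ (ds_rho ρ₁ ρ₂ g *ᵥ v) = ρ₁ g *ᵥ ds_Q E n₁ n₂ v := by
  rw [ds_apply, Matrix.submatrix_mulVec_equiv, Matrix.fromBlocks_mulVec]
  funext i
  change ((Sum.elim _ _ ∘ finSumFinEquiv.symm) (finSumFinEquiv (Sum.inl i)) : E) = _
  rw [Function.comp_apply, Equiv.symm_apply_apply, Sum.elim_inl, Matrix.zero_mulVec, add_zero]
  rfl

private theorem ds_Pr {n₁ n₂ : ℕ} (ρ₁ : Γ →* Matrix (Fin n₁) (Fin n₁) E)
    (ρ₂ : Γ →* Matrix (Fin n₂) (Fin n₂) E) (g : Γ) (v : Fin (n₁ + n₂) → E) :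
    ds_P E n₁ n₂ (ds_rho ρ₁ ρ₂ g *ᵥ v) = ρ₂ g *ᵥ ds_P E n₁ n₂ v := by
  rw [ds_apply, Matrix.submatrix_mulVec_equiv, Matrix.fromBlocks_mulVec]
  funext i
  change ((Sum.elim _ _ ∘ finSumFinEquiv.symm) (finSumFinEquiv (Sum.inr i)) : E) = _
  rw [Function.comp_apply, Equiv.symm_apply_apply, Sum.elim_inr, Matrix.zero_mulVec, zero_add]
  rfl

private theorem ds_ext {n₁ n₂ : ℕ} {v : Fin (n₁ + n₂) → E} (h1 : ds_Q E n₁ n₂ v = 0)
    (h2 : ds_P E n₁ n₂ v = 0) : v = 0 := by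
  funext i
  obtain ⟨j, rfl⟩ := finSumFinEquiv.surjective i
  rcases j with j | j
  · exact congrFun h1 j
  · exact congrFun h2 j

private theorem ds_sem {n₁ n₂ : ℕ} {ρ₁ : Γ →* Matrix (Fin n₁) (Fin n₁) E}
    {ρ₂ : Γ →* Matrix (Fin n₂) (Fin n₂) E} (h1 : MSem ρ₁) (h2 : MSem ρ₂) :
    MSem (ds_rho ρ₁ ρ₂) := by
  intro W hW
  obtain ⟨A, hA, hA2⟩ := h1 ((W ⊓ LinearMap.ker (ds_P E n₁ n₂)).map (ds_Q E n₁ n₂)) (by
    rintro g _ ⟨w, hw, rfl⟩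
    refine ⟨ds_rho ρ₁ ρ₂ g *ᵥ w, ⟨hW g w hw.1, ?_⟩, ds_Qr ρ₁ ρ₂ g w⟩
    have hw2 : ds_P E n₁ n₂ w = 0 := hw.2
    change ds_P E n₁ n₂ (ds_rho ρ₁ ρ₂ g *ᵥ w) = 0
    rw [ds_Pr, hw2, Matrix.mulVec_zero])
  obtain ⟨B, hB, hB2⟩ := h2 (W.map (ds_P E n₁ n₂)) (by
    rintro g _ ⟨w, hw, rfl⟩
    exact ⟨ds_rho ρ₁ ρ₂ g *ᵥ w, hW g w hw, ds_Pr ρ₁ ρ₂ g w⟩)
  refine ⟨A.comap (ds_Q E n₁ n₂) ⊓ B.comap (ds_P E n₁ n₂), ?_, ?_⟩
  · rintro g x ⟨hx1, hx2⟩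
    refine ⟨?_, ?_⟩
    · change ds_Q E n₁ n₂ (ds_rho ρ₁ ρ₂ g *ᵥ x) ∈ A
      rw [ds_Qr]
      exact hA g _ hx1
    · change ds_P E n₁ n₂ (ds_rho ρ₁ ρ₂ g *ᵥ x) ∈ B
      rw [ds_Pr]
      exact hB g _ hx2
  · refine ⟨?_, ?_⟩
    · rw [Submodule.disjoint_def]
      rintro x hx ⟨hx1, hx2⟩
      have e1 : ds_P E n₁ n₂ x = 0 :=
        (Submodule.disjoint_def.1 hB2.disjoint) _ ⟨x, hx, rfl⟩ hx2
      have e2 : ds_Q E n₁ n₂ x = 0 :=
        (Submodule.disjoint_def.1 hA2.disjoint) _ ⟨x, ⟨hx, e1⟩, rfl⟩ hx1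
      exact ds_ext e2 e1
    · rw [codisjoint_iff, eq_top_iff]
      rintro v -
      have hv2 : ds_P E n₁ n₂ v ∈ (W.map (ds_P E n₁ n₂)) ⊔ B := by
        rw [hB2.sup_eq_top]
        exact Submodule.mem_top
      obtain ⟨_, ⟨w, hw, rfl⟩, b, hb, hwb⟩ := Submodule.mem_sup.1 hv2
      have hv1 : ds_Q E n₁ n₂ (v - w) ∈
          ((W ⊓ LinearMap.ker (ds_P E n₁ n₂)).map (ds_Q E n₁ n₂)) ⊔ A := by
        rw [hA2.sup_eq_top]
        exact Submodule.mem_top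
      obtain ⟨_, ⟨w', ⟨hw', hw0⟩, rfl⟩, a, ha, hwa⟩ := Submodule.mem_sup.1 hv1
      have hw0' : ds_P E n₁ n₂ w' = 0 := hw0
      refine Submodule.mem_sup.2 ⟨w + w', W.add_mem hw hw', v - w - w', ⟨?_, ?_⟩, by abel⟩
      · change ds_Q E n₁ n₂ (v - w - w') ∈ A
        rw [map_sub, ← hwa, add_sub_cancel_left]
        exact ha
      · change ds_P E n₁ n₂ (v - w - w') ∈ B
        rw [map_sub, map_sub, hw0', sub_zero, ← hwb, add_sub_cancel_left]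
        exact hb

theorem dsum [TopologicalSpace Γ] [TopologicalSpace E] {n₁ n₂ : ℕ}
    (ρ₁ : Γ →* Matrix (Fin n₁) (Fin n₁) E) (ρ₂ : Γ →* Matrix (Fin n₂) (Fin n₂) E) :
    ∃ ρ : Γ →* Matrix (Fin (n₁ + n₂)) (Fin (n₁ + n₂)) E, (∀ g, chi ρ g = chi ρ₁ g + chi ρ₂ g) ∧
      (MSem ρ₁ → MSem ρ₂ → MSem ρ) ∧ (Continuous ρ₁ → Continuous ρ₂ → Continuous ρ) ∧
      ∀ g, ρ₁ g = 1 → ρ₂ g = 1 → ρ g = 1 := by
  refine ⟨ds_rho ρ₁ ρ₂, ds_chi ρ₁ ρ₂, ds_sem, fun h1 h2 => ?_, fun g h1 h2 => ?_⟩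
  · exact (h1.matrix_fromBlocks continuous_const continuous_const h2).matrix_submatrix _ _
  · rw [ds_apply, h1, h2, Matrix.fromBlocks_one, Matrix.submatrix_one_equiv]

private theorem ds_zero [TopologicalSpace Γ] [TopologicalSpace E] (K : Set Γ) :
    ∃ (n : ℕ) (ρ : Γ →* Matrix (Fin n) (Fin n) E), MSem ρ ∧ Continuous ρ ∧
      (∀ g, chi ρ g = 0) ∧ ∀ g ∈ K, ρ g = 1 := by
  refine ⟨0, 1, fun W _ => ⟨⊤, fun _ _ _ => Submodule.mem_top, ?_⟩, continuous_const, fun g => ?_,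
    fun g _ => rfl⟩
  · have hs : ∀ A B : Submodule E (Fin 0 → E), A = B := fun A B => Subsingleton.elim A B
    refine ⟨?_, ?_⟩
    · rw [disjoint_iff]
      exact hs _ _
    · rw [codisjoint_iff]
      exact hs _ _
  · unfold chi Matrix.trace
    exact Finset.sum_eq_zero fun i _ => i.elim0

private theorem ds_copies [TopologicalSpace Γ] [TopologicalSpace E] {K : Set Γ} {θ : Γ → E}
    (h : ∃ (n : ℕ) (ρ : Γ →* Matrix (Fin n) (Fin n) E),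
      MSem ρ ∧ chi ρ = θ ∧ Continuous ρ ∧ ∀ g ∈ K, ρ g = 1) (b : ℕ) :
    ∃ (n : ℕ) (ρ : Γ →* Matrix (Fin n) (Fin n) E), MSem ρ ∧ Continuous ρ ∧
      (∀ g, chi ρ g = (b : E) * θ g) ∧ ∀ g ∈ K, ρ g = 1 := by
  induction b with
  | zero =>
    obtain ⟨n, ρ, h1, h2, h3, h4⟩ := ds_zero (E := E) K
    exact ⟨n, ρ, h1, h2, fun g => by rw [h3, Nat.cast_zero, zero_mul], h4⟩
  | succ b ih =>
    obtain ⟨n, ρ, h1, h2, h3, h4⟩ := ih
    obtain ⟨m, σ, k1, k2, k3, k4⟩ := h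
    obtain ⟨τ, t1, t2, t3, t4⟩ := dsum ρ σ
    refine ⟨n + m, τ, t2 h1 k1, t3 h2 k3, fun g => ?_, fun g hg => t4 g (h4 g hg) (k4 g hg)⟩
    rw [t1, h3, k2, Nat.cast_add, Nat.cast_one]
    ring

theorem mk_rho [CharZero E] [TopologicalSpace Γ] [TopologicalSpace E] (K : Set Γ)
    (k : (Γ → E) →₀ ℕ) (h : ∀ θ ∈ k.support, ∃ (n : ℕ) (ρ : Γ →* Matrix (Fin n) (Fin n) E),
      MSem ρ ∧ chi ρ = θ ∧ Continuous ρ ∧ ∀ g ∈ K, ρ g = 1) :
    ∃ (n : ℕ) (ρ : Γ →* Matrix (Fin n) (Fin n) E), MSem ρ ∧ Continuous ρ ∧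
      (∀ g, chi ρ g = ∑ θ ∈ k.support, (k θ : E) * θ g) ∧ ∀ g ∈ K, ρ g = 1 := by
  have hsum : ∀ (l : (Γ → E) →₀ ℕ) (g : Γ), ∑ θ ∈ l.support, (l θ : E) * θ g =
      l.sum fun θ m => (m : E) * θ g := fun l g => rfl
  simp only [hsum]
  revert h
  refine Finsupp.induction_linear k ?_ ?_ ?_
  · intro _
    obtain ⟨n, ρ, h1, h2, h3, h4⟩ := ds_zero (E := E) K
    exact ⟨n, ρ, h1, h2, fun g => by rw [h3, Finsupp.sum_zero_index], h4⟩
  · intro f f' hf hf' h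
    have s1 : ∀ θ ∈ f.support, θ ∈ (f + f').support := by
      intro θ hθ
      rw [Finsupp.mem_support_iff] at hθ ⊢
      rw [Finsupp.add_apply]
      omega
    have s2 : ∀ θ ∈ f'.support, θ ∈ (f + f').support := by
      intro θ hθ
      rw [Finsupp.mem_support_iff] at hθ ⊢
      rw [Finsupp.add_apply]
      omega
    obtain ⟨n, ρ, h1, h2, h3, h4⟩ := hf fun θ hθ => h θ (s1 θ hθ)
    obtain ⟨m, σ, k1, k2, k3, k4⟩ := hf' fun θ hθ => h θ (s2 θ hθ)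
    obtain ⟨τ, t1, t2, t3, t4⟩ := dsum ρ σ
    refine ⟨n + m, τ, t2 h1 k1, t3 h2 k2, fun g => ?_, fun g hg => t4 g (h4 g hg) (k4 g hg)⟩
    rw [t1, h3, k3, Finsupp.sum_add_index' (fun θ => by rw [Nat.cast_zero, zero_mul])
      (fun θ a b => by rw [Nat.cast_add, add_mul])]
  · intro θ b h
    by_cases hb : b = 0
    · obtain ⟨n, ρ, h1, h2, h3, h4⟩ := ds_zero (E := E) K
      refine ⟨n, ρ, h1, h2, fun g => ?_, h4⟩
      rw [h3, Finsupp.sum_single_index (by rw [Nat.cast_zero, zero_mul]), hb, Nat.cast_zero,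
        zero_mul]
    · obtain ⟨n, ρ, h1, h2, h3, h4⟩ := ds_copies (h θ (by
        rw [Finsupp.mem_support_iff, Finsupp.single_eq_same]
        exact hb)) b
      refine ⟨n, ρ, h1, h2, fun g => ?_, h4⟩
      rw [h3, Finsupp.sum_single_index (by rw [Nat.cast_zero, zero_mul])]

end Pool.Agent.H89.IP
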