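import Pool.Agent.H89.IP.Dec
import Pool.Agent.H89.IP.DSum
import Pool.Agent.H89.IP.Clif

/-!
# IP.Ss : semisimplification

PROOF. `dec` and `mk_rho` with the discrete topologies on `Γ` and `E` (all maps are continuous), `K = {g | ρ g = 1}`, `MIrr.sem`. About 30 lines.
-/

set_option autoImplicit false

open Matrix

namespace Pool.Agent.H89.IP

variable {Γ E : Type*} [Group Γ] [Field E]

theorem semi [CharZero E] {n : ℕ} (ρ : Γ →* Matrix (Fin n) (Fin n) E) :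
    ∃ (n' : ℕ) (ρ' : Γ →* Matrix (Fin n') (Fin n') E), MSem ρ' ∧ (∀ g, chi ρ' g = chi ρ g) ∧
      ∀ g, ρ g = 1 → ρ' g = 1 := by
  letI : TopologicalSpace Γ := ⊥
  letI : TopologicalSpace E := ⊥
  haveI : DiscreteTopology Γ := ⟨rfl⟩
  haveI : DiscreteTopology E := ⟨rfl⟩
  haveI : IsTopologicalRing E := inferInstance
  obtain ⟨m, h1, h2, _⟩ := dec ρ
  obtain ⟨n', ρ', h4, _, h6, h7⟩ := mk_rho {g | ρ g = 1} m (fun θ hθ => by
    obtain ⟨n₁, ρ₁, g1, g2, g3, g4⟩ := h1 θ hθ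
    exact ⟨n₁, ρ₁, g1.sem, g2, g4 continuous_of_discreteTopology, fun g hg => g3 g hg⟩)
  exact ⟨n', ρ', h4, fun g => by rw [h6, h2], fun g hg => h7 g hg⟩

end Pool.Agent.H89.IP
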