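import Pool.Agent.H89.IP.Iso
import Pool.Agent.H89.IP.Ss

/-!
# IP.BN : a semisimple representation contains the semisimple representations which its character contains

PROOF. Induction on `n₁`, for all `R`, `ρ`, `ρ₂`. First replace `ρ₂` by a semisimple representation with the same character (`semi`). If `n₁ = 0` take empty matrices. Otherwise take a minimal nonzero invariant subspace of `ρ` and an invariant complement: matrices as in the
header of `Spl`, now with both off-diagonal blocks zero: `ρ ≅ σ ⊕ ρ''`, `σ` irreducible, `ρ''` semisimple of smaller size (`splits`). `itw_dim`: `finrank (Itw σ R) = finrank (Itw σ ρ) + finrank (Itw σ ρ₂) ≥ 1` (the inclusion of `σ` is a nonzero element of `Itw σ ρ`). So there is `T ≠ 0` in `Itw σ R`, injective (`itw_inj`), its range is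
invariant with an invariant complement, so `R ≅ σ ⊕ R''` with `R''` semisimple, `chi R'' = chi ρ'' + chi ρ₂`. Induction for `R''`, `ρ''`: `ρ''` is a summand of `R''`; combine. `bn_iso`: `ρ₂` of size `0`; `n = n₁` from `chi_one`, so `B` is a square matrix with `C * B = 1`, `Matrix.mul_eq_one_comm`. About 220 lines.
-/

set_option autoImplicit false

open Matrix

namespace Pool.Agent.H89.IP

variable {Γ E : Type*} [Group Γ] [Field E]

/-- a subrepresentation of a semisimple representation is semisimple -/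
private theorem BN_sub_sem {n a : ℕ} {R : Γ →* Matrix (Fin n) (Fin n) E}
    {ρ : Γ →* Matrix (Fin a) (Fin a) E} (hR : MSem R) (B : Matrix (Fin n) (Fin a) E)
    (hB : Function.Injective (fun x : Fin a → E => B *ᵥ x)) (h : ∀ g, R g * B = B * ρ g) :
    MSem ρ := by
  intro W hW
  obtain ⟨W', hW', hc⟩ := hR (W.map B.mulVecLin) (by
    rintro g _ ⟨w, hw, rfl⟩
    refine ⟨ρ g *ᵥ w, hW g w hw, ?_⟩
    rw [Matrix.mulVecLin_apply, Matrix.mulVecLin_apply, Matrix.mulVec_mulVec, Matrix.mulVec_mulVec,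
      h])
  refine ⟨W'.comap B.mulVecLin, ?_, ?_, ?_⟩
  · intro g x hx
    change B *ᵥ (ρ g *ᵥ x) ∈ W'
    rw [Matrix.mulVec_mulVec, ← h, ← Matrix.mulVec_mulVec]
    exact hW' g _ hx
  · rw [Submodule.disjoint_def]
    intro x hx hx'
    have h0 : B *ᵥ x = 0 := (Submodule.disjoint_def.1 hc.disjoint) _ ⟨x, hx, rfl⟩ hx'
    apply hB
    change B *ᵥ x = B *ᵥ 0
    rw [h0, Matrix.mulVec_zero]
  · rw [codisjoint_iff, eq_top_iff]
    rintro x -
    have hx : B *ᵥ x ∈ W.map B.mulVecLin ⊔ W' := by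
      rw [hc.sup_eq_top]
      exact Submodule.mem_top
    obtain ⟨_, ⟨w, hw, rfl⟩, w', hw', hs⟩ := Submodule.mem_sup.1 hx
    refine Submodule.mem_sup.2 ⟨w, hw, x - w, ?_, by abel⟩
    change B *ᵥ (x - w) ∈ W'
    rw [Matrix.mulVec_sub, ← hs, Matrix.mulVecLin_apply, add_sub_cancel_left]
    exact hw'

/-- an invariant subspace as a matrix representation -/
private theorem BN_sub {n : ℕ} (R : Γ →* Matrix (Fin n) (Fin n) E) (W : Submodule E (Fin n → E))
    (hW : ∀ g, ∀ x ∈ W, R g *ᵥ x ∈ W) :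
    ∃ (s : ℕ) (σ : Γ →* Matrix (Fin s) (Fin s) E) (T : Matrix (Fin n) (Fin s) E),
      Function.Injective (fun x : Fin s → E => T *ᵥ x) ∧ LinearMap.range T.mulVecLin = W ∧
        ∀ g, R g * T = T * σ g := by
  classical
  obtain ⟨W', hc⟩ := Submodule.exists_isCompl W
  let b := Module.finBasis E W
  let P : (Fin n → E) →ₗ[E] (Fin (Module.finrank E W) → E) :=
    b.equivFun.toLinearMap ∘ₗ W.projectionOnto W' hc
  let J : (Fin (Module.finrank E W) → E) →ₗ[E] (Fin n → E) :=
    W.subtype ∘ₗ b.equivFun.symm.toLinearMap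
  have e1 : P ∘ₗ J = LinearMap.id := by
    refine LinearMap.ext fun x => ?_
    simp only [P, J, LinearMap.comp_apply, LinearEquiv.coe_coe, Submodule.subtype_apply,
      Submodule.projectionOnto_apply_left, LinearEquiv.apply_symm_apply, LinearMap.id_apply]
  have e2 : ∀ w ∈ W, J (P w) = w := by
    intro w hw
    have : W.projectionOnto W' hc w = ⟨w, hw⟩ :=
      Submodule.projectionOnto_apply_left hc ⟨w, hw⟩
    simp only [P, J, LinearMap.comp_apply, LinearEquiv.coe_coe, Submodule.subtype_apply,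
      LinearEquiv.symm_apply_apply, this]
  have e5 : ∀ x, J x ∈ W := by
    intro x
    simp only [J, LinearMap.comp_apply, Submodule.subtype_apply]
    exact Subtype.coe_prop _
  have m1 : LinearMap.toMatrix' P * LinearMap.toMatrix' J = 1 := by
    rw [← LinearMap.toMatrix'_comp, e1, LinearMap.toMatrix'_id]
  have m2 : ∀ g, LinearMap.toMatrix' J * (LinearMap.toMatrix' P * (R g * LinearMap.toMatrix' J)) =
      R g * LinearMap.toMatrix' J := by
    intro g
    have : J ∘ₗ P ∘ₗ (Matrix.toLin' (R g)) ∘ₗ J = (Matrix.toLin' (R g)) ∘ₗ J := by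
      refine LinearMap.ext fun x => ?_
      simp only [LinearMap.comp_apply, Matrix.toLin'_apply]
      exact e2 _ (hW g _ (e5 x))
    have h := congrArg LinearMap.toMatrix' this
    rw [LinearMap.toMatrix'_comp, LinearMap.toMatrix'_comp, LinearMap.toMatrix'_comp,
      LinearMap.toMatrix'_toLin'] at h
    exact h
  have hJ : ∀ x, LinearMap.toMatrix' J *ᵥ x = J x := fun x => by
    rw [← Matrix.toLin'_apply, Matrix.toLin'_toMatrix']
  refine ⟨Module.finrank E W,
    { toFun := fun g => LinearMap.toMatrix' P * (R g * LinearMap.toMatrix' J)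
      map_one' := by rw [map_one, Matrix.one_mul, m1]
      map_mul' := fun g h => by
        calc LinearMap.toMatrix' P * (R (g * h) * LinearMap.toMatrix' J)
            = LinearMap.toMatrix' P * (R g * (R h * LinearMap.toMatrix' J)) := by
              rw [map_mul, Matrix.mul_assoc]
          _ = LinearMap.toMatrix' P * (R g * (LinearMap.toMatrix' J *
                (LinearMap.toMatrix' P * (R h * LinearMap.toMatrix' J)))) := by rw [m2 h]
          _ = _ := by simp only [Matrix.mul_assoc] }, LinearMap.toMatrix' J, ?_, ?_, ?_⟩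
  · intro x y hxy
    have hxy' : LinearMap.toMatrix' J *ᵥ x = LinearMap.toMatrix' J *ᵥ y := hxy
    have h := congrArg (fun z => LinearMap.toMatrix' P *ᵥ z) hxy'
    simp only [Matrix.mulVec_mulVec, m1, Matrix.one_mulVec] at h
    exact h
  · apply le_antisymm
    · rintro _ ⟨x, rfl⟩
      rw [Matrix.mulVecLin_apply, hJ]
      exact e5 x
    · intro w hw
      refine ⟨P w, ?_⟩
      rw [Matrix.mulVecLin_apply, hJ]
      exact e2 w hw
  · intro g
    exact (m2 g).symm

/-- splitting off a subrepresentation -/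
private theorem BN_split {n s : ℕ} {R : Γ →* Matrix (Fin n) (Fin n) E}
    {σ : Γ →* Matrix (Fin s) (Fin s) E} (hR : MSem R) (T : Matrix (Fin n) (Fin s) E)
    (hT : Function.Injective (fun x : Fin s → E => T *ᵥ x)) (h : ∀ g, R g * T = T * σ g) :
    ∃ (t : ℕ) (R₂ : Γ →* Matrix (Fin t) (Fin t) E) (B : Matrix (Fin n) (Fin t) E)
      (C₁ : Matrix (Fin s) (Fin n) E) (C₂ : Matrix (Fin t) (Fin n) E),
      MSem R₂ ∧ C₁ * T = 1 ∧ C₂ * B = 1 ∧ C₁ * B = 0 ∧ C₂ * T = 0 ∧ T * C₁ + B * C₂ = 1 ∧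
      (∀ g, R g * B = B * R₂ g) ∧ (∀ g, C₁ * R g = σ g * C₁) ∧ (∀ g, C₂ * R g = R₂ g * C₂) ∧
      ∀ g, chi R g = chi σ g + chi R₂ g := by
  classical
  obtain ⟨W', hW', hc⟩ := hR (LinearMap.range T.mulVecLin) (by
    rintro g _ ⟨w, rfl⟩
    refine ⟨σ g *ᵥ w, ?_⟩
    rw [Matrix.mulVecLin_apply, Matrix.mulVecLin_apply, Matrix.mulVec_mulVec, Matrix.mulVec_mulVec,
      h])
  obtain ⟨t, R₂, B, hB, hr, hRB⟩ := BN_sub R W' hW'
  let f : ((Fin s → E) × (Fin t → E)) →ₗ[E] (Fin n → E) := T.mulVecLin.coprod B.mulVecLin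
  have hf : ∀ x y, f (x, y) = T *ᵥ x + B *ᵥ y := fun x y => by
    simp only [f, LinearMap.coprod_apply, Matrix.mulVecLin_apply]
  have hinj : Function.Injective f := by
    rw [← LinearMap.ker_eq_bot, Submodule.eq_bot_iff]
    rintro ⟨x, y⟩ hxy
    have h0 : T *ᵥ x + B *ᵥ y = 0 := by
      rw [← hf]
      exact hxy
    have h1 : T *ᵥ x ∈ W' := by
      have : T *ᵥ x = B *ᵥ (-y) := by
        rw [Matrix.mulVec_neg]
        exact eq_neg_of_add_eq_zero_left h0
      rw [this, ← hr]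
      exact ⟨-y, rfl⟩
    have h2 : T *ᵥ x = 0 := (Submodule.disjoint_def.1 hc.disjoint) _ ⟨x, rfl⟩ h1
    have h3 : x = 0 := by
      apply hT
      change T *ᵥ x = T *ᵥ 0
      rw [h2, Matrix.mulVec_zero]
    have h4 : y = 0 := by
      apply hB
      change B *ᵥ y = B *ᵥ 0
      rw [h2, zero_add] at h0
      rw [h0, Matrix.mulVec_zero]
    rw [h3, h4]
    rfl
  have hsurj : Function.Surjective f := by
    intro v
    have hv : v ∈ LinearMap.range T.mulVecLin ⊔ W' := by
      rw [hc.sup_eq_top]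
      exact Submodule.mem_top
    obtain ⟨_, ⟨x, rfl⟩, w', hw', hs⟩ := Submodule.mem_sup.1 hv
    rw [← hr] at hw'
    obtain ⟨y, rfl⟩ := hw'
    exact ⟨(x, y), by rw [hf]; exact hs⟩
  let e := LinearEquiv.ofBijective f ⟨hinj, hsurj⟩
  have he : ∀ x y, e.symm (T *ᵥ x + B *ᵥ y) = (x, y) := fun x y => by
    rw [LinearEquiv.symm_apply_eq]
    exact (hf x y).symm
  let P₁ : (Fin n → E) →ₗ[E] (Fin s → E) := LinearMap.fst E _ _ ∘ₗ e.symm.toLinearMap
  let P₂ : (Fin n → E) →ₗ[E] (Fin t → E) := LinearMap.snd E _ _ ∘ₗ e.symm.toLinearMap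
  have hP1 : ∀ x y, P₁ (T *ᵥ x + B *ᵥ y) = x := fun x y => by
    simp only [P₁, LinearMap.comp_apply, LinearEquiv.coe_coe, he, LinearMap.fst_apply]
  have hP2 : ∀ x y, P₂ (T *ᵥ x + B *ᵥ y) = y := fun x y => by
    simp only [P₂, LinearMap.comp_apply, LinearEquiv.coe_coe, he, LinearMap.snd_apply]
  have q1 : ∀ v, LinearMap.toMatrix' P₁ *ᵥ v = P₁ v := fun v => by
    rw [← Matrix.toLin'_apply, Matrix.toLin'_toMatrix']
  have q2 : ∀ v, LinearMap.toMatrix' P₂ *ᵥ v = P₂ v := fun v => by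
    rw [← Matrix.toLin'_apply, Matrix.toLin'_toMatrix']
  have c1 : LinearMap.toMatrix' P₁ * T = 1 := by
    apply Matrix.toLin'.injective
    refine LinearMap.ext fun x => ?_
    rw [Matrix.toLin'_apply, Matrix.toLin'_apply, ← Matrix.mulVec_mulVec, q1, Matrix.one_mulVec]
    have := hP1 x 0
    rwa [Matrix.mulVec_zero, add_zero] at this
  have c2 : LinearMap.toMatrix' P₂ * B = 1 := by
    apply Matrix.toLin'.injective
    refine LinearMap.ext fun x => ?_
    rw [Matrix.toLin'_apply, Matrix.toLin'_apply, ← Matrix.mulVec_mulVec, q2, Matrix.one_mulVec]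
    have := hP2 0 x
    rwa [Matrix.mulVec_zero, zero_add] at this
  have c3 : LinearMap.toMatrix' P₁ * B = 0 := by
    apply Matrix.toLin'.injective
    refine LinearMap.ext fun x => ?_
    rw [Matrix.toLin'_apply, Matrix.toLin'_apply, ← Matrix.mulVec_mulVec, q1, Matrix.zero_mulVec]
    have := hP1 0 x
    rwa [Matrix.mulVec_zero, zero_add] at this
  have c4 : LinearMap.toMatrix' P₂ * T = 0 := by
    apply Matrix.toLin'.injective
    refine LinearMap.ext fun x => ?_
    rw [Matrix.toLin'_apply, Matrix.toLin'_apply, ← Matrix.mulVec_mulVec, q2, Matrix.zero_mulVec]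
    have := hP2 x 0
    rwa [Matrix.mulVec_zero, add_zero] at this
  have c5 : T * LinearMap.toMatrix' P₁ + B * LinearMap.toMatrix' P₂ = 1 := by
    apply Matrix.toLin'.injective
    refine LinearMap.ext fun v => ?_
    obtain ⟨⟨x, y⟩, hxy⟩ := hsurj v
    rw [hf] at hxy
    rw [Matrix.toLin'_apply, Matrix.toLin'_apply, Matrix.add_mulVec, ← Matrix.mulVec_mulVec,
      ← Matrix.mulVec_mulVec, q1, q2, ← hxy, hP1, hP2, Matrix.one_mulVec]
  have r1 : ∀ g, LinearMap.toMatrix' P₁ * R g = σ g * LinearMap.toMatrix' P₁ := by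
    intro g
    calc LinearMap.toMatrix' P₁ * R g
        = LinearMap.toMatrix' P₁ * R g *
            (T * LinearMap.toMatrix' P₁ + B * LinearMap.toMatrix' P₂) := by
          rw [c5, Matrix.mul_one]
      _ = LinearMap.toMatrix' P₁ * (R g * T) * LinearMap.toMatrix' P₁ +
            LinearMap.toMatrix' P₁ * (R g * B) * LinearMap.toMatrix' P₂ := by
          rw [Matrix.mul_add]
          simp only [Matrix.mul_assoc]
      _ = (LinearMap.toMatrix' P₁ * T) * σ g * LinearMap.toMatrix' P₁ +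
            (LinearMap.toMatrix' P₁ * B) * R₂ g * LinearMap.toMatrix' P₂ := by
          rw [h, hRB]
          simp only [Matrix.mul_assoc]
      _ = _ := by rw [c1, c3, Matrix.one_mul, Matrix.zero_mul, Matrix.zero_mul, add_zero]
  have r2 : ∀ g, LinearMap.toMatrix' P₂ * R g = R₂ g * LinearMap.toMatrix' P₂ := by
    intro g
    calc LinearMap.toMatrix' P₂ * R g
        = LinearMap.toMatrix' P₂ * R g *
            (T * LinearMap.toMatrix' P₁ + B * LinearMap.toMatrix' P₂) := by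
          rw [c5, Matrix.mul_one]
      _ = LinearMap.toMatrix' P₂ * (R g * T) * LinearMap.toMatrix' P₁ +
            LinearMap.toMatrix' P₂ * (R g * B) * LinearMap.toMatrix' P₂ := by
          rw [Matrix.mul_add]
          simp only [Matrix.mul_assoc]
      _ = (LinearMap.toMatrix' P₂ * T) * σ g * LinearMap.toMatrix' P₁ +
            (LinearMap.toMatrix' P₂ * B) * R₂ g * LinearMap.toMatrix' P₂ := by
          rw [h, hRB]
          simp only [Matrix.mul_assoc]
      _ = _ := by rw [c2, c4, Matrix.one_mul, Matrix.zero_mul, Matrix.zero_mul, zero_add]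
  refine ⟨t, R₂, B, LinearMap.toMatrix' P₁, LinearMap.toMatrix' P₂, BN_sub_sem hR B hB hRB, c1, c2,
    c3, c4, c5, hRB, r1, r2, ?_⟩
  intro g
  unfold chi
  calc (R g).trace = ((T * LinearMap.toMatrix' P₁ + B * LinearMap.toMatrix' P₂) * R g).trace := by
        rw [c5, Matrix.one_mul]
    _ = (T * (LinearMap.toMatrix' P₁ * R g)).trace +
          (B * (LinearMap.toMatrix' P₂ * R g)).trace := by
        rw [Matrix.add_mul, Matrix.trace_add, Matrix.mul_assoc, Matrix.mul_assoc]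
    _ = (σ g * (LinearMap.toMatrix' P₁ * T)).trace +
          (R₂ g * (LinearMap.toMatrix' P₂ * B)).trace := by
        rw [r1, r2, Matrix.trace_mul_comm T, Matrix.trace_mul_comm B, Matrix.mul_assoc,
          Matrix.mul_assoc]
    _ = _ := by rw [c1, c2, Matrix.mul_one, Matrix.mul_one]

/-- an irreducible subrepresentation -/
private theorem BN_irr {n : ℕ} (R : Γ →* Matrix (Fin n) (Fin n) E) (hn : n ≠ 0) :
    ∃ (s : ℕ) (σ : Γ →* Matrix (Fin s) (Fin s) E) (T : Matrix (Fin n) (Fin s) E),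
      MIrr σ ∧ Function.Injective (fun x : Fin s → E => T *ᵥ x) ∧ ∀ g, R g * T = T * σ g := by
  classical
  have hex : ∃ k : ℕ, ∃ W : Submodule E (Fin n → E), (∀ g, ∀ x ∈ W, R g *ᵥ x ∈ W) ∧ W ≠ ⊥ ∧
      Module.finrank E W = k := by
    refine ⟨_, ⊤, fun _ _ _ => Submodule.mem_top, ?_, rfl⟩
    have : Nontrivial (Fin n → E) := by
      have : Nonempty (Fin n) := ⟨⟨0, Nat.pos_of_ne_zero hn⟩⟩
      infer_instance
    exact top_ne_bot
  obtain ⟨W, hW, hb, hk⟩ := Nat.find_spec hex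
  obtain ⟨s, σ, T, hT, hr, h⟩ := BN_sub R W hW
  refine ⟨s, σ, T, ⟨?_, ?_⟩, hT, h⟩
  · rintro rfl
    apply hb
    rw [← hr, Submodule.eq_bot_iff]
    rintro _ ⟨x, rfl⟩
    rw [Subsingleton.elim x 0, map_zero]
  · intro U hU
    by_cases hU0 : U = ⊥
    · exact Or.inl hU0
    · right
      have h1 : U.map T.mulVecLin ≤ W := by
        rw [← hr]
        rintro _ ⟨x, -, rfl⟩
        exact ⟨x, rfl⟩
      have h2 : U.map T.mulVecLin ≠ ⊥ := by
        intro h0
        apply hU0
        rw [Submodule.eq_bot_iff] at h0 ⊢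
        intro x hx
        apply hT
        change T *ᵥ x = T *ᵥ 0
        rw [Matrix.mulVec_zero]
        exact h0 _ ⟨x, hx, rfl⟩
      have h3 : Nat.find hex ≤ Module.finrank E (U.map T.mulVecLin) := by
        apply Nat.find_min' hex
        refine ⟨_, ?_, h2, rfl⟩
        rintro g _ ⟨x, hx, rfl⟩
        refine ⟨σ g *ᵥ x, hU g x hx, ?_⟩
        rw [Matrix.mulVecLin_apply, Matrix.mulVecLin_apply, Matrix.mulVec_mulVec,
          Matrix.mulVec_mulVec, h]
      have h4 : U.map T.mulVecLin = W :=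
        Submodule.eq_of_le_of_finrank_le h1 (by rw [hk]; exact h3)
      rw [eq_top_iff]
      rintro x -
      have h5 : T *ᵥ x ∈ U.map T.mulVecLin := by
        rw [h4, ← hr]
        exact ⟨x, rfl⟩
      obtain ⟨y, hy, hxy⟩ := h5
      have h6 : y = x := hT hxy
      rw [← h6]
      exact hy

private theorem BN_main [CharZero E] [IsAlgClosed E] : ∀ (n₁ n n₂ : ℕ)
    (R : Γ →* Matrix (Fin n) (Fin n) E)
    (ρ : Γ →* Matrix (Fin n₁) (Fin n₁) E) (ρ₂ : Γ →* Matrix (Fin n₂) (Fin n₂) E), MSem R →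
    MSem ρ → MSem ρ₂ → (∀ g, chi R g = chi ρ g + chi ρ₂ g) →
    ∃ (B : Matrix (Fin n) (Fin n₁) E) (C : Matrix (Fin n₁) (Fin n) E), C * B = 1 ∧
      ∀ g, R g * B = B * ρ g ∧ C * R g = ρ g * C := by
  intro n₁
  induction n₁ using Nat.strong_induction_on with
  | _ n₁ ih =>
  intro n n₂ R ρ ρ₂ hR hρ hρ₂ h
  by_cases hn : n₁ = 0
  · subst hn
    exact ⟨0, 0, Subsingleton.elim _ _, fun g => ⟨by ext i j; exact j.elim0,
      by ext i j; exact i.elim0⟩⟩
  obtain ⟨s, σ, b₁, hσ, hb₁, hi⟩ := BN_irr ρ hn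
  obtain ⟨t, ρ', b₂, c₁, c₂, s1, s2, s3, s4, s5, s6, s7, s8, s9, s10⟩ := BN_split hρ b₁ hb₁ hi
  have hts : n₁ = s + t := by
    have := s10 1
    rw [chi_one, chi_one, chi_one] at this
    exact_mod_cast this
  have hs0 : s ≠ 0 := hσ.1
  have hd := itw_dim hR hρ hρ₂ hσ.sem h
  have hb0 : b₁ ≠ 0 := by
    rintro rfl
    rw [Matrix.mul_zero] at s2
    have := congrFun (congrFun s2 ⟨0, Nat.pos_of_ne_zero hs0⟩) ⟨0, Nat.pos_of_ne_zero hs0⟩
    rw [Matrix.zero_apply, Matrix.one_apply_eq] at this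
    exact zero_ne_one this
  have hpos : 0 < Module.finrank E (Itw σ ρ) := by
    have : Nontrivial (Itw σ ρ) := ⟨⟨⟨b₁, hi⟩, 0, fun h0 => hb0 (congrArg Subtype.val h0)⟩⟩
    exact Module.finrank_pos
  have hpos2 : 0 < Module.finrank E (Itw σ R) := by
    rw [hd]
    exact Nat.add_pos_left hpos _
  have : Nontrivial (Itw σ R) := Module.nontrivial_of_finrank_pos hpos2
  obtain ⟨⟨T, hT⟩, hT0⟩ := exists_ne (0 : Itw σ R)
  have hT0' : T ≠ 0 := fun h0 => hT0 (Subtype.ext h0)
  obtain ⟨u, R', B₂, C₁, C₂, t1, t2, t3, t4, t5, t6, t7, t8, t9, t10⟩ :=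
    BN_split hR T (itw_inj hσ hT hT0') hT
  obtain ⟨B', C', u1, u2⟩ := ih t (by omega) u n₂ R' ρ' ρ₂ t1 s1 hρ₂ (fun g => by
    have h1 := h g
    rw [t10, s10, add_assoc] at h1
    exact add_left_cancel h1)
  refine ⟨T * c₁ + B₂ * (B' * c₂), b₁ * C₁ + b₂ * (C' * C₂), ?_, fun g => ⟨?_, ?_⟩⟩
  · calc (b₁ * C₁ + b₂ * (C' * C₂)) * (T * c₁ + B₂ * (B' * c₂))
        = b₁ * ((C₁ * T) * c₁) + b₂ * (C' * ((C₂ * T) * c₁)) +
          (b₁ * ((C₁ * B₂) * (B' * c₂)) + b₂ * (C' * ((C₂ * B₂) * (B' * c₂)))) := by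
          rw [Matrix.mul_add, Matrix.add_mul, Matrix.add_mul]
          simp only [Matrix.mul_assoc]
      _ = b₁ * c₁ + b₂ * ((C' * B') * c₂) := by
          rw [t2, t3, t4, t5]
          simp only [Matrix.one_mul, Matrix.zero_mul, Matrix.mul_zero, add_zero, zero_add,
            Matrix.mul_assoc]
      _ = 1 := by rw [u1, Matrix.one_mul, s6]
  · calc R g * (T * c₁ + B₂ * (B' * c₂))
        = (R g * T) * c₁ + (R g * B₂) * (B' * c₂) := by
          rw [Matrix.mul_add]
          simp only [Matrix.mul_assoc]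
      _ = T * (σ g * c₁) + B₂ * ((R' g * B') * c₂) := by
          rw [hT g, t7]
          simp only [Matrix.mul_assoc]
      _ = T * (c₁ * ρ g) + B₂ * (B' * (c₂ * ρ g)) := by
          rw [← s8, (u2 g).1, s9]
          simp only [Matrix.mul_assoc]
      _ = _ := by
          rw [Matrix.add_mul]
          simp only [Matrix.mul_assoc]
  · calc (b₁ * C₁ + b₂ * (C' * C₂)) * R g
        = b₁ * (C₁ * R g) + b₂ * (C' * (C₂ * R g)) := by
          rw [Matrix.add_mul]
          simp only [Matrix.mul_assoc]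
      _ = (b₁ * σ g) * C₁ + b₂ * ((C' * R' g) * C₂) := by
          rw [t8, t9]
          simp only [Matrix.mul_assoc]
      _ = (ρ g * b₁) * C₁ + (ρ g * b₂) * (C' * C₂) := by
          rw [hi, (u2 g).2, s7]
          simp only [Matrix.mul_assoc]
      _ = _ := by
          rw [Matrix.mul_add]
          simp only [Matrix.mul_assoc]

theorem bn [CharZero E] [IsAlgClosed E] {n n₁ n₂ : ℕ} (R : Γ →* Matrix (Fin n) (Fin n) E)
    (ρ : Γ →* Matrix (Fin n₁) (Fin n₁) E) (ρ₂ : Γ →* Matrix (Fin n₂) (Fin n₂) E) (hR : MSem R)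
    (hρ : MSem ρ) (h : ∀ g, chi R g = chi ρ g + chi ρ₂ g) :
    ∃ (B : Matrix (Fin n) (Fin n₁) E) (C : Matrix (Fin n₁) (Fin n) E), C * B = 1 ∧
      ∀ g, R g * B = B * ρ g ∧ C * R g = ρ g * C := by
  obtain ⟨n', ρ', h1, h2, -⟩ := semi ρ₂
  exact BN_main n₁ n n' R ρ ρ' hR hρ h1 fun g => by rw [h2, h]

theorem bn_iso [CharZero E] [IsAlgClosed E] {n n₁ : ℕ} (R : Γ →* Matrix (Fin n) (Fin n) E)
    (ρ : Γ →* Matrix (Fin n₁) (Fin n₁) E) (hR : MSem R) (hρ : MSem ρ)
    (h : ∀ g, chi R g = chi ρ g) :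
    ∃ (B : Matrix (Fin n) (Fin n₁) E) (C : Matrix (Fin n₁) (Fin n) E), C * B = 1 ∧ B * C = 1 ∧
      ∀ g, R g * B = B * ρ g := by
  have hn : n = n₁ := by
    have := h 1
    rw [chi_one, chi_one] at this
    exact_mod_cast this
  subst hn
  obtain ⟨B, C, h1, h2⟩ := bn R ρ (1 : Γ →* Matrix (Fin 0) (Fin 0) E) hR hρ (fun g => by
    rw [h]
    unfold chi
    rw [Matrix.trace_fin_zero, add_zero])
  exact ⟨B, C, h1, mul_eq_one_comm.1 h1, fun g => (h2 g).1⟩


end Pool.Agent.H89.IP
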