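import Pool.Agent.H89.IP.Sys

/-!
# IP.BOp : openness, finite index, invariance of the exceptional sets

PROOF. `S.B C y` is the intersection of `P y` (open: `S.ψo y 1`, `S.ψ1`) and the finitely many open sets `S.ψo y χ`. A subgroup of finite index in a compact group: open subgroups have finite index (`Subgroup.quotient_finite_of_isOpen`, `Subgroup.finiteIndex_of_finite_quotient`). `V`: a finite infimum of open subgroups is open; the normal core of an open subgroup of finite
index is a finite intersection of conjugates (`Subgroup.normalCore_eq_iInf_conjAct` or: the kernel of the action on the finite quotient, `Subgroup.normalCore_eq_ker`; it has finite index and is closed, so open: `Subgroup.isOpen_of_isClosed_of_finiteIndex`, closed as an intersection of conjugates of closed subgroups). `bad_mul`: `V ≤ S.B C y`. `bad2_mul`: `S.ψg` and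
`ψ y χ v = 1` for `v ∈ V`, `χ ∈ C` (`V_le`). `ext1`: the closure of `U ∩ ⋂ D χ` contains `U` (`Dense.open_subset_closure_inter`), `{g | f g = 0}` is closed. `ext2`: `ext1` twice. About 130 lines.
-/

set_option autoImplicit false

namespace Pool.Agent.H89.IP

variable {H E X Y : Type*} [Group H] [TopologicalSpace H] [Field E] [TopologicalSpace E]
  [CommGroup X] [Fintype Y] (S : Sys H E X Y)

namespace Sys

theorem isOpen_P [IsTopologicalGroup H] (y : Y) : IsOpen (S.P y : Set H) := by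
  have h := S.ψo y 1
  have he : {g | g ∈ S.P y ∧ S.ψ y 1 g = 1} = (S.P y : Set H) := by
    ext g
    exact ⟨fun hg => hg.1, fun hg => ⟨hg, S.ψ1 y g hg⟩⟩
  rwa [he] at h

theorem isOpen_B [IsTopologicalGroup H] (C : Finset X) (y : Y) : IsOpen (S.B C y : Set H) := by
  have he : (S.B C y : Set H)
      = (S.P y : Set H) ∩ ⋂ χ ∈ C, {g | g ∈ S.P y ∧ S.ψ y χ g = 1} := by
    ext g
    simp only [Set.mem_inter_iff, Set.mem_iInter, Set.mem_ofPred_eq, SetLike.mem_coe, mem_B]
    exact ⟨fun hg => ⟨hg.1, fun χ hχ => ⟨hg.1, hg.2 χ hχ⟩⟩,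
      fun hg => ⟨hg.1, fun χ hχ => (hg.2 χ hχ).2⟩⟩
  rw [he]
  exact (S.isOpen_P y).inter (isOpen_biInter_finset fun χ _ => S.ψo y χ)

private theorem BOp_fin [IsTopologicalGroup H] [CompactSpace H] (K : Subgroup H)
    (hK : IsOpen (K : Set H)) : K.FiniteIndex := by
  have := Subgroup.quotient_finite_of_isOpen K hK
  exact Subgroup.finiteIndex_of_finite_quotient

private theorem BOp_closed [IsTopologicalGroup H] (K : Subgroup H)
    (hK : IsOpen (K : Set H)) : IsClosed (K.normalCore : Set H) := by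
  have he : (K.normalCore : Set H) = ⋂ b : H, (fun a : H => b * a * b⁻¹) ⁻¹' (K : Set H) := by
    ext a
    simp only [Set.mem_iInter, Set.mem_preimage, SetLike.mem_coe]
    exact Iff.rfl
  rw [he]
  exact isClosed_iInter fun b => (K.isClosed_of_isOpen hK).preimage (by fun_prop)

private theorem BOp_core [IsTopologicalGroup H] [CompactSpace H] (K : Subgroup H)
    (hK : IsOpen (K : Set H)) : IsOpen (K.normalCore : Set H) := by
  have := BOp_fin K hK
  exact Subgroup.isOpen_of_isClosed_of_finiteIndex _ (BOp_closed K hK)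

theorem fin_B [IsTopologicalGroup H] [CompactSpace H] (C : Finset X) (y : Y) :
    (S.B C y).FiniteIndex :=
  BOp_fin _ (S.isOpen_B C y)

theorem isOpen_V [IsTopologicalGroup H] [CompactSpace H] (C : Finset X) :
    IsOpen (S.V C : Set H) := by
  apply BOp_core
  rw [Subgroup.coe_iInf]
  exact isOpen_iInter_of_finite fun y => S.isOpen_B C y

theorem fin_V [IsTopologicalGroup H] [CompactSpace H] (C : Finset X) : (S.V C).FiniteIndex :=
  BOp_fin _ (S.isOpen_V C)

theorem bad_mul {C : Finset X} {v : H} (hv : v ∈ S.V C) (g : H) :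
    g * v ∈ S.Bad C ↔ g ∈ S.Bad C :=
  exists_congr fun y => (S.B C y).mul_mem_cancel_right (S.V_le C y hv)

private theorem BOp_mul {C : Finset X} {v : H} (hv : v ∈ S.V C) (g : H) (y : Y) {χ : X}
    (hχ : χ ∈ C) (hg : g ∈ S.P y) : S.ψ y χ (g * v) = S.ψ y χ g := by
  have h := S.V_le C y hv
  rw [S.ψg y χ g hg v h.1, h.2 χ hχ, mul_one]

theorem bad2_mul {C : Finset X} {v v' : H} (hv : v ∈ S.V C) (hv' : v' ∈ S.V C) (g g' : H) :
    (g * v, g' * v') ∈ S.Bad2 C ↔ (g, g') ∈ S.Bad2 C := by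
  refine or_congr (S.bad_mul hv g) (or_congr (S.bad_mul hv' g') ?_)
  refine exists_congr fun y => exists_congr fun z => ?_
  have h1 : g * v ∈ S.P y ↔ g ∈ S.P y := (S.P y).mul_mem_cancel_right (S.V_le C y hv).1
  have h2 : g' * v' ∈ S.P z ↔ g' ∈ S.P z := (S.P z).mul_mem_cancel_right (S.V_le C z hv').1
  constructor
  · rintro ⟨ha, hb, hc⟩
    refine ⟨h1.1 ha, h2.1 hb, fun χ hχ => ?_⟩
    have h3 := hc χ hχ
    dsimp only at h3
    rwa [BOp_mul S hv g y hχ (h1.1 ha), BOp_mul S hv' g' z hχ (h2.1 hb)] at h3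
  · rintro ⟨ha, hb, hc⟩
    refine ⟨h1.2 ha, h2.2 hb, fun χ hχ => ?_⟩
    dsimp only
    rw [BOp_mul S hv g y hχ ha, BOp_mul S hv' g' z hχ hb]
    exact hc χ hχ

theorem bad_anti {C C' : Finset X} (h : C ⊆ C') : S.Bad C' ⊆ S.Bad C := by
  rintro g ⟨y, hy⟩
  exact ⟨y, S.B_anti h y hy⟩

theorem ext1 [T2Space E] (F : Finset X) {f : H → E} (cf : Continuous f) {U : Set H}
    (hU : IsOpen U) (h : ∀ g ∈ U, (∀ χ ∈ F, g ∈ S.D χ) → f g = 0) : ∀ g ∈ U, f g = 0 := by
  intro g hg
  have h1 : g ∈ closure (U ∩ ⋂ χ ∈ F, S.D χ) := (S.den F).open_subset_closure_inter hU hg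
  have h2 : IsClosed {g | f g = 0} := isClosed_singleton.preimage cf
  have h3 : U ∩ ⋂ χ ∈ F, S.D χ ⊆ {g | f g = 0} := by
    rintro x ⟨hx, hx'⟩
    rw [Set.mem_iInter₂] at hx'
    exact h x hx hx'
  exact closure_minimal h3 h2 h1

theorem ext2 [T2Space E] (F : Finset X) {f : H → H → E} (cf : ∀ g', Continuous fun g => f g g')
    (cf' : ∀ g, Continuous (f g)) {U U' : Set H} (hU : IsOpen U) (hU' : IsOpen U')
    (h : ∀ g ∈ U, ∀ g' ∈ U', (∀ χ ∈ F, g ∈ S.D χ) → (∀ χ ∈ F, g' ∈ S.D χ) → f g g' = 0) :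
    ∀ g ∈ U, ∀ g' ∈ U', f g g' = 0 := by
  intro g hg
  refine S.ext1 F (cf' g) hU' fun g' hg' hF' => ?_
  exact S.ext1 F (f := fun g => f g g') (cf g') hU (fun x hx hF => h x hx g' hg' hF hF') g hg


end Sys

end Pool.Agent.H89.IP
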