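import Pool.Agent.H89.IP.Defs

/-!
# IP.BdA : calculus for combinations of roots of unity

PROOF. `zero`: `r = 0`. `mono`: clear. `add`, `mul`: concatenate / multiply the families (`Fin r × Fin r' ≃ Fin (r * r')`, `finSumFinEquiv`,
`finProdFinEquiv`; it may be convenient to prove first that any finite index type is allowed); casts `Rat.cast_add`, `Rat.cast_mul` (char 0). `smul`:
multiply the coefficients. `sum`: induction. `rat`: the `z i` are integral over `ℚ`, so lie in the subfield `algebraicClosure ℚ E` (or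
`IntermediateField.adjoin ℚ (Set.range z)`), which is algebraic over `ℚ` and has a `ℚ`-embedding `φ` into `ℂ` (`IsAlgClosed.lift`); `φ (z i)` has
absolute value one (`Complex.norm_eq_one_of_pow_eq_one`), so `|t| = ‖∑ c i φ (z i)‖ ≤ ∑ |c i| ≤ b`. About 110 lines.
-/

set_option autoImplicit false

open Matrix

namespace Pool.Agent.H89.IP

variable {Γ E : Type*} [Group Γ] [Field E]

variable [CharZero E] {x y : E} {b b' : ℝ}

omit [CharZero E] in
private theorem bda_fin {ι : Type*} [Fintype ι] (c : ι → ℚ) (z : ι → E)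
    (hz : ∀ i, ∃ n : ℕ, 0 < n ∧ z i ^ n = 1) (hx : x = ∑ i, (c i : E) * z i)
    (hb : ∑ i, |(c i : ℝ)| ≤ b) : Bd x b := by
  classical
  refine ⟨Fintype.card ι, fun i => c ((Fintype.equivFin ι).symm i),
    fun i => z ((Fintype.equivFin ι).symm i), fun i => hz _, ?_, ?_⟩
  · rw [hx]
    exact ((Fintype.equivFin ι).symm.sum_comp fun i => (c i : E) * z i).symm
  · rw [(Fintype.equivFin ι).symm.sum_comp fun i => |(c i : ℝ)|]
    exact hb

theorem Bd.zero (hb : 0 ≤ b) : Bd (0 : E) b :=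
  ⟨0, fun i => i.elim0, fun i => i.elim0, fun i => i.elim0, by simp, by simpa using hb⟩

theorem Bd.nonneg (h : Bd x b) : 0 ≤ b := by
  obtain ⟨r, c, z, _, _, h3⟩ := h
  exact (Finset.sum_nonneg fun i _ => abs_nonneg _).trans h3

theorem Bd.mono (h : Bd x b) (hb : b ≤ b') : Bd x b' := by
  obtain ⟨r, c, z, h1, h2, h3⟩ := h
  exact ⟨r, c, z, h1, h2, h3.trans hb⟩

theorem Bd.add (h : Bd x b) (h' : Bd y b') : Bd (x + y) (b + b') := by
  obtain ⟨r, c, z, h1, h2, h3⟩ := h
  obtain ⟨r', c', z', h1', h2', h3'⟩ := h'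
  refine bda_fin (ι := Fin r ⊕ Fin r') (Sum.elim c c') (Sum.elim z z') ?_ ?_ ?_
  · rintro (i | i)
    · exact h1 i
    · exact h1' i
  · rw [Fintype.sum_sum_type, h2, h2']
    rfl
  · rw [Fintype.sum_sum_type]
    exact add_le_add h3 h3'

theorem Bd.mul (h : Bd x b) (h' : Bd y b') : Bd (x * y) (b * b') := by
  have hb : 0 ≤ b := h.nonneg
  obtain ⟨r, c, z, h1, h2, h3⟩ := h
  obtain ⟨r', c', z', h1', h2', h3'⟩ := h'
  refine bda_fin (ι := Fin r × Fin r') (fun i => c i.1 * c' i.2) (fun i => z i.1 * z' i.2) ?_ ?_ ?_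
  · rintro ⟨i, j⟩
    obtain ⟨n, hn, hz⟩ := h1 i
    obtain ⟨m, hm, hw⟩ := h1' j
    refine ⟨n * m, Nat.mul_pos hn hm, ?_⟩
    show (z i * z' j) ^ (n * m) = 1
    rw [mul_pow, pow_mul, hz, one_pow, mul_comm n m, pow_mul, hw, one_pow, one_mul]
  · rw [Fintype.sum_prod_type, h2, h2', Finset.sum_mul_sum]
    refine Finset.sum_congr rfl fun i _ => Finset.sum_congr rfl fun j _ => ?_
    rw [Rat.cast_mul]
    ring
  · rw [Fintype.sum_prod_type]
    have h4 : ∑ i : Fin r, ∑ j : Fin r', |((c i * c' j : ℚ) : ℝ)| =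
        (∑ i, |(c i : ℝ)|) * ∑ j, |(c' j : ℝ)| := by
      rw [Finset.sum_mul_sum]
      refine Finset.sum_congr rfl fun i _ => Finset.sum_congr rfl fun j _ => ?_
      rw [Rat.cast_mul, abs_mul]
    rw [h4]
    exact mul_le_mul h3 h3' (Finset.sum_nonneg fun i _ => abs_nonneg _) hb

theorem Bd.smul (c : ℚ) (h : Bd x b) : Bd ((c : E) * x) (|(c : ℝ)| * b) := by
  obtain ⟨r, d, z, h1, h2, h3⟩ := h
  refine ⟨r, fun i => c * d i, z, h1, ?_, ?_⟩
  · rw [h2, Finset.mul_sum]
    refine Finset.sum_congr rfl fun i _ => ?_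
    rw [Rat.cast_mul]
    ring
  · have h4 : ∑ i : Fin r, |((c * d i : ℚ) : ℝ)| = |(c : ℝ)| * ∑ i, |(d i : ℝ)| := by
      rw [Finset.mul_sum]
      refine Finset.sum_congr rfl fun i _ => ?_
      rw [Rat.cast_mul, abs_mul]
    rw [h4]
    exact mul_le_mul_of_nonneg_left h3 (abs_nonneg _)

theorem Bd.root {n : ℕ} (hn : 0 < n) (h : x ^ n = 1) : Bd x 1 :=
  ⟨1, fun _ => 1, fun _ => x, fun _ => ⟨n, hn, h⟩, by simp, by simp⟩

theorem Bd.sum {ι : Type*} (s : Finset ι) (f : ι → E) (β : ι → ℝ) (h : ∀ i ∈ s, Bd (f i) (β i)) :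
    Bd (∑ i ∈ s, f i) (∑ i ∈ s, β i) := by
  classical
  induction s using Finset.induction_on with
  | empty =>
    rw [Finset.sum_empty, Finset.sum_empty]
    exact Bd.zero le_rfl
  | insert a s ha ih =>
    rw [Finset.sum_insert ha, Finset.sum_insert ha]
    exact (h a (Finset.mem_insert_self _ _)).add
      (ih fun i hi => h i (Finset.mem_insert_of_mem hi))

theorem Bd.rat (t : ℚ) (h : Bd (t : E) b) : |(t : ℝ)| ≤ b := by
  obtain ⟨r, c, z, h1, h2, h3⟩ := h
  refine le_trans ?_ h3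
  have hint : ∀ x ∈ Set.range z, IsIntegral ℚ x := by
    rintro _ ⟨i, rfl⟩
    obtain ⟨n, hn, hz⟩ := h1 i
    refine IsIntegral.of_pow hn ?_
    rw [hz]
    exact isIntegral_one
  haveI halg : Algebra.IsAlgebraic ℚ (IntermediateField.adjoin ℚ (Set.range z)) :=
    IntermediateField.isAlgebraic_adjoin hint
  let φ : IntermediateField.adjoin ℚ (Set.range z) →ₐ[ℚ] ℂ := IsAlgClosed.lift
  let w : Fin r → IntermediateField.adjoin ℚ (Set.range z) := fun i =>
    ⟨z i, IntermediateField.subset_adjoin ℚ _ ⟨i, rfl⟩⟩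
  have hw : ∀ i, ‖φ (w i)‖ = 1 := by
    intro i
    obtain ⟨n, hn, hz⟩ := h1 i
    refine Complex.norm_eq_one_of_pow_eq_one (n := n) ?_ hn.ne'
    rw [← map_pow]
    have h4 : w i ^ n = 1 := Subtype.ext hz
    rw [h4, map_one]
  have h5 : (t : IntermediateField.adjoin ℚ (Set.range z)) = ∑ i, (c i :
      IntermediateField.adjoin ℚ (Set.range z)) * w i := by
    apply Subtype.ext
    push_cast
    exact h2
  have h6 := congrArg φ h5
  rw [map_sum, map_ratCast] at h6
  simp only [map_mul, map_ratCast] at h6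
  have h7 : |(t : ℝ)| = ‖(t : ℂ)‖ := by
    rw [← Complex.ofReal_ratCast, Complex.norm_real, Real.norm_eq_abs]
  rw [h7, h6]
  refine (norm_sum_le _ _).trans (Finset.sum_le_sum fun i _ => ?_)
  rw [norm_mul, hw i, mul_one, ← Complex.ofReal_ratCast, Complex.norm_real, Real.norm_eq_abs]

end Pool.Agent.H89.IP
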