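import Pool.Agent.H89.IP.BdA

/-!
# IP.BdT : the trace of an endomorphism with T ^ (r + 1) = T

PROOF. With a basis of `M` let `A` be the matrix of `T` (`LinearMap.toMatrix`, `LinearMap.trace_eq_matrix_trace`); `A.trace = A.charpoly.roots.sum`
(`Matrix.trace_eq_sum_roots_charpoly`), a multiset with at most `finrank` elements (`Polynomial.card_roots'`, `Matrix.charpoly_natDegree_eq_dim`). Every root `z` is an
eigenvalue: `T v = z v`, `v ≠ 0` (`Module.End.hasEigenvalue_iff_isRoot_charpoly` or via the minimal polynomial), so `z ^ (r + 1) = z`, so `z = 0` or `z ^ r = 1`. So every root is `Bd z 1`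
(`Bd.zero`, `Bd.root`), sum over the multiset (induction with `Bd.add`). About 60 lines.
-/

set_option autoImplicit false

open Matrix

namespace Pool.Agent.H89.IP

variable {Γ E : Type*} [Group Γ] [Field E]

theorem bd_trace [CharZero E] [IsAlgClosed E] {M : Type*} [AddCommGroup M] [Module E M]
    [FiniteDimensional E M] (T : M →ₗ[E] M) (r : ℕ) (hr : 0 < r) (h : T ^ (r + 1) = T) :
    Bd (LinearMap.trace E M T) (Module.finrank E M) := by
  have key : ∀ s : Multiset E, (∀ z ∈ s, Bd z 1) → Bd s.sum ((Multiset.card s : ℕ) : ℝ) := by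
    intro s
    induction s using Multiset.induction_on with
    | empty =>
      intro _
      rw [Multiset.sum_zero, Multiset.card_zero, Nat.cast_zero]
      exact Bd.zero le_rfl
    | cons a s ih =>
      intro h1
      rw [Multiset.sum_cons, Multiset.card_cons, Nat.cast_add, Nat.cast_one, add_comm a]
      exact (ih fun z hz => h1 z (Multiset.mem_cons_of_mem hz)).add
        (h1 a (Multiset.mem_cons_self a s))
  have hroot : ∀ z ∈ T.charpoly.roots, Bd z 1 := by
    intro z hz
    have hz' : T.charpoly.IsRoot z := Polynomial.isRoot_of_mem_roots hz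
    have he : Module.End.HasEigenvalue T z := by
      rw [Module.End.hasEigenvalue_iff_mem_spectrum]
      exact (Module.End.mem_spectrum_iff_isRoot_charpoly T z).2 hz'
    obtain ⟨v, hv⟩ := he.exists_hasEigenvector
    have h1 : T v = z • v := hv.apply_eq_smul
    have h2 : (T ^ (r + 1)) v = z ^ (r + 1) • v := hv.pow_apply (r + 1)
    rw [h, h1] at h2
    have h3 : z = z ^ (r + 1) := smul_left_injective E hv.2 h2
    by_cases hz0 : z = 0
    · rw [hz0]
      exact Bd.zero zero_le_one
    · refine Bd.root hr ?_
      have h4 : z ^ r * z = 1 * z := by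
        rw [one_mul, ← pow_succ, ← h3]
      exact mul_right_cancel₀ hz0 h4
  rw [Module.End.trace_eq_sum_roots_charpoly_of_splits (IsAlgClosed.splits T.charpoly)]
  refine (key _ hroot).mono ?_
  have h5 : Multiset.card T.charpoly.roots ≤ Module.finrank E M := by
    rw [← LinearMap.charpoly_natDegree T]
    exact Polynomial.card_roots' _
  exact_mod_cast h5


end Pool.Agent.H89.IP
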