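import Pool.Agent.H89.IP.Defs

/-!
# IP.Img : the image of the group algebra is semisimple

`lam n ρ V : E[V] → ∏ M_{n i}(E)`.
PROOF. `A = (lam n ρ V).range` is finite dimensional over `E`, so Artinian. Let `M i = Fin (n i) → E` with `A` acting through the `i`-th component. The `A`-submodules of `M i` are the `V`-invariant subspaces (`A` is spanned by the images of `v ∈ V`), so `M i` is a semisimple `A`-module by `h i`
(`isSemisimpleModule_iff`: complemented lattice). `IsSemisimpleModule.jacobson_le_annihilator`: an element `x` of `Ring.jacobson A` acts as `0` on all `M i`, so `x = 0` (a matrix with `x *ᵥ m = 0` for all `m` is `0`). `IsArtinianRing.isSemisimpleRing_iff_jacobson`. One can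
take the module `∀ i, Fin (n i) → E` instead of the `M i` (a finite product of semisimple modules is semisimple). About 100 lines.
-/

set_option autoImplicit false

open Matrix

namespace Pool.Agent.H89.IP

variable {Γ E : Type*} [Group Γ] [Field E]

/-- the action of the group algebra of `V` on all representations -/
noncomputable def lam {I : Type*} (n : I → ℕ) (ρ : ∀ i, Γ →* Matrix (Fin (n i)) (Fin (n i)) E)
    (V : Subgroup Γ) : MonoidAlgebra E V →ₐ[E] (∀ i, Matrix (Fin (n i)) (Fin (n i)) E) :=
  MonoidAlgebra.lift E _ V ((MonoidHom.pi ρ).comp V.subtype)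

theorem lam_single {I : Type*} (n : I → ℕ) (ρ : ∀ i, Γ →* Matrix (Fin (n i)) (Fin (n i)) E)
    (V : Subgroup Γ) (v : V) (c : E) (i : I) :
    lam n ρ V (MonoidAlgebra.single v c) i = c • ρ i v := by
  rw [lam, MonoidAlgebra.lift_single]
  rfl

theorem img_ss {I : Type*} [Finite I] (n : I → ℕ)
    (ρ : ∀ i, Γ →* Matrix (Fin (n i)) (Fin (n i)) E) (V : Subgroup Γ)
    (h : ∀ i, MSem ((ρ i).comp V.subtype)) : IsSemisimpleRing (lam n ρ V).range := by
  classical
  have := Fintype.ofFinite I
  set A := (lam n ρ V).range with hA
  have hfin : FiniteDimensional E A := inferInstance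
  have hart : IsArtinianRing A := IsArtinianRing.of_finite E A
  rw [IsArtinianRing.isSemisimpleRing_iff_jacobson, eq_bot_iff]
  intro x hx
  have key : ∀ i, (x : ∀ i, Matrix (Fin (n i)) (Fin (n i)) E) i = 0 := by
    intro i
    let f : A →+* Module.End E (Fin (n i) → E) :=
      (Matrix.toLinAlgEquiv' (R := E) (n := Fin (n i))).toRingEquiv.toRingHom.comp
        ((Pi.evalRingHom (fun i => Matrix (Fin (n i)) (Fin (n i)) E) i).comp A.val.toRingHom)
    let _ : Module A (Fin (n i) → E) := Module.compHom (Fin (n i) → E) f
    have hsm : ∀ (a : A) (v : Fin (n i) → E),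
        a • v = ((a : ∀ i, Matrix (Fin (n i)) (Fin (n i)) E) i) *ᵥ v := fun a v => rfl
    have hss : IsSemisimpleModule A (Fin (n i) → E) := by
      rw [isSemisimpleModule_iff]
      refine ⟨fun W => ?_⟩
      let W0 : Submodule E (Fin (n i) → E) :=
        { carrier := {v | v ∈ W}
          add_mem' := fun ha hb => W.add_mem ha hb
          zero_mem' := W.zero_mem
          smul_mem' := by
            intro c v hv
            have h1 := W.smul_mem (algebraMap E A c) hv
            rw [hsm] at h1
            have h2 : ((algebraMap E A c : A) : ∀ i, Matrix (Fin (n i)) (Fin (n i)) E) i *ᵥ v =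
                c • v := by
              have h3 : ((algebraMap E A c : A) : ∀ i, Matrix (Fin (n i)) (Fin (n i)) E) i =
                  algebraMap E (Matrix (Fin (n i)) (Fin (n i)) E) c := rfl
              rw [h3, Algebra.algebraMap_eq_smul_one, Matrix.smul_mulVec, Matrix.one_mulVec]
            rw [h2] at h1
            exact h1 }
      have hW0 : ∀ g, ∀ v ∈ W0, ((ρ i).comp V.subtype) g *ᵥ v ∈ W0 := by
        intro g v hv
        have h1 := W.smul_mem (⟨lam n ρ V (MonoidAlgebra.single g 1), ⟨_, rfl⟩⟩ : A) hv
        rw [hsm] at h1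
        change lam n ρ V (MonoidAlgebra.single g 1) i *ᵥ v ∈ W at h1
        rw [lam_single, one_smul] at h1
        exact h1
      obtain ⟨W1, hW1, hc⟩ := h i W0 hW0
      have hinv : ∀ (z : MonoidAlgebra E V), ∀ v ∈ W1, lam n ρ V z i *ᵥ v ∈ W1 := by
        intro z v hv
        induction z using MonoidAlgebra.induction_linear with
        | zero =>
          rw [map_zero]
          change (0 : Matrix (Fin (n i)) (Fin (n i)) E) *ᵥ v ∈ W1
          rw [Matrix.zero_mulVec]
          exact W1.zero_mem
        | add a b ha hb =>
          rw [map_add]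
          change (lam n ρ V a i + lam n ρ V b i) *ᵥ v ∈ W1
          rw [Matrix.add_mulVec]
          exact W1.add_mem ha hb
        | single g c =>
          rw [lam_single, Matrix.smul_mulVec]
          exact W1.smul_mem c (hW1 g v hv)
      let W' : Submodule A (Fin (n i) → E) :=
        { carrier := {v | v ∈ W1}
          add_mem' := fun ha hb => W1.add_mem ha hb
          zero_mem' := W1.zero_mem
          smul_mem' := by
            rintro ⟨_, ⟨z, rfl⟩⟩ v hv
            exact hinv z v hv }
      refine ⟨W', ?_, ?_⟩
      · rw [Submodule.disjoint_def]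
        intro v h1 h2
        exact (Submodule.disjoint_def.1 hc.disjoint) v h1 h2
      · rw [codisjoint_iff, eq_top_iff]
        intro v _
        have h1 : v ∈ W0 ⊔ W1 := by
          rw [hc.sup_eq_top]
          trivial
        obtain ⟨a, ha, b, hb, hab⟩ := Submodule.mem_sup.1 h1
        rw [Submodule.mem_sup]
        exact ⟨a, ha, b, hb, hab⟩
    have h1 := IsSemisimpleModule.jacobson_le_annihilator A (Fin (n i) → E) hx
    rw [Module.mem_annihilator] at h1
    ext a b
    have h2 := h1 (Pi.single b 1)
    rw [hsm, Matrix.mulVec_single_one] at h2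
    have h3 := congrFun h2 a
    exact h3
  rw [Ideal.mem_bot]
  apply Subtype.ext
  funext i
  exact key i


end Pool.Agent.H89.IP
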