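import Pool.Agent.H89.IP.SepId
import Pool.Agent.H89.IP.Img

/-!
# IP.Cas : the Casimir families

PROOF. `A = (lam n ρ V).range` is semisimple (`img_ss`) and finite dimensional, `sepid` gives `U a, W a ∈ A`. Write `U a = lam (x_a)`, `W a = lam (y_a)`, `x_a`, `y_a` finitely supported functions on `V`; the family is indexed by the triples `(a, v, v')`, `v ∈ supp x_a`, `v' ∈ supp y_a`, with coefficient `x_a v * y_a v'`
(a finite type, equivalent to some `Fin r`). Then for all `i, j` and all `φ`: `∑ k • (ρ j (v u) φ ρ i w) = ∑_a (v U_a)_j φ (W_a)_i`, which is the value at `∑_a (v U_a) ⊗ W_a` of the linear map `A ⊗ A → Matrix`, `x ⊗ y ↦ x_j φ y_i` (`TensorProduct.lift`). `one`: `∑ U_a W_a = 1`. About 100 lines.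
-/

set_option autoImplicit false

open Matrix TensorProduct

namespace Pool.Agent.H89.IP

variable {Γ E : Type*} [Group Γ] [Field E]

private theorem cas_rep.{v} {V : Type*} {E : Type v} [Field E] {m : ℕ} (x y : Fin m → (V →₀ E)) :
    ∃ (r : ℕ) (k : Fin r → E) (u w : Fin r → V),
      ∀ (M : Type v) [AddCommGroup M] [Module E M] (F : V → V → M),
        ∑ a, k a • F (u a) (w a) =
          ∑ b, (x b).sum fun v s => (y b).sum fun v' t => (s * t) • F v v' := by
  classical
  obtain ⟨c, hc⟩ : ∃ c : (V × V) →₀ E, c = ∑ b, (x b).sum fun v s => (y b).sum fun v' t =>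
      Finsupp.single (v, v') (s * t) := ⟨_, rfl⟩
  refine ⟨c.support.card, fun a => c (c.support.equivFin.symm a : V × V),
    fun a => (c.support.equivFin.symm a : V × V).1, fun a => (c.support.equivFin.symm a : V × V).2, ?_⟩
  intro M _ _ F
  have h1 : ∑ a : Fin c.support.card, c (c.support.equivFin.symm a : V × V) •
      F (c.support.equivFin.symm a : V × V).1 (c.support.equivFin.symm a : V × V).2 =
      Finsupp.linearCombination E (fun p : V × V => F p.1 p.2) c := by
    rw [Finsupp.linearCombination_apply, Finsupp.sum,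
      Equiv.sum_comp c.support.equivFin.symm (fun p : c.support => c (p : V × V) •
        F (p : V × V).1 (p : V × V).2)]
    exact Finset.sum_coe_sort c.support (fun p : V × V => c p • F p.1 p.2)
  rw [h1, hc, map_sum]
  refine Finset.sum_congr rfl fun b _ => ?_
  rw [map_finsuppSum]
  refine Finsupp.sum_congr fun v _ => ?_
  rw [map_finsuppSum]
  refine Finsupp.sum_congr fun v' _ => ?_
  rw [Finsupp.linearCombination_single]

private theorem cas_lam {I : Type*} (n : I → ℕ)
    (ρ : ∀ i, Γ →* Matrix (Fin (n i)) (Fin (n i)) E) (V : Subgroup Γ) (x : MonoidAlgebra E V) (i : I) :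
    lam n ρ V x i = x.coeff.sum fun v s => s • ρ i (v : Γ) := by
  rw [lam, MonoidAlgebra.lift_apply, Finsupp.sum, Finsupp.sum, Finset.sum_apply]
  rfl

private theorem cas_two {I : Type*} (n : I → ℕ)
    (ρ : ∀ i, Γ →* Matrix (Fin (n i)) (Fin (n i)) E) (V : Subgroup Γ) (x y : MonoidAlgebra E V)
    {p q : ℕ} (i j : I) (P : Matrix (Fin p) (Fin (n j)) E) (φ : Matrix (Fin (n j)) (Fin (n i)) E)
    (Q : Matrix (Fin (n i)) (Fin q) E) :
    (x.coeff.sum fun v s => y.coeff.sum fun v' t => (s * t) •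
      (P * ρ j (v : Γ) * φ * (ρ i (v' : Γ) * Q))) =
      P * lam n ρ V x j * φ * (lam n ρ V y i * Q) := by
  rw [cas_lam, cas_lam]
  simp only [Finsupp.sum]
  rw [Matrix.mul_sum, Matrix.sum_mul, Matrix.sum_mul]
  refine Finset.sum_congr rfl fun v _ => ?_
  rw [Matrix.sum_mul, Matrix.mul_sum]
  refine Finset.sum_congr rfl fun v' _ => ?_
  rw [Matrix.mul_smul, Matrix.smul_mul, Matrix.smul_mul, Matrix.smul_mul, Matrix.mul_smul, smul_smul]

/-- the bilinear map `x ⊗ y ↦ x_j φ y_i` -/
private noncomputable def casL {I : Type*} {n : I → ℕ}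
    (A : Subalgebra E (∀ i, Matrix (Fin (n i)) (Fin (n i)) E)) (i j : I)
    (φ : Matrix (Fin (n j)) (Fin (n i)) E) :
    TensorProduct E A A →ₗ[E] Matrix (Fin (n j)) (Fin (n i)) E :=
  TensorProduct.lift (LinearMap.mk₂ E
    (fun x y : A => (x : ∀ i, Matrix (Fin (n i)) (Fin (n i)) E) j * φ *
      (y : ∀ i, Matrix (Fin (n i)) (Fin (n i)) E) i)
    (fun x x' y => by
      change ((x : ∀ i, Matrix (Fin (n i)) (Fin (n i)) E) j + (x' : ∀ i, Matrix (Fin (n i)) (Fin (n i)) E) j) *
        φ * _ = _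
      rw [Matrix.add_mul, Matrix.add_mul])
    (fun c x y => by
      change (c • (x : ∀ i, Matrix (Fin (n i)) (Fin (n i)) E) j) * φ * _ = _
      rw [Matrix.smul_mul, Matrix.smul_mul])
    (fun x y y' => by
      change (x : ∀ i, Matrix (Fin (n i)) (Fin (n i)) E) j * φ *
        ((y : ∀ i, Matrix (Fin (n i)) (Fin (n i)) E) i + (y' : ∀ i, Matrix (Fin (n i)) (Fin (n i)) E) i) = _
      rw [Matrix.mul_add])
    (fun c x y => by
      change (x : ∀ i, Matrix (Fin (n i)) (Fin (n i)) E) j * φ *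
        (c • (y : ∀ i, Matrix (Fin (n i)) (Fin (n i)) E) i) = _
      rw [Matrix.mul_smul]))

theorem cas [IsAlgClosed E] {I : Type*} [Finite I] (n : I → ℕ)
    (ρ : ∀ i, Γ →* Matrix (Fin (n i)) (Fin (n i)) E) (V : Subgroup Γ)
    (h : ∀ i, MSem ((ρ i).comp V.subtype)) :
    ∃ (r : ℕ) (k : Fin r → E) (u w : Fin r → Γ), ∀ i j, Cs (ρ i) (ρ j) V k u w := by
  classical
  have hss := img_ss n ρ V h
  have hfin : FiniteDimensional E (lam n ρ V).range := by
    have := Fintype.ofFinite I
    infer_instance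
  obtain ⟨m, U, W, h1, h2⟩ := sepid (E := E) (A := (lam n ρ V).range)
  choose x hx using fun a => (U a).2
  choose y hy using fun a => (W a).2
  obtain ⟨r, k, u, w, hr⟩ := cas_rep (fun a => (x a).coeff) (fun a => (y a).coeff)
  refine ⟨r, k, fun a => (u a : Γ), fun a => (w a : Γ), fun i j => ⟨fun a => (u a).2, fun a => (w a).2, ?_, ?_⟩⟩
  · have h3 := hr _ (fun v v' => (1 : Matrix (Fin (n i)) (Fin (n i)) E) * ρ i (v : Γ) * 1 *
      (ρ i (v' : Γ) * (1 : Matrix (Fin (n i)) (Fin (n i)) E)))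
    have h4 : ∑ b, lam n ρ V (x b) i * lam n ρ V (y b) i = 1 := by
      have h5 := congrArg (fun z : (lam n ρ V).range => (z : ∀ i, Matrix (Fin (n i)) (Fin (n i)) E) i) h1
      simp only [AddSubmonoidClass.coe_finsetSum, Finset.sum_apply] at h5
      calc ∑ b, lam n ρ V (x b) i * lam n ρ V (y b) i =
          ∑ b, ((U b * W b : (lam n ρ V).range) : ∀ i, Matrix (Fin (n i)) (Fin (n i)) E) i := by
            refine Finset.sum_congr rfl fun b _ => ?_
            change _ = (U b : ∀ i, Matrix (Fin (n i)) (Fin (n i)) E) i *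
              (W b : ∀ i, Matrix (Fin (n i)) (Fin (n i)) E) i
            rw [← hx, ← hy]
            rfl
        _ = 1 := h5
    calc ∑ a, k a • ρ i ((u a : Γ) * (w a : Γ)) = ∑ a, k a • ((1 : Matrix (Fin (n i)) (Fin (n i)) E) *
          ρ i (u a : Γ) * 1 * (ρ i (w a : Γ) * (1 : Matrix (Fin (n i)) (Fin (n i)) E))) := by
          refine Finset.sum_congr rfl fun a _ => ?_
          rw [Matrix.one_mul, Matrix.mul_one, Matrix.mul_one, map_mul]
      _ = _ := h3
      _ = ∑ b, lam n ρ V (x b) i * lam n ρ V (y b) i := by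
          refine Finset.sum_congr rfl fun b _ => ?_
          rw [cas_two n ρ V (x b) (y b) i i 1 1 1, Matrix.one_mul, Matrix.mul_one, Matrix.mul_one]
      _ = 1 := h4
  · intro φ v hv
    have h3 := hr _ (fun a b => ρ j v * ρ j (a : Γ) * φ *
      (ρ i (b : Γ) * (1 : Matrix (Fin (n i)) (Fin (n i)) E)))
    have h4 := hr _ (fun a b => (1 : Matrix (Fin (n j)) (Fin (n j)) E) * ρ j (a : Γ) * φ *
      (ρ i (b : Γ) * ρ i v))
    obtain ⟨X, hX⟩ : ∃ X : (lam n ρ V).range, X = ⟨lam n ρ V (MonoidAlgebra.single ⟨v, hv⟩ 1), ⟨_, rfl⟩⟩ :=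
      ⟨_, rfl⟩
    have hXj : ∀ i, (X : ∀ i, Matrix (Fin (n i)) (Fin (n i)) E) i = ρ i v := by
      intro i
      rw [hX]
      change lam n ρ V (MonoidAlgebra.single ⟨v, hv⟩ 1) i = _
      rw [lam_single, one_smul]
    have h5 := congrArg (casL (lam n ρ V).range i j φ) (h2 X)
    rw [map_sum, map_sum] at h5
    calc ∑ a, k a • (ρ j (v * (u a : Γ)) * φ * ρ i (w a : Γ)) = ∑ a, k a • (ρ j v * ρ j (u a : Γ) * φ *
          (ρ i (w a : Γ) * (1 : Matrix (Fin (n i)) (Fin (n i)) E))) := by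
          refine Finset.sum_congr rfl fun a _ => ?_
          rw [Matrix.mul_one, map_mul]
      _ = _ := h3
      _ = ∑ b, casL (lam n ρ V).range i j φ ((X * U b) ⊗ₜ[E] W b) := by
          refine Finset.sum_congr rfl fun b _ => ?_
          rw [cas_two n ρ V (x b) (y b) i j (ρ j v) φ 1, Matrix.mul_one]
          change _ = ((X : ∀ i, Matrix (Fin (n i)) (Fin (n i)) E) j *
            (U b : ∀ i, Matrix (Fin (n i)) (Fin (n i)) E) j) * φ *
              (W b : ∀ i, Matrix (Fin (n i)) (Fin (n i)) E) i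
          rw [hXj, ← hx, ← hy]
          rfl
      _ = ∑ b, casL (lam n ρ V).range i j φ (U b ⊗ₜ[E] (W b * X)) := h5
      _ = _ := by
          refine Finset.sum_congr rfl fun b _ => ?_
          rw [cas_two n ρ V (x b) (y b) i j 1 φ (ρ i v), Matrix.one_mul]
          change (U b : ∀ i, Matrix (Fin (n i)) (Fin (n i)) E) j * φ *
              ((W b : ∀ i, Matrix (Fin (n i)) (Fin (n i)) E) i *
                (X : ∀ i, Matrix (Fin (n i)) (Fin (n i)) E) i) = _
          rw [hXj, ← hx, ← hy]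
          rfl
      _ = _ := h4.symm
      _ = ∑ a, k a • (ρ j (u a : Γ) * φ * ρ i ((w a : Γ) * v)) := by
          refine Finset.sum_congr rfl fun a _ => ?_
          rw [Matrix.one_mul, map_mul]


end Pool.Agent.H89.IP
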