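import Pool.Agent.H89.IP.BOp

/-!
# IP.CntA : counting the exceptional cosets

PROOF of `cnt_B`: the set of the `q` with `q.out ∈ S.B C y` is the image of `S.B C y` in `H ⧸ V`, it has `(V.subgroupOf (S.B C y)).index = V.relIndex (S.B C y)` elements (`q ↦ q.out`, two elements of `S.B C y` are in the same coset of `V` iff ...; `V ≤ S.B C y`), and `V.relIndex B * B.index = V.index` (`Subgroup.relIndex_mul_index`). So
`card * L ≤ card * B.index = card (H ⧸ V)`. `cntA`: union over `y`, `Finset.card_biUnion_le`. About 90 lines.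
-/

set_option autoImplicit false

namespace Pool.Agent.H89.IP

variable {H E X Y : Type*} [Group H] [TopologicalSpace H] [Field E] [TopologicalSpace E]
  [CommGroup X] [Fintype Y] (S : Sys H E X Y)

namespace Sys

open Classical in
theorem cnt_B [IsTopologicalGroup H] [CompactSpace H] (C : Finset X) (y : Y) (L : ℕ)
    (hL : L ≤ (S.B C y).index) [Fintype (H ⧸ S.V C)] :
    L * (Finset.univ.filter (fun q : H ⧸ S.V C => q.out ∈ S.B C y)).card ≤
      Fintype.card (H ⧸ S.V C) := by
  have hle : S.V C ≤ S.B C y := S.V_le C y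
  have hfin : (S.V C).FiniteIndex := S.fin_V C
  have hrel : (S.V C).relIndex (S.B C y) ≠ 0 := fun h0 => by
    have h1 := Subgroup.relIndex_mul_index hle
    rw [h0, zero_mul] at h1
    exact hfin.index_ne_zero h1.symm
  have hF : Finite (S.B C y ⧸ (S.V C).subgroupOf (S.B C y)) :=
    Nat.finite_of_card_ne_zero hrel
  have hcard : (Finset.univ.filter (fun q : H ⧸ S.V C => q.out ∈ S.B C y)).card ≤
      (S.V C).relIndex (S.B C y) := by
    have h1 : Fintype.card {q : H ⧸ S.V C // q.out ∈ S.B C y} ≤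
        Nat.card (S.B C y ⧸ (S.V C).subgroupOf (S.B C y)) := by
      rw [← Nat.card_eq_fintype_card]
      refine Nat.card_le_card_of_injective
        (fun q => (QuotientGroup.mk (⟨q.1.out, q.2⟩ : S.B C y) :
          S.B C y ⧸ (S.V C).subgroupOf (S.B C y))) ?_
      intro q q' hqq
      have h2 := QuotientGroup.eq.1 hqq
      rw [Subgroup.mem_subgroupOf] at h2
      apply Subtype.ext
      rw [← Quotient.out_eq' q.1, ← Quotient.out_eq' q'.1]
      exact QuotientGroup.eq.2 h2
    rw [Fintype.card_subtype] at h1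
    exact h1
  have hidx : (S.V C).relIndex (S.B C y) * (S.B C y).index = Fintype.card (H ⧸ S.V C) := by
    rw [Subgroup.relIndex_mul_index hle, Subgroup.index_eq_card, Nat.card_eq_fintype_card]
  calc L * _ ≤ (S.B C y).index * (S.V C).relIndex (S.B C y) := Nat.mul_le_mul hL hcard
    _ = _ := by rw [mul_comm, hidx]

open Classical in
theorem cntA [IsTopologicalGroup H] [CompactSpace H] (C : Finset X) (L : ℕ)
    (hL : ∀ y, L ≤ (S.B C y).index) [Fintype (H ⧸ S.V C)] :
    L * (Finset.univ.filter (fun q : H ⧸ S.V C => q.out ∈ S.Bad C)).card ≤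
      Fintype.card Y * Fintype.card (H ⧸ S.V C) := by
  have h1 : (Finset.univ.filter (fun q : H ⧸ S.V C => q.out ∈ S.Bad C)) ⊆
      Finset.univ.biUnion (fun y : Y =>
        Finset.univ.filter (fun q : H ⧸ S.V C => q.out ∈ S.B C y)) := by
    intro q hq
    rw [Finset.mem_filter] at hq
    obtain ⟨y, hy⟩ := hq.2
    rw [Finset.mem_biUnion]
    exact ⟨y, Finset.mem_univ _, Finset.mem_filter.2 ⟨Finset.mem_univ _, hy⟩⟩
  have h2 := (Finset.card_le_card h1).trans Finset.card_biUnion_le
  calc L * _ ≤ L * ∑ y : Y,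
        (Finset.univ.filter (fun q : H ⧸ S.V C => q.out ∈ S.B C y)).card :=
        Nat.mul_le_mul_left _ h2
    _ = ∑ y : Y, L * (Finset.univ.filter (fun q : H ⧸ S.V C => q.out ∈ S.B C y)).card := by
        rw [Finset.mul_sum]
    _ ≤ ∑ _y : Y, Fintype.card (H ⧸ S.V C) := Finset.sum_le_sum fun y _ => S.cnt_B C y L (hL y)
    _ = _ := by rw [Finset.sum_const, Finset.card_univ, smul_eq_mul]


end Sys

end Pool.Agent.H89.IP
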