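import Pool.Agent.H89.IP.CntA

/-!
# IP.CntB : counting the exceptional pairs of cosets

PROOF. The set is contained in the union of: the pairs with `p.1.out ∈ S.B C y` (for each `y`), the pairs with `p.2.out ∈ S.B C z` (for each `z`): by `cnt_B` each of them has at most `card ^ 2 / L` elements; and for each `(y, z)` the pairs with `p.1.out ∈ P y`, `p.2.out ∈ P z`, `ψ y χ p.1.out * ψ z χ p.2.out = 1` for `χ ∈ C`. In the last case for a
fixed second component `q'` two first components `q₁, q₂` satisfy `q₁.out⁻¹ * q₂.out ∈ S.B C y` (`ψg`, `ψ_inv`), so for fixed `q₁` the map `q₂ ↦ class of q₁.out⁻¹ * q₂.out` is injective into `{q | q.out ∈ S.B C y}` (`V ≤ S.B C y`); again at most `card / L` for each `q'` (after multiplication with `L`: `cnt_B`), sum over `q'`. Total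
`(2 * card Y + card Y ^ 2) * card ^ 2`. About 120 lines.
-/

set_option autoImplicit false

namespace Pool.Agent.H89.IP

variable {H E X Y : Type*} [Group H] [TopologicalSpace H] [Field E] [TopologicalSpace E]
  [CommGroup X] [Fintype Y] (S : Sys H E X Y)

namespace Sys

/-- the class of an element of `B` has its representative in `B` -/
private theorem cntB_out {C : Finset X} {y : Y} {g : H} (hg : g ∈ S.B C y) :
    ((QuotientGroup.mk g : H ⧸ S.V C)).out ∈ S.B C y := by
  have h1 : (QuotientGroup.mk ((QuotientGroup.mk g : H ⧸ S.V C)).out : H ⧸ S.V C) =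
      QuotientGroup.mk g := Quotient.out_eq' _
  have h2 : g⁻¹ * ((QuotientGroup.mk g : H ⧸ S.V C)).out ∈ S.V C := QuotientGroup.eq.1 h1.symm
  have h3 := (S.B C y).mul_mem hg (S.V_le C y h2)
  rwa [mul_inv_cancel_left] at h3

open Classical in
theorem cntB [IsTopologicalGroup H] [CompactSpace H] (C : Finset X) (L : ℕ)
    (hL : ∀ y, L ≤ (S.B C y).index) [Fintype (H ⧸ S.V C)] :
    L * (Finset.univ.filter (fun p : (H ⧸ S.V C) × (H ⧸ S.V C) =>
      (p.1.out, p.2.out) ∈ S.Bad2 C)).card ≤
      (Fintype.card Y ^ 2 + 2 * Fintype.card Y) * Fintype.card (H ⧸ S.V C) ^ 2 := by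
  set N := Fintype.card (H ⧸ S.V C) with hN
  set A : Y → Finset (H ⧸ S.V C) := fun y => Finset.univ.filter (fun q => q.out ∈ S.B C y)
    with hA
  have hAc : ∀ y, L * (A y).card ≤ N := fun y => S.cnt_B C y L (hL y)
  set F : Y → Y → Finset ((H ⧸ S.V C) × (H ⧸ S.V C)) := fun y z =>
    Finset.univ.filter (fun p => p.1.out ∈ S.P y ∧ p.2.out ∈ S.P z ∧
      ∀ χ ∈ C, S.ψ y χ p.1.out * S.ψ z χ p.2.out = 1) with hF
  -- the fibres of the third kind
  have hfib : ∀ y z (q' : H ⧸ S.V C), ((F y z).filter (fun p => p.2 = q')).card ≤ (A y).card := by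
    intro y z q'
    rcases ((F y z).filter (fun p => p.2 = q')).eq_empty_or_nonempty with he | ⟨p₁, hp₁⟩
    · rw [he, Finset.card_empty]; exact Nat.zero_le _
    · rw [Finset.mem_filter, hF, Finset.mem_filter] at hp₁
      obtain ⟨⟨-, a1, a2, a3⟩, a4⟩ := hp₁
      refine Finset.card_le_card_of_injOn
        (fun p => (QuotientGroup.mk (p₁.1.out⁻¹ * p.1.out) : H ⧸ S.V C)) ?_ ?_
      · intro p hp
        rw [Finset.mem_coe, Finset.mem_filter, hF, Finset.mem_filter] at hp
        obtain ⟨⟨-, b1, b2, b3⟩, b4⟩ := hp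
        rw [Finset.mem_coe, hA, Finset.mem_filter]
        refine ⟨Finset.mem_univ _, S.cntB_out ⟨(S.P y).mul_mem ((S.P y).inv_mem a1) b1, ?_⟩⟩
        intro χ hχ
        have c1 := a3 χ hχ
        have c2 := b3 χ hχ
        rw [a4] at c1
        rw [b4] at c2
        have c3 := S.ψ_inv a1 χ
        have hne : S.ψ z χ q'.out ≠ 0 := right_ne_zero_of_mul_eq_one c1
        have c4 : S.ψ y χ p₁.1.out = S.ψ y χ p.1.out := mul_right_cancel₀ hne (c1.trans c2.symm)
        rw [S.ψg y χ _ ((S.P y).inv_mem a1) _ b1, ← c4, mul_comm]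
        exact c3
      · intro p hp p' hp' h
        rw [Finset.mem_coe, Finset.mem_filter] at hp hp'
        have h1 := QuotientGroup.eq.1 h
        have h2 : (p₁.1.out⁻¹ * p.1.out)⁻¹ * (p₁.1.out⁻¹ * p'.1.out) = p.1.out⁻¹ * p'.1.out := by
          group
        rw [h2] at h1
        have h3 : (QuotientGroup.mk p.1.out : H ⧸ S.V C) = QuotientGroup.mk p'.1.out :=
          QuotientGroup.eq.2 h1
        have h4 : p.1 = p'.1 := by
          rw [← Quotient.out_eq' p.1, ← Quotient.out_eq' p'.1]
          exact h3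
        exact Prod.ext h4 (hp.2.trans hp'.2.symm)
  have hFc : ∀ y z, L * (F y z).card ≤ N * N := by
    intro y z
    have h1 : (F y z).card = ∑ q' : H ⧸ S.V C, ((F y z).filter (fun p => p.2 = q')).card :=
      Finset.card_eq_sum_card_fiberwise (fun p _ => Finset.mem_coe.2 (Finset.mem_univ _))
    rw [h1, Finset.mul_sum]
    refine (Finset.sum_le_card_nsmul _ _ N fun q' _ =>
      (Nat.mul_le_mul_left L (hfib y z q')).trans (hAc y)).trans ?_
    rw [Finset.card_univ, smul_eq_mul]
  -- the covering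
  have hsub : Finset.univ.filter (fun p : (H ⧸ S.V C) × (H ⧸ S.V C) =>
      (p.1.out, p.2.out) ∈ S.Bad2 C) ⊆
      ((Finset.univ.biUnion fun y : Y => A y ×ˢ Finset.univ) ∪
        (Finset.univ.biUnion fun z : Y => Finset.univ ×ˢ A z)) ∪
        (Finset.univ.biUnion fun w : Y × Y => F w.1 w.2) := by
    intro p hp
    rw [Finset.mem_filter] at hp
    rcases hp.2 with ⟨y, hy⟩ | ⟨z, hz⟩ | ⟨y, z, h1, h2, h3⟩
    · refine Finset.mem_union_left _ (Finset.mem_union_left _ (Finset.mem_biUnion.2
        ⟨y, Finset.mem_univ _, Finset.mem_product.2 ⟨?_, Finset.mem_univ _⟩⟩))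
      rw [hA, Finset.mem_filter]
      exact ⟨Finset.mem_univ _, hy⟩
    · refine Finset.mem_union_left _ (Finset.mem_union_right _ (Finset.mem_biUnion.2
        ⟨z, Finset.mem_univ _, Finset.mem_product.2 ⟨Finset.mem_univ _, ?_⟩⟩))
      rw [hA, Finset.mem_filter]
      exact ⟨Finset.mem_univ _, hz⟩
    · refine Finset.mem_union_right _ (Finset.mem_biUnion.2 ⟨(y, z), Finset.mem_univ _, ?_⟩)
      rw [hF, Finset.mem_filter]
      exact ⟨Finset.mem_univ _, h1, h2, h3⟩
  have e1 : L * (Finset.univ.biUnion fun y : Y => A y ×ˢ (Finset.univ : Finset (H ⧸ S.V C))).card ≤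
      Fintype.card Y * (N * N) := by
    refine (Nat.mul_le_mul_left L Finset.card_biUnion_le).trans ?_
    rw [Finset.mul_sum]
    refine (Finset.sum_le_card_nsmul _ _ (N * N) fun y _ => ?_).trans ?_
    · rw [Finset.card_product, Finset.card_univ, ← mul_assoc]
      exact Nat.mul_le_mul_right _ (hAc y)
    · rw [Finset.card_univ, smul_eq_mul]
  have e2 : L * (Finset.univ.biUnion fun z : Y => (Finset.univ : Finset (H ⧸ S.V C)) ×ˢ A z).card ≤
      Fintype.card Y * (N * N) := by
    refine (Nat.mul_le_mul_left L Finset.card_biUnion_le).trans ?_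
    rw [Finset.mul_sum]
    refine (Finset.sum_le_card_nsmul _ _ (N * N) fun y _ => ?_).trans ?_
    · rw [Finset.card_product, Finset.card_univ, mul_left_comm]
      exact Nat.mul_le_mul_left _ (hAc y)
    · rw [Finset.card_univ, smul_eq_mul]
  have e3 : L * (Finset.univ.biUnion fun w : Y × Y => F w.1 w.2).card ≤
      Fintype.card Y ^ 2 * (N * N) := by
    refine (Nat.mul_le_mul_left L Finset.card_biUnion_le).trans ?_
    rw [Finset.mul_sum]
    refine (Finset.sum_le_card_nsmul _ _ (N * N) fun w _ => hFc w.1 w.2).trans ?_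
    rw [Finset.card_univ, smul_eq_mul, Fintype.card_prod, pow_two]
  calc L * (Finset.univ.filter (fun p : (H ⧸ S.V C) × (H ⧸ S.V C) =>
      (p.1.out, p.2.out) ∈ S.Bad2 C)).card
      ≤ L * (((Finset.univ.biUnion fun y : Y => A y ×ˢ Finset.univ) ∪
        (Finset.univ.biUnion fun z : Y => Finset.univ ×ˢ A z)) ∪
        (Finset.univ.biUnion fun w : Y × Y => F w.1 w.2)).card :=
        Nat.mul_le_mul_left _ (Finset.card_le_card hsub)
    _ ≤ L * (((Finset.univ.biUnion fun y : Y => A y ×ˢ Finset.univ).card +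
        (Finset.univ.biUnion fun z : Y => Finset.univ ×ˢ A z).card) +
        (Finset.univ.biUnion fun w : Y × Y => F w.1 w.2).card) :=
        Nat.mul_le_mul_left _ ((Finset.card_union_le _ _).trans
          (Nat.add_le_add_right (Finset.card_union_le _ _) _))
    _ ≤ (Fintype.card Y ^ 2 + 2 * Fintype.card Y) * N ^ 2 := by
        rw [mul_add, mul_add]
        have h := Nat.add_le_add (Nat.add_le_add e1 e2) e3
        refine h.trans (le_of_eq ?_)
        ring

end Sys

end Pool.Agent.H89.IP
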