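import Pool.Agent.H89.IP.Sys

/-!
# IP.Coef : the coefficients of the averages
-/

set_option autoImplicit false

namespace Pool.Agent.H89.IP

variable {H E X Y : Type*} [Group H] [TopologicalSpace H] [Field E] [TopologicalSpace E]
  [CommGroup X] [Fintype Y] (S : Sys H E X Y)

namespace Sys

variable [CharZero E] (C : Finset X) (Θ : Finset (H → E))

omit [CharZero E] in
theorem mT' (hΘ : ∀ χ ∈ C, (S.m χ).support ⊆ Θ) {χ : X} (hχ : χ ∈ C) (g : H) :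
    S.T χ g = ∑ θ ∈ Θ, (S.m χ θ : E) * θ g := by
  rw [S.mT χ g]
  refine Finset.sum_subset (hΘ χ hχ) fun θ _ hθ => ?_
  rw [Finsupp.notMem_support_iff.1 hθ, Nat.cast_zero, zero_mul]

theorem sum_mu (hΘ : ∀ χ ∈ C, (S.m χ).support ⊆ Θ) (g : H) :
    ∑ θ ∈ Θ, ((S.mu C θ : ℚ) : E) * θ g = (∑ χ ∈ C, S.T χ g) / (C.card : E) := by
  have h1 : ∑ χ ∈ C, S.T χ g = ∑ θ ∈ Θ, (∑ χ ∈ C, (S.m χ θ : E)) * θ g := by
    rw [Finset.sum_congr rfl fun χ hχ => S.mT' C Θ hΘ hχ g, Finset.sum_comm]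
    exact Finset.sum_congr rfl fun θ _ => (Finset.sum_mul _ _ _).symm
  rw [h1, Finset.sum_div]
  refine Finset.sum_congr rfl fun θ _ => ?_
  rw [mu]
  push_cast
  ring

theorem sum_cov (hΘ : ∀ χ ∈ C, (S.m χ).support ⊆ Θ) (g g' : H) :
    ∑ θ ∈ Θ, ∑ θ' ∈ Θ, ((S.cov C θ θ' : ℚ) : E) * (θ g * θ' g') =
      (∑ χ ∈ C, S.T χ g * S.T χ g') / (C.card : E) -
        (∑ χ ∈ C, S.T χ g) / (C.card : E) * ((∑ χ ∈ C, S.T χ g') / (C.card : E)) := by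
  have h1 : ∑ χ ∈ C, S.T χ g * S.T χ g' =
      ∑ θ ∈ Θ, ∑ θ' ∈ Θ, (∑ χ ∈ C, (S.m χ θ : E) * (S.m χ θ' : E)) * (θ g * θ' g') := by
    have h2 : ∀ χ ∈ C, S.T χ g * S.T χ g' =
        ∑ θ ∈ Θ, ∑ θ' ∈ Θ, ((S.m χ θ : E) * (S.m χ θ' : E)) * (θ g * θ' g') := by
      intro χ hχ
      rw [S.mT' C Θ hΘ hχ g, S.mT' C Θ hΘ hχ g', Finset.sum_mul_sum]
      exact Finset.sum_congr rfl fun θ _ => Finset.sum_congr rfl fun θ' _ => by ring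
    rw [Finset.sum_congr rfl h2, Finset.sum_comm]
    refine Finset.sum_congr rfl fun θ _ => ?_
    rw [Finset.sum_comm]
    exact Finset.sum_congr rfl fun θ' _ => (Finset.sum_mul _ _ _).symm
  rw [h1, ← S.sum_mu C Θ hΘ g, ← S.sum_mu C Θ hΘ g', Finset.sum_mul_sum, Finset.sum_div,
    ← Finset.sum_sub_distrib]
  refine Finset.sum_congr rfl fun θ _ => ?_
  rw [Finset.sum_div, ← Finset.sum_sub_distrib]
  refine Finset.sum_congr rfl fun θ' _ => ?_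
  rw [cov]
  push_cast
  ring

theorem mu_nonneg (θ : H → E) : 0 ≤ S.mu C θ := by
  rw [mu]
  exact div_nonneg (Finset.sum_nonneg fun _ _ => Nat.cast_nonneg _) (Nat.cast_nonneg _)

omit [CharZero E] in
theorem mN' (χ : X) : ∑ θ ∈ Θ, (S.m χ θ : ℝ) * (dg θ : ℝ) ≤ (S.N : ℝ) := by
  classical
  have h1 : ∑ θ ∈ Θ, (S.m χ θ : ℝ) * (dg θ : ℝ) ≤
      ∑ θ ∈ Θ ∪ (S.m χ).support, (S.m χ θ : ℝ) * (dg θ : ℝ) :=
    Finset.sum_le_sum_of_subset_of_nonneg Finset.subset_union_left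
      fun _ _ _ => mul_nonneg (Nat.cast_nonneg _) (Nat.cast_nonneg _)
  have h2 : ∑ θ ∈ (S.m χ).support, (S.m χ θ : ℝ) * (dg θ : ℝ) =
      ∑ θ ∈ Θ ∪ (S.m χ).support, (S.m χ θ : ℝ) * (dg θ : ℝ) :=
    Finset.sum_subset Finset.subset_union_right fun θ _ hθ => by
      rw [Finsupp.notMem_support_iff.1 hθ, Nat.cast_zero, zero_mul]
  rw [← h2] at h1
  refine h1.trans ?_
  have h3 := S.mN χ
  exact_mod_cast h3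

omit [CharZero E] in
theorem mu_cast (θ : H → E) : ((S.mu C θ : ℚ) : ℝ) = (∑ χ ∈ C, (S.m χ θ : ℝ)) / (C.card : ℝ) := by
  rw [mu]
  push_cast
  rfl

theorem sum_mu_dg : ∑ θ ∈ Θ, |((S.mu C θ : ℚ) : ℝ)| * (dg θ : ℝ) ≤ (S.N : ℝ) := by
  have h0 : ∀ θ, |((S.mu C θ : ℚ) : ℝ)| = (∑ χ ∈ C, (S.m χ θ : ℝ)) / (C.card : ℝ) := by
    intro θ
    rw [abs_of_nonneg (by exact_mod_cast S.mu_nonneg C θ), S.mu_cast]
  have h1 : ∑ θ ∈ Θ, |((S.mu C θ : ℚ) : ℝ)| * (dg θ : ℝ) =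
      (∑ χ ∈ C, ∑ θ ∈ Θ, (S.m χ θ : ℝ) * (dg θ : ℝ)) / (C.card : ℝ) := by
    rw [Finset.sum_comm, Finset.sum_div]
    refine Finset.sum_congr rfl fun θ _ => ?_
    rw [h0, ← Finset.sum_mul]
    ring
  rw [h1]
  refine div_le_of_le_mul₀ (Nat.cast_nonneg _) (Nat.cast_nonneg _) ?_
  refine (Finset.sum_le_sum fun χ _ => S.mN' Θ χ).trans ?_
  rw [Finset.sum_const, nsmul_eq_mul, mul_comm]

theorem sum_cov_dg : ∑ θ ∈ Θ, ∑ θ' ∈ Θ, |((S.cov C θ θ' : ℚ) : ℝ)| * ((dg θ : ℝ) * dg θ') ≤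
    2 * (S.N : ℝ) ^ 2 := by
  have h0 : ∀ θ θ', |((S.cov C θ θ' : ℚ) : ℝ)| ≤
      (∑ χ ∈ C, (S.m χ θ : ℝ) * (S.m χ θ' : ℝ)) / (C.card : ℝ) +
        |((S.mu C θ : ℚ) : ℝ)| * |((S.mu C θ' : ℚ) : ℝ)| := by
    intro θ θ'
    have h1 : ((S.cov C θ θ' : ℚ) : ℝ) =
        (∑ χ ∈ C, (S.m χ θ : ℝ) * (S.m χ θ' : ℝ)) / (C.card : ℝ) -
          ((S.mu C θ : ℚ) : ℝ) * ((S.mu C θ' : ℚ) : ℝ) := by
      rw [cov]
      push_cast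
      rfl
    rw [h1, ← abs_mul]
    refine (abs_sub _ _).trans ?_
    rw [abs_of_nonneg (div_nonneg (Finset.sum_nonneg fun _ _ =>
      mul_nonneg (Nat.cast_nonneg _) (Nat.cast_nonneg _)) (Nat.cast_nonneg _))]
  have h1 : ∑ θ ∈ Θ, ∑ θ' ∈ Θ, |((S.cov C θ θ' : ℚ) : ℝ)| * ((dg θ : ℝ) * dg θ') ≤
      (∑ χ ∈ C, (∑ θ ∈ Θ, (S.m χ θ : ℝ) * (dg θ : ℝ)) * (∑ θ' ∈ Θ, (S.m χ θ' : ℝ) * (dg θ' : ℝ))) /
        (C.card : ℝ) + (∑ θ ∈ Θ, |((S.mu C θ : ℚ) : ℝ)| * (dg θ : ℝ)) *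
          (∑ θ' ∈ Θ, |((S.mu C θ' : ℚ) : ℝ)| * (dg θ' : ℝ)) := by
    have h2 : (∑ χ ∈ C, (∑ θ ∈ Θ, (S.m χ θ : ℝ) * (dg θ : ℝ)) *
        (∑ θ' ∈ Θ, (S.m χ θ' : ℝ) * (dg θ' : ℝ))) / (C.card : ℝ) =
        ∑ θ ∈ Θ, ∑ θ' ∈ Θ, ((∑ χ ∈ C, (S.m χ θ : ℝ) * (S.m χ θ' : ℝ)) / (C.card : ℝ)) *
          ((dg θ : ℝ) * dg θ') := by
      have h3 : ∀ χ ∈ C, (∑ θ ∈ Θ, (S.m χ θ : ℝ) * (dg θ : ℝ)) *
          (∑ θ' ∈ Θ, (S.m χ θ' : ℝ) * (dg θ' : ℝ)) = ∑ θ ∈ Θ, ∑ θ' ∈ Θ,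
            ((S.m χ θ : ℝ) * (S.m χ θ' : ℝ)) * ((dg θ : ℝ) * dg θ') := by
        intro χ _
        rw [Finset.sum_mul_sum]
        exact Finset.sum_congr rfl fun θ _ => Finset.sum_congr rfl fun θ' _ => by ring
      rw [Finset.sum_congr rfl h3, Finset.sum_comm, Finset.sum_div]
      refine Finset.sum_congr rfl fun θ _ => ?_
      rw [Finset.sum_comm, Finset.sum_div]
      refine Finset.sum_congr rfl fun θ' _ => ?_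
      rw [← Finset.sum_mul]
      ring
    rw [h2, Finset.sum_mul_sum, ← Finset.sum_add_distrib]
    refine Finset.sum_le_sum fun θ _ => ?_
    rw [← Finset.sum_add_distrib]
    refine Finset.sum_le_sum fun θ' _ => ?_
    refine (mul_le_mul_of_nonneg_right (h0 θ θ')
      (mul_nonneg (Nat.cast_nonneg _) (Nat.cast_nonneg _))).trans (le_of_eq ?_)
    ring
  refine h1.trans ?_
  have hN : (0 : ℝ) ≤ S.N := Nat.cast_nonneg _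
  have h2 : (∑ θ ∈ Θ, |((S.mu C θ : ℚ) : ℝ)| * (dg θ : ℝ)) *
      (∑ θ' ∈ Θ, |((S.mu C θ' : ℚ) : ℝ)| * (dg θ' : ℝ)) ≤ (S.N : ℝ) * S.N :=
    mul_le_mul (S.sum_mu_dg C Θ) (S.sum_mu_dg C Θ)
      (Finset.sum_nonneg fun _ _ => mul_nonneg (abs_nonneg _) (Nat.cast_nonneg _)) hN
  have h3 : (∑ χ ∈ C, (∑ θ ∈ Θ, (S.m χ θ : ℝ) * (dg θ : ℝ)) *
      (∑ θ' ∈ Θ, (S.m χ θ' : ℝ) * (dg θ' : ℝ))) / (C.card : ℝ) ≤ (S.N : ℝ) * S.N := by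
    refine div_le_of_le_mul₀ (Nat.cast_nonneg _) (mul_nonneg hN hN) ?_
    have h4 : ∀ χ ∈ C, (∑ θ ∈ Θ, (S.m χ θ : ℝ) * (dg θ : ℝ)) *
        (∑ θ' ∈ Θ, (S.m χ θ' : ℝ) * (dg θ' : ℝ)) ≤ (S.N : ℝ) * S.N := fun χ _ =>
      mul_le_mul (S.mN' Θ χ) (S.mN' Θ χ)
        (Finset.sum_nonneg fun _ _ => mul_nonneg (Nat.cast_nonneg _) (Nat.cast_nonneg _)) hN
    refine (Finset.sum_le_sum h4).trans ?_
    rw [Finset.sum_const, nsmul_eq_mul, mul_comm]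
  calc _ ≤ (S.N : ℝ) * S.N + (S.N : ℝ) * S.N := add_le_add h3 h2
    _ = _ := by ring

end Sys

end Pool.Agent.H89.IP
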