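import Pool.Agent.H89.IP.Spl

/-!
# IP.Dec : the character of a representation is a sum of irreducible characters

PROOF. Strong induction on `n`. `n = 0`: `m = 0`, `chi ρ g = 0`. If `ρ` is irreducible: `m = Finsupp.single (chi ρ) 1`, `dg_chi`. Otherwise there is an invariant `W ≠ ⊥, ⊤`: `spl`, the sum of the two `m`'s for `ρ₁`, `ρ₂` (`Finsupp.add_apply`; rewrite the sums as `Finsupp.sum`, `Finsupp.sum_add_index'`; support of the sum: `Finsupp.support_add`). About 80 lines.
-/

set_option autoImplicit false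

open Matrix

namespace Pool.Agent.H89.IP

variable {Γ E : Type*} [Group Γ] [Field E]

theorem dec [CharZero E] [TopologicalSpace Γ] [TopologicalSpace E] [IsTopologicalRing E] {n : ℕ}
    (ρ : Γ →* Matrix (Fin n) (Fin n) E) :
    ∃ m : (Γ → E) →₀ ℕ,
      (∀ θ ∈ m.support, ∃ (n' : ℕ) (ρ' : Γ →* Matrix (Fin n') (Fin n') E), MIrr ρ' ∧ chi ρ' = θ ∧
        (∀ g, ρ g = 1 → ρ' g = 1) ∧ (Continuous ρ → Continuous ρ')) ∧
      (∀ g, chi ρ g = ∑ θ ∈ m.support, (m θ : E) * θ g) ∧
      ∑ θ ∈ m.support, m θ * dg θ = n := by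
  classical
  revert ρ
  induction n using Nat.strong_induction_on with
  | _ n ih =>
    intro ρ
    rcases Nat.eq_zero_or_pos n with h0 | hpos
    · subst h0
      refine ⟨0, by simp, fun g => ?_, by simp⟩
      rw [chi, Matrix.trace]
      simp
    by_cases hirr : MIrr ρ
    · have hs : (Finsupp.single (chi ρ) 1 : (Γ → E) →₀ ℕ).support = {chi ρ} :=
        Finsupp.support_single_ne_zero _ one_ne_zero
      refine ⟨Finsupp.single (chi ρ) 1, ?_, ?_, ?_⟩
      · intro θ hθ
        rw [hs] at hθ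
        have h1 : θ = chi ρ := Finset.mem_singleton.1 hθ
        exact ⟨n, ρ, hirr, h1.symm, fun g h => h, fun h => h⟩
      · intro g
        rw [hs, Finset.sum_singleton, Finsupp.single_eq_same, Nat.cast_one, one_mul]
      · rw [hs, Finset.sum_singleton, Finsupp.single_eq_same, one_mul, dg_chi]
    · have hW : ∃ W : Submodule E (Fin n → E), (∀ g, ∀ x ∈ W, ρ g *ᵥ x ∈ W) ∧ W ≠ ⊥ ∧ W ≠ ⊤ := by
        by_contra hc
        refine hirr ⟨hpos.ne', fun W hW => ?_⟩
        by_contra h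
        exact hc ⟨W, hW, fun h1 => h (Or.inl h1), fun h1 => h (Or.inr h1)⟩
      obtain ⟨W, hW, hb, ht⟩ := hW
      obtain ⟨n₁, n₂, ρ₁, ρ₂, hn, p1, p2, hchi, hker, hcont⟩ := spl ρ W hW hb ht
      obtain ⟨m₁, a1, b1, c1⟩ := ih n₁ (by omega) ρ₁
      obtain ⟨m₂, a2, b2, c2⟩ := ih n₂ (by omega) ρ₂
      refine ⟨m₁ + m₂, ?_, ?_, ?_⟩
      · intro θ hθ
        rcases Finset.mem_union.1 (Finsupp.support_add hθ) with h | h
        · obtain ⟨n', ρ', i1, i2, i3, i4⟩ := a1 θ h
          exact ⟨n', ρ', i1, i2, fun g hg => i3 g (hker g hg).1, fun hc => i4 (hcont hc).1⟩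
        · obtain ⟨n', ρ', i1, i2, i3, i4⟩ := a2 θ h
          exact ⟨n', ρ', i1, i2, fun g hg => i3 g (hker g hg).2, fun hc => i4 (hcont hc).2⟩
      · intro g
        have e : ∀ m : (Γ → E) →₀ ℕ, ∑ θ ∈ m.support, (m θ : E) * θ g =
            m.sum (fun θ k => (k : E) * θ g) := fun m => rfl
        rw [hchi g, b1 g, b2 g, e, e, e, Finsupp.sum_add_index']
        · intro θ
          rw [Nat.cast_zero, zero_mul]
        · intro θ k l
          rw [Nat.cast_add, add_mul]
      · have e : ∀ m : (Γ → E) →₀ ℕ, ∑ θ ∈ m.support, m θ * dg θ =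
            m.sum (fun θ k => k * dg θ) := fun m => rfl
        rw [e, Finsupp.sum_add_index', ← e, ← e, c1, c2, hn]
        · intro θ
          rw [zero_mul]
        · intro θ k l
          rw [add_mul]


end Pool.Agent.H89.IP
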