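import Mathlib

/-!
# IP.Defs : induction patching (MP_976e2b_nt), definitions

Part I. `Γ` an abstract group, `E` an algebraically closed field of characteristic zero. Representations are
homomorphisms to matrices. `MIrr ρ` : irreducible; `MSem ρ` : semisimple; `chi ρ` : the character; `Ich θ` : `θ` is the
character of an irreducible representation; `dg θ` its degree; `Itw ρ ρ'` the intertwining matrices; `Lk V θ θ'` : there is a
nonzero `V`-map from `θ` to `θ'`; `Bd x b` : `x` is a rational combination of roots of unity, the sum of the absolute values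
of the coefficients is at most `b`; `tau` the function which computes the trace of `g` on the `V`-maps; `Cs` the property
of the element `∑ k_a u_a ⊗ w_a` (separability idempotent of the image of `E[V]`).
-/

set_option autoImplicit false

open Matrix

namespace Pool.Agent.H89.IP

section Rep

variable {Γ E : Type*} [Group Γ] [Field E]

/-- the matrix representation `ρ` is irreducible -/
def MIrr {n : ℕ} (ρ : Γ →* Matrix (Fin n) (Fin n) E) : Prop :=
  n ≠ 0 ∧ ∀ W : Submodule E (Fin n → E), (∀ g, ∀ x ∈ W, ρ g *ᵥ x ∈ W) → W = ⊥ ∨ W = ⊤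

/-- the matrix representation `ρ` is semisimple -/
def MSem {n : ℕ} (ρ : Γ →* Matrix (Fin n) (Fin n) E) : Prop :=
  ∀ W : Submodule E (Fin n → E), (∀ g, ∀ x ∈ W, ρ g *ᵥ x ∈ W) →
    ∃ W' : Submodule E (Fin n → E), (∀ g, ∀ x ∈ W', ρ g *ᵥ x ∈ W') ∧ IsCompl W W'

/-- the character of `ρ` -/
def chi {n : ℕ} (ρ : Γ →* Matrix (Fin n) (Fin n) E) (g : Γ) : E := (ρ g).trace

/-- `θ` is an irreducible character -/
def Ich (θ : Γ → E) : Prop :=
  ∃ (n : ℕ) (ρ : Γ →* Matrix (Fin n) (Fin n) E), MIrr ρ ∧ chi ρ = θ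

/-- the degree of a character -/
noncomputable def dg (θ : Γ → E) : ℕ := sInf {n : ℕ | θ 1 = (n : E)}

/-- the intertwining matrices -/
def Itw {n n' : ℕ} (ρ : Γ →* Matrix (Fin n) (Fin n) E) (ρ' : Γ →* Matrix (Fin n') (Fin n') E) :
    Submodule E (Matrix (Fin n') (Fin n) E) where
  carrier := {φ | ∀ g, ρ' g * φ = φ * ρ g}
  add_mem' := by
    intro a b ha hb g
    rw [Matrix.mul_add, Matrix.add_mul, ha g, hb g]
  zero_mem' := by intro g; rw [Matrix.mul_zero, Matrix.zero_mul]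
  smul_mem' := by
    intro c a ha g
    rw [Matrix.mul_smul, Matrix.smul_mul, ha g]

/-- there is a nonzero `V`-map from `θ` to `θ'` -/
def Lk (V : Subgroup Γ) (θ θ' : Γ → E) : Prop :=
  ∃ (n n' : ℕ) (ρ : Γ →* Matrix (Fin n) (Fin n) E) (ρ' : Γ →* Matrix (Fin n') (Fin n') E),
    MIrr ρ ∧ MIrr ρ' ∧ chi ρ = θ ∧ chi ρ' = θ' ∧
      ∃ T : Matrix (Fin n') (Fin n) E, T ≠ 0 ∧ ∀ v ∈ V, ρ' v * T = T * ρ v

/-- the trace of `g` on the `V`-maps -/
def tau {r : ℕ} (k : Fin r → E) (u w : Fin r → Γ) (θ θ' : Γ → E) (g : Γ) : E :=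
  ∑ a, k a * (θ (u a * g) * θ' (g⁻¹ * w a))

/-- the linear map `φ ↦ U φ W` -/
def uw {m n : ℕ} (U : Matrix (Fin m) (Fin m) E) (W : Matrix (Fin n) (Fin n) E) :
    Matrix (Fin m) (Fin n) E →ₗ[E] Matrix (Fin m) (Fin n) E where
  toFun φ := U * φ * W
  map_add' a b := by rw [Matrix.mul_add, Matrix.add_mul]
  map_smul' c a := by
    rw [Matrix.mul_smul, Matrix.smul_mul, RingHom.id_apply]

/-- the element `∑ k_a u_a ⊗ w_a` of `E[V] ⊗ E[V]` acts as a projection of the matrices onto the `V`-maps `ρ → ρ'` -/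
structure Cs {n n' r : ℕ} (ρ : Γ →* Matrix (Fin n) (Fin n) E)
    (ρ' : Γ →* Matrix (Fin n') (Fin n') E) (V : Subgroup Γ) (k : Fin r → E) (u w : Fin r → Γ) :
    Prop where
  hu : ∀ a, u a ∈ V
  hw : ∀ a, w a ∈ V
  one : ∑ a, k a • ρ (u a * w a) = 1
  com : ∀ φ : Matrix (Fin n') (Fin n) E, ∀ v ∈ V,
    ∑ a, k a • (ρ' (v * u a) * φ * ρ (w a)) = ∑ a, k a • (ρ' (u a) * φ * ρ (w a * v))

/-- rational combination of roots of unity with small coefficients -/
def Bd (x : E) (b : ℝ) : Prop :=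
  ∃ (r : ℕ) (c : Fin r → ℚ) (z : Fin r → E), (∀ i, ∃ n : ℕ, 0 < n ∧ z i ^ n = 1) ∧
    x = ∑ i, (c i : E) * z i ∧ ∑ i, |(c i : ℝ)| ≤ b

theorem chi_one {n : ℕ} (ρ : Γ →* Matrix (Fin n) (Fin n) E) : chi ρ 1 = n := by
  rw [chi, map_one, Matrix.trace_one, Fintype.card_fin]

theorem dg_chi [CharZero E] {n : ℕ} (ρ : Γ →* Matrix (Fin n) (Fin n) E) : dg (chi ρ) = n := by
  have h : {k : ℕ | chi ρ 1 = (k : E)} = {n} := by
    ext k
    rw [Set.mem_ofPred_eq, chi_one, Nat.cast_inj, Set.mem_singleton_iff]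
    exact eq_comm
  rw [dg, h]
  exact csInf_singleton n

theorem chi_conj {n : ℕ} (ρ : Γ →* Matrix (Fin n) (Fin n) E) (g h : Γ) :
    chi ρ (h * g * h⁻¹) = chi ρ g := by
  rw [chi, map_mul, Matrix.trace_mul_comm, ← map_mul, ← mul_assoc, inv_mul_cancel, one_mul, chi]

theorem mem_Itw {n n' : ℕ} {ρ : Γ →* Matrix (Fin n) (Fin n) E}
    {ρ' : Γ →* Matrix (Fin n') (Fin n') E} {φ : Matrix (Fin n') (Fin n) E} :
    φ ∈ Itw ρ ρ' ↔ ∀ g, ρ' g * φ = φ * ρ g := Iff.rfl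

theorem uw_apply {m n : ℕ} (U : Matrix (Fin m) (Fin m) E) (W : Matrix (Fin n) (Fin n) E)
    (φ : Matrix (Fin m) (Fin n) E) : uw U W φ = U * φ * W := rfl

theorem Ich.dg_pos [CharZero E] {θ : Γ → E} (h : Ich θ) : 0 < dg θ := by
  obtain ⟨n, ρ, h1, rfl⟩ := h
  rw [dg_chi]
  exact Nat.pos_of_ne_zero h1.1

end Rep

section Fs

variable {X : Type*} [CommGroup X]

/-- the finite set `C` is a subgroup -/
def IsFS (C : Finset X) : Prop :=
  1 ∈ C ∧ (∀ a ∈ C, ∀ b ∈ C, a * b ∈ C) ∧ ∀ a ∈ C, a⁻¹ ∈ C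

end Fs

end Pool.Agent.H89.IP
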