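import Pool.Agent.H89.IP.Defs

/-!
# IP.Sep : separating element of the group algebra

PROOF. `M = (∀ i, Fin (n i) → E) × (∀ j, Fin (n' j) → E)` is a module over `R = MonoidAlgebra E V` (from the representation of `V` on the product, `Representation.asModule`, or `Module.compHom` with the algebra map to `Module.End E M`); it is semisimple, a finite product of semisimple modules (`h`, `h'`: complemented lattice
of invariant subspaces). Let `f (x, y) = (x, 0)`. `f` commutes with every `R`-endomorphism `e` of `M`: the component of `e` from the `i`-th factor of the first family to the `j`-th factor of the second family is a matrix in `Itw`, so `0` (`h1`), and the same in the other direction (`h2`). So `f ∈ End (End R M) M` and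
`jacobson_density` for the finite set of the standard basis vectors gives `r : R` with `r • b = f b` for all basis vectors, so `r • m = f m` for all `m` by linearity. Read off the components (`r` is a `V →₀ E`; take `x = r`). About 130 lines.
-/

set_option autoImplicit false

open Matrix

namespace Pool.Agent.H89.IP

variable {Γ E : Type*} [Group Γ] [Field E]


/-- the representation of a subgroup on the column vectors -/
private noncomputable def sepR (V : Subgroup Γ) {n : ℕ} (ρ : Γ →* Matrix (Fin n) (Fin n) E) :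
    Representation E V (Fin n → E) where
  toFun v := Matrix.toLin' (ρ v)
  map_one' := by
    rw [Subgroup.coe_one, map_one, Matrix.toLin'_one]
    rfl
  map_mul' u v := by
    rw [Subgroup.coe_mul, map_mul, Matrix.toLin'_mul]
    rfl

private theorem sepR_apply (V : Subgroup Γ) {n : ℕ} (ρ : Γ →* Matrix (Fin n) (Fin n) E) (v : V)
    (x : Fin n → E) : sepR V ρ v x = ρ v *ᵥ x := rfl

private theorem sep_act (V : Subgroup Γ) {n : ℕ} (ρ : Γ →* Matrix (Fin n) (Fin n) E)
    (r : MonoidAlgebra E V) (y : Fin n → E) :
    (sepR V ρ).asAlgebraHom r y = (∑ v ∈ r.coeff.support, r.coeff v • ρ v) *ᵥ y := by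
  have h1 : (∑ v ∈ r.coeff.support, r.coeff v • ρ v) *ᵥ y =
      Matrix.toLin' (∑ v ∈ r.coeff.support, r.coeff v • ρ v) y := rfl
  rw [h1, map_sum, Representation.asAlgebraHom_def, MonoidAlgebra.lift_apply, Finsupp.sum,
    LinearMap.sum_apply, LinearMap.sum_apply]
  refine Finset.sum_congr rfl fun v _ => ?_
  rw [map_smul]
  rfl

private theorem sep_ss (V : Subgroup Γ) {n : ℕ} (ρ : Γ →* Matrix (Fin n) (Fin n) E)
    (h : MSem (ρ.comp V.subtype)) :
    IsSemisimpleModule (MonoidAlgebra E V) (sepR V ρ).asModule := by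
  rw [← Representation.isSemisimpleRepresentation_iff_isSemisimpleModule_asModule]
  refine ⟨fun W => ?_⟩
  obtain ⟨W', h1, h2⟩ := h W.toSubmodule fun g x hx => W.apply_mem_toSubmodule g hx
  refine ⟨⟨W', fun g x hx => h1 g x hx⟩, ?_⟩
  constructor
  · rw [disjoint_iff]
    apply Subrepresentation.toSubmodule_injective
    exact h2.inf_eq_bot
  · rw [codisjoint_iff]
    apply Subrepresentation.toSubmodule_injective
    exact h2.sup_eq_top

/-- module maps are intertwining matrices -/
private theorem sep_zero (V : Subgroup Γ) {n m : ℕ} (ρ : Γ →* Matrix (Fin n) (Fin n) E)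
    (ρ' : Γ →* Matrix (Fin m) (Fin m) E)
    (h : Itw (ρ.comp V.subtype) (ρ'.comp V.subtype) = ⊥)
    (g : (sepR V ρ).asModule →ₗ[MonoidAlgebra E V] (sepR V ρ').asModule)
    (y : (sepR V ρ).asModule) : g y = 0 := by
  let g0 : (Fin n → E) →ₗ[E] (Fin m → E) :=
    { toFun := fun y => (sepR V ρ').asModuleEquiv (g ((sepR V ρ).asModuleEquiv.symm y))
      map_add' := fun a b => by rw [map_add, map_add, map_add]
      map_smul' := fun c a => by
        rw [Representation.asModuleEquiv_symm_map_smul, map_smul,
          Representation.asModuleEquiv_map_smul, AlgHom.commutes]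
        rfl }
  have hg0 : ∀ y, g0 y = (sepR V ρ').asModuleEquiv (g ((sepR V ρ).asModuleEquiv.symm y)) :=
    fun y => rfl
  have hmem : LinearMap.toMatrix' g0 ∈ Itw (ρ.comp V.subtype) (ρ'.comp V.subtype) := by
    intro v
    apply Matrix.toLin'.injective
    rw [Matrix.toLin'_mul, Matrix.toLin'_mul, Matrix.toLin'_toMatrix']
    apply LinearMap.ext
    intro y
    show sepR V ρ' v (g0 y) = g0 (sepR V ρ v y)
    rw [hg0, hg0, Representation.asModuleEquiv_symm_map_rho, map_smul,
      Representation.asModuleEquiv_map_smul, Representation.asAlgebraHom_of]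
  rw [h, Submodule.mem_bot] at hmem
  have h0 : g0 = 0 := by
    apply LinearMap.toMatrix'.injective
    rw [hmem, map_zero]
  have h1 := hg0 ((sepR V ρ).asModuleEquiv y)
  rw [h0, LinearEquiv.symm_apply_apply] at h1
  apply (sepR V ρ').asModuleEquiv.injective
  rw [← h1, map_zero]
  rfl

private theorem sep_gen {K : Type*} [Finite K] (V : Subgroup Γ) (N : K → ℕ)
    (σ : ∀ k, Γ →* Matrix (Fin (N k)) (Fin (N k)) E) (P : K → Prop)
    [DecidablePred P] (hs : ∀ k, MSem ((σ k).comp V.subtype))
    (h : ∀ k l, (P k ↔ ¬ P l) → Itw ((σ k).comp V.subtype) ((σ l).comp V.subtype) = ⊥) :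
    ∃ x : V →₀ E, ∀ k, ∑ v ∈ x.support, x v • σ k v = if P k then 1 else 0 := by
  classical
  have _ : Fintype K := Fintype.ofFinite K
  have _ : ∀ k, IsSemisimpleModule (MonoidAlgebra E V) (sepR V (σ k)).asModule :=
    fun k => sep_ss V (σ k) (hs k)
  let M : Type _ := ∀ k, (sepR V (σ k)).asModule
  have key : ∀ (e : Module.End (MonoidAlgebra E V) M) (l k : K), (P l ↔ ¬ P k) →
      ∀ y : (sepR V (σ l)).asModule, e (Pi.single l y) k = 0 := by
    intro e l k hlk y
    exact sep_zero V (σ l) (σ k) (h l k hlk)
      ((LinearMap.proj k) ∘ₗ e ∘ₗ (LinearMap.single (MonoidAlgebra E V)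
        (fun k => (sepR V (σ k)).asModule) l)) y
  have hdec : ∀ m : M, m = ∑ l, Pi.single l (m l) := fun m =>
    (Finset.univ_sum_single m).symm
  let f0 : M → M := fun m k => if P k then m k else 0
  have hf : ∀ (e : Module.End (MonoidAlgebra E V) M) (m : M), f0 (e m) = e (f0 m) := by
    intro e m
    funext k
    have h1 : e m k = ∑ l, e (Pi.single l (m l)) k := by
      conv_lhs => rw [hdec m]
      rw [map_sum, Finset.sum_apply]
    have h2 : e (f0 m) k = ∑ l, e (Pi.single l (f0 m l)) k := by
      conv_lhs => rw [hdec (f0 m)]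
      rw [map_sum, Finset.sum_apply]
    show (if P k then e m k else 0) = e (f0 m) k
    rw [h1, h2]
    by_cases hk : P k
    · rw [if_pos hk]
      refine Finset.sum_congr rfl fun l _ => ?_
      by_cases hl : P l
      · have h3 : f0 m l = m l := if_pos hl
        rw [h3]
      · rw [key e l k ⟨fun a => absurd a hl, fun a => absurd hk a⟩,
          key e l k ⟨fun a => absurd a hl, fun a => absurd hk a⟩]
    · rw [if_neg hk]
      symm
      refine Finset.sum_eq_zero fun l _ => ?_
      by_cases hl : P l
      · exact key e l k ⟨fun _ => hk, fun _ => hl⟩ _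
      · have h3 : f0 m l = 0 := if_neg hl
        rw [h3, Pi.single_zero, map_zero]
        rfl
  let f : Module.End (Module.End (MonoidAlgebra E V) M) M :=
    { toFun := f0
      map_add' := fun a b => by
        funext k
        show (if P k then a k + b k else 0) = (if P k then a k else 0) + (if P k then b k else 0)
        by_cases hk : P k
        · rw [if_pos hk, if_pos hk, if_pos hk]
        · rw [if_neg hk, if_neg hk, if_neg hk, add_zero]
      map_smul' := fun e m => hf e m }
  let s : Finset M := (Finset.univ : Finset (Σ k, Fin (N k))).image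
    fun p => Pi.single p.1 ((sepR V (σ p.1)).asModuleEquiv.symm (Pi.single p.2 1))
  obtain ⟨r, hr⟩ := jacobson_density f s
  refine ⟨r.coeff, fun k => ?_⟩
  apply Matrix.ext_of_mulVec_single
  intro a
  have h1 := hr (Pi.single k ((sepR V (σ k)).asModuleEquiv.symm (Pi.single a 1)))
    (Finset.mem_image.2 ⟨⟨k, a⟩, Finset.mem_univ _, rfl⟩)
  have h2 := congrFun h1 k
  have h3 : (r • (Pi.single k ((sepR V (σ k)).asModuleEquiv.symm (Pi.single a 1)) : M)) k =
      r • ((sepR V (σ k)).asModuleEquiv.symm (Pi.single a 1)) := by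
    show r • ((Pi.single k ((sepR V (σ k)).asModuleEquiv.symm (Pi.single a 1)) : M) k) = _
    rw [Pi.single_eq_same]
  have h4 : f (Pi.single k ((sepR V (σ k)).asModuleEquiv.symm (Pi.single a 1))) k =
      if P k then (sepR V (σ k)).asModuleEquiv.symm (Pi.single a 1) else 0 := by
    show (if P k then (Pi.single k ((sepR V (σ k)).asModuleEquiv.symm (Pi.single a 1)) : M) k
      else 0) = _
    rw [Pi.single_eq_same]
  rw [h3, h4] at h2
  have h5 := congrArg (sepR V (σ k)).asModuleEquiv h2
  rw [Representation.asModuleEquiv_map_smul, LinearEquiv.apply_symm_apply, sep_act] at h5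
  rw [← h5]
  by_cases hk : P k
  · rw [if_pos hk, if_pos hk, LinearEquiv.apply_symm_apply, Matrix.one_mulVec]
  · rw [if_neg hk, if_neg hk, map_zero, Matrix.zero_mulVec]

theorem sep {I J : Type*} [Finite I] [Finite J] (V : Subgroup Γ) (n : I → ℕ) (n' : J → ℕ)
    (ρ : ∀ i, Γ →* Matrix (Fin (n i)) (Fin (n i)) E)
    (ρ' : ∀ j, Γ →* Matrix (Fin (n' j)) (Fin (n' j)) E)
    (h : ∀ i, MSem ((ρ i).comp V.subtype)) (h' : ∀ j, MSem ((ρ' j).comp V.subtype))
    (h1 : ∀ i j, Itw ((ρ i).comp V.subtype) ((ρ' j).comp V.subtype) = ⊥)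
    (h2 : ∀ i j, Itw ((ρ' j).comp V.subtype) ((ρ i).comp V.subtype) = ⊥) :
    ∃ x : V →₀ E, (∀ i, ∑ v ∈ x.support, x v • ρ i v = 1) ∧
      ∀ j, ∑ v ∈ x.support, x v • ρ' j v = 0 := by
  obtain ⟨x, hx⟩ := sep_gen V (Sum.elim n n')
    (fun k => Sum.rec (motive := fun k => Γ →* Matrix (Fin (Sum.elim n n' k))
      (Fin (Sum.elim n n' k)) E) ρ ρ' k) (fun k => k.isLeft = true)
    (by
      rintro (i | j)
      · exact h i
      · exact h' j)
    (by
      rintro (i | i) (j | j) hk
      · simp at hk
      · exact h1 i j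
      · exact h2 j i
      · simp at hk)
  refine ⟨x, fun i => ?_, fun j => ?_⟩
  · exact (hx (Sum.inl i)).trans (if_pos rfl)
  · exact (hx (Sum.inr j)).trans (if_neg fun hc => Bool.noConfusion hc)


end Pool.Agent.H89.IP
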