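import Pool.Agent.H89.IP.Iso
import Pool.Agent.H89.IP.Sep

/-!
# IP.LkF : only finitely many characters share a constituent on V with a given one

PROOF. Let `θ = chi ρ`, `ρ` irreducible of size `d` (fixed), `Q = Γ ⧸ V`, `N = Nat.card Q`. It is enough to show for each of the two sets: every finite subset `S` has at most `N * d` elements (`Set.finite_of_forall...`, or `Set.Infinite.exists_subset_card_eq`). By `iso_chi` we may take the first (second) representation in `Lk` to be `ρ`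
(compose `T` with the isomorphism), choose `ρ_i`, `T_i` for `i ∈ S`.
(1) `T_i : θ → θ_i`: the linear map `Φ : (Q → Fin d → E) → ∀ i : S, (Fin (n i) → E)`, `Φ x i = ∑ q, ρ_i q.out T_i ρ q.out⁻¹ x_q` is surjective: its range is invariant under `Γ` (`ρ_i h ρ_i q.out T_i ρ q.out⁻¹ = ρ_i (h q).out T_i ρ (h q).out⁻¹ ρ h` since `h q.out = (h q).out v`); by `sep` for `V = ⊤` (one index `i` against the others, `sch_ne`)
there is an element of the group algebra which acts as `1` on the `i`-th factor and as `0` on the others, so the range contains the elements `(0, .., T_i-part, .., 0)`, a nonzero invariant subspace of the `i`-th factor, so the whole `i`-th factor. Dimensions: `S.card ≤ ∑ n_i ≤ N * d`.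
(2) `T_i : θ_i → θ`: `Ψ : (∀ i : S, (Fin (n i) → E)) → (Q → Fin d → E)`, `Ψ x q = ∑ i, ρ q.out T_i ρ_i q.out⁻¹ x_i` is injective: the kernel is invariant (same computation); with the element of the group algebra, if it is not `0` it contains an element `(0, .., x_i, .., 0)`, `x_i ≠ 0`, so the whole `i`-th factor, so `T_i = 0`. About 250 lines.
-/

set_option autoImplicit false

open Matrix

namespace Pool.Agent.H89.IP

variable {Γ E : Type*} [Group Γ] [Field E]

private theorem lkf_msem {n : ℕ} {ρ : Γ →* Matrix (Fin n) (Fin n) E} (h : MIrr ρ) :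
    MSem (ρ.comp (⊤ : Subgroup Γ).subtype) := by
  intro W hW
  rcases h.2 W (fun g x hx => hW ⟨g, Subgroup.mem_top g⟩ x hx) with h1 | h1
  · refine ⟨⊤, fun _ _ _ => trivial, ?_⟩
    rw [h1]
    exact isCompl_bot_top
  · refine ⟨⊥, fun g x hx => ?_, ?_⟩
    · rw [(Submodule.mem_bot E).1 hx, Matrix.mulVec_zero]
      exact Submodule.zero_mem _
    · rw [h1]
      exact isCompl_top_bot

private theorem lkf_itw {n n' : ℕ} {ρ : Γ →* Matrix (Fin n) (Fin n) E}
    {ρ' : Γ →* Matrix (Fin n') (Fin n') E} (h : MIrr ρ) (h' : MIrr ρ') (hne : chi ρ ≠ chi ρ') :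
    Itw (ρ.comp (⊤ : Subgroup Γ).subtype) (ρ'.comp (⊤ : Subgroup Γ).subtype) = ⊥ := by
  rw [eq_bot_iff]
  intro φ hφ
  have h1 : φ ∈ Itw ρ ρ' := fun g => hφ ⟨g, Subgroup.mem_top g⟩
  rwa [sch_ne h h' hne] at h1

private theorem lkf_core {I Q : Type*} [Fintype I] [Fintype Q] {d : ℕ} (n : I → ℕ)
    (ρ : ∀ i, Γ →* Matrix (Fin (n i)) (Fin (n i)) E) (hρ : ∀ i, MIrr (ρ i))
    (hne : ∀ i j, i ≠ j → chi (ρ i) ≠ chi (ρ j))
    (L : ∀ i, Matrix (Fin (n i)) (Fin (n i)) E →ₗ[E] (Fin d → E)) (hL : ∀ i, L i 1 ≠ 0) (r : Q → Γ)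
    (hr : ∀ c : I → E, (∀ q, ∑ i, c i • L i (ρ i (r q)) = 0) → ∀ g, ∑ i, c i • L i (ρ i g) = 0) :
    Fintype.card I ≤ Fintype.card Q * d := by
  classical
  let Φ : (I → E) →ₗ[E] (Q → Fin d → E) :=
    { toFun := fun c q => ∑ i, c i • L i (ρ i (r q))
      map_add' := by
        intro c c'
        funext q
        rw [Pi.add_apply, ← Finset.sum_add_distrib]
        exact Finset.sum_congr rfl fun i _ => by rw [Pi.add_apply, add_smul]
      map_smul' := by
        intro a c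
        funext q
        rw [Pi.smul_apply, Finset.smul_sum]
        exact Finset.sum_congr rfl fun i _ => by
          rw [Pi.smul_apply, smul_eq_mul, mul_smul, RingHom.id_apply] }
  have hΦ : ∀ c q, Φ c q = ∑ i, c i • L i (ρ i (r q)) := fun _ _ => rfl
  have hinj : Function.Injective Φ := by
    rw [injective_iff_map_eq_zero]
    intro c hc
    have h0 := hr c (fun q => by rw [← hΦ, hc]; rfl)
    funext i0
    obtain ⟨x, hx1, hx2⟩ := sep (I := Unit) (J := {i // i ≠ i0}) (⊤ : Subgroup Γ) (fun _ => n i0)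
      (fun j => n j.1) (fun _ => ρ i0) (fun j => ρ j.1) (fun _ => lkf_msem (hρ i0))
      (fun j => lkf_msem (hρ _)) (fun _ j => lkf_itw (hρ _) (hρ _) (hne _ _ (Ne.symm j.2)))
      (fun _ j => lkf_itw (hρ _) (hρ _) (hne _ _ j.2))
    have h2 : ∑ i, c i • L i (∑ v ∈ x.support, x v • ρ i v) = 0 := by
      have h3 : ∑ i, c i • L i (∑ v ∈ x.support, x v • ρ i v)
          = ∑ v ∈ x.support, x v • ∑ i, c i • L i (ρ i v) := by
        have h4 : ∀ i ∈ (Finset.univ : Finset I), c i • L i (∑ v ∈ x.support, x v • ρ i v)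
            = ∑ v ∈ x.support, x v • (c i • L i (ρ i v)) := by
          intro i _
          rw [map_sum, Finset.smul_sum]
          refine Finset.sum_congr rfl fun v _ => ?_
          rw [map_smul, smul_comm]
        rw [Finset.sum_congr rfl h4, Finset.sum_comm]
        exact Finset.sum_congr rfl fun v _ => Finset.smul_sum.symm
      rw [h3]
      exact Finset.sum_eq_zero fun v _ => by rw [h0 v, smul_zero]
    rw [Finset.sum_eq_single i0] at h2
    · rw [hx1 ()] at h2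
      exact (smul_eq_zero.1 h2).resolve_right (hL i0)
    · intro i _ hi
      rw [hx2 ⟨i, hi⟩, map_zero, smul_zero]
    · intro h
      exact absurd (Finset.mem_univ _) h
  have h1 := LinearMap.finrank_le_finrank_of_injective hinj
  rw [Module.finrank_fintype_fun_eq_card, Module.finrank_pi_fintype] at h1
  simpa using h1

private def lkfRow {n d : ℕ} (a : Fin n) (T : Matrix (Fin n) (Fin d) E) :
    Matrix (Fin n) (Fin n) E →ₗ[E] (Fin d → E) where
  toFun M := (M * T) a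
  map_add' A B := by rw [Matrix.add_mul]; rfl
  map_smul' c A := by rw [Matrix.smul_mul]; rfl

private def lkfCol {n d : ℕ} (b : Fin n) (T : Matrix (Fin d) (Fin n) E) :
    Matrix (Fin n) (Fin n) E →ₗ[E] (Fin d → E) where
  toFun M := fun a => (T * M) a b
  map_add' A B := by rw [Matrix.mul_add]; rfl
  map_smul' c A := by rw [Matrix.mul_smul]; rfl

private theorem lkfRow_mul {n d : ℕ} (a : Fin n) (T : Matrix (Fin n) (Fin d) E)
    (M A : Matrix (Fin n) (Fin n) E) (B : Matrix (Fin d) (Fin d) E) (h : A * T = T * B) :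
    lkfRow a T (M * A) = lkfRow a T M ᵥ* B := by
  show (M * A * T) a = (M * T) a ᵥ* B
  rw [Matrix.mul_assoc, h, ← Matrix.mul_assoc, Matrix.mul_apply_eq_vecMul]

private theorem lkfCol_mul {n d : ℕ} (b : Fin n) (T : Matrix (Fin d) (Fin n) E)
    (M A : Matrix (Fin n) (Fin n) E) (B : Matrix (Fin d) (Fin d) E) (h : B * T = T * A) :
    lkfCol b T (A * M) = B *ᵥ lkfCol b T M := by
  funext a
  show (T * (A * M)) a b = (B *ᵥ fun a => (T * M) a b) a
  rw [← Matrix.mul_assoc, ← h, Matrix.mul_assoc]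
  rfl

private theorem lkf_exRow {n d : ℕ} {T : Matrix (Fin n) (Fin d) E} (h : T ≠ 0) : ∃ a, T a ≠ 0 := by
  by_contra h1
  push Not at h1
  exact h (funext h1)

private theorem lkf_exCol {n d : ℕ} {T : Matrix (Fin d) (Fin n) E} (h : T ≠ 0) :
    ∃ b, (fun a => T a b) ≠ 0 := by
  by_contra h1
  push Not at h1
  refine h ?_
  funext a b
  exact congrFun (h1 b) a

private theorem lkf_one [CharZero E] [IsAlgClosed E] (V : Subgroup Γ) [Fintype (Γ ⧸ V)] {d : ℕ}
    {ρ : Γ →* Matrix (Fin d) (Fin d) E} (hρ : MIrr ρ) (t : Finset (Γ → E))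
    (ht : ∀ θ' ∈ t, Lk V (chi ρ) θ') : t.card ≤ Fintype.card (Γ ⧸ V) * d := by
  classical
  have h : ∀ i : {x // x ∈ t}, ∃ (n : ℕ) (ρ' : Γ →* Matrix (Fin n) (Fin n) E)
      (T : Matrix (Fin n) (Fin d) E) (a : Fin n), MIrr ρ' ∧ chi ρ' = i.1 ∧ T a ≠ 0 ∧
        ∀ v ∈ V, ρ' v * T = T * ρ v := by
    rintro ⟨θ', hθ'⟩
    obtain ⟨m, n, ρ0, ρ', h0, h1, h2, h3, T, hT0, hT⟩ := ht θ' hθ'
    obtain ⟨U, U', e1, e2, e3⟩ := iso_chi hρ h0 h2.symm
    have h4 : T * U ≠ 0 := by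
      intro h5
      refine hT0 ?_
      have h6 : T * U * U' = 0 := by rw [h5, Matrix.zero_mul]
      rwa [Matrix.mul_assoc, e1, Matrix.mul_one] at h6
    obtain ⟨a, ha⟩ := lkf_exRow h4
    refine ⟨n, ρ', T * U, a, h1, h3, ha, fun v hv => ?_⟩
    rw [← Matrix.mul_assoc, hT v hv, Matrix.mul_assoc, e3, Matrix.mul_assoc]
  choose n ρ' T a h1 h2 h3 h4 using h
  have h5 := lkf_core (Q := Γ ⧸ V) n ρ' h1 (fun i j hij => by
    rw [h2, h2]
    exact fun h => hij (Subtype.ext h)) (fun i => lkfRow (a i) (T i)) (fun i => by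
    show ((1 : Matrix (Fin (n i)) (Fin (n i)) E) * T i) (a i) ≠ 0
    rw [Matrix.one_mul]
    exact h3 i) (fun q => q.out) (fun c hc g => by
    have e1 : ((g : Γ ⧸ V).out)⁻¹ * g ∈ V := QuotientGroup.eq.1 (QuotientGroup.out_eq' (g : Γ ⧸ V))
    have e2 : g = (g : Γ ⧸ V).out * (((g : Γ ⧸ V).out)⁻¹ * g) := by group
    have e3 : ∀ i, lkfRow (a i) (T i) (ρ' i g)
        = lkfRow (a i) (T i) (ρ' i (g : Γ ⧸ V).out) ᵥ* ρ (((g : Γ ⧸ V).out)⁻¹ * g) := by
      intro i
      conv_lhs => rw [e2, map_mul]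
      exact lkfRow_mul _ _ _ _ _ (h4 i _ e1)
    have e4 := hc (g : Γ ⧸ V)
    calc ∑ i, c i • lkfRow (a i) (T i) (ρ' i g)
        = (∑ i, c i • lkfRow (a i) (T i) (ρ' i (g : Γ ⧸ V).out)) ᵥ* ρ (((g : Γ ⧸ V).out)⁻¹ * g) := by
          rw [Matrix.sum_vecMul]
          refine Finset.sum_congr rfl fun i _ => ?_
          rw [e3, Matrix.smul_vecMul]
      _ = 0 := by rw [e4, Matrix.zero_vecMul])
  rwa [Fintype.card_coe] at h5

private theorem lkf_two [CharZero E] [IsAlgClosed E] (V : Subgroup Γ) [V.Normal] [Fintype (Γ ⧸ V)]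
    {d : ℕ} {ρ : Γ →* Matrix (Fin d) (Fin d) E} (hρ : MIrr ρ) (t : Finset (Γ → E))
    (ht : ∀ θ' ∈ t, Lk V θ' (chi ρ)) : t.card ≤ Fintype.card (Γ ⧸ V) * d := by
  classical
  have h : ∀ i : {x // x ∈ t}, ∃ (n : ℕ) (ρ' : Γ →* Matrix (Fin n) (Fin n) E)
      (T : Matrix (Fin d) (Fin n) E) (b : Fin n), MIrr ρ' ∧ chi ρ' = i.1 ∧ (fun a => T a b) ≠ 0 ∧
        ∀ v ∈ V, ρ v * T = T * ρ' v := by
    rintro ⟨θ', hθ'⟩
    obtain ⟨n, m, ρ', ρ0, h1, h0, h3, h2, T, hT0, hT⟩ := ht θ' hθ'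
    obtain ⟨U, U', e1, e2, e3⟩ := iso_chi hρ h0 h2.symm
    have h4 : U' * T ≠ 0 := by
      intro h5
      refine hT0 ?_
      have h6 : U * (U' * T) = 0 := by rw [h5, Matrix.mul_zero]
      rwa [← Matrix.mul_assoc, e1, Matrix.one_mul] at h6
    have e4 : ∀ g, ρ g * U' = U' * ρ0 g := by
      intro g
      calc ρ g * U' = U' * U * (ρ g * U') := by rw [e2, Matrix.one_mul]
        _ = U' * (U * ρ g) * U' := by simp only [Matrix.mul_assoc]
        _ = U' * (ρ0 g * U) * U' := by rw [e3]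
        _ = U' * ρ0 g * (U * U') := by simp only [Matrix.mul_assoc]
        _ = U' * ρ0 g := by rw [e1, Matrix.mul_one]
    obtain ⟨b, hb⟩ := lkf_exCol h4
    refine ⟨n, ρ', U' * T, b, h1, h3, hb, fun v hv => ?_⟩
    rw [← Matrix.mul_assoc, e4, Matrix.mul_assoc, hT v hv, Matrix.mul_assoc]
  choose n ρ' T b h1 h2 h3 h4 using h
  have h5 := lkf_core (Q := Γ ⧸ V) n ρ' h1 (fun i j hij => by
    rw [h2, h2]
    exact fun h => hij (Subtype.ext h)) (fun i => lkfCol (b i) (T i)) (fun i => by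
    show (fun a => (T i * (1 : Matrix (Fin (n i)) (Fin (n i)) E)) a (b i)) ≠ 0
    rw [Matrix.mul_one]
    exact h3 i) (fun q => q.out) (fun c hc g => by
    have e0 : ((g : Γ ⧸ V).out)⁻¹ * g ∈ V := QuotientGroup.eq.1 (QuotientGroup.out_eq' (g : Γ ⧸ V))
    have e1 : g * ((g : Γ ⧸ V).out)⁻¹ ∈ V := by
      have e := Subgroup.Normal.conj_mem ‹V.Normal› _ e0 (g : Γ ⧸ V).out
      have e' : (g : Γ ⧸ V).out * (((g : Γ ⧸ V).out)⁻¹ * g) * ((g : Γ ⧸ V).out)⁻¹
        = g * ((g : Γ ⧸ V).out)⁻¹ := by group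
      rwa [e'] at e
    have e2 : g = (g * ((g : Γ ⧸ V).out)⁻¹) * (g : Γ ⧸ V).out := by group
    have e3 : ∀ i, lkfCol (b i) (T i) (ρ' i g)
        = ρ (g * ((g : Γ ⧸ V).out)⁻¹) *ᵥ lkfCol (b i) (T i) (ρ' i (g : Γ ⧸ V).out) := by
      intro i
      conv_lhs => rw [e2, map_mul]
      exact lkfCol_mul _ _ _ _ _ (h4 i _ e1)
    have e4 := hc (g : Γ ⧸ V)
    calc ∑ i, c i • lkfCol (b i) (T i) (ρ' i g)
        = ρ (g * ((g : Γ ⧸ V).out)⁻¹) *ᵥ (∑ i, c i • lkfCol (b i) (T i) (ρ' i (g : Γ ⧸ V).out)) := by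
          rw [Matrix.mulVec_sum]
          refine Finset.sum_congr rfl fun i _ => ?_
          rw [e3, Matrix.mulVec_smul]
      _ = 0 := by rw [e4, Matrix.mulVec_zero])
  rwa [Fintype.card_coe] at h5

theorem lkf [CharZero E] [IsAlgClosed E] (V : Subgroup Γ) [V.Normal] [V.FiniteIndex] {θ : Γ → E}
    (hθ : Ich θ) : {θ' | Lk V θ θ' ∨ Lk V θ' θ}.Finite := by
  obtain ⟨d, ρ, hρ, rfl⟩ := hθ
  let _ : Fintype (Γ ⧸ V) := Fintype.ofFinite _
  have h1 : {θ' | Lk V (chi ρ) θ'}.Finite := by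
    by_contra h
    obtain ⟨t, ht, hc⟩ := Set.Infinite.exists_subset_card_eq h (Fintype.card (Γ ⧸ V) * d + 1)
    have := lkf_one V hρ t fun θ' hθ' => ht hθ'
    omega
  have h2 : {θ' | Lk V θ' (chi ρ)}.Finite := by
    by_contra h
    obtain ⟨t, ht, hc⟩ := Set.Infinite.exists_subset_card_eq h (Fintype.card (Γ ⧸ V) * d + 1)
    have := lkf_two V hρ t fun θ' hθ' => ht hθ'
    omega
  exact h1.union h2


end Pool.Agent.H89.IP
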