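import Pool.Agent.H89.IP.Kex
import Pool.Agent.H89.IP.Fs

/-!
# IP.Pick : a good character

PROOF of `pick`. Take `k` from `kex`, `ε = 1 / (Θ.card * F.card + 1)`, for every `θ ∈ Θ` a `C_θ`, and a finite subgroup `C` containing all `C_θ` and `F` (`fs_ex`). The set of the `χ₂ ∈ C` such that `m (χ₂ * χ) θ ≠ k θ` for some `χ ∈ F`, `θ ∈ Θ` has at most `∑ χ ∈ F, ∑ θ ∈ Θ, #{χ' ∈ C | m χ' θ ≠ k θ} ≤ F.card * Θ.card * ε * C.card < C.card` elements (`χ₂ ↦ χ₂ * χ` is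
a bijection of `C`), so some `χ₂ ∈ C` is not in it. `kfin`: if `N + 1` different `θ` had `k θ ≠ 0`, `pick` with `F = {1}` gives `χ₂` with `m χ₂ θ = k θ ≥ 1` for all of them, all are in the support, `dg θ ≥ 1` (`S.mI`, `Ich.dg_pos`), so `S.mN` is violated. So the support of `k` is finite (`Set.Finite`, `Finsupp.onFinset` or `Finsupp.ofSupportFinite`); `θ` in the support is in the
support of `m χ₂` for the `χ₂` of `pick` for `{θ}`. About 110 lines.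
-/

set_option autoImplicit false

namespace Pool.Agent.H89.IP

variable {H E X Y : Type*} [Group H] [TopologicalSpace H] [Field E] [TopologicalSpace E]
  [CommGroup X] [Fintype Y] (S : Sys H E X Y)

namespace Sys

theorem pick [CharZero E] [IsAlgClosed E] [T2Space E] [IsTopologicalRing E] [IsTopologicalGroup H]
    [CompactSpace H] : ∃ k : (H → E) → ℕ, ∀ (Θ : Finset (H → E)) (F : Finset X),
      ∃ χ₂, ∀ χ ∈ F, ∀ θ ∈ Θ, S.m (χ₂ * χ) θ = k θ := by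
  classical
  obtain ⟨k, hk⟩ := S.kex
  refine ⟨k, fun Θ F => ?_⟩
  set ε : ℝ := 1 / (((F.card * Θ.card : ℕ) : ℝ) + 1) with hε
  have hε0 : 0 < ε := by positivity
  choose C₀ _ hC₀ using fun θ => hk θ ε hε0
  obtain ⟨C, hCs, hCsub⟩ := fs_ex S.tor ((Θ.biUnion C₀) ∪ F)
  have hF : F ⊆ C := Finset.subset_union_right.trans hCsub
  have hb : ∀ θ ∈ Θ, ((C.filter (fun χ => S.m χ θ ≠ k θ)).card : ℝ) ≤ ε * (C.card : ℝ) := by
    intro θ hθ
    refine hC₀ θ C hCs ?_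
    exact (Finset.subset_biUnion_of_mem C₀ hθ).trans (Finset.subset_union_left.trans hCsub)
  by_contra hcon
  push Not at hcon
  have hcov : C ⊆ F.biUnion fun χ => Θ.biUnion fun θ =>
      C.filter (fun χ₂ => S.m (χ₂ * χ) θ ≠ k θ) := by
    intro χ₂ h2
    obtain ⟨χ, hχ, θ, hθ, h3⟩ := hcon χ₂
    rw [Finset.mem_biUnion]
    refine ⟨χ, hχ, ?_⟩
    rw [Finset.mem_biUnion]
    refine ⟨θ, hθ, ?_⟩
    rw [Finset.mem_filter]
    exact ⟨h2, h3⟩
  have heach : ∀ χ ∈ F, ∀ θ : H → E, (C.filter (fun χ₂ => S.m (χ₂ * χ) θ ≠ k θ)).card ≤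
      (C.filter (fun χ' => S.m χ' θ ≠ k θ)).card := by
    intro χ hχ θ
    refine Finset.card_le_card_of_injOn (fun χ₂ => χ₂ * χ) ?_ ?_
    · intro χ₂ h2
      have h3 := Finset.mem_filter.1 (Finset.mem_coe.1 h2)
      exact Finset.mem_coe.2 (Finset.mem_filter.2 ⟨hCs.2.1 χ₂ h3.1 χ (hF hχ), h3.2⟩)
    · intro a _ b _ hab
      exact mul_right_cancel hab
  have hcard : (C.card : ℝ) ≤ ∑ χ ∈ F, ∑ θ ∈ Θ, ε * (C.card : ℝ) := by
    have h3 : C.card ≤ ∑ χ ∈ F, ∑ θ ∈ Θ, (C.filter (fun χ₂ => S.m (χ₂ * χ) θ ≠ k θ)).card :=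
      (Finset.card_le_card hcov).trans (Finset.card_biUnion_le.trans
        (Finset.sum_le_sum fun χ _ => Finset.card_biUnion_le))
    have h4 : (C.card : ℝ) ≤
        ((∑ χ ∈ F, ∑ θ ∈ Θ, (C.filter (fun χ₂ => S.m (χ₂ * χ) θ ≠ k θ)).card : ℕ) : ℝ) := by
      exact_mod_cast h3
    refine h4.trans ?_
    push_cast
    refine Finset.sum_le_sum fun χ hχ => Finset.sum_le_sum fun θ hθ => ?_
    refine le_trans ?_ (hb θ hθ)
    exact_mod_cast heach χ hχ θ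
  have hC0 : (0 : ℝ) < (C.card : ℝ) := by
    have : 0 < C.card := Finset.card_pos.2 ⟨1, hCs.1⟩
    exact_mod_cast this
  rw [Finset.sum_const, Finset.sum_const, nsmul_eq_mul, nsmul_eq_mul] at hcard
  have h5 : (F.card : ℝ) * ((Θ.card : ℝ) * (ε * (C.card : ℝ))) =
      (((F.card * Θ.card : ℕ) : ℝ) * ε) * (C.card : ℝ) := by
    push_cast
    ring
  have h6 : ((F.card * Θ.card : ℕ) : ℝ) * ε < 1 := by
    rw [hε, mul_one_div, div_lt_one (by positivity)]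
    linarith
  rw [h5] at hcard
  have h7 : (((F.card * Θ.card : ℕ) : ℝ) * ε) * (C.card : ℝ) < 1 * (C.card : ℝ) :=
    mul_lt_mul_of_pos_right h6 hC0
  linarith

theorem kfin [CharZero E] (k : (H → E) → ℕ)
    (hk : ∀ (Θ : Finset (H → E)) (F : Finset X), ∃ χ₂, ∀ χ ∈ F, ∀ θ ∈ Θ, S.m (χ₂ * χ) θ = k θ) :
    ∃ k' : (H → E) →₀ ℕ, (∀ θ, k' θ = k θ) ∧ ∀ θ ∈ k'.support, ∃ χ, θ ∈ (S.m χ).support := by
  classical
  have hsup : ∀ t : Finset (H → E), (∀ θ ∈ t, k θ ≠ 0) → ∃ χ, t ⊆ (S.m χ).support := by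
    intro t ht
    obtain ⟨χ₂, h2⟩ := hk t {1}
    refine ⟨χ₂ * 1, fun θ hθ => ?_⟩
    rw [Finsupp.mem_support_iff, h2 1 (Finset.mem_singleton_self _) θ hθ]
    exact ht θ hθ
  have hfin : (Function.support k).Finite := by
    by_contra hinf
    obtain ⟨t, ht, htc⟩ := Set.Infinite.exists_subset_card_eq hinf (S.N + 1)
    obtain ⟨χ, hχ⟩ := hsup t fun θ hθ => ht hθ
    have h3 := S.mN χ
    have h4 : t.card ≤ ∑ θ ∈ (S.m χ).support, S.m χ θ * dg θ := by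
      calc t.card = ∑ θ ∈ t, 1 := by rw [Finset.sum_const, smul_eq_mul, mul_one]
        _ ≤ ∑ θ ∈ t, S.m χ θ * dg θ := by
            refine Finset.sum_le_sum fun θ hθ => ?_
            have h5 := Nat.pos_of_ne_zero (Finsupp.mem_support_iff.1 (hχ hθ))
            have h6 := (S.mI χ θ (hχ hθ)).dg_pos
            exact Nat.mul_pos h5 h6
        _ ≤ ∑ θ ∈ (S.m χ).support, S.m χ θ * dg θ :=
            Finset.sum_le_sum_of_subset hχ
    omega
  refine ⟨Finsupp.ofSupportFinite k hfin, fun θ => rfl, fun θ hθ => ?_⟩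
  have h1 : k θ ≠ 0 := Finsupp.mem_support_iff.1 hθ
  obtain ⟨χ, hχ⟩ := hsup {θ} fun θ' h' => by
    rw [Finset.mem_singleton] at h'
    rw [h']; exact h1
  exact ⟨χ, hχ (Finset.mem_singleton_self θ)⟩


end Sys

end Pool.Agent.H89.IP
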