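import Pool.Agent.H89.IP.Sep
import Pool.Agent.H89.IP.Clif

/-!
# IP.SepV : equality on a coset of functions with different constituents

PROOF. Choose representations for the `θ ∈ S` and for the `θ ∈ S'` (index types `S`, `S'`), semisimple on `V` by `clif`. `hn` says that the spaces `Itw` over `V` are `⊥` in both directions (an element `T ≠ 0` of `Itw` is a witness of `Lk`). `sep`: `x`. `∑ v, x v * θ (g v) = θ g` for `θ ∈ S` (`θ (g v) = (ρ g * ρ v).trace`), `= 0` for `θ ∈ S'`. So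
`∑ θ ∈ S, c θ * θ g = ∑ v, x v * ∑ θ ∈ S, c θ θ (g v) = ∑ v, x v * ∑ θ ∈ S', c' θ θ (g v) = 0`. About 60 lines.
-/

set_option autoImplicit false

open Matrix

namespace Pool.Agent.H89.IP

variable {Γ E : Type*} [Group Γ] [Field E]

private theorem SepV_sum {n : ℕ} (ρ : Γ →* Matrix (Fin n) (Fin n) E) (V : Subgroup Γ) (x : V →₀ E)
    (g : Γ) : ∑ v ∈ x.support, x v * chi ρ (g * v) =
      (ρ g * ∑ v ∈ x.support, x v • ρ (v : Γ)).trace := by
  rw [Finset.mul_sum, Matrix.trace_sum]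
  refine Finset.sum_congr rfl fun v _ => ?_
  rw [Matrix.mul_smul, Matrix.trace_smul, chi, map_mul, smul_eq_mul]

private theorem SepV_bot {n n' : ℕ} (V : Subgroup Γ) (ρ : Γ →* Matrix (Fin n) (Fin n) E)
    (ρ' : Γ →* Matrix (Fin n') (Fin n') E) (h : MIrr ρ) (h' : MIrr ρ')
    (hl : ¬ Lk V (chi ρ) (chi ρ')) : Itw (ρ.comp V.subtype) (ρ'.comp V.subtype) = ⊥ := by
  by_contra hb
  obtain ⟨φ, hφ, hne⟩ := (Submodule.ne_bot_iff _).1 hb
  exact hl ⟨n, n', ρ, ρ', h, h', rfl, rfl, φ, hne, fun v hv => hφ ⟨v, hv⟩⟩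

theorem sepv (V : Subgroup Γ) [V.Normal] (S S' : Finset (Γ → E)) (hS : ∀ θ ∈ S, Ich θ)
    (hS' : ∀ θ ∈ S', Ich θ) (hn : ∀ θ ∈ S, ∀ θ' ∈ S', ¬ Lk V θ θ' ∧ ¬ Lk V θ' θ)
    (c c' : (Γ → E) → E) (g : Γ)
    (h : ∀ v ∈ V, ∑ θ ∈ S, c θ * θ (g * v) = ∑ θ ∈ S', c' θ * θ (g * v)) :
    ∑ θ ∈ S, c θ * θ g = 0 := by
  choose n ρ hi hc using fun i : S => hS i.1 i.2
  choose n' ρ' hi' hc' using fun i : S' => hS' i.1 i.2
  have b1 : ∀ (i : S) (j : S'), Itw ((ρ i).comp V.subtype) ((ρ' j).comp V.subtype) = ⊥ := by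
    intro i j
    refine SepV_bot V (ρ i) (ρ' j) (hi i) (hi' j) ?_
    rw [hc i, hc' j]
    exact (hn i.1 i.2 j.1 j.2).1
  have b2 : ∀ (i : S) (j : S'), Itw ((ρ' j).comp V.subtype) ((ρ i).comp V.subtype) = ⊥ := by
    intro i j
    refine SepV_bot V (ρ' j) (ρ i) (hi' j) (hi i) ?_
    rw [hc i, hc' j]
    exact (hn i.1 i.2 j.1 j.2).2
  obtain ⟨x, hx1, hx2⟩ := sep V n n' ρ ρ' (fun i => clif (hi i) V) (fun j => clif (hi' j) V) b1 b2
  have e1 : ∀ θ ∈ S, ∑ v ∈ x.support, x v * θ (g * v) = θ g := by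
    intro θ hθ
    have h1 := SepV_sum (ρ ⟨θ, hθ⟩) V x g
    rw [hx1 ⟨θ, hθ⟩, mul_one, hc ⟨θ, hθ⟩] at h1
    rw [h1]
    exact congrFun (hc ⟨θ, hθ⟩) g
  have e2 : ∀ θ ∈ S', ∑ v ∈ x.support, x v * θ (g * v) = 0 := by
    intro θ hθ
    have h1 := SepV_sum (ρ' ⟨θ, hθ⟩) V x g
    rw [hx2 ⟨θ, hθ⟩, mul_zero, Matrix.trace_zero, hc' ⟨θ, hθ⟩] at h1
    exact h1
  calc ∑ θ ∈ S, c θ * θ g
      = ∑ θ ∈ S, ∑ v ∈ x.support, x v * (c θ * θ (g * v)) := by
        refine Finset.sum_congr rfl fun θ hθ => ?_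
        rw [← e1 θ hθ, Finset.mul_sum]
        refine Finset.sum_congr rfl fun v _ => ?_
        ring
    _ = ∑ v ∈ x.support, x v * ∑ θ ∈ S, c θ * θ (g * v) := by
        rw [Finset.sum_comm]
        refine Finset.sum_congr rfl fun v _ => ?_
        rw [Finset.mul_sum]
    _ = ∑ v ∈ x.support, x v * ∑ θ ∈ S', c' θ * θ (g * v) := by
        refine Finset.sum_congr rfl fun v _ => ?_
        rw [h v.1 v.2]
    _ = ∑ θ ∈ S', ∑ v ∈ x.support, x v * (c' θ * θ (g * v)) := by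
        rw [Finset.sum_comm]
        refine Finset.sum_congr rfl fun v _ => ?_
        rw [Finset.mul_sum]
    _ = ∑ θ ∈ S', c' θ * ∑ v ∈ x.support, x v * θ (g * v) := by
        refine Finset.sum_congr rfl fun θ _ => ?_
        rw [Finset.mul_sum]
        refine Finset.sum_congr rfl fun v _ => ?_
        ring
    _ = 0 := by
        refine Finset.sum_eq_zero fun θ hθ => ?_
        rw [e2 θ hθ, mul_zero]

end Pool.Agent.H89.IP
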