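import Pool.Agent.H89.IP.Avg
import Pool.Agent.H89.IP.BOp
import Pool.Agent.H89.IP.SepV
import Pool.Agent.H89.IP.LkF
import Pool.Agent.H89.IP.Pick

/-!
# IP.Pt : the pointwise identity

PROOF. `V = S.V C`, normal, open, of finite index. For `χ₂ : X` let `f χ₂ h = ∑ χ ∈ C, T (χ₂ * χ) h`. For `h ∈ g V`: `h ∉ S.Bad C` (`bad_mul`), and if `h` is in the `D χ`, `χ ∈ C ∪ χ₂ C`, then `f χ₂ h = card * a h = f 1 h` (`avgA`). By continuity and `ext1`: `f χ₂ = f 1` on `g V`. `hk` with `Θ = k.support`, `F = C` gives `χ₂`. Let `Θ₂` be the union of the supports of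
`m (χ₂ * χ)`, `χ ∈ C`, minus `k.support`. Then `f χ₂ h = card * ∑ θ ∈ k.support, k θ θ h + ∑ θ ∈ Θ₂, c₂ θ * θ h`, `c₂ θ = ∑ χ ∈ C, m (χ₂ * χ) θ`. Let `Θ₂'` be the finite set of the `θ'` which are linked to some `θ ∈ Θ₂` (`lkf`, `S.mI`). `hk` with `Θ = k.support ∪ Θ₂'`, `F = C` gives `χ₃`; `Θ₃`, `c₃` as before. No `θ' ∈ Θ₃` is in `Θ₂'`: otherwise `m (χ₃ * χ) θ' = k θ' = 0` for all
`χ ∈ C`. `f χ₂ = f χ₃` on `g V`, so `∑ θ ∈ Θ₂, c₂ θ * θ (g v) = ∑ θ ∈ Θ₃, c₃ θ * θ (g v)` for `v ∈ V`; `sepv`: `∑ θ ∈ Θ₂, c₂ θ * θ g = 0`. So `f 1 g = f χ₂ g = card * ∑ k θ θ g`. `pt_a`: `avgA` with `χ₂ = 1`, divide by `card ≠ 0`. About 170 lines.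
-/

set_option autoImplicit false

namespace Pool.Agent.H89.IP

variable {H E X Y : Type*} [Group H] [TopologicalSpace H] [Field E] [TopologicalSpace E]
  [CommGroup X] [Fintype Y] (S : Sys H E X Y)

namespace Sys

variable [CharZero E] [IsAlgClosed E] [T2Space E] [IsTopologicalRing E] [IsTopologicalGroup H]
  [CompactSpace H] (k : (H → E) →₀ ℕ)

omit [CharZero E] [IsAlgClosed E] [T2Space E] [IsTopologicalRing E] [IsTopologicalGroup H]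
  [CompactSpace H] in
open Classical in
private theorem pt_exp {C : Finset X} (χ₂ : X)
    (hχ : ∀ χ ∈ C, ∀ θ ∈ k.support, S.m (χ₂ * χ) θ = k θ) (h : H) :
    ∑ χ ∈ C, S.T (χ₂ * χ) h = (C.card : E) * (∑ θ ∈ k.support, (k θ : E) * θ h) +
      ∑ θ ∈ (C.biUnion fun χ => (S.m (χ₂ * χ)).support) \ k.support,
        (∑ χ ∈ C, (S.m (χ₂ * χ) θ : E)) * θ h := by
  have h1 : ∀ χ ∈ C, S.T (χ₂ * χ) h = (∑ θ ∈ k.support, (k θ : E) * θ h) +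
      ∑ θ ∈ (C.biUnion fun χ => (S.m (χ₂ * χ)).support) \ k.support,
        (S.m (χ₂ * χ) θ : E) * θ h := by
    intro χ hC
    rw [S.mT]
    have h2 : ∑ θ ∈ k.support, (k θ : E) * θ h = ∑ θ ∈ k.support, (S.m (χ₂ * χ) θ : E) * θ h :=
      Finset.sum_congr rfl fun θ hθ => by rw [hχ χ hC θ hθ]
    rw [h2, ← Finset.sum_union Finset.disjoint_sdiff]
    refine Finset.sum_subset ?_ ?_
    · intro θ hθ
      rw [Finset.union_sdiff_self_eq_union]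
      exact Finset.mem_union_right _ (Finset.mem_biUnion.2 ⟨χ, hC, hθ⟩)
    · intro θ _ hθ
      rw [Finsupp.notMem_support_iff.1 hθ, Nat.cast_zero, zero_mul]
  rw [Finset.sum_congr rfl h1, Finset.sum_add_distrib, Finset.sum_const, nsmul_eq_mul,
    Finset.sum_comm]
  congr 1
  exact Finset.sum_congr rfl fun θ _ => by rw [Finset.sum_mul]

omit [CharZero E] [IsAlgClosed E] in
private theorem pt_coset {C : Finset X} (hC : IsFS C) {g : H} (hg : g ∉ S.Bad C) (χ₂ χ₃ : X)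
    {v : H} (hv : v ∈ S.V C) :
    ∑ χ ∈ C, S.T (χ₂ * χ) (g * v) = ∑ χ ∈ C, S.T (χ₃ * χ) (g * v) := by
  classical
  have hU : IsOpen {h : H | g⁻¹ * h ∈ S.V C} :=
    (S.isOpen_V C).preimage (continuous_const.mul continuous_id)
  have hcT : ∀ χ : X, Continuous fun h => ∑ χ' ∈ C, S.T (χ * χ') h := fun χ =>
    continuous_finsetSum _ fun χ' _ => S.cT _
  have h1 := S.ext1 (C.image (fun χ => χ₂ * χ) ∪ C.image fun χ => χ₃ * χ)
    (f := fun h => ∑ χ ∈ C, S.T (χ₂ * χ) h - ∑ χ ∈ C, S.T (χ₃ * χ) h)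
    ((hcT χ₂).sub (hcT χ₃)) hU (fun h hh hD => by
      have hb : h ∉ S.Bad C := by
        intro hb
        apply hg
        have h2 := S.bad_mul hh g
        rw [mul_inv_cancel_left] at h2
        exact h2.1 hb
      have e2 := S.avgA hC χ₂ (g := h) (fun χ hχ => hD _ (Finset.mem_union_left _
        (Finset.mem_image_of_mem _ hχ))) hb
      have e3 := S.avgA hC χ₃ (g := h) (fun χ hχ => hD _ (Finset.mem_union_right _
        (Finset.mem_image_of_mem _ hχ))) hb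
      show ∑ χ ∈ C, S.T (χ₂ * χ) h - ∑ χ ∈ C, S.T (χ₃ * χ) h = 0
      rw [e2, e3, sub_self])
  have h2 := h1 (g * v) (by
    show g⁻¹ * (g * v) ∈ S.V C
    rw [inv_mul_cancel_left]
    exact hv)
  exact sub_eq_zero.1 h2

theorem pt (hk : ∀ (Θ : Finset (H → E)) (F : Finset X), ∃ χ₂, ∀ χ ∈ F, ∀ θ ∈ Θ,
    S.m (χ₂ * χ) θ = k θ) {C : Finset X} (hC : IsFS C) {g : H} (hg : g ∉ S.Bad C) :
    ∑ χ ∈ C, S.T χ g = (C.card : E) * ∑ θ ∈ k.support, (k θ : E) * θ g := by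
  classical
  obtain ⟨χ₂, h2⟩ := hk k.support C
  have h2' : ∀ χ ∈ C, ∀ θ ∈ k.support, S.m (χ₂ * χ) θ = k θ := h2
  obtain ⟨Θ₂, hΘ₂⟩ : ∃ Θ₂ : Finset (H → E), Θ₂ =
    (C.biUnion fun χ => (S.m (χ₂ * χ)).support) \ k.support := ⟨_, rfl⟩
  have hI : ∀ χ' : X, ∀ θ ∈ (C.biUnion fun χ => (S.m (χ' * χ)).support) \ k.support, Ich θ := by
    intro χ' θ hθ
    obtain ⟨χ, _, h3⟩ := Finset.mem_biUnion.1 (Finset.mem_sdiff.1 hθ).1
    exact S.mI _ θ h3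
  have : (S.V C).FiniteIndex := S.fin_V C
  have hfin : (⋃ θ ∈ (Θ₂ : Set (H → E)), {θ' | Lk (S.V C) θ θ' ∨ Lk (S.V C) θ' θ}).Finite := by
    refine Set.Finite.biUnion Θ₂.finite_toSet fun θ hθ => ?_
    refine lkf (S.V C) ?_
    rw [hΘ₂] at hθ
    exact hI χ₂ θ hθ
  obtain ⟨χ₃, h3⟩ := hk (k.support ∪ hfin.toFinset) C
  have h3' : ∀ χ ∈ C, ∀ θ ∈ k.support, S.m (χ₃ * χ) θ = k θ := fun χ hχ θ hθ =>
    h3 χ hχ θ (Finset.mem_union_left _ hθ)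
  have hn : ∀ θ ∈ Θ₂, ∀ θ' ∈ (C.biUnion fun χ => (S.m (χ₃ * χ)).support) \ k.support,
      ¬ Lk (S.V C) θ θ' ∧ ¬ Lk (S.V C) θ' θ := by
    intro θ hθ θ' hθ'
    rw [← not_or]
    intro hl
    obtain ⟨h4, h5⟩ := Finset.mem_sdiff.1 hθ'
    obtain ⟨χ, hχ, h6⟩ := Finset.mem_biUnion.1 h4
    have h7 : θ' ∈ hfin.toFinset := by
      rw [Set.Finite.mem_toFinset]
      exact Set.mem_biUnion (Finset.mem_coe.2 hθ) hl
    have h8 := h3 χ hχ θ' (Finset.mem_union_right _ h7)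
    rw [Finsupp.notMem_support_iff.1 h5] at h8
    exact Finsupp.mem_support_iff.1 h6 h8
  have key : ∀ v ∈ S.V C,
      ∑ θ ∈ Θ₂, (∑ χ ∈ C, (S.m (χ₂ * χ) θ : E)) * θ (g * v) =
      ∑ θ ∈ (C.biUnion fun χ => (S.m (χ₃ * χ)).support) \ k.support,
        (∑ χ ∈ C, (S.m (χ₃ * χ) θ : E)) * θ (g * v) := by
    intro v hv
    have e1 := pt_coset S hC hg χ₂ χ₃ hv
    rw [pt_exp S k χ₂ h2', pt_exp S k χ₃ h3', ← hΘ₂] at e1
    exact add_left_cancel e1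
  have hz := sepv (S.V C) Θ₂ ((C.biUnion fun χ => (S.m (χ₃ * χ)).support) \ k.support)
    (fun θ hθ => hI χ₂ θ (by rw [← hΘ₂]; exact hθ)) (hI χ₃) hn _ _ g key
  have e2 := pt_coset S hC hg 1 χ₂ (S.V C).one_mem
  rw [mul_one] at e2
  simp only [one_mul] at e2
  rw [e2, pt_exp S k χ₂ h2', ← hΘ₂, hz, add_zero]

theorem pt_a (hk : ∀ (Θ : Finset (H → E)) (F : Finset X), ∃ χ₂, ∀ χ ∈ F, ∀ θ ∈ Θ,
    S.m (χ₂ * χ) θ = k θ) {C : Finset X} (hC : IsFS C) {g : H} (hg : g ∉ S.Bad C)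
    (hD : ∀ χ ∈ C, g ∈ S.D χ) : S.a g = ∑ θ ∈ k.support, (k θ : E) * θ g := by
  have h1 := S.pt k hk hC hg
  have h2 := S.avgA hC 1 (g := g) (fun χ hχ => by rw [one_mul]; exact hD χ hχ) hg
  simp only [one_mul] at h2
  rw [h2] at h1
  have h3 : (C.card : E) ≠ 0 := Nat.cast_ne_zero.2 (Finset.card_ne_zero.2 ⟨1, hC.1⟩)
  exact mul_left_cancel₀ h3 h1


end Sys

end Pool.Agent.H89.IP
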