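import Pool.Agent.H89.IP.Mk
import Pool.Agent.H89.IP.Pt
import Pool.Agent.H89.IP.DSum

/-!
# IP.Ex : existence of the representation on H

PROOF. `exists_sys`: `S` (`Fintype.ofFinite`). `H` is a compact topological group (closed in the compact group `G`: `Subgroup.isClosed_of_isOpen`, `isCompact_iff_compactSpace`). `S.pick`: `k`, `S.kfin`: `k'` with finite support; `mk_rho` with `K = ∅` and the representations of `exists_sys` (`θ ∈ k'.support` is in the support of some `m χ`; `MIrr.sem`): `ρ` with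
`chi ρ = ∑ k' θ θ`. `pt_a`: `a h = chi ρ h` for `h ∉ Bad C`, `h ∈ D χ`, `χ ∈ C`. About 60 lines.
-/

set_option autoImplicit false

open Matrix

namespace Pool.Agent.H89.IP

variable {G E : Type*} [Group G] [TopologicalSpace G] [Field E] [TopologicalSpace E]
  {H : Subgroup G} {N : ℕ} {X : Subgroup (H →* Eˣ)}

theorem ex_rho [CharZero E] [IsAlgClosed E] [IsTopologicalGroup G] [CompactSpace G]
    [IsTopologicalRing E] [T2Space E] [H.FiniteIndex] (Dt : GDat G E H N X) :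
    ∃ (n : ℕ) (ρ : H →* Matrix (Fin n) (Fin n) E), MSem ρ ∧ Continuous ρ ∧
      ∀ C : Finset X, IsFS C → ∀ h : H, h ∉ Dt.BadH C → (∀ χ ∈ C, (h : G) ∈ Dt.D χ) →
        Dt.a h = chi ρ h := by
  classical
  have hfin : Finite (G ⧸ H) := Subgroup.finite_quotient_of_finiteIndex
  let _ : Fintype {q : G ⧸ H // q ≠ ((1 : G) : G ⧸ H)} := Fintype.ofFinite _
  have hcomp : CompactSpace H :=
    isCompact_iff_compactSpace.1 (Subgroup.isClosed_of_isOpen H Dt.hH).isCompact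
  obtain ⟨S, ha, hD, hB, hm⟩ := exists_sys Dt
  obtain ⟨k, hk⟩ := S.pick
  obtain ⟨k', hk1, hk2⟩ := S.kfin k hk
  have hrep : ∀ θ ∈ k'.support, ∃ (n : ℕ) (ρ : H →* Matrix (Fin n) (Fin n) E),
      MSem ρ ∧ chi ρ = θ ∧ Continuous ρ ∧ ∀ g ∈ (∅ : Set H), ρ g = 1 := by
    intro θ hθ
    obtain ⟨χ, hχ⟩ := hk2 θ hθ
    obtain ⟨n, ρ, h1, h2, h3⟩ := hm χ θ hχ
    exact ⟨n, ρ, h1.sem, h2, h3, fun g hg => absurd hg (Set.notMem_empty g)⟩
  obtain ⟨n, ρ, h1, h2, h3, -⟩ := mk_rho (∅ : Set H) k' hrep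
  refine ⟨n, ρ, h1, h2, fun C hC h hb hd => ?_⟩
  have hk' : ∀ (Θ : Finset (H → E)) (F : Finset X), ∃ χ₂, ∀ χ ∈ F, ∀ θ ∈ Θ,
      S.m (χ₂ * χ) θ = k' θ := by
    intro Θ F
    obtain ⟨χ₂, hχ₂⟩ := hk Θ F
    exact ⟨χ₂, fun χ hχ θ hθ => by rw [hk1]; exact hχ₂ χ hχ θ hθ⟩
  rw [← ha, h3]
  refine S.pt_a k' hk' hC (by rw [hB]; exact hb) ?_
  intro χ hχ
  rw [hD]
  exact hd χ hχ


end Pool.Agent.H89.IP
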