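import Pool.Agent.H89.IP.GDat

/-!
# IP.IndF : the induced class function

PROOF. `G ⧸ H` is finite (`H.FiniteIndex`), so the finite sum `finsum_eq_sum_of_fintype`. `ind_cont`: `H` is open and closed (`Subgroup.isClosed_of_isOpen`), `g ↦ q.out⁻¹ g q.out` is continuous, so `g ↦ if h : .. ∈ H then f ⟨.., h⟩ else 0` is continuous (locally it is one of the two cases). `ind_add`, `ind_one`: clear (`f 1`, `H.index` terms, `Nat.card (G ⧸ H) = H.index`). `ind_H`: for `h ∈ H` the
coset `q = 1` has `q.out ∈ H`, so the term is `f (q.out⁻¹ h q.out) = f h`; the other cosets form the type `{q // q ≠ 1}`. `ind_conj`: `f` is `H`-invariant, so `q.out` can be replaced by any element of the coset; `x⁻¹ g x` permutes the cosets. `ind_rep`: another representative `x` of the coset. About 130 lines.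
-/

set_option autoImplicit false

open Matrix

namespace Pool.Agent.H89.IP

variable {G E : Type*} [Group G] [TopologicalSpace G] [Field E] [TopologicalSpace E]
  {H : Subgroup G} {N : ℕ} {X : Subgroup (H →* Eˣ)}

open Classical in
theorem ind_rep {H : Subgroup G} (f : H → E) (cl : ∀ g h : H, f (h⁻¹ * g * h) = f g) (g x : G) :
    (if h : ((x : G ⧸ H).out)⁻¹ * g * (x : G ⧸ H).out ∈ H then
        f ⟨((x : G ⧸ H).out)⁻¹ * g * (x : G ⧸ H).out, h⟩ else 0) =
      if h : x⁻¹ * g * x ∈ H then f ⟨x⁻¹ * g * x, h⟩ else 0 := by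
  obtain ⟨h0, hh0⟩ := QuotientGroup.mk_out_eq_mul H x
  have e : ((x : G ⧸ H).out)⁻¹ * g * (x : G ⧸ H).out =
      (h0 : G)⁻¹ * (x⁻¹ * g * x) * (h0 : G) := by
    rw [hh0]; group
  have iff1 : ((x : G ⧸ H).out)⁻¹ * g * (x : G ⧸ H).out ∈ H ↔ x⁻¹ * g * x ∈ H := by
    rw [e]
    constructor
    · intro h
      have h2 := H.mul_mem (H.mul_mem h0.2 h) (H.inv_mem h0.2)
      have e2 : (h0 : G) * ((h0 : G)⁻¹ * (x⁻¹ * g * x) * (h0 : G)) * (h0 : G)⁻¹ =
          x⁻¹ * g * x := by group
      rwa [e2] at h2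
    · intro h
      exact H.mul_mem (H.mul_mem (H.inv_mem h0.2) h) h0.2
  by_cases hx : x⁻¹ * g * x ∈ H
  · rw [dif_pos hx, dif_pos (iff1.2 hx), ← cl ⟨x⁻¹ * g * x, hx⟩ h0]
    exact congrArg f (Subtype.ext e)
  · rw [dif_neg hx, dif_neg (fun h => hx (iff1.1 h))]

open Classical in
private theorem IndF_base [IsTopologicalGroup G]
    (hH : IsOpen (H : Set G)) {f : H → E} (cf : Continuous f) :
    Continuous (fun x : G => if h : x ∈ H then f ⟨x, h⟩ else 0) := by
  rw [continuous_iff_continuousAt]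
  intro x
  by_cases hx : x ∈ H
  · have he : Topology.IsOpenEmbedding (Subtype.val : H → G) := hH.isOpenEmbedding_subtypeVal
    have h1 : (fun x : G => if h : x ∈ H then f ⟨x, h⟩ else 0) ∘ (Subtype.val : H → G) = f := by
      funext y
      show (if h : (y : G) ∈ H then f ⟨y, h⟩ else 0) = f y
      rw [dif_pos y.2]
    have h2 : ContinuousAt ((fun x : G => if h : x ∈ H then f ⟨x, h⟩ else 0) ∘
        (Subtype.val : H → G)) ⟨x, hx⟩ := by
      rw [h1]; exact cf.continuousAt
    exact he.continuousAt_iff.1 h2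
  · have hcl : IsClosed (H : Set G) := Subgroup.isClosed_of_isOpen H hH
    have hn : (H : Set G)ᶜ ∈ nhds x := hcl.isOpen_compl.mem_nhds hx
    refine ContinuousAt.congr (f := fun _ : G => (0 : E)) continuousAt_const ?_
    filter_upwards [hn] with y hy
    have hy' : y ∉ H := fun h => hy h
    rw [dif_neg hy']

theorem ind_cont [IsTopologicalGroup G] [IsTopologicalRing E] [H.FiniteIndex]
    (hH : IsOpen (H : Set G)) {f : H → E} (cf : Continuous f) : Continuous (ind H f) := by
  classical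
  have : Fintype (G ⧸ H) := Fintype.ofFinite _
  have e : ind H f = fun g => ∑ q : G ⧸ H,
      if h : q.out⁻¹ * g * q.out ∈ H then f ⟨q.out⁻¹ * g * q.out, h⟩ else 0 := by
    funext g
    rw [ind, finsum_eq_sum_of_fintype]
  rw [e]
  refine continuous_finsetSum _ fun q _ => ?_
  have h1 := (IndF_base hH cf).comp
    ((continuous_const.mul continuous_id).mul continuous_const :
      Continuous fun g : G => q.out⁻¹ * g * q.out)
  refine h1.congr fun g => ?_
  show (if h : q.out⁻¹ * g * q.out ∈ H then f ⟨q.out⁻¹ * g * q.out, h⟩ else 0) = _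
  by_cases hq : q.out⁻¹ * g * q.out ∈ H
  · simp only [dif_pos hq]
  · simp only [dif_neg hq]

theorem ind_add [H.FiniteIndex] (f f' : H → E) (g : G) :
    ind H (fun h => f h + f' h) g = ind H f g + ind H f' g := by
  classical
  have : Fintype (G ⧸ H) := Fintype.ofFinite _
  rw [ind, ind, ind, finsum_eq_sum_of_fintype, finsum_eq_sum_of_fintype,
    finsum_eq_sum_of_fintype, ← Finset.sum_add_distrib]
  refine Finset.sum_congr rfl fun q _ => ?_
  by_cases hq : q.out⁻¹ * g * q.out ∈ H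
  · rw [dif_pos hq, dif_pos hq, dif_pos hq]
  · rw [dif_neg hq, dif_neg hq, dif_neg hq, add_zero]

theorem ind_one [H.FiniteIndex] (f : H → E) : ind H f 1 = (H.index : E) * f 1 := by
  classical
  have : Fintype (G ⧸ H) := Fintype.ofFinite _
  rw [ind, finsum_eq_sum_of_fintype]
  have h1 : ∀ q ∈ (Finset.univ : Finset (G ⧸ H)),
      (if h : q.out⁻¹ * 1 * q.out ∈ H then f ⟨q.out⁻¹ * 1 * q.out, h⟩ else 0) = f 1 := by
    intro q _
    have e : q.out⁻¹ * 1 * q.out = 1 := by group
    have hq : q.out⁻¹ * 1 * q.out ∈ H := by rw [e]; exact H.one_mem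
    rw [dif_pos hq]
    exact congrArg f (Subtype.ext e)
  have h2 : ∑ q : G ⧸ H,
      (if h : q.out⁻¹ * 1 * q.out ∈ H then f ⟨q.out⁻¹ * 1 * q.out, h⟩ else 0) =
      ∑ _q : G ⧸ H, f 1 := by
    refine Finset.sum_congr rfl fun q hq => ?_
    rw [← h1 q hq]
  refine Eq.trans ?_ (h2.trans ?_)
  · refine Finset.sum_congr rfl fun q _ => ?_
    by_cases hq : q.out⁻¹ * 1 * q.out ∈ H
    · simp only [dif_pos hq]
    · simp only [dif_neg hq]
  · rw [Finset.sum_const, Finset.card_univ, nsmul_eq_mul, Subgroup.index, Nat.card_eq_fintype_card]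

open Classical in
theorem ind_H [Fintype {q : G ⧸ H // q ≠ ((1 : G) : G ⧸ H)}] [H.FiniteIndex] (f : H → E)
    (cl : ∀ g h : H, f (h⁻¹ * g * h) = f g) (g : H) :
    ind H f g = f g + ∑ y : {q : G ⧸ H // q ≠ ((1 : G) : G ⧸ H)},
      if h : y.1.out⁻¹ * (g : G) * y.1.out ∈ H then f ⟨y.1.out⁻¹ * g * y.1.out, h⟩ else 0 := by
  have : Fintype (G ⧸ H) := Fintype.ofFinite _
  rw [ind, finsum_eq_sum_of_fintype,
    ← Finset.add_sum_erase Finset.univ _ (Finset.mem_univ ((1 : G) : G ⧸ H)),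
    Finset.sum_subtype (Finset.univ.erase ((1 : G) : G ⧸ H))
      (p := fun q => q ≠ ((1 : G) : G ⧸ H)) (fun x => by simp)]
  congr 1
  rw [ind_rep f cl (g : G) 1]
  have e : (1 : G)⁻¹ * (g : G) * 1 = g := by group
  have hq : (1 : G)⁻¹ * (g : G) * 1 ∈ H := by rw [e]; exact g.2
  rw [dif_pos hq]
  exact congrArg f (Subtype.ext e)


end Pool.Agent.H89.IP
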