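import Pool.Agent.H89.IP.Nwd
import Pool.Agent.H89.IP.IndF

/-!
# IP.GId : the trace identity on G

PROOF. Both sides are continuous in `g` (`Dt.cR`, trace; `ind_cont` for `f χ`, `Dt.cont`), so the set where they agree is closed. Let `g ∈ Dt.W C`, `C` a finite subgroup, `g ∈ Dt.D χ` and `g ∈ Dt.D χ'` for all `χ' ∈ C`: by `Dt.tr` the left side is `ind H (a χ) g`, and for each `q` with `g' = q.out⁻¹ g q.out ∈ H`: `g' ∉ BadH C` (`W`), `g' ∈ Dt.D χ'` (`Dt.conjD`),
so `a g' = f g'` (`hf`). So they agree on `W C ∩ ⋂ D`; `W C` is open, the intersection of the `D` is dense (`Dt.den (insert χ C)`), so they agree on `W C` (`Dense.open_subset_closure_inter`). So on the dense set of `dense_W`, so everywhere. About 70 lines.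
-/

set_option autoImplicit false

open Matrix

namespace Pool.Agent.H89.IP

variable {G E : Type*} [Group G] [TopologicalSpace G] [Field E] [TopologicalSpace E]
  {H : Subgroup G} {N : ℕ} {X : Subgroup (H →* Eˣ)}

theorem gid [IsTopologicalGroup G] [T2Space E] [IsTopologicalRing E] [H.FiniteIndex]
    (Dt : GDat G E H N X) {f : H → E} (cf : Continuous f)
    (hf : ∀ C : Finset X, IsFS C → ∀ h : H, h ∉ Dt.BadH C → (∀ χ ∈ C, (h : G) ∈ Dt.D χ) →
      Dt.a h = f h) (χ : X) (g : G) :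
    (Dt.R χ g).trace = ind H (fun h => f h * ((χ.1 h : Eˣ) : E)) g := by
  classical
  have cL : Continuous fun g : G => (Dt.R χ g).trace := (Dt.cR χ).matrix_trace
  have cI : Continuous (ind H (fun h => f h * ((χ.1 h : Eˣ) : E))) :=
    ind_cont Dt.hH (cf.mul (Dt.cont χ))
  have hcl : IsClosed {g : G | (Dt.R χ g).trace = ind H (fun h => f h * ((χ.1 h : Eˣ) : E)) g} :=
    isClosed_eq cL cI
  have key : ∀ C : Finset X, IsFS C → ∀ g ∈ Dt.W C, (∀ χ' ∈ insert χ C, g ∈ Dt.D χ') →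
      (Dt.R χ g).trace = ind H (fun h => f h * ((χ.1 h : Eˣ) : E)) g := by
    intro C hC g hg hD
    rw [Dt.tr χ g (hD χ (Finset.mem_insert_self _ _))]
    unfold ind
    refine finsum_congr fun q => ?_
    by_cases h : q.out⁻¹ * g * q.out ∈ H
    · have h1 := hf C hC ⟨q.out⁻¹ * g * q.out, h⟩ (hg q.out h) fun χ' hχ' =>
        Dt.conjD χ' g (hD χ' (Finset.mem_insert_of_mem hχ')) q.out
      rw [dif_pos h, dif_pos h]
      exact congrArg (fun t => t * ((χ.1 ⟨q.out⁻¹ * g * q.out, h⟩ : Eˣ) : E)) h1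
    · rw [dif_neg h, dif_neg h]
  have hsub : {g : G | ∃ C : Finset X, IsFS C ∧ g ∈ Dt.W C} ⊆
      {g : G | (Dt.R χ g).trace = ind H (fun h => f h * ((χ.1 h : Eˣ) : E)) g} := by
    rintro g ⟨C, hC, hg⟩
    have h1 := (Dt.den (insert χ C)).open_subset_closure_inter (isOpen_W Dt C)
    refine closure_minimal ?_ hcl (h1 hg)
    rintro x ⟨hx1, hx2⟩
    refine key C hC x hx1 fun χ' hχ' => ?_
    exact Set.mem_iInter₂.1 hx2 χ' hχ'
  have h2 := closure_minimal hsub hcl
  rw [(dense_W Dt).closure_eq] at h2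
  exact h2 (Set.mem_univ g)


end Pool.Agent.H89.IP
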