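import Pool.Agent.H89.IP.FDefs

/-!
# IP.Kum : quadratic characters

PROOF. Let `s` be in the algebraic closure with `s ^ 2 = α`, `s ≠ 0`. For `g ∈ G_K`: `(g s) ^ 2 = α`, so `g s = s` or `g s = - s`. Let `χ g = 1` if `g s = s`, `-1` otherwise (`(-1 : Eˣ)`). `χ` is a homomorphism (cases), `χ ^ 2 = 1`, continuous: locally constant, because `{g | g s = s}` is open (the stabiliser of an algebraic element: `IntermediateField.fixingSubgroup_isOpen` for `F⟮s⟯`, or
`stabilizer_isOpen_of_isIntegral` as in H34/FC/Lift). `s * x s ∉ M`: its square is `α * x α`. `M` is the fixed field of `G_M` (`InfiniteGalois.fixedField_fixingSubgroup` or `IntermediateField.fixedField_fixingSubgroup`), so some `g ∈ G_M` has `g (s * x s) ≠ s * x s`, so `g (s * x s) = - (s * x s)` (its square is in `M`). `g ∈ G_K` because `K ≤ M`; `x⁻¹ g x ∈ G_M` (`M` is Galois over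
`F`, `G_M` is normal). `g s = e s`, `g (x s) = e' (x s)` with `e, e' = ± 1`, `e e' = -1`, and `(x⁻¹ g x) s = x⁻¹ (e' x s) = e' s`. So `χ g = e`, `χ (x⁻¹ g x) = e'`, different (`1 ≠ -1` in `E`). About 120 lines.
-/

set_option autoImplicit false

open scoped Pointwise NumberField
open Matrix IsDedekindDomain Pool.Agent.H71.Patch

namespace Pool.Agent.H89.IP

private theorem kum_hom {F : Type*} [Field F] [CharZero F] {E : Type*} [Field E]
    (K : IntermediateField F (AlgebraicClosure F)) (α s : AlgebraicClosure F) (hα : α ∈ K)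
    (hs : s ^ 2 = α) (hs0 : s ≠ 0) :
    ∃ χ : K.fixingSubgroup →* Eˣ, ∀ g : K.fixingSubgroup,
      ((g : Gal(AlgebraicClosure F/F)) s = s ∧ χ g = 1) ∨
        ((g : Gal(AlgebraicClosure F/F)) s = -s ∧ χ g = -1) := by
  classical
  have hne : -s ≠ s := by
    intro h
    have h2 : (2 : AlgebraicClosure F) * s = 0 := by linear_combination (-1 : AlgebraicClosure F) * h
    rcases mul_eq_zero.mp h2 with h3 | h3
    · exact two_ne_zero h3
    · exact hs0 h3
  have hcase : ∀ g : K.fixingSubgroup, (g : Gal(AlgebraicClosure F/F)) s = s ∨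
      (g : Gal(AlgebraicClosure F/F)) s = -s := by
    intro g
    have h1 : ((g : Gal(AlgebraicClosure F/F)) s) ^ 2 = s ^ 2 := by
      rw [← map_pow, hs]
      exact g.2 ⟨α, hα⟩
    exact sq_eq_sq_iff_eq_or_eq_neg.mp h1
  refine ⟨{ toFun := fun g => if (g : Gal(AlgebraicClosure F/F)) s = s then 1 else -1
            map_one' := ?_
            map_mul' := ?_ }, ?_⟩
  · simp
  · intro g h
    rcases hcase g with hg | hg <;> rcases hcase h with hh | hh
    · simp [hg, hh]
    · simp [hg, hh, hne]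
    · simp [hg, hh, hne]
    · simp [hg, hh, hne]
  · intro g
    rcases hcase g with hg | hg
    · left
      exact ⟨hg, by simp [hg]⟩
    · right
      refine ⟨hg, ?_⟩
      simp [hg, hne]

theorem kum {F : Type*} [Field F] [CharZero F] {E : Type*} [Field E] [CharZero E]
    [TopologicalSpace E] (K M : IntermediateField F (AlgebraicClosure F)) [FiniteDimensional F K]
    [FiniteDimensional F M] [IsGalois F M] (hKM : K ≤ M) (x : Gal(AlgebraicClosure F/F))
    (α : AlgebraicClosure F) (hα : α ∈ K) (h0 : α ≠ 0) (hns : ¬ ∃ y ∈ M, y ^ 2 = α * x α) :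
    ∃ χ : K.fixingSubgroup →* Eˣ, Continuous χ ∧ χ ^ 2 = 1 ∧ ∃ g ∈ M.fixingSubgroup,
      ∃ (h₁ : g ∈ K.fixingSubgroup) (h₂ : x⁻¹ * g * x ∈ K.fixingSubgroup),
        χ ⟨x⁻¹ * g * x, h₂⟩ ≠ χ ⟨g, h₁⟩ := by
  classical
  obtain ⟨s, hs⟩ := IsAlgClosed.exists_pow_nat_eq α (n := 2) (by norm_num)
  have hs0 : s ≠ 0 := by
    rintro rfl
    apply h0
    rw [← hs]
    simp
  obtain ⟨χ, hχ⟩ := kum_hom (E := E) K α s hα hs hs0
  have hχs : ∀ g h : K.fixingSubgroup, (g : Gal(AlgebraicClosure F/F)) s =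
      (h : Gal(AlgebraicClosure F/F)) s → χ g = χ h := by
    have hne : -s ≠ s := by
      intro h
      have h2 : (2 : AlgebraicClosure F) * s = 0 := by
        linear_combination (-1 : AlgebraicClosure F) * h
      rcases mul_eq_zero.mp h2 with h3 | h3
      · exact two_ne_zero h3
      · exact hs0 h3
    intro g h hgh
    rcases hχ g with ⟨h1, h2⟩ | ⟨h1, h2⟩ <;> rcases hχ h with ⟨h3, h4⟩ | ⟨h3, h4⟩
    · rw [h2, h4]
    · exact absurd (by rw [← h3, ← hgh, h1]) hne
    · exact absurd (by rw [← h1, hgh, h3]) hne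
    · rw [h2, h4]
  have hcont : Continuous χ := by
    apply IsLocallyConstant.continuous
    rw [IsLocallyConstant.iff_exists_open]
    intro g
    have hopen : IsOpen (MulAction.stabilizer Gal(AlgebraicClosure F/F) s :
        Set Gal(AlgebraicClosure F/F)) :=
      stabilizer_isOpen_of_isIntegral s
    refine ⟨(fun h : K.fixingSubgroup =>
      ((g : Gal(AlgebraicClosure F/F))⁻¹ * (h : Gal(AlgebraicClosure F/F)))) ⁻¹'
        (MulAction.stabilizer Gal(AlgebraicClosure F/F) s), ?_, ?_, ?_⟩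
    · exact hopen.preimage (continuous_const.mul continuous_subtype_val)
    · simp
    · intro h hh
      apply hχs
      have h1 : ((g : Gal(AlgebraicClosure F/F))⁻¹ * (h : Gal(AlgebraicClosure F/F))) s = s := hh
      have h2 := congrArg (fun z => (g : Gal(AlgebraicClosure F/F)) z) h1
      simpa using h2
  have hsq : χ ^ 2 = 1 := by
    ext g
    rcases hχ g with ⟨h1, h2⟩ | ⟨h1, h2⟩
    · simp [h2]
    · simp [h2]
  -- the element of the Galois group of `M`
  have hnM : s * x s ∉ M := by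
    intro h
    exact hns ⟨_, h, by rw [mul_pow, hs, ← map_pow, hs]⟩
  have hfix : IntermediateField.fixedField M.fixingSubgroup = M :=
    InfiniteGalois.fixedField_fixingSubgroup M
  have hex : ∃ g ∈ M.fixingSubgroup, g (s * x s) ≠ s * x s := by
    by_contra hcon
    push Not at hcon
    apply hnM
    rw [← hfix]
    intro g
    exact hcon g.1 g.2
  obtain ⟨g, hgM, hg⟩ := hex
  have hxM : ∀ m ∈ M, x m ∈ M := by
    intro m hm
    have := IntermediateField.normal_iff_forall_map_le.mp (inferInstance : Normal F M)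
      (x : AlgebraicClosure F →ₐ[F] AlgebraicClosure F)
    exact this ⟨m, hm, rfl⟩
  have hgK : g ∈ K.fixingSubgroup := by
    intro y
    exact hgM ⟨y.1, hKM y.2⟩
  have hxg : x⁻¹ * g * x ∈ K.fixingSubgroup := by
    intro y
    have h1 : g (x y.1) = x y.1 := hgM ⟨x y.1, hxM _ (hKM y.2)⟩
    have h2 : (x⁻¹ * g * x) (y : AlgebraicClosure F) = x⁻¹ (g (x y.1)) := rfl
    change (x⁻¹ * g * x) (y : AlgebraicClosure F) = y
    rw [h2, h1]
    exact x.symm_apply_apply y.1
  refine ⟨χ, hcont, hsq, g, hgM, hgK, hxg, ?_⟩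
  intro heq
  have hx : ∀ z : AlgebraicClosure F, (x⁻¹ * g * x) z = x⁻¹ (g (x z)) := fun z => rfl
  have hxx : ∀ z : AlgebraicClosure F, x (x⁻¹ z) = z := fun z => x.apply_symm_apply z
  have hE : (1 : Eˣ) ≠ -1 := by
    intro h
    have h1 := congrArg (fun u : Eˣ => (u : E)) h
    simp only [Units.val_one, Units.val_neg] at h1
    have h2 : (2 : E) = 0 := by linear_combination h1
    exact two_ne_zero h2
  rcases hχ ⟨g, hgK⟩ with ⟨h1, h2⟩ | ⟨h1, h2⟩ <;>
    rcases hχ ⟨x⁻¹ * g * x, hxg⟩ with ⟨h3, h4⟩ | ⟨h3, h4⟩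
  · apply hg
    have h5 := congrArg x h3
    simp only [hx, hxx] at h5
    rw [map_mul, h5]
    simp only at h1
    rw [h1]
  · rw [h2, h4] at heq
    exact hE heq.symm
  · rw [h2, h4] at heq
    exact hE heq
  · apply hg
    have h5 := congrArg x h3
    simp only [hx, hxx, map_neg] at h5
    simp only at h1
    rw [map_mul, h5, h1]
    ring

end Pool.Agent.H89.IP
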