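import Pool.Agent.H89.IP.Nsq
import Pool.Agent.H89.IP.Kum

/-!
# IP.GPq : the quadratic characters are in general position

PROOF. `x ∉ G_K`, `U` open: there is a finite Galois extension `M` of `F` in the algebraic closure with `K ≤ M` and `G_M ≤ U` (`krullTopology`, `exists_openNormal_le` in H71/Patch/Fields; normal closure). Apply `nsq` to `F`, `M`, the field `K` as an intermediate field of `M / F` (`IntermediateField.restrict hKM` or `comap` of `M.val`) and the restriction of `x` to `M`
(`AlgEquiv.restrictNormalHom M x`; it is not in the fixing subgroup because `x` moves some element of `K`); then `kum` gives `χ`, `χ ∈ X` by `hX`. About 80 lines.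
-/

set_option autoImplicit false

open scoped Pointwise NumberField
open Matrix IsDedekindDomain Pool.Agent.H71.Patch

namespace Pool.Agent.H89.IP

theorem genPos_quad {F : Type} [Field F] [NumberField F] {E : Type*} [Field E] [CharZero E]
    [TopologicalSpace E] (K : IntermediateField F (AlgebraicClosure F)) [FiniteDimensional F K]
    (X : Subgroup (K.fixingSubgroup →* Eˣ))
    (hX : ∀ χ : K.fixingSubgroup →* Eˣ, Continuous χ → χ ^ 2 = 1 → χ ∈ X) :
    GenPosX (G := GalK F) X := by
  intro x hx U hU
  have hU1 : (U : Set (GalK F)) ∈ nhds (1 : GalK F) := hU.mem_nhds U.one_mem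
  obtain ⟨L, hL, hLU⟩ := (krullTopology_mem_nhds_one_iff F (AlgebraicClosure F) _).1 hU1
  let M : IntermediateField F (AlgebraicClosure F) :=
    IntermediateField.normalClosure F (L ⊔ K : IntermediateField F (AlgebraicClosure F))
      (AlgebraicClosure F)
  have hM : FiniteDimensional F M := normalClosure.is_finiteDimensional F _ _
  have hMn : Normal F M := normalClosure.normal F _ _
  have hMg : IsGalois F M := IsGalois.mk
  have hLK : L ⊔ K ≤ M := IntermediateField.le_normalClosure (L ⊔ K)
  have hKM : K ≤ M := le_sup_right.trans hLK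
  have hLM : L ≤ M := le_sup_left.trans hLK
  have hMU : M.fixingSubgroup ≤ U := fun g hg =>
    hLU (IntermediateField.fixingSubgroup_antitone hLM hg)
  have hNF : NumberField M := NumberField.of_module_finite F M
  have hx' : AlgEquiv.restrictNormalHom M x ∉ (IntermediateField.restrict hKM).fixingSubgroup := by
    intro h
    apply hx
    rw [IntermediateField.mem_fixingSubgroup_iff] at h ⊢
    intro k hk
    have h1 := h ⟨k, hKM hk⟩ ((IntermediateField.mem_restrict hKM _).2 hk)
    have h2 := congrArg (fun z : M => (z : AlgebraicClosure F)) h1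
    simp only [AlgEquiv.restrictNormalHom_apply] at h2
    exact h2
  obtain ⟨α, hα, hα0, hns⟩ := nsq F M (IntermediateField.restrict hKM)
    (AlgEquiv.restrictNormalHom M x) hx'
  obtain ⟨χ, h1, h2, g, hg, h3, h4, h5⟩ := kum (E := E) K M hKM x (α : AlgebraicClosure F)
    ((IntermediateField.mem_restrict hKM _).1 hα) (by
      intro h
      apply hα0
      exact Subtype.ext h) (by
      rintro ⟨y, hy, e⟩
      apply hns
      refine ⟨⟨y, hy⟩, Subtype.ext ?_⟩
      have e2 : ((AlgEquiv.restrictNormalHom M x α : M) : AlgebraicClosure F) = x α :=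
        AlgEquiv.restrictNormalHom_apply M x α
      push_cast
      rw [e2]
      exact e)
  exact ⟨χ, hX χ h1 h2, g, hMU hg, h3, h4, h5⟩

end Pool.Agent.H89.IP
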