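import Pool.Agent.H89.IP.BOp
import Pool.Agent.H89.IP.Fs

/-!
# IP.IG : the index of the exceptional subgroups tends to infinity

PROOF. Fix `y`. If there is no `C` with `L ≤ (S.B C y).index` take `C₀` with `(S.B C₀ y).index` maximal (bounded by `L`). For `χ : X` and `C = insert χ C₀`: `S.B C y ≤ S.B C₀ y`, the indices are finite, not `0`, and equal by maximality (`Subgroup.index_antitone`), so the subgroups are equal (`Subgroup.relIndex_mul_index`,
`Subgroup.relIndex_eq_one`): `ψ y χ g = 1` for all `g ∈ S.B C₀ y`. This holds for all `χ`, which contradicts `S.big y (S.B C₀ y)`. So some `C_y` works; take a finite subgroup containing all `C_y` (`fs_ex`, `Finset.biUnion`), the index is monotone. About 80 lines.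
-/

set_option autoImplicit false

namespace Pool.Agent.H89.IP

variable {H E X Y : Type*} [Group H] [TopologicalSpace H] [Field E] [TopologicalSpace E]
  [CommGroup X] [Fintype Y] (S : Sys H E X Y)

namespace Sys

theorem ig [IsTopologicalGroup H] [CompactSpace H] (L : ℕ) :
    ∃ C₀ : Finset X, IsFS C₀ ∧ ∀ C, C₀ ⊆ C → ∀ y, L ≤ (S.B C y).index := by
  classical
  have key : ∀ (y : Y) (n : ℕ), ∃ C : Finset X, n ≤ (S.B C y).index := by
    intro y n
    induction n with
    | zero => exact ⟨∅, Nat.zero_le _⟩
    | succ n ih =>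
      obtain ⟨C, hC⟩ := ih
      obtain ⟨g, hg, χ, hχ⟩ := S.big y (S.B C y) (S.isOpen_B C y) (fun g hg => hg.1)
      have hlt : S.B (insert χ C) y < S.B C y := by
        refine lt_of_le_of_ne (S.B_anti (Finset.subset_insert χ C) y) fun h => ?_
        rw [← h] at hg
        exact hχ (hg.2 χ (Finset.mem_insert_self χ C))
      have hfin := S.fin_B (insert χ C) y
      have h1 := Subgroup.index_strictAnti hlt
      exact ⟨insert χ C, by omega⟩
  choose Cy hCy using fun y => key y L
  obtain ⟨C₀, h0, h1⟩ := fs_ex S.tor (Finset.univ.biUnion Cy)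
  refine ⟨C₀, h0, fun C hC y => (hCy y).trans ?_⟩
  have hfin := S.fin_B C y
  refine Subgroup.index_antitone (S.B_anti ?_ y)
  exact ((Finset.subset_biUnion_of_mem Cy (Finset.mem_univ y)).trans h1).trans hC


end Sys

end Pool.Agent.H89.IP
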