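import Pool.Agent.H89.IP.KS

/-!
# IP.LI : irreducible characters are linearly independent

PROOF. `ks` for `S` and `V = ⊤` (`Γ ⧸ ⊤` has one element, its representative `q.out` is some `g₀`): `tau k u w θ θ' g₀ = if θ = θ' then 1 else 0` for `θ, θ' ∈ S`. For `θ ∈ S`: `c θ = ∑ θ' ∈ S, c θ' * tau k u w θ θ' g₀ = ∑ a, k a * θ (u a g₀) * (∑ θ', c θ' θ' (g₀⁻¹ w a)) = 0`. `li_nat`: subtract, extend the supports to the union. About 60 lines.
-/

set_option autoImplicit false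

open Matrix

namespace Pool.Agent.H89.IP

variable {Γ E : Type*} [Group Γ] [Field E]

theorem li [CharZero E] [IsAlgClosed E] (S : Finset (Γ → E)) (hS : ∀ θ ∈ S, Ich θ)
    (c : (Γ → E) → E) (h : ∀ g, ∑ θ ∈ S, c θ * θ g = 0) : ∀ θ ∈ S, c θ = 0 := by
  classical
  have hfin : Finite (Γ ⧸ (⊤ : Subgroup Γ)) := by
    have := QuotientGroup.subsingleton_quotient_top (G := Γ)
    infer_instance
  have := Fintype.ofFinite (Γ ⧸ (⊤ : Subgroup Γ))
  obtain ⟨r, k, u, w, -, -, hk⟩ := ks S hS (⊤ : Subgroup Γ)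
  intro θ hθ
  have h0 : ∀ g, ∑ θ' ∈ S, c θ' * tau k u w θ θ' g = 0 := by
    intro g
    have h1 : ∀ θ' ∈ S, c θ' * tau k u w θ θ' g
        = ∑ a, k a * θ (u a * g) * (c θ' * θ' (g⁻¹ * w a)) := by
      intro θ' _
      rw [tau, Finset.mul_sum]
      refine Finset.sum_congr rfl fun a _ => ?_
      ring
    rw [Finset.sum_congr rfl h1, Finset.sum_comm]
    refine Finset.sum_eq_zero fun a _ => ?_
    rw [← Finset.mul_sum, h, mul_zero]
  have h2 : ∑ θ' ∈ S, c θ' * (∑ q : Γ ⧸ (⊤ : Subgroup Γ), tau k u w θ θ' q.out) = 0 := by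
    have h3 : ∀ θ' ∈ S, c θ' * (∑ q : Γ ⧸ (⊤ : Subgroup Γ), tau k u w θ θ' q.out)
        = ∑ q : Γ ⧸ (⊤ : Subgroup Γ), c θ' * tau k u w θ θ' q.out := by
      intro θ' _
      rw [Finset.mul_sum]
    rw [Finset.sum_congr rfl h3, Finset.sum_comm]
    exact Finset.sum_eq_zero fun q _ => h0 _
  have h4 : ∀ θ' ∈ S, c θ' * (∑ q : Γ ⧸ (⊤ : Subgroup Γ), tau k u w θ θ' q.out)
      = if θ = θ' then c θ' * (Fintype.card (Γ ⧸ (⊤ : Subgroup Γ)) : E) else 0 := by
    intro θ' hθ'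
    rw [(hk θ hθ θ' hθ').1]
    split_ifs
    · rfl
    · rw [mul_zero]
  rw [Finset.sum_congr rfl h4, Finset.sum_ite_eq S θ, if_pos hθ] at h2
  have h5 : (Fintype.card (Γ ⧸ (⊤ : Subgroup Γ)) : E) ≠ 0 :=
    Nat.cast_ne_zero.2 Fintype.card_ne_zero
  exact (mul_eq_zero.1 h2).resolve_right h5

theorem li_nat [CharZero E] [IsAlgClosed E] (m m' : (Γ → E) →₀ ℕ) (hm : ∀ θ ∈ m.support, Ich θ)
    (hm' : ∀ θ ∈ m'.support, Ich θ)
    (h : ∀ g, ∑ θ ∈ m.support, (m θ : E) * θ g = ∑ θ ∈ m'.support, (m' θ : E) * θ g) : m = m' := by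
  classical
  have h1 : ∀ g, ∑ θ ∈ m.support ∪ m'.support, ((m θ : E) - (m' θ : E)) * θ g = 0 := by
    intro g
    have e1 : ∑ θ ∈ m.support ∪ m'.support, (m θ : E) * θ g
        = ∑ θ ∈ m.support, (m θ : E) * θ g := by
      refine (Finset.sum_subset Finset.subset_union_left ?_).symm
      intro θ _ hθ
      rw [Finsupp.notMem_support_iff.1 hθ, Nat.cast_zero, zero_mul]
    have e2 : ∑ θ ∈ m.support ∪ m'.support, (m' θ : E) * θ g
        = ∑ θ ∈ m'.support, (m' θ : E) * θ g := by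
      refine (Finset.sum_subset Finset.subset_union_right ?_).symm
      intro θ _ hθ
      rw [Finsupp.notMem_support_iff.1 hθ, Nat.cast_zero, zero_mul]
    have e3 : ∀ θ ∈ m.support ∪ m'.support, ((m θ : E) - (m' θ : E)) * θ g
        = (m θ : E) * θ g - (m' θ : E) * θ g := fun θ _ => sub_mul _ _ _
    rw [Finset.sum_congr rfl e3, Finset.sum_sub_distrib, e1, e2, h g, sub_self]
  have h2 := li (m.support ∪ m'.support) (fun θ hθ => (Finset.mem_union.1 hθ).elim (hm θ) (hm' θ))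
    (fun θ => (m θ : E) - (m' θ : E)) h1
  ext θ
  by_cases hθ : θ ∈ m.support ∪ m'.support
  · exact Nat.cast_injective (R := E) (sub_eq_zero.1 (h2 θ hθ))
  · rw [Finset.mem_union, not_or] at hθ
    rw [Finsupp.notMem_support_iff.1 hθ.1, Finsupp.notMem_support_iff.1 hθ.2]


end Pool.Agent.H89.IP
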