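import Pool.Agent.H89.IP.Mack
import Pool.Agent.H89.IP.Dec
import Pool.Agent.H89.IP.LI

/-!
# IP.Irr : irreducibility

PROOF. `h 1`: `N = H.index * n` in `E` (`ind_one`, `chi_one`), so in `ℕ`; `N ≠ 0`, so `n ≠ 0`. Let `W` be an invariant subspace of `ρ`, `W ≠ ⊥, ⊤`. `spl`: `chi ρ = chi ρ₁ + chi ρ₂`, sizes `n₁, n₂ > 0`. `chi (twi χ ρ) = chi (twi χ ρ₁) + chi (twi χ ρ₂)`, so `(R g).trace = chi τ₁ g + chi τ₂ g` with `τ₁`, `τ₂` from `indA`, of sizes `H.index * n_i > 0` (`ind_add`).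
`dec` for `τ₁`, `τ₂`: multiplicities `m₁`, `m₂`, both not `0` (`∑ m_i θ dg θ = H.index * n_i > 0`). `li_nat`: `Finsupp.single (chi R) 1 = m₁ + m₂` (`chi R` is irreducible). Total mass: `1 = ∑ m₁ + ∑ m₂ ≥ 2`, contradiction. About 80 lines.
-/

set_option autoImplicit false

open Matrix

namespace Pool.Agent.H89.IP

variable {G E : Type*} [Group G] [TopologicalSpace G] [Field E] [TopologicalSpace E]
  {H : Subgroup G} {N : ℕ} {X : Subgroup (H →* Eˣ)}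

theorem irr_of [CharZero E] [IsAlgClosed E] [IsTopologicalRing E] [H.FiniteIndex] {n : ℕ}
    (R : G →* Matrix (Fin N) (Fin N) E) (hR : MIrr R) (χ : H →* Eˣ)
    (ρ : H →* Matrix (Fin n) (Fin n) E)
    (h : ∀ g, (R g).trace = ind H (fun h => chi ρ h * ((χ h : Eˣ) : E)) g) : MIrr ρ := by
  have hidx : H.index ≠ 0 := Subgroup.FiniteIndex.index_ne_zero
  refine ⟨?_, fun W hW => ?_⟩
  · intro hn
    have h1 := h 1
    rw [ind_one, map_one, Matrix.trace_one, Fintype.card_fin, chi_one, hn, Nat.cast_zero,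
      zero_mul, mul_zero] at h1
    exact hR.1 (Nat.cast_eq_zero.1 h1)
  · classical
    by_contra hcon
    rw [not_or] at hcon
    obtain ⟨n₁, n₂, ρ₁, ρ₂, -, hn₁, hn₂, hchi, -, -⟩ := spl ρ W hW hcon.1 hcon.2
    obtain ⟨τ₁, hτ₁⟩ := indA (H := H) (twi χ ρ₁)
    obtain ⟨τ₂, hτ₂⟩ := indA (H := H) (twi χ ρ₂)
    have htr : ∀ g, chi R g = chi τ₁ g + chi τ₂ g := by
      intro g
      rw [hτ₁, hτ₂, ← ind_add, chi, h]
      congr 1
      funext k
      rw [chi_twi, chi_twi, hchi]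
      ring
    obtain ⟨m₁, hm₁, hs₁, hd₁⟩ := dec τ₁
    obtain ⟨m₂, hm₂, hs₂, hd₂⟩ := dec τ₂
    have hne : ∀ (m : (G → E) →₀ ℕ) (k : ℕ), 0 < k →
        ∑ θ ∈ m.support, m θ * dg θ = H.index * k → ∃ θ, m θ ≠ 0 := by
      intro m k hk hm
      by_contra hc
      push Not at hc
      have h0 : ∑ θ ∈ m.support, m θ * dg θ = 0 :=
        Finset.sum_eq_zero fun θ _ => by rw [hc θ, zero_mul]
      rw [h0] at hm
      exact (Nat.mul_pos (Nat.pos_of_ne_zero hidx) hk).ne hm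
    have hich : ∀ {N' : ℕ} {τ : G →* Matrix (Fin N') (Fin N') E} (m : (G → E) →₀ ℕ),
        (∀ θ ∈ m.support, ∃ (n' : ℕ) (ρ' : G →* Matrix (Fin n') (Fin n') E), MIrr ρ' ∧
          chi ρ' = θ ∧ (∀ g, τ g = 1 → ρ' g = 1) ∧ (Continuous τ → Continuous ρ')) →
        ∀ θ ∈ m.support, Ich θ := by
      intro N' τ m hm θ hθ
      obtain ⟨n', ρ', h1, h2, -⟩ := hm θ hθ
      exact ⟨n', ρ', h1, h2⟩
    have hsum : ∀ g, ∑ θ ∈ (m₁ + m₂).support, (((m₁ + m₂) θ : ℕ) : E) * θ g =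
        ∑ θ ∈ m₁.support, (m₁ θ : E) * θ g + ∑ θ ∈ m₂.support, (m₂ θ : E) * θ g := by
      intro g
      exact Finsupp.sum_add_index' (h := fun (θ : G → E) (b : ℕ) => (b : E) * θ g)
        (fun θ => by rw [Nat.cast_zero, zero_mul])
        (fun θ b₁ b₂ => by rw [Nat.cast_add, add_mul])
    have hkey : Finsupp.single (chi R) 1 = m₁ + m₂ := by
      refine li_nat _ _ (fun θ hθ => ?_) (fun θ hθ => ?_) (fun g => ?_)
      · rw [Finsupp.support_single _ one_ne_zero, Finset.mem_singleton] at hθ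
        exact ⟨N, R, hR, hθ.symm⟩
      · rcases Finset.mem_union.1 (Finsupp.support_add hθ) with h1 | h1
        · exact hich (τ := τ₁) m₁ hm₁ θ h1
        · exact hich (τ := τ₂) m₂ hm₂ θ h1
      · rw [hsum, ← hs₁, ← hs₂, Finsupp.support_single _ one_ne_zero,
          Finset.sum_singleton, Finsupp.single_eq_same, Nat.cast_one, one_mul]
        exact htr g
    obtain ⟨θ₁, hθ₁⟩ := hne m₁ n₁ hn₁ hd₁
    obtain ⟨θ₂, hθ₂⟩ := hne m₂ n₂ hn₂ hd₂
    have hev : ∀ θ, Finsupp.single (chi R) 1 θ = m₁ θ + m₂ θ := by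
      intro θ
      rw [hkey]
      rfl
    have he : ∀ θ, m₁ θ ≠ 0 ∨ m₂ θ ≠ 0 → θ = chi R := by
      intro θ hθ
      by_contra hc
      have h1 := hev θ
      rw [Finsupp.single_eq_of_ne hc] at h1
      omega
    have e₁ := he θ₁ (Or.inl hθ₁)
    have e₂ := he θ₂ (Or.inr hθ₂)
    rw [e₁] at hθ₁
    rw [e₂] at hθ₂
    have h1 := hev (chi R)
    rw [Finsupp.single_eq_same] at h1
    omega


end Pool.Agent.H89.IP
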