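import Pool.Agent.H89.IP.TrM

/-!
# IP.KSb : the sum of the traces on the V-maps

PROOF. Notation of KSa: `T_g φ = ∑ a, k a • ρ' (u a g) φ ρ (g⁻¹ w a) = P (ρ' g φ ρ g⁻¹)`, `trace T_g = tau k u w (chi ρ') (chi ρ) g` (`trM`), `Z` = the `V`-maps, `P` is a projection onto `Z`, `T_g` maps into `Z` and `T_g φ = ρ' g φ ρ g⁻¹` for `φ ∈ Z`. Let `Π = ∑ q : Γ ⧸ V, T_{q.out}`. `range Π ⊆ Z`, so
`trace Π = trace (Π restricted to Z)` (`LinearMap.trace_restrict_eq_of_forall_mem`), and the same for `Π ∘ P`, and `Π`, `Π ∘ P` agree on `Z`: `trace Π = trace (Π ∘ P)`. `Π (P φ) = ∑ q, ρ' q.out (P φ) ρ q.out⁻¹` is in `Itw ρ ρ'` (multiplication by `h` permutes the cosets, `(h q.out) = (h q).out v`), and `Π (P φ) = card • φ` for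
`φ ∈ Itw ρ ρ'`. So `(card)⁻¹ • Π ∘ P` is a projection onto `Itw ρ ρ'` (`LinearMap.IsProj`), its trace is `finrank (Itw ρ ρ')` (`LinearMap.IsProj.trace`; `card ≠ 0` in `E`). About 140 lines.
-/

set_option autoImplicit false

open Matrix

namespace Pool.Agent.H89.IP

variable {Γ E : Type*} [Group Γ] [Field E]

variable {n n' r : ℕ} {ρ : Γ →* Matrix (Fin n) (Fin n) E} {ρ' : Γ →* Matrix (Fin n') (Fin n') E}
  {V : Subgroup Γ} {k : Fin r → E} {u w : Fin r → Γ}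

/-- the projection onto the `V`-maps -/
private def kbP (ρ : Γ →* Matrix (Fin n) (Fin n) E) (ρ' : Γ →* Matrix (Fin n') (Fin n') E)
    (k : Fin r → E) (u w : Fin r → Γ) :
    Matrix (Fin n') (Fin n) E →ₗ[E] Matrix (Fin n') (Fin n) E := ∑ a, k a • uw (ρ' (u a)) (ρ (w a))

private theorem kbP_apply (φ : Matrix (Fin n') (Fin n) E) :
    kbP ρ ρ' k u w φ = ∑ a, k a • (ρ' (u a) * φ * ρ (w a)) := by
  unfold kbP
  rw [LinearMap.sum_apply]
  rfl

private theorem kbP_mem (C : Cs ρ ρ' V k u w) (φ : Matrix (Fin n') (Fin n) E) {v : Γ} (hv : v ∈ V) :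
    ρ' v * kbP ρ ρ' k u w φ = kbP ρ ρ' k u w φ * ρ v := by
  have h := C.com φ v hv
  rw [kbP_apply, Matrix.mul_sum, Matrix.sum_mul]
  simp only [map_mul] at h
  calc ∑ a, ρ' v * (k a • (ρ' (u a) * φ * ρ (w a)))
      = ∑ a, k a • (ρ' v * ρ' (u a) * φ * ρ (w a)) := by
        refine Finset.sum_congr rfl fun a _ => ?_
        rw [Matrix.mul_smul]
        simp only [Matrix.mul_assoc]
    _ = ∑ a, k a • (ρ' (u a) * φ * (ρ (w a) * ρ v)) := h
    _ = ∑ a, k a • (ρ' (u a) * φ * ρ (w a)) * ρ v := by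
        refine Finset.sum_congr rfl fun a _ => ?_
        rw [Matrix.smul_mul]
        simp only [Matrix.mul_assoc]

private theorem kbP_id (C : Cs ρ ρ' V k u w) {φ : Matrix (Fin n') (Fin n) E}
    (hφ : ∀ v ∈ V, ρ' v * φ = φ * ρ v) : kbP ρ ρ' k u w φ = φ := by
  have h := C.one
  rw [kbP_apply]
  calc ∑ a, k a • (ρ' (u a) * φ * ρ (w a)) = ∑ a, φ * (k a • ρ (u a * w a)) := by
        refine Finset.sum_congr rfl fun a _ => ?_
        rw [hφ _ (C.hu a), Matrix.mul_smul, map_mul, Matrix.mul_assoc]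
    _ = φ := by rw [← Matrix.mul_sum, h, Matrix.mul_one]

private theorem kb_conj (hN : V.Normal) {φ : Matrix (Fin n') (Fin n) E}
    (hφ : ∀ v ∈ V, ρ' v * φ = φ * ρ v) (g : Γ) :
    ∀ v ∈ V, ρ' v * (ρ' g * φ * ρ g⁻¹) = (ρ' g * φ * ρ g⁻¹) * ρ v := by
  intro v hv
  have h1 : g⁻¹ * v * g ∈ V := by
    have := hN.conj_mem v hv g⁻¹
    rwa [inv_inv] at this
  have h2 := hφ _ h1
  have e1 : v * g = g * (g⁻¹ * v * g) := by group
  have e2 : g⁻¹ * v * g * g⁻¹ = g⁻¹ * v := by group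
  calc ρ' v * (ρ' g * φ * ρ g⁻¹) = ρ' (v * g) * φ * ρ g⁻¹ := by
        rw [map_mul]; simp only [Matrix.mul_assoc]
    _ = ρ' g * (ρ' (g⁻¹ * v * g) * φ) * ρ g⁻¹ := by
        rw [e1, map_mul]; simp only [Matrix.mul_assoc]
    _ = ρ' g * φ * ρ (g⁻¹ * v * g * g⁻¹) := by
        rw [h2, map_mul ρ (g⁻¹ * v * g)]; simp only [Matrix.mul_assoc]
    _ = (ρ' g * φ * ρ g⁻¹) * ρ v := by
        rw [e2, map_mul]; simp only [Matrix.mul_assoc]

/-- conjugation depends on the coset only -/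
private theorem kb_coset {φ : Matrix (Fin n') (Fin n) E}
    (hφ : ∀ v ∈ V, ρ' v * φ = φ * ρ v) (g : Γ) {v : Γ} (hv : v ∈ V) :
    ρ' (g * v) * φ * ρ (g * v)⁻¹ = ρ' g * φ * ρ g⁻¹ := by
  have h2 := hφ v hv
  calc ρ' (g * v) * φ * ρ (g * v)⁻¹ = ρ' g * (ρ' v * φ) * ρ (v⁻¹ * g⁻¹) := by
        rw [map_mul, _root_.mul_inv_rev]; simp only [Matrix.mul_assoc]
    _ = ρ' g * φ * ρ (v * (v⁻¹ * g⁻¹)) := by
        rw [h2, map_mul ρ v]; simp only [Matrix.mul_assoc]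
    _ = ρ' g * φ * ρ g⁻¹ := by rw [mul_inv_cancel_left]

theorem ksb [CharZero E] [V.Normal] [Fintype (Γ ⧸ V)] (C : Cs ρ ρ' V k u w) :
    ∑ q : Γ ⧸ V, tau k u w (chi ρ') (chi ρ) q.out =
      (Fintype.card (Γ ⧸ V) : E) * (Module.finrank E (Itw ρ ρ') : E) := by
  classical
  have hN : V.Normal := inferInstance
  set P := kbP ρ ρ' k u w with hP
  obtain ⟨S, hS⟩ : ∃ S : Γ → (Matrix (Fin n') (Fin n) E →ₗ[E] Matrix (Fin n') (Fin n) E),
      ∀ g, S g = uw (ρ' g) (ρ g⁻¹) := ⟨fun g => uw (ρ' g) (ρ g⁻¹), fun _ => rfl⟩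
  have hSa : ∀ g φ, S g φ = ρ' g * φ * ρ g⁻¹ := by
    intro g φ
    rw [hS]
    rfl
  have hPP : P ∘ₗ P = P := by
    refine LinearMap.ext fun φ => ?_
    exact kbP_id C fun v hv => kbP_mem C φ hv
  have htr : ∀ g, tau k u w (chi ρ') (chi ρ) g = LinearMap.trace E _ (P ∘ₗ (S g ∘ₗ P)) := by
    intro g
    have h1 : LinearMap.trace E _ (P ∘ₗ (S g ∘ₗ P)) = LinearMap.trace E _ (P ∘ₗ S g) := by
      have h2 : P ∘ₗ (S g ∘ₗ P) = (P ∘ₗ S g) ∘ₗ P := rfl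
      have h4 := LinearMap.trace_comp_comm' (P ∘ₗ S g) P
      have h5 : P ∘ₗ (P ∘ₗ S g) = P ∘ₗ S g := by
        rw [← LinearMap.comp_assoc, hPP]
      rw [h2]
      first
        | exact h4.trans (congrArg _ h5)
        | exact h4.symm.trans (congrArg _ h5)
    rw [h1]
    have h3 : P ∘ₗ S g = ∑ a, k a • uw (ρ' (u a * g)) (ρ (g⁻¹ * w a)) := by
      refine LinearMap.ext fun φ => ?_
      rw [LinearMap.comp_apply, hSa, hP, kbP_apply, LinearMap.sum_apply]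
      refine Finset.sum_congr rfl fun a _ => ?_
      rw [LinearMap.smul_apply, uw_apply, map_mul, map_mul]
      simp only [Matrix.mul_assoc]
    rw [h3, map_sum, tau]
    refine Finset.sum_congr rfl fun a _ => ?_
    rw [map_smul, trM, smul_eq_mul, chi, chi]
  have hc : (Fintype.card (Γ ⧸ V) : E) ≠ 0 := by
    have : Nonempty (Γ ⧸ V) := ⟨((1 : Γ) : Γ ⧸ V)⟩
    exact Nat.cast_ne_zero.2 Fintype.card_ne_zero
  obtain ⟨R, hR⟩ : ∃ R : Matrix (Fin n') (Fin n) E →ₗ[E] Matrix (Fin n') (Fin n) E,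
      R = ∑ q : Γ ⧸ V, P ∘ₗ (S q.out ∘ₗ P) := ⟨_, rfl⟩
  have hRa : ∀ φ, R φ = ∑ q : Γ ⧸ V, ρ' q.out * (P φ) * ρ (q.out)⁻¹ := by
    intro φ
    rw [hR, LinearMap.sum_apply]
    refine Finset.sum_congr rfl fun q _ => ?_
    rw [LinearMap.comp_apply, LinearMap.comp_apply, hSa]
    exact kbP_id C (kb_conj hN (fun v hv => kbP_mem C φ hv) _)
  have hproj : LinearMap.IsProj (Itw ρ ρ') ((Fintype.card (Γ ⧸ V) : E)⁻¹ • R) := by
    constructor
    · intro φ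
      rw [LinearMap.smul_apply]
      refine Submodule.smul_mem _ _ ?_
      rw [mem_Itw]
      intro h
      rw [hRa]
      have hZ : ∀ v ∈ V, ρ' v * P φ = P φ * ρ v := fun v hv => kbP_mem C φ hv
      have e1 : ρ' h * ∑ q : Γ ⧸ V, ρ' q.out * (P φ) * ρ (q.out)⁻¹ =
          (∑ q : Γ ⧸ V, ρ' (h * q.out) * (P φ) * ρ (h * q.out)⁻¹) * ρ h := by
        rw [Matrix.mul_sum, Matrix.sum_mul]
        refine Finset.sum_congr rfl fun q _ => ?_
        rw [map_mul, _root_.mul_inv_rev]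
        have e2 : ρ (q.out)⁻¹ = ρ ((q.out)⁻¹ * h⁻¹) * ρ h := by
          rw [← map_mul, inv_mul_cancel_right]
        rw [e2]
        simp only [Matrix.mul_assoc]
      rw [e1]
      congr 1
      have e3 : ∀ q : Γ ⧸ V, ρ' (h * q.out) * (P φ) * ρ (h * q.out)⁻¹ =
          ρ' (((h : Γ) : Γ ⧸ V) * q).out * (P φ) * ρ (((h : Γ) : Γ ⧸ V) * q).out⁻¹ := by
        intro q
        have e4 : (((h * q.out : Γ) : Γ ⧸ V)) = ((h : Γ) : Γ ⧸ V) * q := by
          rw [QuotientGroup.mk_mul, QuotientGroup.out_eq']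
        have e5 : ∃ v ∈ V, (((h : Γ) : Γ ⧸ V) * q).out = (h * q.out) * v := by
          refine ⟨(h * q.out)⁻¹ * (((h : Γ) : Γ ⧸ V) * q).out, ?_, by rw [mul_inv_cancel_left]⟩
          rw [← QuotientGroup.eq, QuotientGroup.out_eq', e4]
        obtain ⟨v, hv, hv2⟩ := e5
        rw [hv2]
        exact (kb_coset hZ _ hv).symm
      rw [Finset.sum_congr rfl fun q _ => e3 q]
      exact Equiv.sum_comp (Equiv.mulLeft ((h : Γ) : Γ ⧸ V))
        (fun q : Γ ⧸ V => ρ' q.out * (P φ) * ρ (q.out)⁻¹)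
    · intro φ hφ
      rw [mem_Itw] at hφ
      rw [LinearMap.smul_apply, hRa]
      have h1 : P φ = φ := kbP_id C fun v _ => hφ v
      have h2 : ∀ q : Γ ⧸ V, ρ' q.out * (P φ) * ρ (q.out)⁻¹ = φ := by
        intro q
        rw [h1, hφ, Matrix.mul_assoc, ← map_mul, mul_inv_cancel, map_one, Matrix.mul_one]
      rw [Finset.sum_congr rfl fun q _ => h2 q, Finset.sum_const, Finset.card_univ,
        ← Nat.cast_smul_eq_nsmul E, smul_smul, inv_mul_cancel₀ hc, one_smul]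
  have h1 := hproj.trace
  rw [map_smul, smul_eq_mul] at h1
  have h6 : ∑ q : Γ ⧸ V, tau k u w (chi ρ') (chi ρ) q.out =
      LinearMap.trace E (Matrix (Fin n') (Fin n) E) R := by
    rw [hR, map_sum]
    exact Finset.sum_congr rfl fun q _ => htr _
  rw [← h1, ← mul_assoc, mul_inv_cancel₀ hc, one_mul]
  exact h6


end Pool.Agent.H89.IP
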