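import Pool.Agent.H89.IP.Defs

/-!
# IP.Sch : Schur lemma for matrix representations

PROOF. For `φ ∈ Itw ρ ρ'` the kernel of `φ` (as a map `(Fin n → E) → (Fin n' → E)`, `Matrix.mulVecLin`) is invariant under `ρ`, the range under `ρ'`. If both are irreducible and `φ ≠ 0` then the kernel is `⊥`, the range is
`⊤`, so `n = n'` and `φ` is invertible (`itw_inv`); then `ρ' g = φ ρ g φ⁻¹` has the same trace (`sch_ne`; with `ψ φ = 1`, `φ ψ = 1`: `(ρ' g).trace = (φ * ρ g * ψ).trace`, `Matrix.trace_mul_comm`).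
`sch_self`: `1 ∈ Itw ρ ρ`; for `φ ∈ Itw ρ ρ` take an eigenvalue `c` of `φ` (`E` algebraically closed, `n ≠ 0`), `φ - c • 1` is not invertible, so it is `0`: `Itw ρ ρ` is the line spanned by `1` (`finrank_eq_one_iff'`). About 100 lines.
-/

set_option autoImplicit false

open Matrix

namespace Pool.Agent.H89.IP

variable {Γ E : Type*} [Group Γ] [Field E]

variable {n n' : ℕ} {ρ : Γ →* Matrix (Fin n) (Fin n) E} {ρ' : Γ →* Matrix (Fin n') (Fin n') E}

private theorem itw_ker (h : MIrr ρ) {φ : Matrix (Fin n') (Fin n) E} (hφ : φ ∈ Itw ρ ρ')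
    (h0 : φ ≠ 0) : LinearMap.ker (Matrix.mulVecLin φ) = ⊥ := by
  refine (h.2 _ ?_).resolve_right ?_
  · intro g x hx
    rw [LinearMap.mem_ker, Matrix.mulVecLin_apply] at hx ⊢
    rw [Matrix.mulVec_mulVec, ← hφ g, ← Matrix.mulVec_mulVec, hx, Matrix.mulVec_zero]
  · intro ht
    apply h0
    have h1 : Matrix.mulVecLin φ = 0 := LinearMap.ker_eq_top.1 ht
    ext i j
    have h2 := congrFun (LinearMap.congr_fun h1 (Pi.single j 1)) i
    simpa using h2

private theorem itw_range (h' : MIrr ρ') {φ : Matrix (Fin n') (Fin n) E} (hφ : φ ∈ Itw ρ ρ')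
    (h0 : φ ≠ 0) : LinearMap.range (Matrix.mulVecLin φ) = ⊤ := by
  refine (h'.2 _ ?_).resolve_left ?_
  · rintro g _ ⟨x, rfl⟩
    refine ⟨ρ g *ᵥ x, ?_⟩
    rw [Matrix.mulVecLin_apply, Matrix.mulVecLin_apply, Matrix.mulVec_mulVec, ← hφ g,
      Matrix.mulVec_mulVec]
  · intro ht
    apply h0
    have h1 : Matrix.mulVecLin φ = 0 := LinearMap.range_eq_bot.1 ht
    ext i j
    have h2 := congrFun (LinearMap.congr_fun h1 (Pi.single j 1)) i
    simpa using h2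

theorem itw_inv (h : MIrr ρ) (h' : MIrr ρ') {φ : Matrix (Fin n') (Fin n) E} (hφ : φ ∈ Itw ρ ρ')
    (h0 : φ ≠ 0) : ∃ ψ : Matrix (Fin n) (Fin n') E, φ * ψ = 1 ∧ ψ * φ = 1 := by
  let e : (Fin n → E) ≃ₗ[E] (Fin n' → E) := LinearEquiv.ofBijective (Matrix.mulVecLin φ)
    ⟨LinearMap.ker_eq_bot.1 (itw_ker h hφ h0), LinearMap.range_eq_top.1 (itw_range h' hφ h0)⟩
  have e1 : φ = LinearMap.toMatrix' (e : (Fin n → E) →ₗ[E] (Fin n' → E)) := by
    have h2 : (e : (Fin n → E) →ₗ[E] (Fin n' → E)) = Matrix.toLin' φ := by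
      ext x i
      rfl
    rw [h2, LinearMap.toMatrix'_toLin']
  refine ⟨LinearMap.toMatrix' (e.symm : (Fin n' → E) →ₗ[E] (Fin n → E)), ?_, ?_⟩
  · conv_lhs => rw [e1]
    rw [← LinearMap.toMatrix'_comp]
    have : (e : (Fin n → E) →ₗ[E] (Fin n' → E)) ∘ₗ (e.symm : (Fin n' → E) →ₗ[E] (Fin n → E)) =
        LinearMap.id := by
      ext x i
      simp
    rw [this, LinearMap.toMatrix'_id]
  · conv_lhs => rw [e1]
    rw [← LinearMap.toMatrix'_comp]
    have : (e.symm : (Fin n' → E) →ₗ[E] (Fin n → E)) ∘ₗ (e : (Fin n → E) →ₗ[E] (Fin n' → E)) =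
        LinearMap.id := by
      ext x i
      simp
    rw [this, LinearMap.toMatrix'_id]

/-- a nonzero intertwining map from an irreducible representation is injective -/
theorem itw_inj (h : MIrr ρ) {φ : Matrix (Fin n') (Fin n) E} (hφ : φ ∈ Itw ρ ρ')
    (h0 : φ ≠ 0) : Function.Injective (fun x : Fin n → E => φ *ᵥ x) :=
  LinearMap.ker_eq_bot.1 (itw_ker h hφ h0)

theorem sch_ne (h : MIrr ρ) (h' : MIrr ρ') (hne : chi ρ ≠ chi ρ') : Itw ρ ρ' = ⊥ := by
  by_contra hb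
  obtain ⟨φ, hφ, h0⟩ := Submodule.exists_mem_ne_zero_of_ne_bot hb
  obtain ⟨ψ, h1, h2⟩ := itw_inv h h' hφ h0
  apply hne
  funext g
  have h3 : ρ' g = φ * (ρ g * ψ) := by
    rw [← Matrix.mul_assoc, ← hφ g, Matrix.mul_assoc, h1, Matrix.mul_one]
  rw [chi, chi, h3, Matrix.trace_mul_comm, Matrix.mul_assoc, h2, Matrix.mul_one]

theorem sch_self [IsAlgClosed E] (h : MIrr ρ) : Module.finrank E (Itw ρ ρ) = 1 := by
  have hn : n ≠ 0 := h.1
  have : NeZero n := ⟨hn⟩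
  have h1 : (1 : Matrix (Fin n) (Fin n) E) ∈ Itw ρ ρ := by
    intro g
    rw [Matrix.mul_one, Matrix.one_mul]
  refine finrank_eq_one_iff'.2 ⟨⟨1, h1⟩, ?_, ?_⟩
  · intro h2
    have h3 : (1 : Matrix (Fin n) (Fin n) E) = 0 := congrArg Subtype.val h2
    exact one_ne_zero h3
  · rintro ⟨φ, hφ⟩
    obtain ⟨c, hc⟩ := Module.End.exists_eigenvalue (Matrix.toLin' φ)
    obtain ⟨x, hx⟩ := hc.exists_hasEigenvector
    refine ⟨c, Subtype.ext ?_⟩
    show c • (1 : Matrix (Fin n) (Fin n) E) = φ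
    by_contra hne
    have h2 : φ - c • (1 : Matrix (Fin n) (Fin n) E) ∈ Itw ρ ρ :=
      Submodule.sub_mem _ hφ (Submodule.smul_mem _ c h1)
    have h3 := itw_inj h h2 (fun h4 => hne (sub_eq_zero.1 h4).symm)
    have h4 : (φ - c • (1 : Matrix (Fin n) (Fin n) E)) *ᵥ x = (φ - c • (1 : Matrix (Fin n) (Fin n) E)) *ᵥ 0 := by
      have h5 : φ *ᵥ x = c • x := by
        have := hx.apply_eq_smul
        rwa [Matrix.toLin'_apply] at this
      rw [Matrix.mulVec_zero, Matrix.sub_mulVec, h5, Matrix.smul_mulVec, Matrix.one_mulVec,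
        sub_self]
    exact hx.2 (h3 h4)

end Pool.Agent.H89.IP
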