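import Pool.Agent.H89.IP.Cas
import Pool.Agent.H89.IP.KSb
import Pool.Agent.H89.IP.Sch
import Pool.Agent.H89.IP.Clif

/-!
# IP.Iso : representations with the same character

PROOF of `itw_dim`: `cas` for the family `ρ₁, ρ₂, σ` (and `ρ₃`) on the group `V = ⊤` (`MSem.top`) gives one `k, u, w`; `ksb` (`Γ ⧸ ⊤` has one element, representative `g₀`): `finrank (Itw σ ρ) = tau k u w (chi ρ) (chi σ) g₀` for `ρ = ρ₁, ρ₂, ρ₃`, and `tau` is additive in `chi ρ`. `iso_chi`: `itw_dim`-like with `ρ₁ = ρ'`, `ρ₃` of size `0`, or directly: the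
family `ρ, ρ'`, `finrank (Itw ρ ρ') = tau (chi ρ') (chi ρ) g₀ = tau (chi ρ) (chi ρ) g₀ = finrank (Itw ρ ρ) = 1` (`sch_self`), then `itw_inv`. About 90 lines.
-/

set_option autoImplicit false

open Matrix

namespace Pool.Agent.H89.IP

variable {Γ E : Type*} [Group Γ] [Field E]

private theorem Iso_tau_add {r : ℕ} (k : Fin r → E) (u w : Fin r → Γ) {θ₁ θ₂ θ₃ : Γ → E}
    (θ' : Γ → E) (h : ∀ g, θ₁ g = θ₂ g + θ₃ g) (g : Γ) :
    tau k u w θ₁ θ' g = tau k u w θ₂ θ' g + tau k u w θ₃ θ' g := by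
  rw [tau, tau, tau, ← Finset.sum_add_distrib]
  refine Finset.sum_congr rfl fun a _ => ?_
  rw [h, add_mul, mul_add]

theorem itw_dim [CharZero E] [IsAlgClosed E] {n₁ n₂ n₃ s : ℕ}
    {ρ₁ : Γ →* Matrix (Fin n₁) (Fin n₁) E} {ρ₂ : Γ →* Matrix (Fin n₂) (Fin n₂) E}
    {ρ₃ : Γ →* Matrix (Fin n₃) (Fin n₃) E} {σ : Γ →* Matrix (Fin s) (Fin s) E} (h1 : MSem ρ₁)
    (h2 : MSem ρ₂) (h3 : MSem ρ₃) (hσ : MSem σ) (h : ∀ g, chi ρ₁ g = chi ρ₂ g + chi ρ₃ g) :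
    Module.finrank E (Itw σ ρ₁) = Module.finrank E (Itw σ ρ₂) + Module.finrank E (Itw σ ρ₃) := by
  classical
  let f : Fin 4 → Σ n : ℕ, (Γ →* Matrix (Fin n) (Fin n) E) := ![⟨s, σ⟩, ⟨n₁, ρ₁⟩, ⟨n₂, ρ₂⟩, ⟨n₃, ρ₃⟩]
  have hf : ∀ i, MSem ((f i).2.comp (⊤ : Subgroup Γ).subtype) := by
    intro i
    fin_cases i
    · exact hσ.top
    · exact h1.top
    · exact h2.top
    · exact h3.top
  obtain ⟨r, k, u, w, C⟩ := cas (fun i => (f i).1) (fun i => (f i).2) ⊤ hf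
  have C1 : Cs σ ρ₁ ⊤ k u w := C 0 1
  have C2 : Cs σ ρ₂ ⊤ k u w := C 0 2
  have C3 : Cs σ ρ₃ ⊤ k u w := C 0 3
  have hfin : Finite (Γ ⧸ (⊤ : Subgroup Γ)) := by
    have : Subsingleton (Γ ⧸ (⊤ : Subgroup Γ)) := QuotientGroup.subsingleton_quotient_top
    exact Finite.of_subsingleton
  have hft : Fintype (Γ ⧸ (⊤ : Subgroup Γ)) := Fintype.ofFinite _
  have e1 := ksb C1
  have e2 := ksb C2
  have e3 := ksb C3
  have hs : ∑ q : Γ ⧸ (⊤ : Subgroup Γ), tau k u w (chi ρ₁) (chi σ) q.out =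
      ∑ q : Γ ⧸ (⊤ : Subgroup Γ), tau k u w (chi ρ₂) (chi σ) q.out +
        ∑ q : Γ ⧸ (⊤ : Subgroup Γ), tau k u w (chi ρ₃) (chi σ) q.out := by
    rw [← Finset.sum_add_distrib]
    exact Finset.sum_congr rfl fun q _ => Iso_tau_add k u w (chi σ) h q.out
  rw [e1, e2, e3, ← mul_add] at hs
  have hc : (Fintype.card (Γ ⧸ (⊤ : Subgroup Γ)) : E) ≠ 0 :=
    Nat.cast_ne_zero.2 Fintype.card_ne_zero
  have h4 := mul_left_cancel₀ hc hs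
  exact_mod_cast h4

theorem iso_chi [CharZero E] [IsAlgClosed E] {n n' : ℕ} {ρ : Γ →* Matrix (Fin n) (Fin n) E}
    {ρ' : Γ →* Matrix (Fin n') (Fin n') E} (h : MIrr ρ) (h' : MIrr ρ') (hc : chi ρ = chi ρ') :
    ∃ (T : Matrix (Fin n') (Fin n) E) (T' : Matrix (Fin n) (Fin n') E),
      T * T' = 1 ∧ T' * T = 1 ∧ ∀ g, ρ' g * T = T * ρ g := by
  classical
  let f : Fin 2 → Σ n : ℕ, (Γ →* Matrix (Fin n) (Fin n) E) := ![⟨n, ρ⟩, ⟨n', ρ'⟩]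
  have hf : ∀ i, MSem ((f i).2.comp (⊤ : Subgroup Γ).subtype) := by
    intro i
    fin_cases i
    · exact h.sem.top
    · exact h'.sem.top
  obtain ⟨r, k, u, w, C⟩ := cas (fun i => (f i).1) (fun i => (f i).2) ⊤ hf
  have C1 : Cs ρ ρ ⊤ k u w := C 0 0
  have C2 : Cs ρ ρ' ⊤ k u w := C 0 1
  have hfin : Finite (Γ ⧸ (⊤ : Subgroup Γ)) := by
    have : Subsingleton (Γ ⧸ (⊤ : Subgroup Γ)) := QuotientGroup.subsingleton_quotient_top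
    exact Finite.of_subsingleton
  have hft : Fintype (Γ ⧸ (⊤ : Subgroup Γ)) := Fintype.ofFinite _
  have e1 := ksb C1
  have e2 := ksb C2
  rw [← hc, e1, sch_self h] at e2
  have hc0 : (Fintype.card (Γ ⧸ (⊤ : Subgroup Γ)) : E) ≠ 0 :=
    Nat.cast_ne_zero.2 Fintype.card_ne_zero
  have h4 := mul_left_cancel₀ hc0 e2
  have h5 : 1 = Module.finrank E (Itw ρ ρ') := by exact_mod_cast h4
  have h6 : Itw ρ ρ' ≠ ⊥ := by
    intro h7
    rw [h7, finrank_bot] at h5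
    exact absurd h5 one_ne_zero
  obtain ⟨φ, hφ, h0⟩ := Submodule.exists_mem_ne_zero_of_ne_bot h6
  obtain ⟨ψ, h8, h9⟩ := itw_inv h h' hφ h0
  exact ⟨φ, ψ, h8, h9, mem_Itw.1 hφ⟩


end Pool.Agent.H89.IP
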