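import Pool.Agent.H89.IP.Defs

/-!
# IP.TrM : the trace of multiplication from both sides

PROOF. The trace of a linear map of the space of matrices in the standard basis (`Matrix.stdBasis`, `LinearMap.trace_eq_matrix_trace`) is the sum over `(i, j)` of the `(i, j)` entry of
the image of the matrix unit `e_ij`; `(U e_ij W) i j = U i i * W j j`. Or `Matrix.trace_kronecker`. About 30 lines.
-/

set_option autoImplicit false

open Matrix

namespace Pool.Agent.H89.IP

variable {Γ E : Type*} [Group Γ] [Field E]

theorem trM {m n : ℕ} (U : Matrix (Fin m) (Fin m) E) (W : Matrix (Fin n) (Fin n) E) :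
    LinearMap.trace E (Matrix (Fin m) (Fin n) E) (uw U W) = U.trace * W.trace := by
  classical
  rw [LinearMap.trace_eq_matrix_trace E (Matrix.stdBasis E (Fin m) (Fin n)), Matrix.trace]
  have h : ∀ p : Fin m × Fin n,
      (LinearMap.toMatrix (Matrix.stdBasis E (Fin m) (Fin n)) (Matrix.stdBasis E (Fin m) (Fin n))
        (uw U W)).diag p = U p.1 p.1 * W p.2 p.2 := by
    rintro ⟨i, j⟩
    rw [Matrix.diag_apply, LinearMap.toMatrix_apply, Matrix.stdBasis_eq_single, uw_apply]
    have h1 : ∀ A : Matrix (Fin m) (Fin n) E,
        (Matrix.stdBasis E (Fin m) (Fin n)).repr A (i, j) = A i j := by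
      intro A
      rw [Matrix.stdBasis]
      simp
    rw [h1, Matrix.mul_assoc, Matrix.mul_apply]
    rw [Finset.sum_eq_single i]
    · rw [Matrix.single_mul_apply_same, one_mul]
    · intro b _ hb
      rw [Matrix.single_mul_apply_of_ne _ _ _ _ _ hb, mul_zero]
    · intro h; exact absurd (Finset.mem_univ _) h
  rw [Finset.sum_congr rfl fun p _ => h p, ← Finset.univ_product_univ, Finset.sum_product]
  rw [Matrix.trace, Matrix.trace, Finset.sum_mul_sum]
  rfl


end Pool.Agent.H89.IP
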