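import Pool.Agent.H89.IP.BdT
import Pool.Agent.H89.IP.TrM

/-!
# IP.KSa : the traces on the V-maps are sums of roots of unity

PROOF. Let `M` = matrices `Fin n' × Fin n`, `T : M → M`, `T = ∑ a, k a • uw (ρ' (u a * g)) (ρ (g⁻¹ * w a))`. `trace T = tau k u w (chi ρ') (chi ρ) g` (`trM`, linearity). Let `Z = {φ | ∀ v ∈ V, ρ' v φ = φ ρ v}`, `P φ = ∑ k a • ρ' (u a) φ ρ (w a)`. `P φ ∈ Z` (`C.com`: `ρ' v (P φ) = ∑ k ρ' (v u) φ ρ w = ∑ k ρ' u φ ρ (w v)`), and `P φ = φ` for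
`φ ∈ Z` (`ρ' u φ = φ ρ u` since `u ∈ V`, then `C.one`). `T φ = P (ρ' g φ ρ g⁻¹) ∈ Z`. For `φ ∈ Z`, `ρ' g φ ρ g⁻¹ ∈ Z` (`V` normal), so `T φ = ρ' g φ ρ g⁻¹`. So `T ^ (r + 1) φ = ρ' (g ^ r) (T φ) ρ (g ^ r)⁻¹ = T φ` with `r = V.index` (`Subgroup.pow_index_mem`: `g ^ r ∈ V`). `bd_trace` and `finrank M = n' * n`. About 110 lines.
-/

set_option autoImplicit false

open Matrix

namespace Pool.Agent.H89.IP

variable {Γ E : Type*} [Group Γ] [Field E]

variable {n n' r : ℕ} {ρ : Γ →* Matrix (Fin n) (Fin n) E} {ρ' : Γ →* Matrix (Fin n') (Fin n') E}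
  {V : Subgroup Γ} {k : Fin r → E} {u w : Fin r → Γ}

/-- the projection onto the `V`-maps -/
private def ksP (ρ : Γ →* Matrix (Fin n) (Fin n) E) (ρ' : Γ →* Matrix (Fin n') (Fin n') E)
    (k : Fin r → E) (u w : Fin r → Γ) (φ : Matrix (Fin n') (Fin n) E) :
    Matrix (Fin n') (Fin n) E := ∑ a, k a • (ρ' (u a) * φ * ρ (w a))

private theorem ksP_mem (C : Cs ρ ρ' V k u w) (φ : Matrix (Fin n') (Fin n) E) {v : Γ} (hv : v ∈ V) :
    ρ' v * ksP ρ ρ' k u w φ = ksP ρ ρ' k u w φ * ρ v := by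
  have h := C.com φ v hv
  unfold ksP
  rw [Matrix.mul_sum, Matrix.sum_mul]
  simp only [map_mul] at h
  calc ∑ a, ρ' v * (k a • (ρ' (u a) * φ * ρ (w a)))
      = ∑ a, k a • (ρ' v * ρ' (u a) * φ * ρ (w a)) := by
        refine Finset.sum_congr rfl fun a _ => ?_
        rw [Matrix.mul_smul]
        simp only [Matrix.mul_assoc]
    _ = ∑ a, k a • (ρ' (u a) * φ * (ρ (w a) * ρ v)) := h
    _ = ∑ a, k a • (ρ' (u a) * φ * ρ (w a)) * ρ v := by
        refine Finset.sum_congr rfl fun a _ => ?_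
        rw [Matrix.smul_mul]
        simp only [Matrix.mul_assoc]

private theorem ksP_id (C : Cs ρ ρ' V k u w) {φ : Matrix (Fin n') (Fin n) E}
    (hφ : ∀ v ∈ V, ρ' v * φ = φ * ρ v) : ksP ρ ρ' k u w φ = φ := by
  have h := C.one
  unfold ksP
  calc ∑ a, k a • (ρ' (u a) * φ * ρ (w a)) = ∑ a, φ * (k a • ρ (u a * w a)) := by
        refine Finset.sum_congr rfl fun a _ => ?_
        rw [hφ _ (C.hu a), Matrix.mul_smul, map_mul, Matrix.mul_assoc]
    _ = φ := by rw [← Matrix.mul_sum, h, Matrix.mul_one]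

private theorem ks_conj (hN : V.Normal) {φ : Matrix (Fin n') (Fin n) E}
    (hφ : ∀ v ∈ V, ρ' v * φ = φ * ρ v) (g : Γ) :
    ∀ v ∈ V, ρ' v * (ρ' g * φ * ρ g⁻¹) = (ρ' g * φ * ρ g⁻¹) * ρ v := by
  intro v hv
  have h1 : g⁻¹ * v * g ∈ V := by
    have := hN.conj_mem v hv g⁻¹
    rwa [inv_inv] at this
  have h2 := hφ _ h1
  have e1 : v * g = g * (g⁻¹ * v * g) := by group
  have e2 : g⁻¹ * v * g * g⁻¹ = g⁻¹ * v := by group
  calc ρ' v * (ρ' g * φ * ρ g⁻¹) = ρ' (v * g) * φ * ρ g⁻¹ := by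
        rw [map_mul]; simp only [Matrix.mul_assoc]
    _ = ρ' g * (ρ' (g⁻¹ * v * g) * φ) * ρ g⁻¹ := by
        rw [e1, map_mul]; simp only [Matrix.mul_assoc]
    _ = ρ' g * φ * ρ (g⁻¹ * v * g * g⁻¹) := by
        rw [h2, map_mul ρ (g⁻¹ * v * g)]; simp only [Matrix.mul_assoc]
    _ = (ρ' g * φ * ρ g⁻¹) * ρ v := by
        rw [e2, map_mul]; simp only [Matrix.mul_assoc]

theorem ksa [CharZero E] [IsAlgClosed E] [V.Normal] [V.FiniteIndex] (C : Cs ρ ρ' V k u w) (g : Γ) :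
    Bd (tau k u w (chi ρ') (chi ρ) g) ((n' : ℝ) * n) := by
  classical
  set T : Matrix (Fin n') (Fin n) E →ₗ[E] Matrix (Fin n') (Fin n) E :=
    ∑ a, k a • uw (ρ' (u a * g)) (ρ (g⁻¹ * w a)) with hT
  have htr : LinearMap.trace E _ T = tau k u w (chi ρ') (chi ρ) g := by
    rw [hT, map_sum, tau]
    refine Finset.sum_congr rfl fun a _ => ?_
    rw [map_smul, trM, smul_eq_mul, chi, chi]
  have hTP : ∀ φ, T φ = ksP ρ ρ' k u w (ρ' g * φ * ρ g⁻¹) := by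
    intro φ
    rw [hT, LinearMap.sum_apply, ksP]
    refine Finset.sum_congr rfl fun a _ => ?_
    rw [LinearMap.smul_apply, uw_apply, map_mul, map_mul]
    simp only [Matrix.mul_assoc]
  have hZ : ∀ φ, ∀ v ∈ V, ρ' v * T φ = T φ * ρ v := by
    intro φ v hv
    rw [hTP]
    exact ksP_mem C _ hv
  have hTZ : ∀ φ, (∀ v ∈ V, ρ' v * φ = φ * ρ v) → T φ = ρ' g * φ * ρ g⁻¹ := by
    intro φ hφ
    rw [hTP]
    exact ksP_id C (ks_conj ‹V.Normal› hφ g)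
  have hpow : ∀ (i : ℕ) (φ), (∀ v ∈ V, ρ' v * φ = φ * ρ v) →
      (T ^ i) φ = ρ' (g ^ i) * φ * ρ (g ^ i)⁻¹ := by
    intro i φ hφ
    induction i with
    | zero => simp
    | succ i ih =>
      rw [pow_succ', Module.End.mul_apply, ih, hTZ _ (ks_conj ‹V.Normal› hφ (g ^ i))]
      rw [pow_succ', _root_.mul_inv_rev, map_mul, map_mul]
      simp only [Matrix.mul_assoc]
  have hidx : 0 < V.index := Nat.pos_of_ne_zero Subgroup.FiniteIndex.index_ne_zero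
  have hT' : T ^ (V.index + 1) = T := by
    refine LinearMap.ext fun φ => ?_
    have hm : g ^ V.index ∈ V := V.pow_index_mem g
    rw [pow_succ, Module.End.mul_apply, hpow _ _ (hZ φ), hZ φ _ hm, Matrix.mul_assoc, ← map_mul,
      mul_inv_cancel, map_one, Matrix.mul_one]
  have hb := bd_trace T V.index hidx hT'
  rw [htr, Module.finrank_matrix, Fintype.card_fin, Fintype.card_fin] at hb
  simpa using hb


end Pool.Agent.H89.IP
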