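import Pool.Agent.H89.IP.Cas
import Pool.Agent.H89.IP.KSa
import Pool.Agent.H89.IP.KSb
import Pool.Agent.H89.IP.Sch
import Pool.Agent.H89.IP.Clif

/-!
# IP.KS : the trace functions of a finite set of irreducible characters

PROOF. Choose for every `θ ∈ S` a representation `ρ θ` of size `n θ` (`hS`, index type `S`); `cas` for `V` (`clif`): `k, u, w`. For `θ, θ' ∈ S`: `ksb` with `ρ = ρ θ'`, `ρ' = ρ θ`: the sum is `card * finrank (Itw (ρ θ') (ρ θ))`, which is `card` if `θ = θ'` (`sch_self`, the same representation) and `0` otherwise (`sch_ne`). `ksa` with `dg_chi`.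
About 50 lines.
-/

set_option autoImplicit false

open Matrix

namespace Pool.Agent.H89.IP

variable {Γ E : Type*} [Group Γ] [Field E]

open Classical in
theorem ks [CharZero E] [IsAlgClosed E] (S : Finset (Γ → E)) (hS : ∀ θ ∈ S, Ich θ)
    (V : Subgroup Γ) [V.Normal] [Fintype (Γ ⧸ V)] :
    ∃ (r : ℕ) (k : Fin r → E) (u w : Fin r → Γ), (∀ a, u a ∈ V) ∧ (∀ a, w a ∈ V) ∧
      ∀ θ ∈ S, ∀ θ' ∈ S,
        (∑ q : Γ ⧸ V, tau k u w θ θ' q.out = if θ = θ' then (Fintype.card (Γ ⧸ V) : E) else 0) ∧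
        ∀ g, Bd (tau k u w θ θ' g) ((dg θ : ℝ) * dg θ') := by
  classical
  rcases S.eq_empty_or_nonempty with hE | hne
  · refine ⟨0, fun _ => 0, fun _ => 1, fun _ => 1, fun a => a.elim0, fun a => a.elim0, ?_⟩
    intro θ hθ
    rw [hE] at hθ
    exact absurd hθ (Finset.notMem_empty θ)
  have hch : ∀ i : S, ∃ (n : ℕ) (ρ : Γ →* Matrix (Fin n) (Fin n) E), MIrr ρ ∧ chi ρ = i.1 :=
    fun i => hS i.1 i.2
  choose n ρ hirr hchi using hch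
  obtain ⟨r, k, u, w, hC⟩ := cas n ρ V (fun i => clif (hirr i) V)
  have : V.FiniteIndex := Subgroup.finiteIndex_of_finite_quotient
  obtain ⟨θ₀, hθ₀⟩ := hne
  refine ⟨r, k, u, w, (hC ⟨θ₀, hθ₀⟩ ⟨θ₀, hθ₀⟩).hu, (hC ⟨θ₀, hθ₀⟩ ⟨θ₀, hθ₀⟩).hw, ?_⟩
  intro θ hθ θ' hθ'
  have h1 : chi (ρ ⟨θ, hθ⟩) = θ := hchi ⟨θ, hθ⟩
  have h2 : chi (ρ ⟨θ', hθ'⟩) = θ' := hchi ⟨θ', hθ'⟩
  have d1 : dg θ = n ⟨θ, hθ⟩ := by
    have h := dg_chi (ρ ⟨θ, hθ⟩)
    rw [h1] at h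
    exact h
  have d2 : dg θ' = n ⟨θ', hθ'⟩ := by
    have h := dg_chi (ρ ⟨θ', hθ'⟩)
    rw [h2] at h
    exact h
  constructor
  · have h := ksb (hC ⟨θ', hθ'⟩ ⟨θ, hθ⟩)
    rw [h1, h2] at h
    rw [h]
    by_cases hq : θ = θ'
    · subst hq
      rw [if_pos rfl, sch_self (hirr ⟨θ, hθ⟩), Nat.cast_one, mul_one]
    · rw [if_neg hq, sch_ne (hirr ⟨θ', hθ'⟩) (hirr ⟨θ, hθ⟩)
        (by rw [h1, h2]; exact fun h => hq h.symm), finrank_bot, Nat.cast_zero, mul_zero]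
  · intro g
    have h := ksa (hC ⟨θ', hθ'⟩ ⟨θ, hθ⟩) g
    rw [h1, h2] at h
    rw [d1, d2]
    exact h


end Pool.Agent.H89.IP
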