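import Pool.Agent.H89.IP.Fs

/-!
# IP.Lim : integer valued functions with small variance on the finite subgroups

PROOF. Write `μ C` for the mean, `v C` for the variance. For an integer `j`: `(m - j) (m - j - 1) ≥ 0`, so `v C + (μ C - j) ^ 2 - (μ C - j) ≥ 0`; with `j = ⌊μ C⌋` and `t = μ C - j ∈ [0, 1)`: `t (1 - t) ≤ v C`, so `min t (1 - t) ≤ 2 v C`: there is an integer `k_C ≥ 0` with `|μ C - k_C| ≤ 2 v C`. Take `C₀` such that `v C ≤ 1/16` for all `C ⊇ C₀` (`h1`) and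
`|μ C - μ C₀| ≤ 1/8` (`h2`, first enlarge: take a finite subgroup containing both sets, `fs_ex`; the mean at the enlarged set is within `1/8` of the mean at the old one); then all `k_C`, `C ⊇ C₀`, are equal to one `k` (`|k_C - k_{C₀}| ≤ 1/8 + 1/8 + 1/4 < 1`). For `ε > 0` take `C` with `v C ≤ δ`: then the proportion of the `χ ∈ C` with `m χ ≠ k` is at most the mean of
`(m - k) ^ 2`, which is `v C + (μ C - k) ^ 2 ≤ δ + 4 δ ^ 2 ≤ ε`. About 130 lines.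
-/

set_option autoImplicit false

namespace Pool.Agent.H89.IP

variable {X : Type*} [CommGroup X]

private theorem lim_int (C : Finset X) (hC : IsFS C) (m : X → ℕ) :
    ∃ k : ℕ, |(∑ χ ∈ C, (m χ : ℝ)) / (C.card : ℝ) - k| ≤
      2 * ((∑ χ ∈ C, (m χ : ℝ) ^ 2) / (C.card : ℝ) -
        ((∑ χ ∈ C, (m χ : ℝ)) / (C.card : ℝ)) ^ 2) := by
  have hc : (0 : ℝ) < C.card := by exact_mod_cast Finset.card_pos.2 ⟨1, hC.1⟩
  set μ := (∑ χ ∈ C, (m χ : ℝ)) / (C.card : ℝ) with hμ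
  set w := (∑ χ ∈ C, (m χ : ℝ) ^ 2) / (C.card : ℝ) with hw
  have hμ0 : 0 ≤ μ := by positivity
  have key : ∀ j : ℤ, 0 ≤ w - μ ^ 2 + (μ - j) * (μ - j - 1) := by
    intro j
    have h1 : 0 ≤ ∑ χ ∈ C, ((m χ : ℝ) - j) * ((m χ : ℝ) - j - 1) := by
      refine Finset.sum_nonneg fun χ _ => ?_
      rcases le_or_gt ((m χ : ℤ) - j) 0 with h | h
      · have h2 : ((m χ : ℝ) - j) ≤ 0 := by exact_mod_cast h
        nlinarith
      · have h2 : (1 : ℝ) ≤ (m χ : ℝ) - j := by exact_mod_cast h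
        nlinarith
    have h2 : ∑ χ ∈ C, ((m χ : ℝ) - j) * ((m χ : ℝ) - j - 1) =
        ∑ χ ∈ C, (m χ : ℝ) ^ 2 - (2 * j + 1) * ∑ χ ∈ C, (m χ : ℝ) + C.card * (j * (j + 1)) := by
      rw [Finset.mul_sum, ← Finset.sum_sub_distrib]
      have h3 : (C.card : ℝ) * (j * (j + 1)) = ∑ χ ∈ C, ((j : ℝ) * (j + 1)) := by
        rw [Finset.sum_const, nsmul_eq_mul]
      rw [h3, ← Finset.sum_add_distrib]
      exact Finset.sum_congr rfl fun χ _ => by ring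
    have h3 : ∑ χ ∈ C, (m χ : ℝ) = C.card * μ := (mul_div_cancel₀ _ hc.ne').symm
    have h4 : ∑ χ ∈ C, (m χ : ℝ) ^ 2 = C.card * w := (mul_div_cancel₀ _ hc.ne').symm
    rw [h2, h3, h4] at h1
    have h5 : C.card * w - (2 * j + 1) * (C.card * μ) + C.card * (j * (j + 1)) =
        C.card * (w - μ ^ 2 + (μ - j) * (μ - j - 1)) := by ring
    rw [h5] at h1
    exact nonneg_of_mul_nonneg_right h1 hc
  have hj0 : 0 ≤ ⌊μ⌋ := Int.floor_nonneg.2 hμ0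
  have h6 := Int.floor_le μ
  have h7 := Int.lt_floor_add_one μ
  have h8 := key ⌊μ⌋
  obtain ⟨n, hn⟩ := Int.eq_ofNat_of_zero_le hj0
  have hnr : ((⌊μ⌋ : ℤ) : ℝ) = n := by rw [hn]; simp
  rw [hnr] at h6 h7 h8
  rcases le_or_gt (μ - n) (1 / 2) with h | h
  · refine ⟨n, ?_⟩
    rw [abs_of_nonneg (by linarith)]
    nlinarith
  · refine ⟨n + 1, ?_⟩
    push_cast
    rw [abs_of_nonpos (by linarith)]
    nlinarith

open Classical in
private theorem lim_cnt (C : Finset X) (hC : IsFS C) (m : X → ℕ) (k : ℕ) :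
    ((C.filter (fun χ => m χ ≠ k)).card : ℝ) ≤
      C.card * ((∑ χ ∈ C, (m χ : ℝ) ^ 2) / (C.card : ℝ) -
        ((∑ χ ∈ C, (m χ : ℝ)) / (C.card : ℝ)) ^ 2 +
        ((∑ χ ∈ C, (m χ : ℝ)) / (C.card : ℝ) - k) ^ 2) := by
  have hc : (0 : ℝ) < C.card := by exact_mod_cast Finset.card_pos.2 ⟨1, hC.1⟩
  have h1 : ((C.filter (fun χ => m χ ≠ k)).card : ℝ) ≤ ∑ χ ∈ C, ((m χ : ℝ) - k) ^ 2 := by
    rw [Finset.card_eq_sum_ones, Nat.cast_sum, Finset.sum_filter]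
    refine Finset.sum_le_sum fun χ _ => ?_
    split_ifs with h
    · push_cast
      rcases Nat.lt_or_gt_of_ne h with h2 | h2
      · have h3 : (m χ : ℝ) + 1 ≤ k := by exact_mod_cast h2
        nlinarith
      · have h3 : (k : ℝ) + 1 ≤ m χ := by exact_mod_cast h2
        nlinarith
    · positivity
  have h2 : ∑ χ ∈ C, ((m χ : ℝ) - k) ^ 2 =
      ∑ χ ∈ C, (m χ : ℝ) ^ 2 - (2 * k) * ∑ χ ∈ C, (m χ : ℝ) + C.card * (k : ℝ) ^ 2 := by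
    rw [Finset.mul_sum, ← Finset.sum_sub_distrib]
    have h3 : (C.card : ℝ) * (k : ℝ) ^ 2 = ∑ χ ∈ C, (k : ℝ) ^ 2 := by
      rw [Finset.sum_const, nsmul_eq_mul]
    rw [h3, ← Finset.sum_add_distrib]
    exact Finset.sum_congr rfl fun χ _ => by ring
  rw [h2] at h1
  refine h1.trans (le_of_eq ?_)
  field_simp
  ring

open Classical in
theorem lim (tor : ∀ χ : X, IsOfFinOrder χ) (m : X → ℕ)
    (h1 : ∀ ε : ℝ, 0 < ε → ∃ C₀ : Finset X, IsFS C₀ ∧ ∀ C, IsFS C → C₀ ⊆ C →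
      (∑ χ ∈ C, (m χ : ℝ) ^ 2) / (C.card : ℝ) - ((∑ χ ∈ C, (m χ : ℝ)) / (C.card : ℝ)) ^ 2 ≤ ε)
    (h2 : ∀ ε : ℝ, 0 < ε → ∃ C₀ : Finset X, IsFS C₀ ∧ ∀ C, IsFS C → C₀ ⊆ C →
      |(∑ χ ∈ C₀, (m χ : ℝ)) / (C₀.card : ℝ) - (∑ χ ∈ C, (m χ : ℝ)) / (C.card : ℝ)| ≤ ε) :
    ∃ k : ℕ, ∀ ε : ℝ, 0 < ε → ∃ C₀ : Finset X, IsFS C₀ ∧ ∀ C, IsFS C → C₀ ⊆ C →
      ((C.filter (fun χ => m χ ≠ k)).card : ℝ) ≤ ε * (C.card : ℝ) := by
  obtain ⟨C1, -, hC1⟩ := h1 (1 / 16) (by norm_num)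
  obtain ⟨C2, -, hC2⟩ := h2 (1 / 8) (by norm_num)
  obtain ⟨C₀, hF0, hC0⟩ := fs_ex tor (C1 ∪ C2)
  have h10 : C1 ⊆ C₀ := (Finset.subset_union_left).trans hC0
  have h20 : C2 ⊆ C₀ := (Finset.subset_union_right).trans hC0
  obtain ⟨k, hk⟩ := lim_int C₀ hF0 m
  have hv0 := hC1 C₀ hF0 h10
  have hm0 := hC2 C₀ hF0 h20
  have main : ∀ C, IsFS C → C₀ ⊆ C → |(∑ χ ∈ C, (m χ : ℝ)) / (C.card : ℝ) - k| ≤
      2 * ((∑ χ ∈ C, (m χ : ℝ) ^ 2) / (C.card : ℝ) -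
        ((∑ χ ∈ C, (m χ : ℝ)) / (C.card : ℝ)) ^ 2) := by
    intro C hF hC
    obtain ⟨k', hk'⟩ := lim_int C hF m
    have hv := hC1 C hF (h10.trans hC)
    have hm := hC2 C hF (h20.trans hC)
    have h3 : |(k : ℝ) - k'| < 1 := by
      rw [abs_lt]
      rw [abs_le] at hk hk' hm hm0
      constructor <;> linarith [hk.1, hk.2, hk'.1, hk'.2, hm.1, hm.2, hm0.1, hm0.2]
    have h4 : k = k' := by
      have h5 : |((k : ℤ) - k' : ℤ)| < 1 := by exact_mod_cast h3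
      have h6 := Int.abs_lt_one_iff.1 h5
      omega
    rw [h4]
    exact hk'
  refine ⟨k, fun ε hε => ?_⟩
  obtain ⟨C3, -, hC3⟩ := h1 (ε / 2) (by positivity)
  obtain ⟨C4, hF4, hC4⟩ := fs_ex tor (C₀ ∪ C3)
  refine ⟨C4, hF4, fun C hF hC => ?_⟩
  have h04 : C₀ ⊆ C := ((Finset.subset_union_left).trans hC4).trans hC
  have h34 : C3 ⊆ C := ((Finset.subset_union_right).trans hC4).trans hC
  have e1 := main C hF h04
  have e2 := hC3 C hF h34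
  have e3 := hC1 C hF (h10.trans h04)
  have e4 := lim_cnt C hF m k
  set v := (∑ χ ∈ C, (m χ : ℝ) ^ 2) / (C.card : ℝ) -
        ((∑ χ ∈ C, (m χ : ℝ)) / (C.card : ℝ)) ^ 2 with hv
  set d := (∑ χ ∈ C, (m χ : ℝ)) / (C.card : ℝ) - k with hd
  have hv0 : 0 ≤ v := by
    have := abs_nonneg d
    linarith
  have e5 : d ^ 2 ≤ (2 * v) ^ 2 := by
    rw [← sq_abs d]
    exact pow_le_pow_left₀ (abs_nonneg d) e1 2
  have e6 : v + d ^ 2 ≤ ε := by nlinarith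
  have hc : (0 : ℝ) ≤ C.card := by positivity
  calc ((C.filter (fun χ => m χ ≠ k)).card : ℝ) ≤ C.card * (v + d ^ 2) := e4
    _ ≤ C.card * ε := mul_le_mul_of_nonneg_left e6 hc
    _ = ε * C.card := mul_comm _ _

end Pool.Agent.H89.IP
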