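import Pool.Agent.H89.IP.KS

/-!
# IP.Key : the key inequality, one and two variables

PROOF of `key2`. `ks` for `S`: `k, u, w`. Put `F g g' = ∑ θ θ', c θ θ' (θ g * θ' g')`. For all `g, g'`: `∑ θ₁ θ₂ θ₃ θ₄, c θ₁ θ₂ c θ₃ θ₄ tau θ₁ θ₃ g * tau θ₂ θ₄ g' = ∑ a b, k a k b F (u a g) (u b g') F (g⁻¹ w a) (g'⁻¹ w b)` (expand). If `(g V, g' V) ∉ B` this is `0`, because `u a * g` is in the coset of `g` (`V` normal). Sum over `g = q.out`,
`g' = q'.out`, `(q, q') ∈ (Γ ⧸ V) ^ 2`: the left side becomes `∑ c θ₁ θ₂ c θ₃ θ₄ [θ₁ = θ₃] [θ₂ = θ₄] card ^ 2 = (∑ c ^ 2) card ^ 2`; on the right side only the pairs in `B` remain, and for each of them the left expression is `Bd` with the bound `∑ |c θ₁ θ₂| |c θ₃ θ₄| dg θ₁ dg θ₃ dg θ₂ dg θ₄ = (∑ |c| dg dg) ^ 2` (`Bd.sum`, `Bd.mul`, `Bd.smul`).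
So the rational number `(∑ c ^ 2) card ^ 2` is `Bd` with the bound `B.card * (...) ^ 2`, `Bd.rat`. `key1` is the same with one variable. About 200 lines (both).
-/

set_option autoImplicit false

open Matrix

namespace Pool.Agent.H89.IP

variable {Γ E : Type*} [Group Γ] [Field E]

open Classical in
private theorem key_abs [CharZero E] {ι Q : Type*} [Fintype Q] (I : Finset ι) (t : ι → ι → Q → E)
    (d : ι → ℝ) (N : ℕ) (c : ι → ℚ) (B : Finset Q)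
    (hs : ∀ i ∈ I, ∀ j ∈ I, ∑ q, t i j q = if i = j then (N : E) else 0)
    (hb : ∀ i ∈ I, ∀ j ∈ I, ∀ q, Bd (t i j q) (d i * d j))
    (h0 : ∀ q, q ∉ B → ∑ i ∈ I, ∑ j ∈ I, (c i : E) * (c j : E) * t i j q = 0) :
    (∑ i ∈ I, (c i : ℝ) ^ 2) * (N : ℝ) ≤ (B.card : ℝ) * (∑ i ∈ I, |(c i : ℝ)| * d i) ^ 2 := by
  have h1 : ∑ q, ∑ i ∈ I, ∑ j ∈ I, (c i : E) * (c j : E) * t i j q =
      (((∑ i ∈ I, (c i) ^ 2) * (N : ℚ) : ℚ) : E) := by
    rw [Finset.sum_comm]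
    have e1 : ∀ i ∈ I, ∑ q, ∑ j ∈ I, (c i : E) * (c j : E) * t i j q =
        (c i : E) ^ 2 * (N : E) := by
      intro i hi
      rw [Finset.sum_comm]
      have e2 : ∀ j ∈ I, ∑ q, (c i : E) * (c j : E) * t i j q =
          if i = j then (c i : E) * (c j : E) * (N : E) else 0 := by
        intro j hj
        rw [← Finset.mul_sum, hs i hi j hj]
        split_ifs
        · rfl
        · rw [mul_zero]
      rw [Finset.sum_congr rfl e2, Finset.sum_ite_eq, if_pos hi]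
      ring
    rw [Finset.sum_congr rfl e1, ← Finset.sum_mul]
    push_cast
    rfl
  have h2 : ∑ q, ∑ i ∈ I, ∑ j ∈ I, (c i : E) * (c j : E) * t i j q =
      ∑ q ∈ B, ∑ i ∈ I, ∑ j ∈ I, (c i : E) * (c j : E) * t i j q :=
    (Finset.sum_subset (Finset.subset_univ B) fun q _ hq => h0 q hq).symm
  have h3 : ∀ q, Bd (∑ i ∈ I, ∑ j ∈ I, (c i : E) * (c j : E) * t i j q)
      ((∑ i ∈ I, |(c i : ℝ)| * d i) ^ 2) := by
    intro q
    have e3 : (∑ i ∈ I, |(c i : ℝ)| * d i) ^ 2 =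
        ∑ i ∈ I, ∑ j ∈ I, |((c i * c j : ℚ) : ℝ)| * (d i * d j) := by
      rw [sq, Finset.sum_mul_sum]
      refine Finset.sum_congr rfl fun i _ => Finset.sum_congr rfl fun j _ => ?_
      rw [Rat.cast_mul, abs_mul]
      ring
    rw [e3]
    refine Bd.sum I _ _ fun i hi => Bd.sum I _ _ fun j hj => ?_
    have e4 : (c i : E) * (c j : E) * t i j q = ((c i * c j : ℚ) : E) * t i j q := by
      rw [Rat.cast_mul]
    rw [e4]
    exact Bd.smul _ (hb i hi j hj q)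
  have h4 : Bd (((∑ i ∈ I, (c i) ^ 2) * (N : ℚ) : ℚ) : E)
      (∑ q ∈ B, (∑ i ∈ I, |(c i : ℝ)| * d i) ^ 2) := by
    rw [← h1, h2]
    exact Bd.sum B _ _ fun q _ => h3 q
  have h5 := Bd.rat _ h4
  rw [Finset.sum_const, nsmul_eq_mul] at h5
  refine le_trans ?_ ((le_abs_self _).trans h5)
  push_cast
  exact le_rfl

private theorem key_coset (V : Subgroup Γ) [V.Normal] (q : Γ ⧸ V) {x : Γ} (hx : x ∈ V) :
    ((x * q.out : Γ) : Γ ⧸ V) = q := by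
  have h1 : ((x * q.out : Γ) : Γ ⧸ V) = (x : Γ ⧸ V) * (q.out : Γ ⧸ V) := rfl
  rw [h1, (QuotientGroup.eq_one_iff x).2 hx, one_mul, QuotientGroup.out_eq']

theorem key2 [CharZero E] [IsAlgClosed E] (S : Finset (Γ → E)) (hS : ∀ θ ∈ S, Ich θ)
    (V : Subgroup Γ) [V.Normal] [Fintype (Γ ⧸ V)] (c : (Γ → E) → (Γ → E) → ℚ)
    (B : Finset ((Γ ⧸ V) × (Γ ⧸ V)))
    (h : ∀ g g' : Γ, ((g : Γ ⧸ V), (g' : Γ ⧸ V)) ∉ B →
      ∑ θ ∈ S, ∑ θ' ∈ S, (c θ θ' : E) * (θ g * θ' g') = 0) :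
    (∑ θ ∈ S, ∑ θ' ∈ S, (c θ θ' : ℝ) ^ 2) * (Fintype.card (Γ ⧸ V) : ℝ) ^ 2 ≤
      (B.card : ℝ) * (∑ θ ∈ S, ∑ θ' ∈ S, |(c θ θ' : ℝ)| * ((dg θ : ℝ) * dg θ')) ^ 2 := by
  classical
  obtain ⟨r, k, u, w, hu, hw, hk⟩ := ks S hS V
  have main := key_abs (E := E) (S ×ˢ S)
    (fun i j (q : (Γ ⧸ V) × (Γ ⧸ V)) => tau k u w i.1 j.1 q.1.out * tau k u w i.2 j.2 q.2.out)
    (fun i => (dg i.1 : ℝ) * dg i.2) (Fintype.card (Γ ⧸ V) ^ 2) (fun i => c i.1 i.2) B ?_ ?_ ?_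
  · rw [Finset.sum_product, Finset.sum_product] at main
    push_cast at main
    exact main
  · intro i hi j hj
    rw [Finset.mem_product] at hi hj
    have e1 : ∑ q : (Γ ⧸ V) × (Γ ⧸ V), tau k u w i.1 j.1 q.1.out * tau k u w i.2 j.2 q.2.out =
        (∑ q : Γ ⧸ V, tau k u w i.1 j.1 q.out) * ∑ q : Γ ⧸ V, tau k u w i.2 j.2 q.out := by
      rw [Fintype.sum_prod_type, Finset.sum_mul_sum]
    rw [e1, (hk i.1 hi.1 j.1 hj.1).1, (hk i.2 hi.2 j.2 hj.2).1]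
    by_cases h1 : i.1 = j.1
    · by_cases h2 : i.2 = j.2
      · rw [if_pos h1, if_pos h2, if_pos (Prod.ext h1 h2)]
        push_cast
        ring
      · rw [if_neg h2, if_neg (fun h3 => h2 (congrArg Prod.snd h3)), mul_zero]
    · rw [if_neg h1, if_neg (fun h3 => h1 (congrArg Prod.fst h3)), zero_mul]
  · intro i hi j hj q
    rw [Finset.mem_product] at hi hj
    have e1 := Bd.mul ((hk i.1 hi.1 j.1 hj.1).2 q.1.out) ((hk i.2 hi.2 j.2 hj.2).2 q.2.out)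
    have e2 : (dg i.1 : ℝ) * dg i.2 * ((dg j.1 : ℝ) * dg j.2) =
        (dg i.1 : ℝ) * dg j.1 * ((dg i.2 : ℝ) * dg j.2) := by ring
    rw [e2]
    exact e1
  · intro q hq
    rw [Finset.sum_comm]
    refine Finset.sum_eq_zero fun j _ => ?_
    have e1 : ∀ i ∈ S ×ˢ S, (c i.1 i.2 : E) * (c j.1 j.2 : E) *
        (tau k u w i.1 j.1 q.1.out * tau k u w i.2 j.2 q.2.out) =
        ∑ a, ∑ b, (c j.1 j.2 : E) * (k a * k b * (j.1 (q.1.out⁻¹ * w a) * j.2 (q.2.out⁻¹ * w b))) *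
          ((c i.1 i.2 : E) * (i.1 (u a * q.1.out) * i.2 (u b * q.2.out))) := by
      intro i _
      rw [tau, tau, Finset.sum_mul_sum, Finset.mul_sum]
      refine Finset.sum_congr rfl fun a _ => ?_
      rw [Finset.mul_sum]
      refine Finset.sum_congr rfl fun b _ => ?_
      ring
    rw [Finset.sum_congr rfl e1, Finset.sum_comm]
    refine Finset.sum_eq_zero fun a _ => ?_
    rw [Finset.sum_comm]
    refine Finset.sum_eq_zero fun b _ => ?_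
    rw [← Finset.mul_sum, Finset.sum_product]
    have e2 : (((u a * q.1.out : Γ) : Γ ⧸ V), ((u b * q.2.out : Γ) : Γ ⧸ V)) ∉ B := by
      rw [key_coset V q.1 (hu a), key_coset V q.2 (hu b)]
      exact hq
    rw [h _ _ e2, mul_zero]

theorem key1 [CharZero E] [IsAlgClosed E] (S : Finset (Γ → E)) (hS : ∀ θ ∈ S, Ich θ)
    (V : Subgroup Γ) [V.Normal] [Fintype (Γ ⧸ V)] (c : (Γ → E) → ℚ) (B : Finset (Γ ⧸ V))
    (h : ∀ g : Γ, (g : Γ ⧸ V) ∉ B → ∑ θ ∈ S, (c θ : E) * θ g = 0) :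
    (∑ θ ∈ S, (c θ : ℝ) ^ 2) * (Fintype.card (Γ ⧸ V) : ℝ) ≤
      (B.card : ℝ) * (∑ θ ∈ S, |(c θ : ℝ)| * (dg θ : ℝ)) ^ 2 := by
  classical
  obtain ⟨r, k, u, w, hu, hw, hk⟩ := ks S hS V
  refine key_abs (E := E) S (fun i j (q : Γ ⧸ V) => tau k u w i j q.out)
    (fun i => (dg i : ℝ)) (Fintype.card (Γ ⧸ V)) c B ?_ ?_ ?_
  · intro i hi j hj
    exact (hk i hi j hj).1
  · intro i hi j hj q
    exact (hk i hi j hj).2 q.out
  · intro q hq
    rw [Finset.sum_comm]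
    refine Finset.sum_eq_zero fun j _ => ?_
    have e1 : ∀ i ∈ S, (c i : E) * (c j : E) * tau k u w i j q.out =
        ∑ a, (c j : E) * (k a * j (q.out⁻¹ * w a)) * ((c i : E) * i (u a * q.out)) := by
      intro i _
      rw [tau, Finset.mul_sum]
      refine Finset.sum_congr rfl fun a _ => ?_
      ring
    rw [Finset.sum_congr rfl e1, Finset.sum_comm]
    refine Finset.sum_eq_zero fun a _ => ?_
    rw [← Finset.mul_sum]
    have e2 : ((u a * q.out : Γ) : Γ ⧸ V) ∉ B := by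
      rw [key_coset V q (hu a)]
      exact hq
    rw [h _ e2, mul_zero]


end Pool.Agent.H89.IP
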