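import Pool.Agent.H89.IP.CntB
import Pool.Agent.H89.IP.Avg
import Pool.Agent.H89.IP.Coef
import Pool.Agent.H89.IP.Key

/-!
# IP.VarB : second moment

PROOF. Let `Θ` be the union of the supports of `m χ`, `χ ∈ C`, `c θ θ' = cov C θ θ'`. For `(g, g') ∉ S.Bad2 C` we show `∑ ∑ c θ θ' (θ g * θ' g') = 0`: by `sum_cov` this is a function of `(g, g')`, continuous in each variable (`S.cT`), on `g V × g' V` (`bad2_mul`) it vanishes if both are in `⋂ D χ`, `χ ∈ C`: `avgB` gives `a g a g'` for the first term, `avgA` (`χ₂ = 1`,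
`g, g' ∉ S.Bad C` because `(g, g') ∉ S.Bad2 C`) gives `a g`, `a g'` for the other factors. `ext2`. `key2` for `V = S.V C` and `B = {p | (p.1.out, p.2.out) ∈ S.Bad2 C}`: `(∑ ∑ c ^ 2) * card Q ^ 2 ≤ B.card * (∑ ∑ |c| dg dg) ^ 2 ≤ B.card * 4 N ^ 4` (`sum_cov_dg`), `L * B.card ≤ (..) card Q ^ 2` (`cntB`), and `c θ θ ^ 2` is one of the terms (if `θ ∉ Θ` it is `0`). About 130 lines.
-/

set_option autoImplicit false

namespace Pool.Agent.H89.IP

variable {H E X Y : Type*} [Group H] [TopologicalSpace H] [Field E] [TopologicalSpace E]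
  [CommGroup X] [Fintype Y] (S : Sys H E X Y)

namespace Sys

private lemma varB_zero [CharZero E] [IsAlgClosed E] [T2Space E] [IsTopologicalRing E]
    [IsTopologicalGroup H] [CompactSpace H] {C : Finset X} (hC : IsFS C) (Θ : Finset (H → E))
    (hΘ : ∀ χ ∈ C, (S.m χ).support ⊆ Θ) (g g' : H) (hb : (g, g') ∉ S.Bad2 C) :
    ∑ θ ∈ Θ, ∑ θ' ∈ Θ, ((S.cov C θ θ' : ℚ) : E) * (θ g * θ' g') = 0 := by
  have hcard : (C.card : E) ≠ 0 := by
    rw [Nat.cast_ne_zero]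
    exact Finset.card_ne_zero_of_mem hC.1
  rw [S.sum_cov C Θ hΘ g g']
  have hU : ∀ x : H, IsOpen {h : H | x⁻¹ * h ∈ S.V C} := fun x =>
    (S.isOpen_V C).preimage (continuous_const.mul continuous_id)
  have hkey := S.ext2 C (f := fun g g' => (∑ χ ∈ C, S.T χ g * S.T χ g') / (C.card : E) -
        (∑ χ ∈ C, S.T χ g) / (C.card : E) * ((∑ χ ∈ C, S.T χ g') / (C.card : E)))
    (fun g' => by
      refine Continuous.sub ?_ ?_
      · exact (continuous_finsetSum C fun χ _ => (S.cT χ).mul continuous_const).div_const _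
      · exact ((continuous_finsetSum C fun χ _ => S.cT χ).div_const _).mul continuous_const)
    (fun g => by
      refine Continuous.sub ?_ ?_
      · exact (continuous_finsetSum C fun χ _ => continuous_const.mul (S.cT χ)).div_const _
      · exact continuous_const.mul ((continuous_finsetSum C fun χ _ => S.cT χ).div_const _))
    (hU g) (hU g')
    (fun h hh h' hh' hD hD' => by
      have hv : g⁻¹ * h ∈ S.V C := hh
      have hv' : g'⁻¹ * h' ∈ S.V C := hh'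
      have hb2 : (h, h') ∉ S.Bad2 C := by
        have := S.bad2_mul (C := C) hv hv' g g'
        rw [mul_inv_cancel_left, mul_inv_cancel_left] at this
        rwa [this]
      have hb3 : h ∉ S.Bad C := fun hc => hb2 (Or.inl hc)
      have hb4 : h' ∉ S.Bad C := fun hc => hb2 (Or.inr (Or.inl hc))
      have e1 := S.avgB hC hD hD' hb2
      have e2 := S.avgA hC 1 (g := h) (fun χ hχ => by rw [one_mul]; exact hD χ hχ) hb3
      have e3 := S.avgA hC 1 (g := h') (fun χ hχ => by rw [one_mul]; exact hD' χ hχ) hb4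
      simp only [one_mul] at e2 e3
      show (∑ χ ∈ C, S.T χ h * S.T χ h') / (C.card : E) -
        (∑ χ ∈ C, S.T χ h) / (C.card : E) * ((∑ χ ∈ C, S.T χ h') / (C.card : E)) = 0
      rw [e1, e2, e3, mul_div_cancel_left₀ _ hcard, mul_div_cancel_left₀ _ hcard,
        mul_div_cancel_left₀ _ hcard, sub_self])
  exact hkey g (by show g⁻¹ * g ∈ S.V C; rw [inv_mul_cancel]; exact (S.V C).one_mem) g'
    (by show g'⁻¹ * g' ∈ S.V C; rw [inv_mul_cancel]; exact (S.V C).one_mem)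

theorem varB [CharZero E] [IsAlgClosed E] [T2Space E] [IsTopologicalRing E] [IsTopologicalGroup H]
    [CompactSpace H] {C : Finset X} (hC : IsFS C) (L : ℕ) (hL : ∀ y, L ≤ (S.B C y).index)
    (θ : H → E) :
    (L : ℝ) * ((S.cov C θ θ : ℚ) : ℝ) ^ 2 ≤
      4 * ((Fintype.card Y : ℝ) ^ 2 + 2 * Fintype.card Y) * (S.N : ℝ) ^ 4 := by
  classical
  set Θ : Finset (H → E) := C.biUnion (fun χ => (S.m χ).support) with hΘd
  have hΘ : ∀ χ ∈ C, (S.m χ).support ⊆ Θ := fun χ hχ =>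
    Finset.subset_biUnion_of_mem (fun χ => (S.m χ).support) hχ
  by_cases hθ : θ ∈ Θ
  · haveI := S.fin_V C
    haveI : Fintype (H ⧸ S.V C) := Fintype.ofFinite _
    have hI : ∀ θ ∈ Θ, Ich θ := by
      intro θ hθ
      obtain ⟨χ, _, h2⟩ := Finset.mem_biUnion.1 hθ
      exact S.mI χ θ h2
    set B : Finset ((H ⧸ S.V C) × (H ⧸ S.V C)) :=
      Finset.univ.filter (fun p => (p.1.out, p.2.out) ∈ S.Bad2 C) with hB
    have hk := key2 Θ hI (S.V C) (fun θ θ' => S.cov C θ θ') B (by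
      intro g g' hgg
      refine S.varB_zero hC Θ hΘ g g' ?_
      intro hc
      refine hgg ?_
      rw [hB, Finset.mem_filter]
      refine ⟨Finset.mem_univ _, ?_⟩
      obtain ⟨v, hv⟩ := QuotientGroup.mk_out_eq_mul (S.V C) g
      obtain ⟨v', hv'⟩ := QuotientGroup.mk_out_eq_mul (S.V C) g'
      show ((g : H ⧸ S.V C).out, (g' : H ⧸ S.V C).out) ∈ S.Bad2 C
      rw [hv, hv']
      exact (S.bad2_mul v.2 v'.2 g g').2 hc)
    have hc := S.cntB C L hL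
    rw [← hB] at hc
    have hc' : (L : ℝ) * (B.card : ℝ) ≤
        ((Fintype.card Y : ℝ) ^ 2 + 2 * Fintype.card Y) * (Fintype.card (H ⧸ S.V C) : ℝ) ^ 2 := by
      exact_mod_cast hc
    have hd := S.sum_cov_dg C Θ
    have hd0 : 0 ≤ ∑ θ ∈ Θ, ∑ θ' ∈ Θ, |((S.cov C θ θ' : ℚ) : ℝ)| * ((dg θ : ℝ) * dg θ') :=
      Finset.sum_nonneg fun _ _ => Finset.sum_nonneg fun _ _ => by positivity
    have hd2 : (∑ θ ∈ Θ, ∑ θ' ∈ Θ, |((S.cov C θ θ' : ℚ) : ℝ)| * ((dg θ : ℝ) * dg θ')) ^ 2 ≤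
        4 * (S.N : ℝ) ^ 4 := by
      calc _ ≤ (2 * (S.N : ℝ) ^ 2) ^ 2 := pow_le_pow_left₀ hd0 hd 2
        _ = 4 * (S.N : ℝ) ^ 4 := by ring
    have h1 : ((S.cov C θ θ : ℚ) : ℝ) ^ 2 ≤
        ∑ θ ∈ Θ, ∑ θ' ∈ Θ, ((S.cov C θ θ' : ℚ) : ℝ) ^ 2 := by
      calc ((S.cov C θ θ : ℚ) : ℝ) ^ 2 ≤ ∑ θ' ∈ Θ, ((S.cov C θ θ' : ℚ) : ℝ) ^ 2 :=
            Finset.single_le_sum (f := fun θ' => ((S.cov C θ θ' : ℚ) : ℝ) ^ 2)
              (fun _ _ => sq_nonneg _) hθ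
        _ ≤ _ := Finset.single_le_sum
              (f := fun θ => ∑ θ' ∈ Θ, ((S.cov C θ θ' : ℚ) : ℝ) ^ 2)
              (fun _ _ => Finset.sum_nonneg fun _ _ => sq_nonneg _) hθ
    have hQ : (0 : ℝ) < (Fintype.card (H ⧸ S.V C) : ℝ) ^ 2 := by
      have : 0 < Fintype.card (H ⧸ S.V C) := Fintype.card_pos
      positivity
    have hL0 : (0 : ℝ) ≤ (L : ℝ) := Nat.cast_nonneg _
    have hN0 : (0 : ℝ) ≤ 4 * (S.N : ℝ) ^ 4 := by positivity
    refine le_of_mul_le_mul_right ?_ hQ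
    calc (L : ℝ) * ((S.cov C θ θ : ℚ) : ℝ) ^ 2 * (Fintype.card (H ⧸ S.V C) : ℝ) ^ 2
        ≤ (L : ℝ) * (∑ θ ∈ Θ, ∑ θ' ∈ Θ, ((S.cov C θ θ' : ℚ) : ℝ) ^ 2) *
            (Fintype.card (H ⧸ S.V C) : ℝ) ^ 2 :=
          mul_le_mul_of_nonneg_right (mul_le_mul_of_nonneg_left h1 hL0) hQ.le
      _ = (L : ℝ) * ((∑ θ ∈ Θ, ∑ θ' ∈ Θ, ((S.cov C θ θ' : ℚ) : ℝ) ^ 2) *
            (Fintype.card (H ⧸ S.V C) : ℝ) ^ 2) := by ring
      _ ≤ (L : ℝ) * ((B.card : ℝ) * (∑ θ ∈ Θ, ∑ θ' ∈ Θ, |((S.cov C θ θ' : ℚ) : ℝ)| *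
            ((dg θ : ℝ) * dg θ')) ^ 2) := mul_le_mul_of_nonneg_left hk hL0
      _ ≤ (L : ℝ) * ((B.card : ℝ) * (4 * (S.N : ℝ) ^ 4)) :=
          mul_le_mul_of_nonneg_left (mul_le_mul_of_nonneg_left hd2 (Nat.cast_nonneg _)) hL0
      _ = (L : ℝ) * (B.card : ℝ) * (4 * (S.N : ℝ) ^ 4) := by ring
      _ ≤ ((Fintype.card Y : ℝ) ^ 2 + 2 * Fintype.card Y) *
            (Fintype.card (H ⧸ S.V C) : ℝ) ^ 2 * (4 * (S.N : ℝ) ^ 4) :=
          mul_le_mul_of_nonneg_right hc' hN0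
      _ = _ := by ring
  · have hz : ∀ χ ∈ C, S.m χ θ = 0 := by
      intro χ hχ
      by_contra hne
      exact hθ (hΘ χ hχ (Finsupp.mem_support_iff.2 hne))
    have hmu : S.mu C θ = 0 := by
      unfold mu
      rw [Finset.sum_eq_zero (fun χ hχ => by rw [hz χ hχ]; simp), zero_div]
    have hcov : S.cov C θ θ = 0 := by
      unfold cov
      rw [Finset.sum_eq_zero (fun χ hχ => by rw [hz χ hχ]; simp), zero_div, hmu]
      ring
    rw [hcov]
    simp only [Rat.cast_zero]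
    rw [zero_pow two_ne_zero, mul_zero]
    positivity


end Sys

end Pool.Agent.H89.IP
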