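import Pool.Agent.H89.IP.MeanB
import Pool.Agent.H89.IP.VarB
import Pool.Agent.H89.IP.Lim
import Pool.Agent.H89.IP.IG

/-!
# IP.Kex : the limit multiplicities

PROOF. For a fixed `θ` apply `lim` to `χ ↦ S.m χ θ`. `h1`: given `ε` take `L` with `4 (card Y ^ 2 + 2 card Y) N ^ 4 ≤ L ε ^ 2` and `C₀` from `ig`; for `C ⊇ C₀`: `L (cov C θ θ) ^ 2 ≤ L ε ^ 2` (`varB`), so `cov C θ θ ≤ ε` and the expression is the cast of `S.cov C θ θ` (unfold `cov`, `mu`, `push_cast`). `h2`: take `L` with `4 card Y N ^ 2 ≤ L ε ^ 2`, `meanB`. Choose `k θ`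
(`Classical.choose`, `choose`). About 70 lines.
-/

set_option autoImplicit false

namespace Pool.Agent.H89.IP

variable {H E X Y : Type*} [Group H] [TopologicalSpace H] [Field E] [TopologicalSpace E]
  [CommGroup X] [Fintype Y] (S : Sys H E X Y)

namespace Sys

open Classical in
theorem kex [CharZero E] [IsAlgClosed E] [T2Space E] [IsTopologicalRing E] [IsTopologicalGroup H]
    [CompactSpace H] : ∃ k : (H → E) → ℕ, ∀ θ, ∀ ε : ℝ, 0 < ε → ∃ C₀ : Finset X, IsFS C₀ ∧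
      ∀ C, IsFS C → C₀ ⊆ C → ((C.filter (fun χ => S.m χ θ ≠ k θ)).card : ℝ) ≤ ε * (C.card : ℝ) := by
  have hL : ∀ (K ε : ℝ), 0 < ε → ∃ L : ℕ, 0 < L ∧ K ≤ (L : ℝ) * ε ^ 2 := by
    intro K ε hε
    obtain ⟨L, h⟩ := exists_nat_ge (K / ε ^ 2)
    refine ⟨L + 1, Nat.succ_pos _, ?_⟩
    have h1 : 0 < ε ^ 2 := by positivity
    rw [div_le_iff₀ h1] at h
    push_cast
    nlinarith
  have hsq : ∀ (L : ℕ) (x ε K : ℝ), 0 < L → 0 < ε → (L : ℝ) * x ^ 2 ≤ K → K ≤ (L : ℝ) * ε ^ 2 →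
      |x| ≤ ε := by
    intro L x ε K h0 hε h1 h2
    have h3 : (0 : ℝ) < L := Nat.cast_pos.2 h0
    have h4 : x ^ 2 ≤ ε ^ 2 := le_of_mul_le_mul_left (h1.trans h2) h3
    exact abs_le_of_sq_le_sq h4 hε.le
  have hmu : ∀ (C : Finset X) (θ : H → E),
      ((S.mu C θ : ℚ) : ℝ) = (∑ χ ∈ C, (S.m χ θ : ℝ)) / (C.card : ℝ) := by
    intro C θ
    rw [Sys.mu]
    push_cast
    rfl
  have hcov : ∀ (C : Finset X) (θ : H → E), ((S.cov C θ θ : ℚ) : ℝ) =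
      (∑ χ ∈ C, (S.m χ θ : ℝ) ^ 2) / (C.card : ℝ) -
        ((∑ χ ∈ C, (S.m χ θ : ℝ)) / (C.card : ℝ)) ^ 2 := by
    intro C θ
    rw [Sys.cov, Rat.cast_sub, Rat.cast_mul, hmu]
    push_cast
    simp only [sq]
  have hex : ∀ θ : H → E, ∃ k : ℕ, ∀ ε : ℝ, 0 < ε → ∃ C₀ : Finset X, IsFS C₀ ∧
      ∀ C, IsFS C → C₀ ⊆ C →
        ((C.filter (fun χ => S.m χ θ ≠ k)).card : ℝ) ≤ ε * (C.card : ℝ) := by
    intro θ
    refine lim S.tor (fun χ => S.m χ θ) ?_ ?_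
    · intro ε hε
      obtain ⟨L, hL0, hL1⟩ := hL
        (4 * ((Fintype.card Y : ℝ) ^ 2 + 2 * Fintype.card Y) * (S.N : ℝ) ^ 4) ε hε
      obtain ⟨C₀, h1, h2⟩ := S.ig L
      refine ⟨C₀, h1, fun C hC h => ?_⟩
      have h3 := S.varB hC L (h2 C h) θ
      rw [← hcov]
      exact (le_abs_self _).trans (hsq L _ ε _ hL0 hε h3 hL1)
    · intro ε hε
      obtain ⟨L, hL0, hL1⟩ := hL (4 * (Fintype.card Y : ℝ) * (S.N : ℝ) ^ 2) ε hε
      obtain ⟨C₀, h1, h2⟩ := S.ig L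
      refine ⟨C₀, h1, fun C hC h => ?_⟩
      have h3 := S.meanB h1 hC h L (h2 C₀ (Finset.Subset.refl _)) θ
      rw [← hmu, ← hmu]
      exact hsq L _ ε _ hL0 hε h3 hL1
  choose k hk using hex
  exact ⟨k, hk⟩


end Sys

end Pool.Agent.H89.IP
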