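import Pool.Agent.H89.IP.Mack
import Pool.Agent.H89.IP.BN

/-!
# IP.Loc : direct summand and kernel

PROOF. `chi (twi χ ρ) = chi ρ * χ` (`chi_twi`), so on `H` (`indB` for `twi χ ρ`): `chi ((R).comp H.subtype) h = chi (twi χ ρ) h + chi ρ₂ h`. `loc_sum`: `bn` (`MSem.twi`). `loc_ker`: let `r = twi χ⁻¹ (R.comp H.subtype)`, `chi r = chi ρ + chi (twi χ⁻¹ ρ₂)`. By `semi` there is a semisimple `r'` with
`chi r' = chi r` and `r' g = 1` if `r g = 1`. `bn` for `r'`, `ρ`: `C * B = 1`, `r' g * B = B * ρ g`; for `g` with `R g = 1`, `χ g = 1`: `r g = 1`, so `B = B * ρ g`, `ρ g = C * B * ρ g = C * B = 1`. About 80 lines.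
-/

set_option autoImplicit false

open Matrix

namespace Pool.Agent.H89.IP

variable {G E : Type*} [Group G] [TopologicalSpace G] [Field E] [TopologicalSpace E]
  {H : Subgroup G} {N : ℕ} {X : Subgroup (H →* Eˣ)}

private theorem loc_chi [H.FiniteIndex] {n : ℕ}
    (R : G →* Matrix (Fin N) (Fin N) E) (χ : H →* Eˣ) (ρ : H →* Matrix (Fin n) (Fin n) E)
    (h : ∀ g, (R g).trace = ind H (fun h => chi ρ h * ((χ h : Eˣ) : E)) g) :
    ∃ (n₂ : ℕ) (ρ₂ : H →* Matrix (Fin n₂) (Fin n₂) E),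
      ∀ g : H, chi (R.comp H.subtype) g = chi (twi χ ρ) g + chi ρ₂ g := by
  obtain ⟨n₂, ρ₂, h2⟩ := indB (twi χ ρ)
  refine ⟨n₂, ρ₂, fun g => ?_⟩
  have e : (chi (twi χ ρ) : H → E) = fun h => chi ρ h * ((χ h : Eˣ) : E) := by
    funext h
    rw [chi_twi, mul_comm]
  rw [← h2 g, e, ← h]
  rfl

theorem loc_sum [CharZero E] [IsAlgClosed E] [H.FiniteIndex] {n : ℕ}
    (R : G →* Matrix (Fin N) (Fin N) E) (χ : H →* Eˣ) (ρ : H →* Matrix (Fin n) (Fin n) E)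
    (hρ : MSem ρ) (hR : MSem (R.comp H.subtype))
    (h : ∀ g, (R g).trace = ind H (fun h => chi ρ h * ((χ h : Eˣ) : E)) g) :
    ∃ (B : Matrix (Fin N) (Fin n) E) (C : Matrix (Fin n) (Fin N) E), C * B = 1 ∧
      ∀ g : H, R g * B = B * twi χ ρ g ∧ C * R g = twi χ ρ g * C := by
  obtain ⟨n₂, ρ₂, h2⟩ := loc_chi R χ ρ h
  exact bn (R.comp H.subtype) (twi χ ρ) ρ₂ hR (hρ.twi χ) h2

theorem loc_ker [CharZero E] [IsAlgClosed E] [H.FiniteIndex] {n : ℕ}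
    (R : G →* Matrix (Fin N) (Fin N) E) (χ : H →* Eˣ) (ρ : H →* Matrix (Fin n) (Fin n) E)
    (hρ : MSem ρ) (h : ∀ g, (R g).trace = ind H (fun h => chi ρ h * ((χ h : Eˣ) : E)) g)
    (g : H) (hg : R g = 1) (hχ : χ g = 1) : ρ g = 1 := by
  obtain ⟨n₂, ρ₂, h2⟩ := loc_chi R χ ρ h
  obtain ⟨n', r', hr', hc, hk⟩ := semi (twi χ⁻¹ (R.comp H.subtype))
  have h3 : ∀ g, chi r' g = chi ρ g + chi (twi χ⁻¹ ρ₂) g := by
    intro g
    rw [hc, chi_twi, h2, chi_twi, chi_twi, mul_add, ← mul_assoc, MonoidHom.inv_apply,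
      Units.inv_mul, one_mul]
  obtain ⟨B, C, hCB, hB⟩ := bn r' ρ (twi χ⁻¹ ρ₂) hr' hρ h3
  have h4 : r' g = 1 := by
    apply hk
    rw [twi_apply, MonoidHom.inv_apply, hχ, inv_one, Units.val_one, one_smul]
    exact hg
  have h5 := (hB g).1
  rw [h4, Matrix.one_mul] at h5
  calc ρ g = C * B * ρ g := by rw [hCB, Matrix.one_mul]
    _ = C * (B * ρ g) := Matrix.mul_assoc _ _ _
    _ = 1 := by rw [← h5, hCB]


end Pool.Agent.H89.IP
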