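import Pool.Agent.H89.IP.IndF

/-!
# IP.Mack : the induced representation

PROOF. `indA`: on `Matrix ((G ⧸ H) × Fin n) ((G ⧸ H) × Fin n) E` let `τ g (q, i) (q', j) = ρ (q.out⁻¹ g q'.out) i j` if `q.out⁻¹ g q'.out ∈ H`, else `0`. `τ 1 = 1` (`q.out⁻¹ q'.out ∈ H` iff `q = q'`). `τ (g g') = τ g * τ g'`: in the product `∑ q', ..` only `q' = g' q''` (the coset of `g' * q''.out`) has `q'.out⁻¹ g' q''.out ∈ H`. Reindex with
`(G ⧸ H) × Fin n ≃ Fin (H.index * n)` (`Finite.equivFin`, `Nat.card (G ⧸ H) = H.index`, `finProdFinEquiv`). The trace is `∑ q, (if q.out⁻¹ g q.out ∈ H then (ρ ..).trace else 0)`. `indB`: for `g = h ∈ H` and `q = 1`: `q.out ∈ H`, so `q.out⁻¹ h q'.out ∈ H` iff `q' = 1`, and `q'.out⁻¹ h q.out ∈ H` iff `q' = 1`: the matrix of `τ h` is block diagonal for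
the partition `q = 1`, `q ≠ 1`; the second block gives `ρ₂` on `{q // q ≠ 1} × Fin n`, the first block is `ρ (q.out⁻¹ h q.out)`, with trace `chi ρ h`. One can define `ρ₂` directly by the same formula on `{q // q ≠ 1} × Fin n` and use `ind_H` for the trace. About 200 lines.
-/

set_option autoImplicit false

open Matrix

namespace Pool.Agent.H89.IP

variable {G E : Type*} [Group G] [TopologicalSpace G] [Field E] [TopologicalSpace E]
  {H : Subgroup G} {N : ℕ} {X : Subgroup (H →* Eˣ)}

open Classical in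
/-- extension by zero -/
private noncomputable def exz {n : ℕ} (ρ : H →* Matrix (Fin n) (Fin n) E) (x : G) :
    Matrix (Fin n) (Fin n) E :=
  if h : x ∈ H then ρ ⟨x, h⟩ else 0

omit [TopologicalSpace G] [TopologicalSpace E] in
private lemma exz_mem {n : ℕ} (ρ : H →* Matrix (Fin n) (Fin n) E) {x : G} (h : x ∈ H) :
    exz ρ x = ρ ⟨x, h⟩ := dif_pos h

omit [TopologicalSpace G] [TopologicalSpace E] in
private lemma exz_not {n : ℕ} (ρ : H →* Matrix (Fin n) (Fin n) E) {x : G} (h : x ∉ H) :
    exz ρ x = 0 := dif_neg h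

omit [TopologicalSpace G] [TopologicalSpace E] in
private lemma exz_mul {n : ℕ} (ρ : H →* Matrix (Fin n) (Fin n) E) {x y : G} (hy : y ∈ H) :
    exz ρ x * exz ρ y = exz ρ (x * y) := by
  by_cases hx : x ∈ H
  · rw [exz_mem ρ hx, exz_mem ρ hy, exz_mem ρ (H.mul_mem hx hy), ← map_mul]
    rfl
  · rw [exz_not ρ hx, Matrix.zero_mul, exz_not]
    intro h
    exact hx ((Subgroup.mul_mem_cancel_right H hy).1 h)

omit [TopologicalSpace G] [TopologicalSpace E] in
open Classical in
private lemma exz_trace {n : ℕ} (ρ : H →* Matrix (Fin n) (Fin n) E) (x : G) :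
    (exz ρ x).trace = if h : x ∈ H then chi ρ ⟨x, h⟩ else 0 := by
  by_cases hx : x ∈ H
  · rw [exz_mem ρ hx, dif_pos hx, chi]
  · rw [exz_not ρ hx, dif_neg hx, Matrix.trace_zero]

omit [TopologicalSpace G] [TopologicalSpace E] in
/-- block matrices over a set of coset representatives -/
private theorem mkrep {K : Type*} [Group K] (φ : K →* G) {I : Type*} [Fintype I] (s : I → G)
    (inj : ∀ i j, (s i)⁻¹ * s j ∈ H → i = j) (sur : ∀ k i, ∃ j, (s j)⁻¹ * φ k * s i ∈ H) {n : ℕ}
    (ρ : H →* Matrix (Fin n) (Fin n) E) :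
    ∃ τ : K →* Matrix (Fin (Fintype.card I * n)) (Fin (Fintype.card I * n)) E,
      ∀ k, chi τ k = ∑ i, (exz ρ ((s i)⁻¹ * φ k * s i)).trace := by
  classical
  let τ₀ : K →* Matrix (I × Fin n) (I × Fin n) E :=
    { toFun := fun k => Matrix.of fun p q => exz ρ ((s p.1)⁻¹ * φ k * s q.1) p.2 q.2
      map_one' := by
        ext ⟨p, i⟩ ⟨q, j⟩
        rw [Matrix.of_apply, map_one, mul_one]
        by_cases h : p = q
        · subst h
          rw [inv_mul_cancel, exz_mem ρ H.one_mem]
          have : (⟨1, H.one_mem⟩ : H) = 1 := rfl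
          rw [this, map_one, Matrix.one_apply, Matrix.one_apply]
          simp
        · rw [exz_not ρ fun h' => h (inj _ _ h'), Matrix.zero_apply, Matrix.one_apply_ne]
          intro h'
          exact h (congrArg Prod.fst h')
      map_mul' := by
        intro k k'
        ext ⟨p, i⟩ ⟨q, j⟩
        obtain ⟨r, hr⟩ := sur k' q
        rw [Matrix.mul_apply, Fintype.sum_prod_type, Finset.sum_eq_single r]
        · simp only [Matrix.of_apply]
          have e : (s p)⁻¹ * φ k * s r * ((s r)⁻¹ * φ k' * s q) =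
              (s p)⁻¹ * (φ k * φ k') * s q := by group
          rw [← Matrix.mul_apply, exz_mul ρ hr, map_mul, e]
        · intro t _ ht
          refine Finset.sum_eq_zero fun l _ => ?_
          have : (s t)⁻¹ * φ k' * s q ∉ H := by
            intro h
            refine ht (inj t r ?_)
            have h2 := H.mul_mem h (H.inv_mem hr)
            have e : (s t)⁻¹ * φ k' * s q * ((s r)⁻¹ * φ k' * s q)⁻¹ = (s t)⁻¹ * s r := by group
            rwa [e] at h2
          simp only [Matrix.of_apply]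
          rw [exz_not ρ this, Matrix.zero_apply, mul_zero]
        · intro h
          exact absurd (Finset.mem_univ r) h }
  have hc : Fintype.card (I × Fin n) = Fintype.card I * n := by
    rw [Fintype.card_prod, Fintype.card_fin]
  let e : I × Fin n ≃ Fin (Fintype.card I * n) := Fintype.equivFinOfCardEq hc
  refine ⟨(Matrix.reindexAlgEquiv E E e).toMulEquiv.toMonoidHom.comp τ₀, fun k => ?_⟩
  have h1 : chi ((Matrix.reindexAlgEquiv E E e).toMulEquiv.toMonoidHom.comp τ₀) k =
      (τ₀ k).trace := by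
    show (Matrix.reindexAlgEquiv E E e (τ₀ k)).trace = _
    unfold Matrix.trace
    rw [← Equiv.sum_comp e]
    refine Finset.sum_congr rfl fun x _ => ?_
    simp [Matrix.diag]
  rw [h1, Matrix.trace, Fintype.sum_prod_type]
  refine Finset.sum_congr rfl fun i _ => ?_
  rfl

theorem indA [H.FiniteIndex] {n : ℕ} (ρ : H →* Matrix (Fin n) (Fin n) E) :
    ∃ τ : G →* Matrix (Fin (H.index * n)) (Fin (H.index * n)) E,
      ∀ g, chi τ g = ind H (chi ρ) g := by
  classical
  have : Fintype (G ⧸ H) := Fintype.ofFinite _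
  have hi : H.index = Fintype.card (G ⧸ H) := by
    rw [Subgroup.index, Nat.card_eq_fintype_card]
  obtain ⟨τ, hτ⟩ := mkrep (MonoidHom.id G) (fun q : G ⧸ H => q.out) (H := H)
    (fun i j h => by
      have h2 := QuotientGroup.eq.2 h
      rwa [QuotientGroup.out_eq', QuotientGroup.out_eq'] at h2)
    (fun k i => ⟨((k * i.out : G) : G ⧸ H), by
      have h2 : (((k * i.out : G) : G ⧸ H).out : G ⧸ H) = ((k * i.out : G) : G ⧸ H) :=
        QuotientGroup.out_eq' _
      have h3 := QuotientGroup.eq.1 h2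
      rwa [← mul_assoc] at h3⟩) ρ
  rw [hi]
  refine ⟨τ, fun g => ?_⟩
  rw [hτ, ind, finsum_eq_sum_of_fintype]
  exact Finset.sum_congr rfl fun q _ => exz_trace ρ _

theorem indB [H.FiniteIndex] {n : ℕ} (ρ : H →* Matrix (Fin n) (Fin n) E) :
    ∃ (n₂ : ℕ) (ρ₂ : H →* Matrix (Fin n₂) (Fin n₂) E),
      ∀ h : H, ind H (chi ρ) (h : G) = chi ρ h + chi ρ₂ h := by
  classical
  have : Fintype (G ⧸ H) := Fintype.ofFinite _
  obtain ⟨τ, hτ⟩ := mkrep H.subtype
    (fun q : {q : G ⧸ H // q ≠ ((1 : G) : G ⧸ H)} => q.1.out) (H := H)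
    (fun i j h => by
      have h2 := QuotientGroup.eq.2 h
      rw [QuotientGroup.out_eq', QuotientGroup.out_eq'] at h2
      exact Subtype.ext h2)
    (fun k i => by
      have hk : (((k : G) * i.1.out : G) : G ⧸ H) ≠ ((1 : G) : G ⧸ H) := by
        intro h
        apply i.2
        have h2 : ((k : G) * i.1.out) ∈ H := by
          have := QuotientGroup.eq.1 h.symm
          simpa using this
        have h3 : i.1.out ∈ H := (Subgroup.mul_mem_cancel_left H k.2).1 h2
        have h4 : ((1 : G) : G ⧸ H) = (i.1.out : G ⧸ H) := QuotientGroup.eq.2 (by simpa using h3)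
        exact (QuotientGroup.out_eq' _).symm.trans h4.symm
      refine ⟨⟨(((k : G) * i.1.out : G) : G ⧸ H), hk⟩, ?_⟩
      have h2 : ((((k : G) * i.1.out : G) : G ⧸ H).out : G ⧸ H) =
          (((k : G) * i.1.out : G) : G ⧸ H) := QuotientGroup.out_eq' _
      have h3 := QuotientGroup.eq.1 h2
      rwa [← mul_assoc] at h3) ρ
  refine ⟨_, τ, fun g => ?_⟩
  rw [hτ, ind_H (chi ρ) (fun g h => by
    have := chi_conj ρ g h⁻¹
    rwa [inv_inv] at this) g]
  congr 1
  exact Finset.sum_congr rfl fun q _ => (exz_trace ρ _).symm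

end Pool.Agent.H89.IP
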