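import Pool.Agent.H89.IP.GDat
import Pool.Agent.H89.IP.IndF
import Pool.Agent.H89.IP.Fs

/-!
# IP.SepA : the value at a separated element

PROOF (helper83). For each coset `q ∈ G ⧸ H` with `g' = q.out⁻¹ g q.out ∈ H` and `(a g', f g') ≠ (a g, f g)` choose `χ_q ∈ X'` with `χ_q g' ≠ χ_q g`; let `C` be a finite subgroup of `X'` containing the `χ_q` (`fs_ex` for the group `X'`; `X'` is torsion as `X' ≤ X`). For `χ ∈ C`: `g ∈ Dt.D χ`, so `ind H (a χ) g = (R χ g).trace = ind H (f χ) g` (`Dt.tr`, `hf`). Multiply by `(χ g)⁻¹`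
and sum over `C`: `∑ q, (a - f) (g'_q) ∑ χ ∈ C, χ (g'_q) (χ g)⁻¹ = 0`. The inner sum is `card C` if all `χ ∈ C` agree at `g'_q` and `g` (and then `(a - f) (g'_q) = (a - f) g`), and `0` otherwise (`orth`). So `card C * M * (a g - f g) = 0`, `M` the number of the `q` of the first kind, `M ≥ 1` (`q = 1`). Characteristic zero.
-/

set_option autoImplicit false

open Matrix

namespace Pool.Agent.H89.IP

variable {G E : Type*} [Group G] [TopologicalSpace G] [Field E] [TopologicalSpace E]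
  {H : Subgroup G} {N : ℕ} {X : Subgroup (H →* Eˣ)}

theorem sepA [CharZero E] [H.FiniteIndex] (Dt : GDat G E H N X) {f : H → E}
    (hf : ∀ (χ : X) (g : G), (Dt.R χ g).trace = ind H (fun h => f h * ((χ.1 h : Eˣ) : E)) g)
    (X' : Subgroup (H →* Eˣ)) (hX' : X' ≤ X) (g : H)
    (hD : ∀ χ : X, χ.1 ∈ X' → (g : G) ∈ Dt.D χ)
    (hs : ∀ x : G, ∀ hx : x⁻¹ * (g : G) * x ∈ H,
      (Dt.a ⟨x⁻¹ * g * x, hx⟩ = Dt.a g ∧ f ⟨x⁻¹ * g * x, hx⟩ = f g) ∨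
        ∃ χ ∈ X', χ ⟨x⁻¹ * g * x, hx⟩ ≠ χ g) : Dt.a g = f g := by
  classical
  have : Fintype (G ⧸ H) := Fintype.ofFinite _
  have torX : ∀ χ : X', IsOfFinOrder χ := by
    intro χ
    have h1 : IsOfFinOrder (χ.1 : H →* Eˣ) := X.subtype.isOfFinOrder (Dt.tor ⟨χ.1, hX' χ.2⟩)
    obtain ⟨n, hn, h2⟩ := isOfFinOrder_iff_pow_eq_one.1 h1
    exact isOfFinOrder_iff_pow_eq_one.2 ⟨n, hn, Subtype.ext h2⟩
  -- the separating characters
  have hsel : ∀ q : G ⧸ H, ∃ χ : X', ∀ hx : q.out⁻¹ * (g : G) * q.out ∈ H,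
      (¬ (Dt.a ⟨q.out⁻¹ * g * q.out, hx⟩ = Dt.a g ∧ f ⟨q.out⁻¹ * g * q.out, hx⟩ = f g)) →
        χ.1 ⟨q.out⁻¹ * g * q.out, hx⟩ ≠ χ.1 g := by
    intro q
    by_cases hx : q.out⁻¹ * (g : G) * q.out ∈ H
    · rcases hs q.out hx with h | ⟨χ, h1, h2⟩
      · exact ⟨1, fun _ h' => absurd h h'⟩
      · exact ⟨⟨χ, h1⟩, fun _ _ => h2⟩
    · exact ⟨1, fun h' => absurd h' hx⟩
  choose sel hsel using hsel
  obtain ⟨C, hC, hFC⟩ := fs_ex torX (Finset.univ.image sel)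
  -- the relation for one character
  have hrel : ∀ χ : X', ∑ q : G ⧸ H, (if h : q.out⁻¹ * (g : G) * q.out ∈ H then
      (Dt.a ⟨q.out⁻¹ * g * q.out, h⟩ - f ⟨q.out⁻¹ * g * q.out, h⟩) *
        ((χ.1 ⟨q.out⁻¹ * g * q.out, h⟩ : Eˣ) : E) else 0) = 0 := by
    intro χ
    have h1 := Dt.tr ⟨χ.1, hX' χ.2⟩ g (hD _ χ.2)
    rw [hf, ind, ind, finsum_eq_sum_of_fintype, finsum_eq_sum_of_fintype, eq_comm, ← sub_eq_zero,
      ← Finset.sum_sub_distrib] at h1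
    refine Eq.trans (Finset.sum_congr rfl fun q _ => ?_) h1
    by_cases h : q.out⁻¹ * (g : G) * q.out ∈ H
    · simp only [dif_pos h]; ring
    · simp only [dif_neg h, sub_zero]
  -- sum over the finite subgroup
  have hsum : ∑ q : G ⧸ H, ∑ χ ∈ C, (if h : q.out⁻¹ * (g : G) * q.out ∈ H then
      (Dt.a ⟨q.out⁻¹ * g * q.out, h⟩ - f ⟨q.out⁻¹ * g * q.out, h⟩) *
        (((χ.1 ⟨q.out⁻¹ * g * q.out, h⟩ : Eˣ) : E) * ((χ.1 g : Eˣ) : E)⁻¹) else 0) = 0 := by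
    rw [Finset.sum_comm]
    refine Finset.sum_eq_zero fun χ _ => ?_
    have h1 := congrArg (((χ.1 g : Eˣ) : E)⁻¹ * ·) (hrel χ)
    simp only [Finset.mul_sum, mul_zero] at h1
    refine Eq.trans (Finset.sum_congr rfl fun q _ => ?_) h1
    by_cases h : q.out⁻¹ * (g : G) * q.out ∈ H
    · simp only [dif_pos h]; ring
    · simp only [dif_neg h, mul_zero]
  have hterm : ∀ q : G ⧸ H, ∑ χ ∈ C, (if h : q.out⁻¹ * (g : G) * q.out ∈ H then
      (Dt.a ⟨q.out⁻¹ * g * q.out, h⟩ - f ⟨q.out⁻¹ * g * q.out, h⟩) *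
        (((χ.1 ⟨q.out⁻¹ * g * q.out, h⟩ : Eˣ) : E) * ((χ.1 g : Eˣ) : E)⁻¹) else 0) =
      if (∃ hx : q.out⁻¹ * (g : G) * q.out ∈ H,
        ∀ χ ∈ C, χ.1 ⟨q.out⁻¹ * g * q.out, hx⟩ = χ.1 g) then
          (C.card : E) * (Dt.a g - f g) else 0 := by
    intro q
    by_cases hx : q.out⁻¹ * (g : G) * q.out ∈ H
    · simp only [dif_pos hx]
      by_cases hc : ∀ χ ∈ C, χ.1 ⟨q.out⁻¹ * g * q.out, hx⟩ = χ.1 g
      · rw [if_pos ⟨hx, hc⟩]
        have hh : Dt.a ⟨q.out⁻¹ * g * q.out, hx⟩ = Dt.a g ∧ f ⟨q.out⁻¹ * g * q.out, hx⟩ = f g := by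
          by_contra hne
          exact hsel q hx hne (hc _ (hFC (Finset.mem_image_of_mem _ (Finset.mem_univ _))))
        rw [hh.1, hh.2]
        have : ∀ χ ∈ C, (Dt.a g - f g) *
            (((χ.1 ⟨q.out⁻¹ * g * q.out, hx⟩ : Eˣ) : E) * ((χ.1 g : Eˣ) : E)⁻¹) =
            Dt.a g - f g := by
          intro χ hχ
          rw [hc χ hχ, mul_inv_cancel₀ (Units.ne_zero _), mul_one]
        rw [Finset.sum_congr rfl this, Finset.sum_const, nsmul_eq_mul]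
      · rw [if_neg (fun h => hc (h.elim fun _ h' => h')), ← Finset.mul_sum]
        push Not at hc
        obtain ⟨χ₀, hχ₀, hne⟩ := hc
        rw [orth hC (fun χ : X' => (((χ.1 ⟨q.out⁻¹ * g * q.out, hx⟩ : Eˣ) : E) *
          ((χ.1 g : Eˣ) : E)⁻¹)), mul_zero]
        · intro χ χ'
          rw [Subgroup.coe_mul, MonoidHom.mul_apply, MonoidHom.mul_apply, Units.val_mul,
            Units.val_mul, mul_inv]
          ring
        · refine ⟨χ₀, hχ₀, fun h => ?_⟩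
          have h1 : ((χ₀.1 ⟨q.out⁻¹ * g * q.out, hx⟩ : Eˣ) : E) = ((χ₀.1 g : Eˣ) : E) := by
            exact (mul_inv_eq_one₀ (Units.ne_zero _)).1 h
          exact hne (Units.ext h1)
    · simp only [dif_neg hx]
      rw [Finset.sum_const_zero, if_neg (fun h => hx h.1)]
  rw [Finset.sum_congr rfl fun q _ => hterm q, ← Finset.sum_filter, Finset.sum_const,
    nsmul_eq_mul] at hsum
  have hmem : ((1 : G) : G ⧸ H) ∈ Finset.univ.filter (fun q : G ⧸ H =>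
      ∃ hx : q.out⁻¹ * (g : G) * q.out ∈ H,
        ∀ χ ∈ C, χ.1 ⟨q.out⁻¹ * g * q.out, hx⟩ = χ.1 g) := by
    rw [Finset.mem_filter]
    refine ⟨Finset.mem_univ _, ?_⟩
    have ho : ((1 : G) : G ⧸ H).out ∈ H := by
      have := QuotientGroup.out_eq' ((1 : G) : G ⧸ H)
      have h2 := QuotientGroup.eq.1 this.symm
      simpa using h2
    have hx : ((1 : G) : G ⧸ H).out⁻¹ * (g : G) * ((1 : G) : G ⧸ H).out ∈ H :=
      H.mul_mem (H.mul_mem (H.inv_mem ho) g.2) ho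
    refine ⟨hx, fun χ _ => ?_⟩
    have e0 : (⟨((1 : G) : G ⧸ H).out⁻¹ * g * ((1 : G) : G ⧸ H).out, hx⟩ : H) =
        (⟨_, ho⟩ : H)⁻¹ * g * ⟨_, ho⟩ := rfl
    rw [e0, map_mul, map_mul, map_inv, mul_comm (χ.1 _)⁻¹, mul_assoc, inv_mul_cancel, mul_one]
  rcases mul_eq_zero.1 hsum with h | h
  · exact absurd (Nat.cast_eq_zero.1 h) (Finset.card_pos.2 ⟨_, hmem⟩).ne'
  · rcases mul_eq_zero.1 h with h | h
    · exact absurd (Nat.cast_eq_zero.1 h) (Finset.card_pos.2 ⟨_, hC.1⟩).ne'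
    · exact sub_eq_zero.1 h

end Pool.Agent.H89.IP
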