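import Pool.Agent.H89.IP.Nwd
import Pool.Agent.H89.IP.IndF

/-!
# IP.Unq : uniqueness of the class function

PROOF. `b = f - f'`, continuous class function, `ind H (b χ) g = 0` for all `χ` and `g ∈ H` (`ind` is additive). Let `C` be a finite subgroup of `X`, `g ∈ H`, `g ∉ Dt.BadH C`. By `ind_H`: `0 = ∑ χ ∈ C, (χ g)⁻¹ ind H (b χ) g = card * b g + ∑ y, b (y.out⁻¹ g y.out) ∑ χ ∈ C, χ (y.out⁻¹ g y.out) (χ g)⁻¹`, and the inner sums are `0` (`orth`: the function of `χ` is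
multiplicative and not trivial on `C`, because `y.out ∉ H` and `g ∉ BadH C`). So `b g = 0`. By `dense_W` (`x = 1`; `H` is open) the set of the `g ∈ H` with `g ∉ BadH C` for some `C` is dense in `H`, so `b = 0` by continuity (`E` Hausdorff). About 90 lines.
-/

set_option autoImplicit false

open Matrix

namespace Pool.Agent.H89.IP

variable {G E : Type*} [Group G] [TopologicalSpace G] [Field E] [TopologicalSpace E]
  {H : Subgroup G} {N : ℕ} {X : Subgroup (H →* Eˣ)}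

open Classical in
private theorem unq_good [CharZero E] [H.FiniteIndex]
    (Dt : GDat G E H N X) {b : H → E}
    (cl : ∀ g h : H, b (h⁻¹ * g * h) = b g)
    (h0 : ∀ (χ : X) (g : H), ind H (fun h => b h * ((χ.1 h : Eˣ) : E)) g = 0)
    {C : Finset X} (hC : IsFS C) {g : H} (hg : g ∉ Dt.BadH C) : b g = 0 := by
  let _ : Fintype {q : G ⧸ H // q ≠ ((1 : G) : G ⧸ H)} := Fintype.ofFinite _
  have h1 : ∀ χ : X, b g + ∑ y : {q : G ⧸ H // q ≠ ((1 : G) : G ⧸ H)},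
      (if h : y.1.out⁻¹ * (g : G) * y.1.out ∈ H then b ⟨y.1.out⁻¹ * g * y.1.out, h⟩ *
        (((χ.1 ⟨y.1.out⁻¹ * g * y.1.out, h⟩ : Eˣ) : E) * (((χ.1 g)⁻¹ : Eˣ) : E)) else 0) = 0 := by
    intro χ
    have h2 := ind_H (fun h => b h * ((χ.1 h : Eˣ) : E)) (fun g h => by
      have h3 : χ.1 (h⁻¹ * g * h) = χ.1 g := by
        rw [map_mul, map_mul, map_inv, mul_comm, mul_inv_cancel_left]
      rw [cl, h3]) g
    rw [h0 χ g] at h2
    have h4 : (((χ.1 g) : Eˣ) : E) * (((χ.1 g)⁻¹ : Eˣ) : E) = 1 := Units.mul_inv _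
    have h5 : b g = (b g * ((χ.1 g : Eˣ) : E)) * (((χ.1 g)⁻¹ : Eˣ) : E) := by
      rw [mul_assoc, h4, mul_one]
    have h6 : ∑ y : {q : G ⧸ H // q ≠ ((1 : G) : G ⧸ H)},
      (if h : y.1.out⁻¹ * (g : G) * y.1.out ∈ H then b ⟨y.1.out⁻¹ * g * y.1.out, h⟩ *
        (((χ.1 ⟨y.1.out⁻¹ * g * y.1.out, h⟩ : Eˣ) : E) * (((χ.1 g)⁻¹ : Eˣ) : E)) else 0) =
        (∑ y : {q : G ⧸ H // q ≠ ((1 : G) : G ⧸ H)},
      if h : y.1.out⁻¹ * (g : G) * y.1.out ∈ H then b ⟨y.1.out⁻¹ * g * y.1.out, h⟩ *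
        ((χ.1 ⟨y.1.out⁻¹ * g * y.1.out, h⟩ : Eˣ) : E) else 0) * (((χ.1 g)⁻¹ : Eˣ) : E) := by
      rw [Finset.sum_mul]
      refine Finset.sum_congr rfl fun y _ => ?_
      by_cases h : y.1.out⁻¹ * (g : G) * y.1.out ∈ H
      · rw [dif_pos h, dif_pos h]
        ring
      · rw [dif_neg h, dif_neg h, zero_mul]
    rw [h6]
    nth_rewrite 1 [h5]
    rw [← add_mul, ← h2, zero_mul]
  have h2 : ∑ χ ∈ C, (b g + ∑ y : {q : G ⧸ H // q ≠ ((1 : G) : G ⧸ H)},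
      (if h : y.1.out⁻¹ * (g : G) * y.1.out ∈ H then b ⟨y.1.out⁻¹ * g * y.1.out, h⟩ *
        (((χ.1 ⟨y.1.out⁻¹ * g * y.1.out, h⟩ : Eˣ) : E) * (((χ.1 g)⁻¹ : Eˣ) : E)) else 0)) = 0 :=
    Finset.sum_eq_zero fun χ _ => h1 χ
  rw [Finset.sum_add_distrib, Finset.sum_const, Finset.sum_comm] at h2
  have h3 : ∑ y : {q : G ⧸ H // q ≠ ((1 : G) : G ⧸ H)}, ∑ χ ∈ C,
      (if h : y.1.out⁻¹ * (g : G) * y.1.out ∈ H then b ⟨y.1.out⁻¹ * g * y.1.out, h⟩ *
        (((χ.1 ⟨y.1.out⁻¹ * g * y.1.out, h⟩ : Eˣ) : E) * (((χ.1 g)⁻¹ : Eˣ) : E)) else 0) = 0 := by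
    refine Finset.sum_eq_zero fun y _ => ?_
    by_cases h : y.1.out⁻¹ * (g : G) * y.1.out ∈ H
    · have hy : y.1.out ∉ H := by
        intro h4
        apply y.2
        rw [← QuotientGroup.out_eq' y.1]
        exact QuotientGroup.eq.2 (by simpa using H.inv_mem h4)
      have h5 : ∃ χ ∈ C, χ.1 ⟨y.1.out⁻¹ * g * y.1.out, h⟩ ≠ χ.1 g := by
        by_contra hc
        push Not at hc
        exact hg ⟨y.1.out, hy, h, hc⟩
      have h6 := orth (E := E) hC (fun χ : X =>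
        ((χ.1 ⟨y.1.out⁻¹ * g * y.1.out, h⟩ : Eˣ) : E) * (((χ.1 g)⁻¹ : Eˣ) : E)) (by
          intro χ χ'
          simp only [Subgroup.coe_mul, MonoidHom.mul_apply, mul_inv, Units.val_mul]
          ring) (by
          obtain ⟨χ, h7, h8⟩ := h5
          refine ⟨χ, h7, fun h9 => h8 ?_⟩
          rw [← Units.val_mul] at h9
          have h10 := Units.val_eq_one.1 h9
          exact mul_inv_eq_one.1 h10)
      simp only [dif_pos h]
      rw [← Finset.mul_sum, h6, mul_zero]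
    · simp only [dif_neg h]
      exact Finset.sum_const_zero
  rw [h3, add_zero, nsmul_eq_mul, mul_eq_zero] at h2
  rcases h2 with h2 | h2
  · exfalso
    rw [Nat.cast_eq_zero, Finset.card_eq_zero] at h2
    have := hC.1
    rw [h2] at this
    exact Finset.notMem_empty _ this
  · exact h2

theorem unq [CharZero E] [IsTopologicalGroup G] [T2Space E] [IsTopologicalRing E] [H.FiniteIndex]
    (Dt : GDat G E H N X) {f f' : H → E} (cf : Continuous f) (cf' : Continuous f')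
    (cl : ∀ g h : H, f (h⁻¹ * g * h) = f g) (cl' : ∀ g h : H, f' (h⁻¹ * g * h) = f' g)
    (h : ∀ (χ : X) (g : H), ind H (fun h => f h * ((χ.1 h : Eˣ) : E)) g =
      ind H (fun h => f' h * ((χ.1 h : Eˣ) : E)) g) : f = f' := by
  have h0 : ∀ (χ : X) (g : H),
      ind H (fun h => (f h - f' h) * ((χ.1 h : Eˣ) : E)) g = 0 := by
    intro χ g
    have h1 := ind_add (H := H) (fun h => (f h - f' h) * ((χ.1 h : Eˣ) : E))
      (fun h => f' h * ((χ.1 h : Eˣ) : E)) (g : G)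
    have h2 : (fun h : H => (f h - f' h) * ((χ.1 h : Eˣ) : E) + f' h * ((χ.1 h : Eˣ) : E)) =
        fun h => f h * ((χ.1 h : Eˣ) : E) := by
      funext h
      ring
    rw [h2, h χ g] at h1
    exact left_eq_add.1 (by rw [add_comm]; exact h1)
  by_contra hne
  have hne' : ∃ g, f g ≠ f' g := Function.ne_iff.1 hne
  obtain ⟨g₀, hg₀⟩ := hne'
  have hop : IsOpen ((fun h : H => (h : G)) '' {h : H | f h ≠ f' h}) :=
    Dt.hH.isOpenMap_subtype_val _ (isOpen_ne_fun cf cf')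
  obtain ⟨g, ⟨C, hC, hW⟩, ⟨h1, h2, rfl⟩⟩ := (dense_W Dt).exists_mem_open hop ⟨g₀, g₀, hg₀, rfl⟩
  have h3 : (1 : G)⁻¹ * (h1 : G) * 1 = h1 := by rw [inv_one, one_mul, mul_one]
  have h4 := hW 1 (by rw [h3]; exact h1.2)
  have h5 : (⟨(1 : G)⁻¹ * (h1 : G) * 1, by rw [h3]; exact h1.2⟩ : H) = h1 := Subtype.ext h3
  rw [h5] at h4
  have h6 := unq_good Dt (b := fun h => f h - f' h) (fun g h => by rw [cl, cl']) h0 hC h4
  exact h2 (sub_eq_zero.1 h6)

end Pool.Agent.H89.IP
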