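import Pool.Agent.H89.IP.Ex
import Pool.Agent.H89.IP.GId
import Pool.Agent.H89.IP.Unq
import Pool.Agent.H89.IP.SepA
import Pool.Agent.H89.IP.Loc
import Pool.Agent.H89.IP.Irr

/-!
# IP.Main : the theorem for a compact group

Assembly: `ex_rho`, `gid`, `unq` + `bn_iso`, `sepA`, `loc_sum`, `loc_ker`, `irr_of`; `N = H.index * n` from the trace identity at `1`.
-/

set_option autoImplicit false

open Matrix

namespace Pool.Agent.H89.IP

variable {G E : Type*} [Group G] [TopologicalSpace G] [Field E] [TopologicalSpace E]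
  {H : Subgroup G} {N : ℕ} {X : Subgroup (H →* Eˣ)}

theorem main [CharZero E] [IsAlgClosed E] [IsTopologicalGroup G] [CompactSpace G]
    [IsTopologicalRing E] [T2Space E] [H.FiniteIndex] (Dt : GDat G E H N X) :
    ∃ (n : ℕ) (ρ : H →* Matrix (Fin n) (Fin n) E), Continuous ρ ∧ MSem ρ ∧ N = H.index * n ∧
      (∀ (χ : X) (g : G), (Dt.R χ g).trace = ind H (fun h => chi ρ h * ((χ.1 h : Eˣ) : E)) g) ∧
      (∀ (n' : ℕ) (ρ' : H →* Matrix (Fin n') (Fin n') E), Continuous ρ' → MSem ρ' →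
        (∀ (χ : X) (g : G), (Dt.R χ g).trace =
          ind H (fun h => chi ρ' h * ((χ.1 h : Eˣ) : E)) g) →
        ∃ (B : Matrix (Fin n') (Fin n) E) (C : Matrix (Fin n) (Fin n') E), C * B = 1 ∧
          B * C = 1 ∧ ∀ g, ρ' g * B = B * ρ g) ∧
      (∀ (X' : Subgroup (H →* Eˣ)), X' ≤ X → ∀ g : H, (∀ χ : X, χ.1 ∈ X' → (g : G) ∈ Dt.D χ) →
        (∀ x : G, ∀ hx : x⁻¹ * (g : G) * x ∈ H,
          (Dt.a ⟨x⁻¹ * g * x, hx⟩ = Dt.a g ∧ chi ρ ⟨x⁻¹ * g * x, hx⟩ = chi ρ g) ∨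
            ∃ χ ∈ X', χ ⟨x⁻¹ * g * x, hx⟩ ≠ χ g) → Dt.a g = chi ρ g) ∧
      (∀ χ : X, MSem ((Dt.R χ).comp H.subtype) →
        ∃ (B : Matrix (Fin N) (Fin n) E) (C : Matrix (Fin n) (Fin N) E), C * B = 1 ∧
          ∀ g : H, Dt.R χ g * B = B * twi χ.1 ρ g ∧ C * Dt.R χ g = twi χ.1 ρ g * C) ∧
      (∀ (χ : X) (g : H), Dt.R χ g = 1 → χ.1 g = 1 → ρ g = 1) ∧
      ∀ χ : X, MIrr (Dt.R χ) → MIrr ρ := by
  obtain ⟨n, ρ, hs, hc, ha⟩ := ex_rho Dt
  have hcc : Continuous (chi ρ) := by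
    unfold chi
    exact Continuous.matrix_trace hc
  have cl : ∀ g h : H, chi ρ (h⁻¹ * g * h) = chi ρ g := by
    intro g h
    have := chi_conj ρ g h⁻¹
    rwa [inv_inv] at this
  have hid := gid Dt hcc ha
  refine ⟨n, ρ, hc, hs, ?_, hid, ?_, ?_, ?_, ?_, ?_⟩
  · have h1 := hid 1 1
    rw [ind_one, map_one, Matrix.trace_one, Fintype.card_fin, map_one, Units.val_one, mul_one,
      chi_one] at h1
    exact_mod_cast h1
  · intro n' ρ' hc' hs' h'
    have hcc' : Continuous (chi ρ') := by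
      unfold chi
      exact Continuous.matrix_trace hc'
    have cl' : ∀ g h : H, chi ρ' (h⁻¹ * g * h) = chi ρ' g := by
      intro g h
      have := chi_conj ρ' g h⁻¹
      rwa [inv_inv] at this
    have e := unq Dt hcc' hcc cl' cl (fun χ g => by rw [← h' χ g, ← hid χ g])
    exact bn_iso ρ' ρ hs' hs fun g => by rw [e]
  · intro X' hX' g hD hsep
    exact sepA Dt hid X' hX' g hD hsep
  · intro χ hR
    exact loc_sum (Dt.R χ) χ.1 ρ hs hR (hid χ)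
  · intro χ g h1 h2
    exact loc_ker (Dt.R χ) χ.1 ρ hs (hid χ) g h1 h2
  · intro χ hR
    exact irr_of (Dt.R χ) hR χ.1 ρ (hid χ)


end Pool.Agent.H89.IP
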