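import Pool.Agent.H89.IP.CntA
import Pool.Agent.H89.IP.Avg
import Pool.Agent.H89.IP.Coef
import Pool.Agent.H89.IP.Key

/-!
# IP.MeanB : first moment

PROOF. Let `Θ` be the union of the supports of `m χ`, `χ ∈ C'`, `c θ = mu C θ - mu C' θ`. For `g ∉ S.Bad C` we show `∑ θ ∈ Θ, c θ * θ g = 0`: by `sum_mu` this is `(∑ C, T)/card - (∑ C', T)/card`, a continuous function of `g` (`S.cT`), on the open set `g V` (`V = S.V C`, `isOpen_V`, `bad_mul`: no element of `g V` is in `S.Bad C`, nor in `S.Bad C'`, `bad_anti`) it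
vanishes on the elements of `⋂ D χ`, `χ ∈ C'` (`avgA` with `χ₂ = 1` for `C` and `C'`; the cards are not `0` in `E`), so it vanishes on `g V` (`ext1`). `key1` for `V` and `B = {q | q.out ∈ S.Bad C}` (`g V ∉ B` implies `g ∉ S.Bad C` by `bad_mul`, `g⁻¹ * q.out ∈ V`): `(∑ c ^ 2) * card Q ≤ B.card * (∑ |c| dg) ^ 2`, `∑ |c| dg ≤ 2 N` (`sum_mu_dg`), and
`L * B.card ≤ card Y * card Q` (`cntA`). If `θ ∉ Θ` both means are `0`. Divide by `card Q > 0`. About 120 lines.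
-/

set_option autoImplicit false

namespace Pool.Agent.H89.IP

variable {H E X Y : Type*} [Group H] [TopologicalSpace H] [Field E] [TopologicalSpace E]
  [CommGroup X] [Fintype Y] (S : Sys H E X Y)

namespace Sys

theorem meanB [CharZero E] [IsAlgClosed E] [T2Space E] [IsTopologicalRing E] [IsTopologicalGroup H]
    [CompactSpace H] {C C' : Finset X} (hC : IsFS C) (hC' : IsFS C') (h : C ⊆ C') (L : ℕ)
    (hL : ∀ y, L ≤ (S.B C y).index) (θ : H → E) :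
    (L : ℝ) * (((S.mu C θ : ℚ) : ℝ) - ((S.mu C' θ : ℚ) : ℝ)) ^ 2 ≤
      4 * (Fintype.card Y : ℝ) * (S.N : ℝ) ^ 2 := by
  classical
  haveI := S.fin_V C
  haveI : Fintype (H ⧸ S.V C) := Fintype.ofFinite _
  obtain ⟨Θ, hΘdef⟩ : ∃ Θ : Finset (H → E), Θ = C'.biUnion fun χ => (S.m χ).support := ⟨_, rfl⟩
  have hΘ' : ∀ χ ∈ C', (S.m χ).support ⊆ Θ := by
    intro χ hχ
    rw [hΘdef]
    exact Finset.subset_biUnion_of_mem (fun χ => (S.m χ).support) hχ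
  have hΘ : ∀ χ ∈ C, (S.m χ).support ⊆ Θ := fun χ hχ => hΘ' χ (h hχ)
  have hI : ∀ θ ∈ Θ, Ich θ := by
    intro θ hθ
    rw [hΘdef, Finset.mem_biUnion] at hθ
    obtain ⟨χ, _, h2⟩ := hθ
    exact S.mI χ θ h2
  obtain ⟨c, hc⟩ : ∃ c : (H → E) → ℚ, ∀ θ, c θ = S.mu C θ - S.mu C' θ :=
    ⟨fun θ => S.mu C θ - S.mu C' θ, fun _ => rfl⟩
  have hcard : (C.card : E) ≠ 0 := Nat.cast_ne_zero.2 (Finset.card_ne_zero_of_mem hC.1)
  have hcard' : (C'.card : E) ≠ 0 := Nat.cast_ne_zero.2 (Finset.card_ne_zero_of_mem hC'.1)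
  -- the values of the difference
  have hval : ∀ g, ∑ θ ∈ Θ, (c θ : E) * θ g =
      (∑ χ ∈ C, S.T χ g) / (C.card : E) - (∑ χ ∈ C', S.T χ g) / (C'.card : E) := by
    intro g
    rw [← S.sum_mu C Θ hΘ g, ← S.sum_mu C' Θ hΘ' g, ← Finset.sum_sub_distrib]
    refine Finset.sum_congr rfl fun θ _ => ?_
    rw [hc, Rat.cast_sub, sub_mul]
  have hopen : IsOpen (S.Bad C)ᶜ := by
    have h1 : S.Bad C = ⋃ y, (S.B C y : Set H) := by
      ext g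
      rw [Set.mem_iUnion]
      exact Iff.rfl
    rw [h1, isOpen_compl_iff]
    exact isClosed_iUnion_of_finite fun y =>
      Subgroup.isClosed_of_isOpen (S.B C y) (S.isOpen_B C y)
  have hv : ∀ g ∈ (S.Bad C)ᶜ,
      (∑ χ ∈ C, S.T χ g) / (C.card : E) - (∑ χ ∈ C', S.T χ g) / (C'.card : E) = 0 := by
    refine S.ext1 C' (f := fun g => (∑ χ ∈ C, S.T χ g) / (C.card : E) -
      (∑ χ ∈ C', S.T χ g) / (C'.card : E)) ?_ hopen ?_
    · exact ((continuous_finsetSum _ fun χ _ => S.cT χ).div_const _).sub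
        ((continuous_finsetSum _ fun χ _ => S.cT χ).div_const _)
    · intro g hg hD
      have h1 := S.avgA hC 1 (g := g) (fun χ hχ => by rw [one_mul]; exact hD χ (h hχ)) hg
      have h2 := S.avgA hC' 1 (g := g) (fun χ hχ => by rw [one_mul]; exact hD χ hχ)
        (fun h3 => hg (S.bad_anti h h3))
      simp only [one_mul] at h1 h2
      simp only [h1, h2]
      rw [mul_div_cancel_left₀ _ hcard, mul_div_cancel_left₀ _ hcard', sub_self]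
  obtain ⟨B, hB⟩ : ∃ B : Finset (H ⧸ S.V C),
      B = Finset.univ.filter (fun q : H ⧸ S.V C => q.out ∈ S.Bad C) := ⟨_, rfl⟩
  have hk := key1 Θ hI (S.V C) c B (by
    intro g hg
    rw [hval]
    refine hv g fun hb => hg ?_
    rw [hB, Finset.mem_filter]
    refine ⟨Finset.mem_univ _, ?_⟩
    obtain ⟨v, hv'⟩ := QuotientGroup.mk_out_eq_mul (S.V C) g
    rw [hv']
    exact (S.bad_mul v.2 g).2 hb)
  have hn := S.cntA C L hL
  rw [← hB] at hn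
  have hnR : (L : ℝ) * (B.card : ℝ) ≤ (Fintype.card Y : ℝ) * (Fintype.card (H ⧸ S.V C) : ℝ) := by
    exact_mod_cast hn
  have hQ : (0 : ℝ) < (Fintype.card (H ⧸ S.V C) : ℝ) := by
    exact_mod_cast Fintype.card_pos
  have hdg : ∑ θ ∈ Θ, |(c θ : ℝ)| * (dg θ : ℝ) ≤ 2 * (S.N : ℝ) := by
    have h1 := S.sum_mu_dg C Θ
    have h2 := S.sum_mu_dg C' Θ
    have h3 : ∑ θ ∈ Θ, |(c θ : ℝ)| * (dg θ : ℝ) ≤
        ∑ θ ∈ Θ, (|((S.mu C θ : ℚ) : ℝ)| * (dg θ : ℝ) + |((S.mu C' θ : ℚ) : ℝ)| * (dg θ : ℝ)) := by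
      refine Finset.sum_le_sum fun θ _ => ?_
      rw [← add_mul]
      refine mul_le_mul_of_nonneg_right ?_ (Nat.cast_nonneg _)
      rw [hc, Rat.cast_sub]
      exact abs_sub _ _
    rw [Finset.sum_add_distrib] at h3
    linarith
  have hdg0 : 0 ≤ ∑ θ ∈ Θ, |(c θ : ℝ)| * (dg θ : ℝ) :=
    Finset.sum_nonneg fun θ _ => mul_nonneg (abs_nonneg _) (Nat.cast_nonneg _)
  have hsq : (∑ θ ∈ Θ, |(c θ : ℝ)| * (dg θ : ℝ)) ^ 2 ≤ 4 * (S.N : ℝ) ^ 2 := by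
    calc (∑ θ ∈ Θ, |(c θ : ℝ)| * (dg θ : ℝ)) ^ 2 ≤ (2 * (S.N : ℝ)) ^ 2 :=
          pow_le_pow_left₀ hdg0 hdg 2
      _ = 4 * (S.N : ℝ) ^ 2 := by ring
  have hmain : (L : ℝ) * (c θ : ℝ) ^ 2 ≤ 4 * (Fintype.card Y : ℝ) * (S.N : ℝ) ^ 2 := by
    by_cases hθ : θ ∈ Θ
    · have h1 : (c θ : ℝ) ^ 2 ≤ ∑ θ ∈ Θ, (c θ : ℝ) ^ 2 :=
        Finset.single_le_sum (f := fun θ => (c θ : ℝ) ^ 2) (fun θ _ => sq_nonneg _) hθ
      have hL0 : (0 : ℝ) ≤ (L : ℝ) := Nat.cast_nonneg _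
      have hB0 : (0 : ℝ) ≤ (B.card : ℝ) := Nat.cast_nonneg _
      refine le_of_mul_le_mul_right ?_ hQ
      calc (L : ℝ) * (c θ : ℝ) ^ 2 * (Fintype.card (H ⧸ S.V C) : ℝ)
          ≤ (L : ℝ) * (∑ θ ∈ Θ, (c θ : ℝ) ^ 2) * (Fintype.card (H ⧸ S.V C) : ℝ) :=
            mul_le_mul_of_nonneg_right (mul_le_mul_of_nonneg_left h1 hL0) hQ.le
        _ = (L : ℝ) * ((∑ θ ∈ Θ, (c θ : ℝ) ^ 2) * (Fintype.card (H ⧸ S.V C) : ℝ)) := by ring
        _ ≤ (L : ℝ) * ((B.card : ℝ) * (∑ θ ∈ Θ, |(c θ : ℝ)| * (dg θ : ℝ)) ^ 2) :=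
            mul_le_mul_of_nonneg_left hk hL0
        _ ≤ (L : ℝ) * ((B.card : ℝ) * (4 * (S.N : ℝ) ^ 2)) :=
            mul_le_mul_of_nonneg_left (mul_le_mul_of_nonneg_left hsq hB0) hL0
        _ = ((L : ℝ) * (B.card : ℝ)) * (4 * (S.N : ℝ) ^ 2) := by ring
        _ ≤ ((Fintype.card Y : ℝ) * (Fintype.card (H ⧸ S.V C) : ℝ)) * (4 * (S.N : ℝ) ^ 2) :=
            mul_le_mul_of_nonneg_right hnR (by positivity)
        _ = 4 * (Fintype.card Y : ℝ) * (S.N : ℝ) ^ 2 * (Fintype.card (H ⧸ S.V C) : ℝ) := by ring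
    · have h0 : ∀ χ ∈ C', S.m χ θ = 0 := by
        intro χ hχ
        by_contra h1
        exact hθ (hΘ' χ hχ (Finsupp.mem_support_iff.2 h1))
      have h1 : S.mu C θ = 0 := by
        rw [mu, Finset.sum_eq_zero fun χ hχ => by rw [h0 χ (h hχ), Nat.cast_zero], zero_div]
      have h2 : S.mu C' θ = 0 := by
        rw [mu, Finset.sum_eq_zero fun χ hχ => by rw [h0 χ hχ, Nat.cast_zero], zero_div]
      rw [hc, h1, h2, sub_self, Rat.cast_zero]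
      have h3 : (0 : ℝ) ≤ 4 * (Fintype.card Y : ℝ) * (S.N : ℝ) ^ 2 := by positivity
      simpa using h3
  rw [hc, Rat.cast_sub] at hmain
  exact hmain


end Sys

end Pool.Agent.H89.IP
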