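import Pool.Agent.H89.IP.IndF
import Pool.Agent.H89.IP.Dec

/-!
# IP.Mk : the system of the data

PROOF. `Y = {q : G ⧸ H // q ≠ 1}`, `x = y.1.out`. `P y = {h | x⁻¹ h x ∈ H}` (a subgroup of `H`), `ψ y χ h = χ (x⁻¹ h x) * (χ h)⁻¹` if `x⁻¹ h x ∈ H`, else `0`; `D χ = {h | (h : G) ∈ Dt.D χ}`; `T χ h = (R χ h).trace * (χ h)⁻¹`; `a = Dt.a`; `b y h = a (x⁻¹ h x)` if `x⁻¹ h x ∈ H`, else `0`; `N`; `m χ` from `dec` for the representation `twi χ⁻¹ ((R χ).comp H.subtype)` of `H`.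
`ψ1`, `ψm`, `ψg`: `χ` is a homomorphism, the product of characters is pointwise. `ψo`: `χ` has finite order, so its kernel is closed (`E` is Hausdorff) of finite index in `H`; or: the values of `χ` are in a finite set (the roots of unity of order dividing the order of `χ`), which is discrete in `E`, so `{h | χ h = 1}` is open; the set in question is
`{h | x⁻¹ h x ∈ H ∧ χ (x⁻¹ h x) = χ h}`, a level set of a continuous function with finitely many values on an open set. `tor`. `big`: `K` is an open subgroup of `H`, its image in `G` is open (`Dt.hH`, `Subgroup.map`, `IsOpen.isOpenMap_subtype_val`); `Dt.big x` with `x = y.1.out ∉ H` (because `y.1 ≠ 1`) gives `g ∈ K`. `den`: `H` is open, `Dense.preimage`/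
`Dense.open_subset_closure_inter`. `cT`: `(χ h)⁻¹ = χ h ^ (n - 1)`, `n` the order (`Units`), continuous. `tr`: `Dt.tr`, `ind_H` for `f = a χ` (class function by `Dt.cl`), multiply by `(χ h)⁻¹`. `mT`, `mN`: `dec`. `S.Bad C = Dt.BadH C`: `y.1.out` is one element `x ∉ H`; conversely if `x ∉ H`, `x = y.1.out * h₀` for `y` the coset of `x`, and
`x⁻¹ h x = h₀⁻¹ (y.1.out⁻¹ h y.1.out) h₀`, `χ` has the same value. The kernel statement of `dec` is not needed. It is best to define `S` as a `def` or inside the proof with `refine ⟨{..}, ..⟩`. About 230 lines.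
-/

set_option autoImplicit false

open Matrix

namespace Pool.Agent.H89.IP

variable {G E : Type*} [Group G] [TopologicalSpace G] [Field E] [TopologicalSpace E]
  {H : Subgroup G} {N : ℕ} {X : Subgroup (H →* Eˣ)}

/-- the elements `h` of `H` with `x⁻¹ h x ∈ H` -/
private def Pc (H : Subgroup G) (x : G) : Subgroup H where
  carrier := {h | x⁻¹ * (h : G) * x ∈ H}
  mul_mem' := by
    intro a b ha hb
    have h1 : x⁻¹ * ((a * b : H) : G) * x = (x⁻¹ * (a : G) * x) * (x⁻¹ * (b : G) * x) := by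
      rw [Subgroup.coe_mul]; group
    show x⁻¹ * ((a * b : H) : G) * x ∈ H
    rw [h1]
    exact H.mul_mem ha hb
  one_mem' := by
    show x⁻¹ * ((1 : H) : G) * x ∈ H
    rw [Subgroup.coe_one, mul_one, inv_mul_cancel]
    exact H.one_mem
  inv_mem' := by
    intro a ha
    have h1 : x⁻¹ * ((a⁻¹ : H) : G) * x = (x⁻¹ * (a : G) * x)⁻¹ := by
      rw [Subgroup.coe_inv]; group
    show x⁻¹ * ((a⁻¹ : H) : G) * x ∈ H
    rw [h1]
    exact H.inv_mem ha

private theorem mem_Pc {x : G} {h : H} : h ∈ Pc H x ↔ x⁻¹ * (h : G) * x ∈ H := Iff.rfl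

open Classical in
/-- the function `ψ` -/
private noncomputable def psi (E : Type*) [Field E] {H : Subgroup G} (x : G) (χ : H →* Eˣ) (h : H) : E :=
  if hh : x⁻¹ * (h : G) * x ∈ H then
    (((χ ⟨x⁻¹ * (h : G) * x, hh⟩ * (χ h)⁻¹ : Eˣ)) : E) else 0

private theorem psi_of {x : G} {h : H} (χ : H →* Eˣ) (hh : x⁻¹ * (h : G) * x ∈ H) :
    psi E x χ h = (((χ ⟨x⁻¹ * (h : G) * x, hh⟩ * (χ h)⁻¹ : Eˣ)) : E) := by
  rw [psi, dif_pos hh]

private theorem psi_eq_one {x : G} {h : H} (χ : H →* Eˣ) (hh : x⁻¹ * (h : G) * x ∈ H) :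
    psi E x χ h = 1 ↔ χ ⟨x⁻¹ * (h : G) * x, hh⟩ = χ h := by
  rw [psi_of χ hh, Units.val_eq_one, mul_inv_eq_one]

private theorem psi_one {x : G} {h : H} (hh : h ∈ Pc H x) :
    psi E x (1 : H →* Eˣ) h = 1 := by
  rw [psi_eq_one _ hh]
  rfl

private theorem psi_mul {x : G} {h : H} (hh : h ∈ Pc H x) (χ χ' : H →* Eˣ) :
    psi E x (χ * χ') h = psi E x χ h * psi E x χ' h := by
  rw [psi_of _ hh, psi_of _ hh, psi_of _ hh, ← Units.val_mul]
  congr 1
  rw [MonoidHom.mul_apply, MonoidHom.mul_apply, mul_inv]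
  exact mul_mul_mul_comm _ _ _ _

private theorem psi_mulg {x : G} {g g' : H} (hg : g ∈ Pc H x) (hg' : g' ∈ Pc H x)
    (χ : H →* Eˣ) : psi E x χ (g * g') = psi E x χ g * psi E x χ g' := by
  have a1 : x⁻¹ * (g : G) * x ∈ H := hg
  have a2 : x⁻¹ * (g' : G) * x ∈ H := hg'
  have a3 : x⁻¹ * ((g * g' : H) : G) * x ∈ H := (Pc H x).mul_mem hg hg'
  rw [psi_of χ a1, psi_of χ a2, psi_of χ a3, ← Units.val_mul]
  congr 1
  have h1 : (⟨x⁻¹ * ((g * g' : H) : G) * x, a3⟩ : H) =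
      ⟨x⁻¹ * (g : G) * x, a1⟩ * ⟨x⁻¹ * (g' : G) * x, a2⟩ := by
    apply Subtype.ext
    show x⁻¹ * ((g * g' : H) : G) * x = (x⁻¹ * (g : G) * x) * (x⁻¹ * (g' : G) * x)
    rw [Subgroup.coe_mul]; group
  rw [h1, map_mul, map_mul, mul_inv]
  exact mul_mul_mul_comm _ _ _ _

/-- the kernel of a character of finite order is open -/
private theorem ker_open [T2Space E] {χ : H →* Eˣ} (ho : IsOfFinOrder χ)
    (hc : Continuous fun h : H => ((χ h : Eˣ) : E)) : IsOpen {h : H | χ h = 1} := by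
  classical
  obtain ⟨n, hn, hn'⟩ := isOfFinOrder_iff_pow_eq_one.1 ho
  have hfin : (((Polynomial.nthRoots n (1 : E)).toFinset.erase 1 : Finset E) : Set E).Finite :=
    Finset.finite_toSet _
  have h1 : {h : H | χ h = 1} = (fun h : H => ((χ h : Eˣ) : E)) ⁻¹'
      ((((Polynomial.nthRoots n (1 : E)).toFinset.erase 1 : Finset E) : Set E)ᶜ) := by
    ext h
    have h2 : (((χ h : Eˣ) : E)) ^ n = 1 := by
      have h3 : (χ ^ n) h = 1 := by rw [hn']; rfl
      rw [MonoidHom.pow_apply] at h3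
      rw [← Units.val_pow_eq_pow_val, h3, Units.val_one]
    simp only [Set.mem_ofPred_eq, Set.mem_preimage, Set.mem_compl_iff, Finset.mem_coe,
      Finset.mem_erase, Multiset.mem_toFinset, Polynomial.mem_nthRoots hn, h2, and_true, not_not,
      ne_eq, Units.val_eq_one]
  rw [h1]
  exact hfin.isClosed.isOpen_compl.preimage hc

private theorem map_open (hH : IsOpen (H : Set G)) {K : Subgroup H} (hK : IsOpen (K : Set H)) :
    IsOpen ((K.map H.subtype : Subgroup G) : Set G) := by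
  rw [Subgroup.coe_map]
  exact hH.isOpenMap_subtype_val _ hK

private theorem psi_open [IsTopologicalGroup G] [T2Space E] (hH : IsOpen (H : Set G)) (x : G)
    {χ : H →* Eˣ} (ho : IsOfFinOrder χ) (hc : Continuous fun h : H => ((χ h : Eˣ) : E)) :
    IsOpen {h : H | h ∈ Pc H x ∧ psi E x χ h = 1} := by
  let S : Subgroup H :=
    { carrier := {h : H | h ∈ Pc H x ∧ psi E x χ h = 1}
      mul_mem' := by
        rintro a b ⟨ha, ha'⟩ ⟨hb, hb'⟩
        refine ⟨(Pc H x).mul_mem ha hb, ?_⟩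
        rw [psi_mulg ha hb, ha', hb', one_mul]
      one_mem' := by
        refine ⟨(Pc H x).one_mem, ?_⟩
        rw [psi_eq_one χ (Pc H x).one_mem]
        congr 1
        apply Subtype.ext
        show x⁻¹ * ((1 : H) : G) * x = ((1 : H) : G)
        rw [Subgroup.coe_one, mul_one, inv_mul_cancel]
      inv_mem' := by
        rintro a ⟨ha, ha'⟩
        refine ⟨(Pc H x).inv_mem ha, ?_⟩
        have h1 := psi_mulg ha ((Pc H x).inv_mem ha) χ
        rw [mul_inv_cancel, ha', one_mul] at h1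
        rw [← h1, psi_eq_one χ (Pc H x).one_mem]
        congr 1
        apply Subtype.ext
        show x⁻¹ * ((1 : H) : G) * x = ((1 : H) : G)
        rw [Subgroup.coe_one, mul_one, inv_mul_cancel] }
  have hker := ker_open ho hc
  have hK : IsOpen ((χ.ker : Subgroup H) : Set H) := hker
  have hKG := map_open hH hK
  have hcx : Continuous fun h : H => x⁻¹ * (h : G) * x := by fun_prop
  have hU : IsOpen (((χ.ker : Subgroup H) : Set H) ∩
      (fun h : H => x⁻¹ * (h : G) * x) ⁻¹' ((χ.ker.map H.subtype : Subgroup G) : Set G)) :=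
    hK.inter (hKG.preimage hcx)
  have h1 : (1 : H) ∈ (((χ.ker : Subgroup H) : Set H) ∩
      (fun h : H => x⁻¹ * (h : G) * x) ⁻¹' ((χ.ker.map H.subtype : Subgroup G) : Set G)) := by
    refine ⟨χ.ker.one_mem, ?_⟩
    show x⁻¹ * ((1 : H) : G) * x ∈ (χ.ker.map H.subtype : Subgroup G)
    rw [Subgroup.coe_one, mul_one, inv_mul_cancel]
    exact Subgroup.one_mem _
  have hS : IsOpen (S : Set H) := by
    apply Subgroup.isOpen_of_mem_nhds S (g := 1)
    refine Filter.mem_of_superset (hU.mem_nhds h1) ?_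
    rintro h ⟨h2, h3⟩
    obtain ⟨k, hk, hk'⟩ := h3
    replace hk' : (k : G) = x⁻¹ * (h : G) * x := hk'
    have h4 : x⁻¹ * (h : G) * x ∈ H := by
      rw [← hk']
      exact k.2
    refine ⟨h4, (psi_eq_one χ h4).2 ?_⟩
    have h5 : (⟨x⁻¹ * (h : G) * x, h4⟩ : H) = k := Subtype.ext hk'.symm
    rw [h5]
    exact (MonoidHom.mem_ker.1 hk).trans (MonoidHom.mem_ker.1 h2).symm
  exact hS

private theorem out_not_mem (y : {q : G ⧸ H // q ≠ ((1 : G) : G ⧸ H)}) : y.1.out ∉ H := by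
  intro h
  apply y.2
  rw [← QuotientGroup.out_eq' y.1, QuotientGroup.eq, mul_one]
  exact H.inv_mem h

private theorem T_eq {n : ℕ} (χ : H →* Eˣ) (R : G →* Matrix (Fin n) (Fin n) E) (h : H) :
    chi (twi χ⁻¹ (R.comp H.subtype)) h = (R h).trace * (((χ h)⁻¹ : Eˣ) : E) := by
  rw [chi_twi, mul_comm]
  rfl

theorem exists_sys [CharZero E] [IsTopologicalGroup G] [IsTopologicalRing E] [T2Space E]
    [H.FiniteIndex] (Dt : GDat G E H N X) [Fintype {q : G ⧸ H // q ≠ ((1 : G) : G ⧸ H)}] :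
    ∃ S : Sys H E X {q : G ⧸ H // q ≠ ((1 : G) : G ⧸ H)},
      (∀ h, S.a h = Dt.a h) ∧ (∀ χ, S.D χ = {h : H | (h : G) ∈ Dt.D χ}) ∧
      (∀ C, S.Bad C = Dt.BadH C) ∧
      ∀ χ, ∀ θ ∈ (S.m χ).support, ∃ (n : ℕ) (ρ : H →* Matrix (Fin n) (Fin n) E),
        MIrr ρ ∧ chi ρ = θ ∧ Continuous ρ := by
  classical
  have hinv : ∀ χ : X, Continuous fun h : H => (((χ.1 h)⁻¹ : Eˣ) : E) := fun χ => Dt.cont χ⁻¹
  have hres : ∀ χ : X, Continuous fun h : H => Dt.R χ h := fun χ =>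
    (Dt.cR χ).comp continuous_subtype_val
  have hcr : ∀ χ : X, Continuous (twi χ.1⁻¹ ((Dt.R χ).comp H.subtype)) := fun χ =>
    (hinv χ).smul (hres χ)
  have hdec := fun χ : X => dec (twi χ.1⁻¹ ((Dt.R χ).comp H.subtype))
  choose m hm1 hm2 hm3 using hdec
  let S : Sys H E X {q : G ⧸ H // q ≠ ((1 : G) : G ⧸ H)} :=
    { P := fun y => Pc H y.1.out
      ψ := fun y χ h => psi E y.1.out χ.1 h
      D := fun χ => {h : H | (h : G) ∈ Dt.D χ}
      T := fun χ h => (Dt.R χ h).trace * (((χ.1 h)⁻¹ : Eˣ) : E)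
      a := Dt.a
      b := fun y h => if hh : y.1.out⁻¹ * (h : G) * y.1.out ∈ H then
        Dt.a ⟨y.1.out⁻¹ * (h : G) * y.1.out, hh⟩ else 0
      N := N
      m := m
      ψ1 := fun y g hg => psi_one hg
      ψm := fun y g hg χ χ' => psi_mul hg χ.1 χ'.1
      ψg := fun y χ g hg g' hg' => psi_mulg hg hg' χ.1
      ψo := fun y χ => psi_open Dt.hH _
        (Submonoid.isOfFinOrder_coe.2 (Dt.tor χ)) (Dt.cont χ)
      tor := Dt.tor
      big := by
        intro y K hK hKP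
        obtain ⟨χ, g, hg, h₁, h₂, hne⟩ := Dt.big y.1.out (out_not_mem y) (K.map H.subtype)
          (map_open Dt.hH hK)
        obtain ⟨k, hk, rfl⟩ := hg
        refine ⟨k, hk, χ, fun hc => hne ?_⟩
        exact (psi_eq_one χ.1 h₂).1 hc
      den := by
        intro F
        have h1 := (Dt.den F).preimage Dt.hH.isOpenMap_subtype_val
        have h2 : (Subtype.val ⁻¹' (⋂ χ ∈ F, Dt.D χ) : Set H) =
            ⋂ χ ∈ F, {h : H | (h : G) ∈ Dt.D χ} := by
          ext h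
          simp only [Set.mem_preimage, Set.mem_iInter, Set.mem_ofPred_eq]
        rw [← h2]
        exact h1
      cT := fun χ => ((hres χ).matrix_trace).mul (hinv χ)
      hb := fun y g hg => dif_neg hg
      tr := by
        intro χ g hg
        show (Dt.R χ g).trace * (((χ.1 g)⁻¹ : Eˣ) : E) = _
        rw [Dt.tr χ g hg, ind_H _ (fun g h => by
          rw [Dt.cl, map_mul, map_mul, map_inv, mul_comm ((χ.1 h)⁻¹) (χ.1 g),
            inv_mul_cancel_right])]
        rw [add_mul, mul_assoc, ← Units.val_mul, mul_inv_cancel, Units.val_one, mul_one,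
          Finset.sum_mul]
        congr 1
        apply Finset.sum_congr rfl
        intro y _
        by_cases hh : y.1.out⁻¹ * (g : G) * y.1.out ∈ H
        · rw [dif_pos hh, dif_pos hh, psi_of χ.1 hh, Units.val_mul, mul_assoc]
        · rw [dif_neg hh, dif_neg hh, zero_mul, zero_mul]
      mT := fun χ g => (T_eq χ.1 (Dt.R χ) g).symm.trans (hm2 χ g)
      mI := fun χ θ hθ => by
        obtain ⟨n', ρ', h1, h2, _⟩ := hm1 χ θ hθ
        exact ⟨n', ρ', h1, h2⟩
      mN := fun χ => (hm3 χ).le }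
  refine ⟨S, fun h => rfl, fun χ => rfl, ?_, ?_⟩
  · intro C
    ext h
    constructor
    · rintro ⟨y, hy⟩
      obtain ⟨h1, h2⟩ := (S.mem_B).1 hy
      exact ⟨y.1.out, out_not_mem y, h1, fun χ hχ => (psi_eq_one χ.1 h1).1 (h2 χ hχ)⟩
    · rintro ⟨x, hx, hh, hC⟩
      have hy : ((x : G) : G ⧸ H) ≠ ((1 : G) : G ⧸ H) := by
        intro h1
        rw [eq_comm, QuotientGroup.eq, inv_one, one_mul] at h1
        exact hx h1
      obtain ⟨k, hk⟩ := QuotientGroup.mk_out_eq_mul H x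
      have h1 : ((x : G) : G ⧸ H).out⁻¹ * (h : G) * ((x : G) : G ⧸ H).out =
          ((k⁻¹ * ⟨x⁻¹ * (h : G) * x, hh⟩ * k : H) : G) := by
        rw [hk]
        show (x * (k : G))⁻¹ * (h : G) * (x * (k : G)) =
          (k : G)⁻¹ * (x⁻¹ * (h : G) * x) * (k : G)
        group
      have h2 : ((x : G) : G ⧸ H).out⁻¹ * (h : G) * ((x : G) : G ⧸ H).out ∈ H := by
        rw [h1]
        exact (k⁻¹ * ⟨x⁻¹ * (h : G) * x, hh⟩ * k : H).2
      refine ⟨⟨((x : G) : G ⧸ H), hy⟩, (S.mem_B).2 ⟨h2, fun χ hχ => ?_⟩⟩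
      refine (psi_eq_one χ.1 h2).2 ?_
      have h3 : (⟨((x : G) : G ⧸ H).out⁻¹ * (h : G) * ((x : G) : G ⧸ H).out, h2⟩ : H) =
          k⁻¹ * ⟨x⁻¹ * (h : G) * x, hh⟩ * k := Subtype.ext h1
      rw [h3, map_mul, map_mul, map_inv, hC χ hχ, mul_comm ((χ.1 k)⁻¹) (χ.1 h),
        inv_mul_cancel_right]
  · intro χ θ hθ
    obtain ⟨n', ρ', h1, h2, _, h4⟩ := hm1 χ θ hθ
    exact ⟨n', ρ', h1, h2, h4 (hcr χ)⟩


end Pool.Agent.H89.IP
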