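import Pool.Agent.H89.IP.Main
import Pool.Agent.H89.IP.FrD
import Pool.Agent.H89.IP.GPq

/-!
# IP.NF : the theorem for number fields
-/

set_option autoImplicit false

open scoped Pointwise NumberField
open Matrix IsDedekindDomain Pool.Agent.H71.Patch Pool.Agent.H41.TP

namespace Pool.Agent.H89.IP

section conv

variable {A E : Type*} [Group A] [Field E] {n : ℕ}

/-- the matrices of a representation -/
def vm (ρ : A →* GL (Fin n) E) : A →* Matrix (Fin n) (Fin n) E :=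
  (Units.coeHom (Matrix (Fin n) (Fin n) E)).comp ρ

theorem vm_apply (ρ : A →* GL (Fin n) E) (g : A) : vm ρ g = (ρ g).val := rfl

theorem msem_vm (ρ : A →* GL (Fin n) E) : MSem (vm ρ) ↔ Semis ρ := Iff.rfl

theorem mirr_vm (ρ : A →* GL (Fin n) E) : MIrr (vm ρ) ↔ Irred ρ := Iff.rfl

theorem vm_toHomUnits (ρ : A →* Matrix (Fin n) (Fin n) E) : vm ρ.toHomUnits = ρ := by
  ext g : 1
  rw [vm_apply]
  rfl

theorem cont_vm [TopologicalSpace A] [TopologicalSpace E] {ρ : A →* GL (Fin n) E}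
    (h : Continuous ρ) : Continuous (vm ρ) := Units.continuous_val.comp h

theorem cont_gl [TopologicalSpace A] [IsTopologicalGroup A] [TopologicalSpace E]
    {ρ : A →* Matrix (Fin n) (Fin n) E} (h : Continuous ρ) : Continuous ρ.toHomUnits := by
  rw [Units.continuous_iff]
  refine ⟨h, ?_⟩
  have h1 : (fun g => ((ρ.toHomUnits g)⁻¹ : (Matrix (Fin n) (Fin n) E)ˣ).val) =
      fun g => ρ g⁻¹ := by
    funext g
    rw [← map_inv]
    rfl
  exact h1 ▸ h.comp continuous_inv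

end conv

/-- the data -/
noncomputable def nfDat {F : Type} [Field F] [NumberField F]
    (K : IntermediateField F (AlgebraicClosure F)) [FiniteDimensional F K] {E : Type*} [Field E]
    [CharZero E] [TopologicalSpace E] {N : ℕ} (X : Subgroup (K.fixingSubgroup →* Eˣ))
    (hX : ∀ χ ∈ X, IsOfFinOrder χ ∧ Continuous χ) (gen : GenPosX X)
    (R : X → GalK F →* GL (Fin N) E) (hR : ∀ χ, Continuous (R χ))
    (S : X → Set (HeightOneSpectrum (𝓞 F))) (hS : ∀ χ, (S χ).Finite)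
    (a : K.fixingSubgroup → E) (ha : ∀ g h, a (h⁻¹ * g * h) = a g)
    (tr : ∀ χ : X, ∀ g ∈ FrobPow F (S χ), (R χ g).val.trace =
      ind K.fixingSubgroup (fun h => a h * ((χ.1 h : Eˣ) : E)) g) :
    GDat (GalK F) E K.fixingSubgroup N X where
  R χ := vm (R χ)
  a := a
  D χ := FrobPow F (S χ)
  hH := K.fixingSubgroup_isOpen
  tor χ := by
    obtain ⟨n, hn, h⟩ := isOfFinOrder_iff_pow_eq_one.1 (hX χ.1 χ.2).1
    exact isOfFinOrder_iff_pow_eq_one.2 ⟨n, hn, Subtype.ext h⟩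
  cont χ := Units.continuous_val.comp (hX χ.1 χ.2).2
  big x hx U hU := by
    obtain ⟨χ, hχ, g, hg, h₁, h₂, hne⟩ := gen x hx U hU
    exact ⟨⟨χ, hχ⟩, g, hg, h₁, h₂, hne⟩
  cR χ := cont_vm (hR χ)
  conjD χ g hg x := frobPow_conj hg x
  den Z := by
    have h1 : (⋃ χ ∈ Z, S χ).Finite := Set.Finite.biUnion Z.finite_toSet fun χ _ => hS χ
    refine (frobPow_dense F h1).mono ?_
    intro g hg
    rw [Set.mem_iInter₂]
    intro χ hχ
    exact frobPow_anti (Set.subset_biUnion_of_mem (u := fun χ => S χ) hχ) hg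
  cl := ha
  tr := tr

theorem nf {F : Type} [Field F] [NumberField F] (K : IntermediateField F (AlgebraicClosure F))
    [FiniteDimensional F K] {E : Type*} [Field E] [IsAlgClosed E] [CharZero E]
    [TopologicalSpace E] [IsTopologicalRing E] [T2Space E] {N : ℕ}
    (X : Subgroup (K.fixingSubgroup →* Eˣ)) (hX : ∀ χ ∈ X, IsOfFinOrder χ ∧ Continuous χ)
    (gen : GenPosX X ∨ ∀ χ : K.fixingSubgroup →* Eˣ, Continuous χ → χ ^ 2 = 1 → χ ∈ X)
    (R : X → GalK F →* GL (Fin N) E) (hR : ∀ χ, Continuous (R χ))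
    (S : X → Set (HeightOneSpectrum (𝓞 F))) (hS : ∀ χ, (S χ).Finite)
    (a : K.fixingSubgroup → E) (ha : ∀ g h, a (h⁻¹ * g * h) = a g)
    (tr : ∀ χ : X, ∀ g ∈ FrobPow F (S χ), (R χ g).val.trace =
      ind K.fixingSubgroup (fun h => a h * ((χ.1 h : Eˣ) : E)) g) :
    ∃ (n : ℕ) (ρ : K.fixingSubgroup →* GL (Fin n) E), Continuous ρ ∧ Semis ρ ∧
      N = Module.finrank F K * n ∧
      (∀ (χ : X) (g : GalK F), (R χ g).val.trace =
        ind K.fixingSubgroup (fun h => (ρ h).val.trace * ((χ.1 h : Eˣ) : E)) g) ∧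
      (∀ (n' : ℕ) (ρ' : K.fixingSubgroup →* GL (Fin n') E), Continuous ρ' → Semis ρ' →
        (∀ χ : X, ∀ g ∈ FrobPow F (S χ), (R χ g).val.trace =
          ind K.fixingSubgroup (fun h => (ρ' h).val.trace * ((χ.1 h : Eˣ) : E)) g) →
        MIso (fun g => (ρ' g).val) (fun g => (ρ g).val)) ∧
      (∀ X' ≤ X, ∀ g : K.fixingSubgroup, (∀ χ : X, χ.1 ∈ X' → (g : GalK F) ∈ FrobPow F (S χ)) →
        (∀ x : GalK F, ∀ hx : x⁻¹ * (g : GalK F) * x ∈ K.fixingSubgroup,
          (a ⟨x⁻¹ * g * x, hx⟩ = a g ∧ (ρ ⟨x⁻¹ * g * x, hx⟩).val.trace = (ρ g).val.trace) ∨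
            ∃ χ ∈ X', χ ⟨x⁻¹ * g * x, hx⟩ ≠ χ g) → (ρ g).val.trace = a g) ∧
      (∀ χ : X, Semis ((R χ).comp K.fixingSubgroup.subtype) → TwistSummand χ.1 ρ (R χ)) ∧
      (∀ (χ : X) (g : K.fixingSubgroup), R χ g = 1 → χ.1 g = 1 → ρ g = 1) ∧
      ∀ χ : X, Irred (R χ) → Irred ρ := by
  have gen' : GenPosX X := gen.elim id fun h => genPos_quad K X h
  have hfin : K.fixingSubgroup.FiniteIndex := by
    refine ⟨?_⟩
    rw [← IntermediateField.finrank_eq_fixingSubgroup_index]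
    exact Module.finrank_pos.ne'
  let Dt := nfDat K X hX gen' R hR S hS a ha tr
  obtain ⟨n, ρ, c1, c2, c3, c4, c5, c6, c7, c8, c9⟩ := main Dt
  refine ⟨n, ρ.toHomUnits, cont_gl c1, c2, ?_, c4, ?_, ?_, ?_, ?_, ?_⟩
  · rw [c3, IntermediateField.finrank_eq_fixingSubgroup_index]
  · intro n' ρ' h1 h2 h3
    have h4 : ∀ (χ : X) (g : GalK F), (Dt.R χ g).trace =
        ind K.fixingSubgroup (fun h => chi (vm ρ') h * ((χ.1 h : Eˣ) : E)) g := by
      intro χ g
      have e1 : Continuous fun g => (Dt.R χ g).trace := Continuous.matrix_trace (Dt.cR χ)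
      have e2 : Continuous (ind K.fixingSubgroup
          (fun h => chi (vm ρ') h * ((χ.1 h : Eˣ) : E))) := by
        refine ind_cont Dt.hH ?_
        refine Continuous.mul ?_ (Dt.cont χ)
        unfold chi
        exact Continuous.matrix_trace (cont_vm h1)
      have e3 := (frobPow_dense F (hS χ)).closure_eq
      have e4 : Set.EqOn (fun g => (Dt.R χ g).trace) (ind K.fixingSubgroup
          (fun h => chi (vm ρ') h * ((χ.1 h : Eˣ) : E))) (closure (FrobPow F (S χ))) :=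
        Set.EqOn.closure (fun g hg => h3 χ g hg) e1 e2
      exact e4 (e3 ▸ Set.mem_univ g)
    obtain ⟨B, C, g1, g2, g3⟩ := c5 n' (vm ρ') (cont_vm h1) h2 h4
    refine ⟨C, B, g1, g2, fun g => ?_⟩
    show C * vm ρ' g = ρ g * C
    have e5 : vm ρ' g * B = B * ρ g := g3 g
    calc C * vm ρ' g = C * (vm ρ' g * B) * C := by
          rw [Matrix.mul_assoc, Matrix.mul_assoc, g2, Matrix.mul_one]
      _ = C * (B * ρ g) * C := by rw [e5]
      _ = ρ g * C := by rw [← Matrix.mul_assoc C B, g1, Matrix.one_mul]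
  · intro X' hX' g hD hs
    exact (c6 X' hX' g hD hs).symm
  · intro χ hχ
    obtain ⟨B, C, g1, g2⟩ := c7 χ hχ
    refine ⟨B, C, g1, fun g => ⟨?_, ?_⟩⟩
    · have := (g2 g).1
      rw [twi_apply, Matrix.mul_smul] at this
      exact this
    · have := (g2 g).2
      rw [twi_apply, Matrix.smul_mul] at this
      exact this
  · intro χ g h1 h2
    have h3 : Dt.R χ g = 1 := by
      show vm (R χ) g = 1
      rw [vm_apply, h1]
      rfl
    exact Units.ext (c8 χ g h3 h2)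
  · intro χ hχ
    exact c9 χ hχ

end Pool.Agent.H89.IP
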