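import Pool.Agent.H19.FD.Fin

/-!
# IP.Nsq : an element with a non-square product of conjugates

PROOF. `Pool.Agent.H19.FD.exists_stab F M ∅ _ 1`: a prime `v` of `F`, unramified in `M`, and a prime `W` of `𝓞 M` above `v` whose stabiliser in `Gal(M/F)` is trivial. Let `A` be the integral elements in `K` (or use `𝓞 K` with its map to `𝓞 M`; `M` is Galois over `K`), `w = W ∩ A`, `w' = (x⁻¹ W) ∩ A`. (1) `w ≠ w'`: `Gal(M/K)` acts transitively on the primes of `𝓞 M` with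
the same intersection with `A` (`Ideal.exists_smul_eq_of_comap_eq`-like, `Algebra.IsInvariant`), so `w = w'` gives `h ∈ Gal(M/K)` with `h x⁻¹ W = W`, so `h x⁻¹ = 1`, `x = h` fixes `K`, against `hx`. (2) some `a₀ ∈ w` is not in `W ^ 2`: otherwise `v ⊆ w ⊆ W ^ 2`, the ramification index is at least `2` (`Ideal.ramificationIdx`), but `v` is unramified
(`Unr`: the inertia group is trivial; its order is the ramification index: `Ideal.card_inertia_eq_ramificationIdxIn`, as used in H34/FC/Fib or H98/C1). (3) `α ∈ w`, `α ∉ W ^ 2`, `α ∉ w'`: if `a₀ ∉ w'` take `a₀`; else take `γ ∈ w ^ 2`, `γ ∉ w'` (`w'` is prime and does not contain `w`; both are maximal) and `α = a₀ + γ`. (4) Suppose `y ^ 2 = α * x α` with `y ∈ M`: `y` is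
integral, `y ^ 2 ∈ W`, so `y ∈ W`, so `α * x α ∈ W ^ 2`; `x α ∉ W` because `α ∉ x⁻¹ W`; so `α ∈ W ^ 2` (`W` is maximal: `u * x α + z = 1` for some `z ∈ W ^ 2`, `Ideal.isCoprime...`, or valuations), a contradiction. About 170 lines.
-/

set_option autoImplicit false

open scoped Pointwise NumberField
open IsDedekindDomain

namespace Pool.Agent.H89.IP

private theorem Nsq_unr (F M : Type) [Field F] [NumberField F] [Field M] [NumberField M] [Algebra F M]
    [IsGalois F M] (v : HeightOneSpectrum (𝓞 F)) (hv : Pool.Agent.H31.CF.Unr F M v)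
    (W : HeightOneSpectrum (𝓞 M)) (hW : W.asIdeal.LiesOver v.asIdeal) :
    ∃ a ∈ v.asIdeal, algebraMap (𝓞 F) (𝓞 M) a ∉ W.asIdeal ^ 2 := by
  have : v.asIdeal.IsPrime := v.isPrime
  have : W.asIdeal.IsPrime := W.isPrime
  have hc : Nat.card (Pool.Agent.H7.Artin.inertiaGroup F M W) = v.asIdeal.ramificationIdxIn (𝓞 M) :=
    Ideal.card_inertia_eq_ramificationIdxIn (G := Gal(M/F)) v.asIdeal W.asIdeal
  rw [Ideal.ramificationIdxIn_eq_ramificationIdx v.asIdeal W.asIdeal Gal(M/F), hv W hW,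
    Subgroup.card_bot] at hc
  have h1 : v.asIdeal.ramificationIdx' W.asIdeal = 1 := by
    rw [Ideal.ramificationIdx'_eq_ramificationIdx _ _ v.ne_bot, ← hc]
  by_contra hcon
  push Not at hcon
  have h2 : v.asIdeal.map (algebraMap (𝓞 F) (𝓞 M)) ≤ W.asIdeal ^ 2 :=
    Ideal.map_le_iff_le_comap.2 fun a ha => hcon a ha
  have h3 : v.asIdeal.map (algebraMap (𝓞 F) (𝓞 M)) ≤ W.asIdeal := h2.trans (Ideal.pow_le_self two_ne_zero)
  exact (Ideal.ramificationIdx'_ne_one_iff h3).2 h2 h1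

theorem nsq (F M : Type) [Field F] [NumberField F] [Field M] [NumberField M] [Algebra F M]
    [IsGalois F M] (K : IntermediateField F M) (x : Gal(M/F)) (hx : x ∉ K.fixingSubgroup) :
    ∃ α ∈ K, α ≠ 0 ∧ ¬ ∃ y : M, y ^ 2 = α * x α := by
  obtain ⟨v, -, hv, W, hW, hst⟩ := Pool.Agent.H19.FD.exists_stab F M ∅ Set.finite_empty 1
  have hWp : W.asIdeal.IsPrime := W.isPrime
  have hWm : W.asIdeal.IsMaximal := W.isMaximal
  have hW'p : (x⁻¹ • W.asIdeal).IsPrime := hWp.smul _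
  set D : Subgroup Gal(M/F) := K.fixingSubgroup with hD
  have hKD : Pool.Agent.H34.FC.FF D = K := IsGalois.fixedField_fixingSubgroup K
  -- the two primes are different below
  have hne : W.asIdeal.under (𝓞 (Pool.Agent.H34.FC.FF D)) ≠
      (x⁻¹ • W.asIdeal).under (𝓞 (Pool.Agent.H34.FC.FF D)) := by
    intro he
    obtain ⟨g, hg⟩ := Algebra.IsInvariant.exists_smul_of_under_eq
      (𝓞 (Pool.Agent.H34.FC.FF D)) (𝓞 M) D W.asIdeal (x⁻¹ • W.asIdeal) he
    have hg' : x⁻¹ • W.asIdeal = (g : Gal(M/F)) • W.asIdeal := hg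
    have h1 : x * (g : Gal(M/F)) ∈ MulAction.stabilizer Gal(M/F) W.asIdeal := by
      rw [MulAction.mem_stabilizer_iff, mul_smul, ← hg', smul_inv_smul]
    rw [hst, Subgroup.zpowers_one_eq_bot, Subgroup.mem_bot] at h1
    have h2 : x = (g : Gal(M/F))⁻¹ := eq_inv_of_mul_eq_one_left h1
    exact hx (h2 ▸ D.inv_mem g.2)
  have hwm : (W.asIdeal.under (𝓞 (Pool.Agent.H34.FC.FF D))).IsMaximal :=
    Ideal.isMaximal_comap_of_isIntegral_of_isMaximal W.asIdeal
  have hw'p : ((x⁻¹ • W.asIdeal).under (𝓞 (Pool.Agent.H34.FC.FF D))).IsPrime := Ideal.IsPrime.under _ _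
  obtain ⟨γ, hγ1, hγ2⟩ : ∃ γ ∈ W.asIdeal.under (𝓞 (Pool.Agent.H34.FC.FF D)) ^ 2,
      γ ∉ (x⁻¹ • W.asIdeal).under (𝓞 (Pool.Agent.H34.FC.FF D)) := by
    by_contra hcon
    push Not at hcon
    have h1 : W.asIdeal.under (𝓞 (Pool.Agent.H34.FC.FF D)) ^ 2 ≤
        (x⁻¹ • W.asIdeal).under (𝓞 (Pool.Agent.H34.FC.FF D)) := fun a ha => hcon a ha
    exact hne (hwm.eq_of_le hw'p.ne_top (hw'p.le_of_pow_le h1))
  obtain ⟨a, ha1, ha2⟩ := Nsq_unr F M v hv W hW
  have ha3 : algebraMap (𝓞 F) (𝓞 M) a ∈ W.asIdeal := by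
    have h1 : a ∈ W.asIdeal.under (𝓞 F) := by
      rw [← hW.over]
      exact ha1
    exact h1
  have ha4 : algebraMap (𝓞 F) (𝓞 M) a ∈ x⁻¹ • W.asIdeal := by
    rw [Ideal.mem_inv_pointwise_smul_iff, smul_algebraMap]
    exact ha3
  have hγ3 : algebraMap (𝓞 (Pool.Agent.H34.FC.FF D)) (𝓞 M) γ ∈ W.asIdeal ^ 2 := by
    have h1 : (W.asIdeal.under (𝓞 (Pool.Agent.H34.FC.FF D))).map
        (algebraMap (𝓞 (Pool.Agent.H34.FC.FF D)) (𝓞 M)) ≤ W.asIdeal := Ideal.map_comap_le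
    have h2 := Ideal.mem_map_of_mem (algebraMap (𝓞 (Pool.Agent.H34.FC.FF D)) (𝓞 M)) hγ1
    rw [Ideal.map_pow] at h2
    exact Ideal.pow_right_mono h1 2 h2
  set β : 𝓞 M := algebraMap (𝓞 F) (𝓞 M) a + algebraMap (𝓞 (Pool.Agent.H34.FC.FF D)) (𝓞 M) γ with hβ
  have hβ2 : β ∉ W.asIdeal ^ 2 := fun h => ha2 (by
    have h1 := (W.asIdeal ^ 2).sub_mem h hγ3
    rwa [hβ, add_sub_cancel_right] at h1)
  have hβ1 : β ∈ W.asIdeal := W.asIdeal.add_mem ha3 (Ideal.pow_le_self two_ne_zero hγ3)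
  have hβ3 : x • β ∉ W.asIdeal := by
    intro h
    rw [← Ideal.mem_inv_pointwise_smul_iff] at h
    refine hγ2 ?_
    have h1 := (x⁻¹ • W.asIdeal).sub_mem h ha4
    rw [hβ, add_sub_cancel_left] at h1
    exact h1
  refine ⟨(β : M), ?_, ?_, ?_⟩
  · have h1 : ((algebraMap (𝓞 F) (𝓞 M) a : 𝓞 M) : M) = algebraMap F M (a : F) := rfl
    have h2 : ((algebraMap (𝓞 (Pool.Agent.H34.FC.FF D)) (𝓞 M) γ : 𝓞 M) : M) =
        ((γ : Pool.Agent.H34.FC.FF D) : M) := rfl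
    have h3 : (β : M) = algebraMap F M (a : F) + ((γ : Pool.Agent.H34.FC.FF D) : M) := by
      rw [← h1, ← h2, hβ]
      rfl
    rw [h3]
    refine add_mem (K.algebraMap_mem _) ?_
    have h4 : ((γ : Pool.Agent.H34.FC.FF D) : M) ∈ Pool.Agent.H34.FC.FF D := (γ : Pool.Agent.H34.FC.FF D).2
    exact (le_of_eq hKD) h4
  · intro h0
    have h1 : β = 0 := NumberField.RingOfIntegers.ext (h0.trans rfl)
    exact hβ2 (h1 ▸ (W.asIdeal ^ 2).zero_mem)
  · rintro ⟨y, hy⟩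
    have h2 : y ^ 2 = ((β * (x • β) : 𝓞 M) : M) := by
      rw [hy]
      rfl
    have h3 : IsIntegral ℤ y := by
      refine IsIntegral.of_pow two_pos ?_
      rw [h2]
      exact (β * (x • β)).2
    set z : 𝓞 M := ⟨y, h3⟩ with hz
    have h4 : z ^ 2 = β * (x • β) := NumberField.RingOfIntegers.ext (Eq.trans rfl h2)
    have h5 : z ^ 2 ∈ W.asIdeal := by
      rw [h4]
      exact W.asIdeal.mul_mem_right _ hβ1
    have h6 : z ∈ W.asIdeal := hWp.mem_of_pow_mem 2 h5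
    have h7 : z ^ 2 ∈ W.asIdeal ^ 2 := Ideal.pow_mem_pow h6 2
    rw [h4] at h7
    rcases Ideal.IsPrime.mem_pow_mul W.asIdeal h7 with h8 | h8
    · exact hβ2 h8
    · exact hβ3 h8

end Pool.Agent.H89.IP
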