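import Pool.Agent.H89.IP.GDat
import Pool.Agent.H89.IP.Fs

/-!
# IP.Nwd : the exceptional set is nowhere dense

PROOF. For `q y : G ⧸ H`, `y ≠ 1`, and a set `F` of characters let `K F q y = {g : G | g' = q.out⁻¹ g q.out ∈ H, g'' = y.out⁻¹ g' y.out ∈ H, χ g'' = χ g' for all χ ∈ F}`. This is a closed subgroup of `G` (`H` is open and closed, the `χ` are continuous on `H`, `E` is Hausdorff). `GDat.W C` is the complement of the union of the finitely many `K C q y`: if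
`x⁻¹ g x ∈ BadH C` with `z ∉ H` (`z` in the definition of `BadH`), write `x = q.out h₀`, `h₀ z = y.out h₁`; then `q.out⁻¹ g q.out = h₀ (x⁻¹ g x) h₀⁻¹` and `y.out⁻¹ (q.out⁻¹ g q.out) y.out = h₁ (z⁻¹ (x⁻¹ g x) z) h₁⁻¹`, the characters have the same values; conversely `x = q.out`, `z = y.out`. So `W C` is open (`isOpen_W`).
`dense_W`: `K univ q y` has empty interior: otherwise it is an open subgroup (`Subgroup.isOpen_of_mem_nhds` or `Subgroup.isOpen_mono`), its conjugate `U = q.out⁻¹ (K univ q y) q.out` is open and all `g ∈ U` satisfy `χ (y.out⁻¹ g y.out) = χ g`, against `Dt.big y.out`. The finite union of these closed sets has empty interior (`interior_union_isClosed_of_interior_empty`,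
induction, or `dense_iInter_of_isOpen`-like for finitely many open dense sets: `Dense.inter_of_isOpen_left`). If `g` is not in the union then for each `(q, y)` one character `χ_{q,y}` (or none) shows it; a finite subgroup `C` containing them (`fs_ex`) has `g ∈ W C`. About 200 lines.
-/

set_option autoImplicit false
set_option linter.unusedSectionVars false

open Matrix

namespace Pool.Agent.H89.IP

variable {G E : Type*} [Group G] [TopologicalSpace G] [Field E] [TopologicalSpace E]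
  {H : Subgroup G} {N : ℕ} {X : Subgroup (H →* Eˣ)}

/-- the good elements of `G` for the characters in `C` -/
def GDat.W (Dt : GDat G E H N X) (C : Finset X) : Set G :=
  {g | ∀ x : G, ∀ h : x⁻¹ * g * x ∈ H, (⟨x⁻¹ * g * x, h⟩ : H) ∉ Dt.BadH C}

private theorem nwd_cg (χ : H →* Eˣ) {a b : G} (h : a = b) (ha : a ∈ H) (hb : b ∈ H) :
    χ ⟨a, ha⟩ = χ ⟨b, hb⟩ := congrArg χ (Subtype.ext h)

private theorem nwd_cj (χ : H →* Eˣ) {a k b : G} (hk : k ∈ H) (ha : a ∈ H) (hb : b ∈ H)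
    (h : b = k⁻¹ * a * k) : χ ⟨b, hb⟩ = χ ⟨a, ha⟩ := by
  have h1 : (⟨b, hb⟩ : H) = (⟨k, hk⟩ : H)⁻¹ * ⟨a, ha⟩ * ⟨k, hk⟩ := Subtype.ext h
  rw [h1, map_mul, map_mul, map_inv, mul_right_comm, inv_mul_cancel, one_mul]

/-- the elements which are not separated at `x`, `z` -/
private def nwd_K (H : Subgroup G) (X : Subgroup (H →* Eˣ)) (F : Set X) (x z : G) : Subgroup G where
  carrier := {g | ∃ (h1 : x⁻¹ * g * x ∈ H) (h2 : z⁻¹ * (x⁻¹ * g * x) * z ∈ H),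
    ∀ χ ∈ F, χ.1 ⟨z⁻¹ * (x⁻¹ * g * x) * z, h2⟩ = χ.1 ⟨x⁻¹ * g * x, h1⟩}
  mul_mem' := by
    rintro a b ⟨ha1, ha2, ha3⟩ ⟨hb1, hb2, hb3⟩
    have e1 : x⁻¹ * (a * b) * x = (x⁻¹ * a * x) * (x⁻¹ * b * x) := by group
    have e2 : z⁻¹ * (x⁻¹ * (a * b) * x) * z =
        (z⁻¹ * (x⁻¹ * a * x) * z) * (z⁻¹ * (x⁻¹ * b * x) * z) := by group
    have m1 : x⁻¹ * (a * b) * x ∈ H := by
      rw [e1]
      exact H.mul_mem ha1 hb1
    have m2 : z⁻¹ * (x⁻¹ * (a * b) * x) * z ∈ H := by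
      rw [e2]
      exact H.mul_mem ha2 hb2
    refine ⟨m1, m2, fun χ hχ => ?_⟩
    rw [nwd_cg χ.1 e1 m1 (H.mul_mem ha1 hb1), nwd_cg χ.1 e2 m2 (H.mul_mem ha2 hb2)]
    have h1 := map_mul χ.1 (⟨_, ha1⟩ : H) ⟨_, hb1⟩
    have h2 := map_mul χ.1 (⟨_, ha2⟩ : H) ⟨_, hb2⟩
    rw [ha3 χ hχ, hb3 χ hχ, ← h1] at h2
    exact h2
  one_mem' := by
    have e1 : x⁻¹ * 1 * x = 1 := by group
    have e2 : z⁻¹ * (x⁻¹ * 1 * x) * z = 1 := by group
    have m1 : x⁻¹ * 1 * x ∈ H := by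
      rw [e1]
      exact H.one_mem
    have m2 : z⁻¹ * (x⁻¹ * 1 * x) * z ∈ H := by
      rw [e2]
      exact H.one_mem
    refine ⟨m1, m2, fun χ _ => ?_⟩
    rw [nwd_cg χ.1 e1 m1 H.one_mem, nwd_cg χ.1 e2 m2 H.one_mem]
  inv_mem' := by
    rintro a ⟨ha1, ha2, ha3⟩
    have e1 : x⁻¹ * a⁻¹ * x = (x⁻¹ * a * x)⁻¹ := by group
    have e2 : z⁻¹ * (x⁻¹ * a⁻¹ * x) * z = (z⁻¹ * (x⁻¹ * a * x) * z)⁻¹ := by group
    have m1 : x⁻¹ * a⁻¹ * x ∈ H := by
      rw [e1]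
      exact H.inv_mem ha1
    have m2 : z⁻¹ * (x⁻¹ * a⁻¹ * x) * z ∈ H := by
      rw [e2]
      exact H.inv_mem ha2
    refine ⟨m1, m2, fun χ hχ => ?_⟩
    rw [nwd_cg χ.1 e1 m1 (H.inv_mem ha1), nwd_cg χ.1 e2 m2 (H.inv_mem ha2)]
    have h1 := map_inv χ.1 (⟨_, ha1⟩ : H)
    have h2 := map_inv χ.1 (⟨_, ha2⟩ : H)
    rw [ha3 χ hχ, ← h1] at h2
    exact h2

private theorem nwd_mem {F : Set X} {x z g : G} : g ∈ nwd_K H X F x z ↔
    ∃ (h1 : x⁻¹ * g * x ∈ H) (h2 : z⁻¹ * (x⁻¹ * g * x) * z ∈ H),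
    ∀ χ ∈ F, χ.1 ⟨z⁻¹ * (x⁻¹ * g * x) * z, h2⟩ = χ.1 ⟨x⁻¹ * g * x, h1⟩ := Iff.rfl

private theorem nwd_rep {F : Set X} {x z g : G} (hz : z ∉ H) (hg : g ∈ nwd_K H X F x z) :
    ∃ q y : G ⧸ H, y.out ∉ H ∧ g ∈ nwd_K H X F q.out y.out := by
  obtain ⟨h1, h2, h3⟩ := nwd_mem.1 hg
  obtain ⟨⟨k0, hk0⟩, e0⟩ := QuotientGroup.mk_out_eq_mul H x
  obtain ⟨⟨k1, hk1⟩, e1⟩ := QuotientGroup.mk_out_eq_mul H (k0⁻¹ * z)
  dsimp only at e0 e1
  refine ⟨(x : G ⧸ H), ((k0⁻¹ * z : G) : G ⧸ H), ?_, ?_⟩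
  · intro h
    rw [e1] at h
    have h4 := (H.mul_mem_cancel_right hk1).1 h
    exact hz ((H.mul_mem_cancel_left (H.inv_mem hk0)).1 h4)
  · rw [nwd_mem, e0, e1]
    have a1 : (x * k0)⁻¹ * g * (x * k0) = k0⁻¹ * (x⁻¹ * g * x) * k0 := by group
    have a2 : (k0⁻¹ * z * k1)⁻¹ * ((x * k0)⁻¹ * g * (x * k0)) * (k0⁻¹ * z * k1) =
        k1⁻¹ * (z⁻¹ * (x⁻¹ * g * x) * z) * k1 := by group
    have m1 : (x * k0)⁻¹ * g * (x * k0) ∈ H := by
      rw [a1]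
      exact H.mul_mem (H.mul_mem (H.inv_mem hk0) h1) hk0
    have m2 : (k0⁻¹ * z * k1)⁻¹ * ((x * k0)⁻¹ * g * (x * k0)) * (k0⁻¹ * z * k1) ∈ H := by
      rw [a2]
      exact H.mul_mem (H.mul_mem (H.inv_mem hk1) h2) hk1
    refine ⟨m1, m2, fun χ hχ => ?_⟩
    rw [nwd_cj χ.1 hk0 h1 m1 a1, nwd_cj χ.1 hk1 h2 m2 a2]
    exact h3 χ hχ

private theorem nwd_bad (Dt : GDat G E H N X) {C : Finset X} {g : G} : g ∉ Dt.W C ↔
    ∃ q y : G ⧸ H, y.out ∉ H ∧ g ∈ nwd_K H X (C : Set X) q.out y.out := by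
  constructor
  · intro h
    have h1 : ∃ x : G, ∃ h : x⁻¹ * g * x ∈ H, (⟨x⁻¹ * g * x, h⟩ : H) ∈ Dt.BadH C := by
      by_contra hcon
      push Not at hcon
      exact h hcon
    obtain ⟨x, hx, z, hz, hz2, hz3⟩ := h1
    exact nwd_rep hz ⟨hx, hz2, fun χ hχ => hz3 χ hχ⟩
  · rintro ⟨q, y, hy, h1, h2, h3⟩ hg
    exact hg q.out h1 ⟨y.out, hy, h2, fun χ hχ => h3 χ hχ⟩

open Classical in
private theorem nwd_cont [IsTopologicalGroup G] (Dt : GDat G E H N X) (χ : X) :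
    Continuous fun g : G => if h : g ∈ H then ((χ.1 ⟨g, h⟩ : Eˣ) : E) else 0 := by
  rw [continuous_iff_continuousAt]
  intro g
  by_cases hg : g ∈ H
  · have h1 := Dt.hH.isOpenEmbedding_subtypeVal.continuousAt_iff
      (g := fun g : G => if h : g ∈ H then ((χ.1 ⟨g, h⟩ : Eˣ) : E) else 0) (x := ⟨g, hg⟩)
    refine h1.1 ?_
    have h2 : (fun g : G => if h : g ∈ H then ((χ.1 ⟨g, h⟩ : Eˣ) : E) else 0) ∘
        (Subtype.val : H → G) = fun h : H => ((χ.1 h : Eˣ) : E) := by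
      funext h
      simp
    have h3 : ContinuousAt ((fun g : G => if h : g ∈ H then ((χ.1 ⟨g, h⟩ : Eˣ) : E) else 0) ∘
        (Subtype.val : H → G)) ⟨g, hg⟩ := by
      rw [h2]
      exact (Dt.cont χ).continuousAt
    exact h3
  · have h1 : IsOpen ((H : Set G)ᶜ) := (Subgroup.isClosed_of_isOpen H Dt.hH).isOpen_compl
    have h2 : (fun g : G => if h : g ∈ H then ((χ.1 ⟨g, h⟩ : Eˣ) : E) else 0) =ᶠ[nhds g]
        fun _ => 0 := by
      filter_upwards [h1.mem_nhds hg] with w hw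
      exact dif_neg hw
    exact (continuousAt_const).congr h2.symm

private theorem nwd_closed [IsTopologicalGroup G] [T2Space E] (Dt : GDat G E H N X) (F : Set X)
    (x z : G) : IsClosed (nwd_K H X F x z : Set G) := by
  classical
  have hc : IsClosed (H : Set G) := Subgroup.isClosed_of_isOpen H Dt.hH
  have c1 : Continuous fun g : G => x⁻¹ * g * x := by fun_prop
  have c2 : Continuous fun g : G => z⁻¹ * (x⁻¹ * g * x) * z := by fun_prop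
  have e : (nwd_K H X F x z : Set G) = ({g | x⁻¹ * g * x ∈ (H : Set G)} ∩
      {g | z⁻¹ * (x⁻¹ * g * x) * z ∈ (H : Set G)}) ∩
      ⋂ χ ∈ F, {g | (if h : z⁻¹ * (x⁻¹ * g * x) * z ∈ H then
        ((χ.1 ⟨z⁻¹ * (x⁻¹ * g * x) * z, h⟩ : Eˣ) : E) else 0) =
        if h : x⁻¹ * g * x ∈ H then ((χ.1 ⟨x⁻¹ * g * x, h⟩ : Eˣ) : E) else 0} := by
    ext g
    constructor
    · rintro ⟨h1, h2, h3⟩
      refine ⟨⟨h1, h2⟩, Set.mem_iInter₂.2 fun χ hχ => ?_⟩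
      show (if h : z⁻¹ * (x⁻¹ * g * x) * z ∈ H then
        ((χ.1 ⟨z⁻¹ * (x⁻¹ * g * x) * z, h⟩ : Eˣ) : E) else 0) =
        if h : x⁻¹ * g * x ∈ H then ((χ.1 ⟨x⁻¹ * g * x, h⟩ : Eˣ) : E) else 0
      rw [dif_pos h1, dif_pos h2, h3 χ hχ]
    · rintro ⟨⟨h1, h2⟩, h3⟩
      refine ⟨h1, h2, fun χ hχ => ?_⟩
      have h4 : (if h : z⁻¹ * (x⁻¹ * g * x) * z ∈ H then
        ((χ.1 ⟨z⁻¹ * (x⁻¹ * g * x) * z, h⟩ : Eˣ) : E) else 0) =
        if h : x⁻¹ * g * x ∈ H then ((χ.1 ⟨x⁻¹ * g * x, h⟩ : Eˣ) : E) else 0 :=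
        Set.mem_iInter₂.1 h3 χ hχ
      have h1' : x⁻¹ * g * x ∈ H := h1
      have h2' : z⁻¹ * (x⁻¹ * g * x) * z ∈ H := h2
      rw [dif_pos h1', dif_pos h2'] at h4
      exact Units.ext h4
  rw [e]
  refine ((hc.preimage c1).inter (hc.preimage c2)).inter (isClosed_biInter fun χ _ => ?_)
  exact isClosed_eq ((nwd_cont Dt χ).comp c2) ((nwd_cont Dt χ).comp c1)

private theorem nwd_empty [IsTopologicalGroup G] (Dt : GDat G E H N X) {x z : G} (hz : z ∉ H) :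
    interior (nwd_K H X Set.univ x z : Set G) = ∅ := by
  by_contra hne
  obtain ⟨g0, hg0⟩ := Set.nonempty_iff_ne_empty.2 hne
  have ho : IsOpen (nwd_K H X Set.univ x z : Set G) :=
    Subgroup.isOpen_of_mem_nhds _ (mem_interior_iff_mem_nhds.1 hg0)
  have hc : Continuous (MulAut.conj x).toMonoidHom := by
    have h1 : Continuous fun g : G => x * g * x⁻¹ := by fun_prop
    exact h1
  obtain ⟨χ, g, hg, h₁, h₂, hne2⟩ := Dt.big z hz
    ((nwd_K H X Set.univ x z).comap (MulAut.conj x).toMonoidHom) (ho.preimage hc)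
  apply hne2
  have hg' : x * g * x⁻¹ ∈ nwd_K H X Set.univ x z := hg
  obtain ⟨k1, k2, k3⟩ := nwd_mem.1 hg'
  have e1 : x⁻¹ * (x * g * x⁻¹) * x = g := by group
  have e2 : z⁻¹ * (x⁻¹ * (x * g * x⁻¹) * x) * z = z⁻¹ * g * z := by group
  have h3 := k3 χ (Set.mem_univ _)
  rw [nwd_cg χ.1 e1 k1 h₁, nwd_cg χ.1 e2 k2 h₂] at h3
  exact h3

private theorem nwd_dense {ι T : Type*} [TopologicalSpace T] (t : Finset ι) (f : ι → Set T)
    (ho : ∀ i, IsOpen (f i)) (hd : ∀ i, Dense (f i)) :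
    IsOpen (⋂ i ∈ t, f i) ∧ Dense (⋂ i ∈ t, f i) := by
  classical
  induction t using Finset.induction_on with
  | empty => simp
  | insert i t _ ih =>
    rw [Finset.set_biInter_insert]
    exact ⟨(ho i).inter ih.1, (hd i).inter_of_isOpen_left ih.2 (ho i)⟩

theorem isOpen_W [IsTopologicalGroup G] [T2Space E] [IsTopologicalRing E] [H.FiniteIndex]
    (Dt : GDat G E H N X) (C : Finset X) : IsOpen (Dt.W C) := by
  have e : Dt.W C = (⋃ p : (G ⧸ H) × (G ⧸ H), {g | p.2.out ∉ H ∧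
      g ∈ (nwd_K H X (C : Set X) p.1.out p.2.out : Set G)})ᶜ := by
    ext g
    rw [Set.mem_compl_iff, Set.mem_iUnion]
    constructor
    · rintro hg ⟨⟨q, y⟩, h1, h2⟩
      exact (nwd_bad Dt).2 ⟨q, y, h1, h2⟩ hg
    · intro h
      by_contra hg
      obtain ⟨q, y, h1, h2⟩ := (nwd_bad Dt).1 hg
      exact h ⟨(q, y), h1, h2⟩
  rw [e, isOpen_compl_iff]
  refine isClosed_iUnion_of_finite fun p => ?_
  by_cases hp : p.2.out ∉ H
  · have h1 : {g | p.2.out ∉ H ∧ g ∈ (nwd_K H X (C : Set X) p.1.out p.2.out : Set G)} =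
        (nwd_K H X (C : Set X) p.1.out p.2.out : Set G) := by
      ext g
      exact ⟨fun h => h.2, fun h => ⟨hp, h⟩⟩
    rw [h1]
    exact nwd_closed Dt _ _ _
  · have h1 : {g | p.2.out ∉ H ∧ g ∈ (nwd_K H X (C : Set X) p.1.out p.2.out : Set G)} = ∅ := by
      ext g
      exact ⟨fun h => absurd h.1 hp, fun h => absurd h (Set.notMem_empty g)⟩
    rw [h1]
    exact isClosed_empty

theorem dense_W [IsTopologicalGroup G] [T2Space E] [IsTopologicalRing E] [H.FiniteIndex]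
    (Dt : GDat G E H N X) : Dense {g : G | ∃ C : Finset X, IsFS C ∧ g ∈ Dt.W C} := by
  classical
  have : Fintype (G ⧸ H) := Fintype.ofFinite _
  let f : (G ⧸ H) × (G ⧸ H) → Set G := fun p =>
    {g | p.2.out ∉ H → g ∉ (nwd_K H X Set.univ p.1.out p.2.out : Set G)}
  have hf : ∀ p, IsOpen (f p) ∧ Dense (f p) := by
    intro p
    by_cases hp : p.2.out ∉ H
    · have h1 : f p = (nwd_K H X Set.univ p.1.out p.2.out : Set G)ᶜ := by
        ext g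
        exact ⟨fun h => h hp, fun h _ => h⟩
      rw [h1]
      exact ⟨(nwd_closed Dt _ _ _).isOpen_compl, interior_eq_empty_iff_dense_compl.1 (nwd_empty Dt hp)⟩
    · have h1 : f p = Set.univ := by
        ext g
        exact ⟨fun _ => Set.mem_univ _, fun _ h => absurd h hp⟩
      rw [h1]
      exact ⟨isOpen_univ, dense_univ⟩
  have hd := (nwd_dense Finset.univ f (fun p => (hf p).1) (fun p => (hf p).2)).2
  refine hd.mono ?_
  intro g hg
  have hg' : ∀ p, g ∈ f p := fun p => Set.mem_iInter₂.1 hg p (Finset.mem_univ p)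
  have key : ∀ p : (G ⧸ H) × (G ⧸ H), ∃ χ : X, p.2.out ∉ H →
      g ∉ (nwd_K H X {χ} p.1.out p.2.out : Set G) := by
    intro p
    by_contra hcon
    push Not at hcon
    have hp : p.2.out ∉ H := (hcon 1).1
    apply hg' p hp
    obtain ⟨h1, h2, _⟩ := (hcon 1).2
    refine ⟨h1, h2, fun χ _ => ?_⟩
    obtain ⟨_, _, h3⟩ := (hcon χ).2
    exact h3 χ rfl
  choose χ hχ using key
  obtain ⟨C, hC, hFC⟩ := fs_ex Dt.tor (Finset.univ.image χ)
  refine ⟨C, hC, ?_⟩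
  by_contra hW
  obtain ⟨q, y, hy, h1, h2, h3⟩ := (nwd_bad Dt).1 hW
  refine hχ (q, y) hy ⟨h1, h2, fun χ' hχ' => ?_⟩
  rw [Set.mem_singleton_iff] at hχ'
  rw [hχ']
  exact h3 _ (hFC (Finset.mem_image_of_mem χ (Finset.mem_univ _)))

theorem W_mono (Dt : GDat G E H N X) {C C' : Finset X} (h : C ⊆ C') : Dt.W C ⊆ Dt.W C' := by
  intro g hg x hx
  rintro ⟨z, hz, hz2, hz3⟩
  exact hg x hx ⟨z, hz, hz2, fun χ hχ => hz3 χ (h hχ)⟩


end Pool.Agent.H89.IP
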