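import Pool.Agent.H89.IP.Defs

/-!
# IP.SepId : the separability idempotent of a semisimple algebra

PROOF. `IsSemisimpleRing.exists_algEquiv_pi_matrix_of_isAlgClosed`: `A ≃ₐ[E] ∀ i : Fin m, Matrix (Fin (d i)) (Fin (d i)) E`, `d i ≠ 0`. It is enough to prove the statement for the product (transport along the `AlgEquiv`, `Algebra.TensorProduct.congr` or `TensorProduct.map`).
In the product take for `(i, p)`, `p : Fin (d i)` the elements `u = Pi.single i (e_{p 0})`, `w = Pi.single i (e_{0 p})` (`Matrix.single p 0 1`, `0 : Fin (d i)`). Then `∑ u w = ∑_i ∑_p e_pp = 1`. For `x` in the product, `x u_(i,p) = Pi.single i (∑_q x_i q p • e_q0)` and `w_(i,p) x = Pi.single i (∑_q x_i p q • e_0q)`,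
so both sides of the second identity are `∑_i ∑_{p,q} x_i q p • (e_q0 ⊗ e_0p)`. The index type `Σ i, Fin (d i)` is equivalent to some `Fin r`. About 90 lines.
-/

set_option autoImplicit false

open Matrix TensorProduct

namespace Pool.Agent.H89.IP

private theorem SepId_mulu {E : Type*} [Field E] {n : ℕ} {d : Fin n → ℕ} [∀ i, NeZero (d i)]
    (x : ∀ i : Fin n, Matrix (Fin (d i)) (Fin (d i)) E) (i : Fin n) (p : Fin (d i)) :
    x * (Pi.single i (Matrix.single p 0 1) : ∀ i : Fin n, Matrix (Fin (d i)) (Fin (d i)) E) =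
      ∑ q, x i q p • (Pi.single i (Matrix.single q 0 1) :
        ∀ i : Fin n, Matrix (Fin (d i)) (Fin (d i)) E) := by
  funext j
  rw [Finset.sum_apply]
  by_cases h : j = i
  · subst h
    simp only [Pi.mul_apply, Pi.smul_apply, Pi.single_eq_same]
    ext a b
    rw [Matrix.sum_apply]
    simp only [Matrix.smul_apply, smul_eq_mul, Matrix.mul_apply, Matrix.single_apply, mul_ite,
      mul_one, mul_zero]
    by_cases hb : (0 : Fin (d j)) = b
    · simp [hb]
    · simp [hb]
  · simp [Pi.mul_apply, Pi.smul_apply, Pi.single_eq_of_ne h]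

private theorem SepId_mulw {E : Type*} [Field E] {n : ℕ} {d : Fin n → ℕ} [∀ i, NeZero (d i)]
    (x : ∀ i : Fin n, Matrix (Fin (d i)) (Fin (d i)) E) (i : Fin n) (p : Fin (d i)) :
    (Pi.single i (Matrix.single 0 p 1) : ∀ i : Fin n, Matrix (Fin (d i)) (Fin (d i)) E) * x =
      ∑ q, x i p q • (Pi.single i (Matrix.single 0 q 1) :
        ∀ i : Fin n, Matrix (Fin (d i)) (Fin (d i)) E) := by
  funext j
  rw [Finset.sum_apply]
  by_cases h : j = i
  · subst h
    simp only [Pi.mul_apply, Pi.smul_apply, Pi.single_eq_same]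
    ext a b
    rw [Matrix.sum_apply]
    simp only [Matrix.smul_apply, smul_eq_mul, Matrix.mul_apply, Matrix.single_apply, ite_mul,
      one_mul, zero_mul, mul_ite, mul_one, mul_zero]
    by_cases ha : (0 : Fin (d j)) = a
    · simp [ha]
    · simp [ha]
  · simp [Pi.mul_apply, Pi.smul_apply, Pi.single_eq_of_ne h]

private theorem SepId_one {E : Type*} [Field E] {n : ℕ} {d : Fin n → ℕ} [∀ i, NeZero (d i)] :
    ∑ a : (Σ i : Fin n, Fin (d i)),
      (Pi.single a.1 (Matrix.single a.2 0 1) : ∀ i : Fin n, Matrix (Fin (d i)) (Fin (d i)) E) *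
      (Pi.single a.1 (Matrix.single 0 a.2 1) : ∀ i : Fin n, Matrix (Fin (d i)) (Fin (d i)) E) =
      1 := by
  funext j
  rw [Finset.sum_apply, Fintype.sum_sigma]
  rw [Finset.sum_eq_single j]
  · simp only [Pi.mul_apply, Pi.single_eq_same, Pi.one_apply]
    ext a b
    rw [Matrix.sum_apply]
    have h1 : ∀ p : Fin (d j), (Matrix.single p (0 : Fin (d j)) (1 : E) *
        Matrix.single (0 : Fin (d j)) p (1 : E)) a b = if p = a then (if p = b then 1 else 0)
          else 0 := by
      intro p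
      rw [Matrix.single_mul_single_same, mul_one, Matrix.single_apply]
      by_cases h1 : p = a
      · by_cases h2 : p = b <;> simp [h1, h2]
      · simp [h1]
    rw [Finset.sum_congr rfl fun p _ => h1 p]
    simp [Matrix.one_apply]
  · intro i _ hi
    refine Finset.sum_eq_zero fun p _ => ?_
    simp [Pi.mul_apply, Pi.single_eq_of_ne (Ne.symm hi)]
  · intro h
    exact absurd (Finset.mem_univ j) h

private theorem SepId_two {E : Type*} [Field E] {n : ℕ} {d : Fin n → ℕ} [∀ i, NeZero (d i)]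
    (x : ∀ i : Fin n, Matrix (Fin (d i)) (Fin (d i)) E) :
    ∑ a : (Σ i : Fin n, Fin (d i)),
      (x * (Pi.single a.1 (Matrix.single a.2 0 1) :
        ∀ i : Fin n, Matrix (Fin (d i)) (Fin (d i)) E)) ⊗ₜ[E]
      (Pi.single a.1 (Matrix.single 0 a.2 1) : ∀ i : Fin n, Matrix (Fin (d i)) (Fin (d i)) E) =
    ∑ a : (Σ i : Fin n, Fin (d i)),
      (Pi.single a.1 (Matrix.single a.2 0 1) : ∀ i : Fin n, Matrix (Fin (d i)) (Fin (d i)) E)
      ⊗ₜ[E] ((Pi.single a.1 (Matrix.single 0 a.2 1) :
        ∀ i : Fin n, Matrix (Fin (d i)) (Fin (d i)) E) * x) := by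
  rw [Fintype.sum_sigma, Fintype.sum_sigma]
  refine Finset.sum_congr rfl fun i _ => ?_
  simp only [SepId_mulu, SepId_mulw, TensorProduct.sum_tmul, TensorProduct.tmul_sum]
  rw [Finset.sum_comm]
  refine Finset.sum_congr rfl fun q _ => Finset.sum_congr rfl fun p _ => ?_
  rw [TensorProduct.tmul_smul, TensorProduct.smul_tmul']

theorem sepid {E A : Type*} [Field E] [IsAlgClosed E] [Ring A] [Algebra E A] [FiniteDimensional E A]
    [IsSemisimpleRing A] : ∃ (r : ℕ) (u w : Fin r → A), ∑ a, u a * w a = 1 ∧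
      ∀ x : A, ∑ a, (x * u a) ⊗ₜ[E] w a = ∑ a, u a ⊗ₜ[E] (w a * x) := by
  obtain ⟨n, d, hd, ⟨e⟩⟩ := IsSemisimpleRing.exists_algEquiv_pi_matrix_of_isAlgClosed E A
  have := hd
  let σ := (Fintype.equivFin (Σ i : Fin n, Fin (d i))).symm
  refine ⟨Fintype.card (Σ i : Fin n, Fin (d i)),
    fun a => e.symm (Pi.single (σ a).1 (Matrix.single (σ a).2 0 1)),
    fun a => e.symm (Pi.single (σ a).1 (Matrix.single 0 (σ a).2 1)), ?_, ?_⟩
  · have h := congrArg e.symm (SepId_one (E := E) (n := n) (d := d))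
    rw [map_sum, map_one] at h
    rw [← h, ← Equiv.sum_comp σ]
    refine Finset.sum_congr rfl fun a _ => ?_
    rw [map_mul]
  · intro x
    have h := congrArg (TensorProduct.map e.symm.toLinearMap e.symm.toLinearMap)
      (SepId_two (e x))
    rw [map_sum, map_sum, ← Equiv.sum_comp σ, ← Equiv.sum_comp σ] at h
    simp only [TensorProduct.map_tmul, AlgEquiv.toLinearMap_apply, map_mul,
      AlgEquiv.symm_apply_apply] at h
    exact h


end Pool.Agent.H89.IP
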