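import Pool.Agent.H89.IP.Defs

/-!
# IP.Spl : an invariant subspace splits the character

PROOF. `W` has dimension `n₁`, `(Fin n → E) ⧸ W` has dimension `n₂`, `n₁ + n₂ = n`, both positive since `W ≠ ⊥`, `W ≠ ⊤`. Take a complement `W'` of `W` (only as vector spaces), bases of `W` and of `W'`: matrices `B₁ : n × n₁`, `B₂ : n × n₂` (the basis vectors), `C₁ : n₁ × n`, `C₂ : n₂ × n` (the coordinates) with
`C₁ B₁ = 1`, `C₂ B₂ = 1`, `C₁ B₂ = 0`, `C₂ B₁ = 0`, `B₁ C₁ + B₂ C₂ = 1`, and `C₂ * ρ g * B₁ = 0` because `W` is invariant. `ρ₁ g = C₁ * ρ g * B₁`, `ρ₂ g = C₂ * ρ g * B₂` are multiplicative (`ρ g * ρ h = ρ g * (B₁ C₁ + B₂ C₂) * ρ h`), continuous if `ρ` is, equal to `1` if `ρ g = 1`, and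
`(ρ g).trace = ((B₁ C₁ + B₂ C₂) * ρ g).trace = (ρ₁ g).trace + (ρ₂ g).trace`. About 100 lines.
-/

set_option autoImplicit false

open Matrix

namespace Pool.Agent.H89.IP

variable {Γ E : Type*} [Group Γ] [Field E]

private theorem spl_aux {n n₁ n₂ : ℕ} (ρ : Γ →* Matrix (Fin n) (Fin n) E)
    (B₁ : Matrix (Fin n) (Fin n₁) E) (B₂ : Matrix (Fin n) (Fin n₂) E)
    (C₁ : Matrix (Fin n₁) (Fin n) E) (C₂ : Matrix (Fin n₂) (Fin n) E)
    (h1 : C₁ * B₁ = 1) (h2 : C₂ * B₂ = 1) (hs : B₁ * C₁ + B₂ * C₂ = 1)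
    (hz : ∀ g, C₂ * ρ g * B₁ = 0) :
    ∃ (ρ₁ : Γ →* Matrix (Fin n₁) (Fin n₁) E) (ρ₂ : Γ →* Matrix (Fin n₂) (Fin n₂) E),
      (∀ g, ρ₁ g = C₁ * ρ g * B₁) ∧ (∀ g, ρ₂ g = C₂ * ρ g * B₂) := by
  refine ⟨{ toFun := fun g => C₁ * ρ g * B₁, map_one' := ?_, map_mul' := ?_ },
    { toFun := fun g => C₂ * ρ g * B₂, map_one' := ?_, map_mul' := ?_ }, fun g => rfl, fun g => rfl⟩
  · rw [map_one, Matrix.mul_one, h1]
  · intro g h
    have e : B₁ * C₁ = 1 - B₂ * C₂ := eq_sub_of_add_eq hs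
    calc C₁ * ρ (g * h) * B₁
        = C₁ * ρ g * (ρ h * B₁) := by rw [map_mul]; simp only [Matrix.mul_assoc]
      _ = C₁ * ρ g * (ρ h * B₁) - C₁ * ρ g * B₂ * (C₂ * ρ h * B₁) := by
          rw [hz h, Matrix.mul_zero, sub_zero]
      _ = C₁ * ρ g * ((1 - B₂ * C₂) * (ρ h * B₁)) := by
          rw [Matrix.sub_mul, Matrix.one_mul, Matrix.mul_sub]
          simp only [Matrix.mul_assoc]
      _ = C₁ * ρ g * B₁ * (C₁ * ρ h * B₁) := by
          rw [← e]
          simp only [Matrix.mul_assoc]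
  · rw [map_one, Matrix.mul_one, h2]
  · intro g h
    have e : B₂ * C₂ = 1 - B₁ * C₁ := eq_sub_of_add_eq' hs
    calc C₂ * ρ (g * h) * B₂
        = C₂ * ρ g * (ρ h * B₂) := by rw [map_mul]; simp only [Matrix.mul_assoc]
      _ = C₂ * ρ g * (ρ h * B₂) - C₂ * ρ g * B₁ * (C₁ * ρ h * B₂) := by
          rw [hz g, Matrix.zero_mul, sub_zero]
      _ = C₂ * ρ g * ((1 - B₁ * C₁) * (ρ h * B₂)) := by
          rw [Matrix.sub_mul, Matrix.one_mul, Matrix.mul_sub]
          simp only [Matrix.mul_assoc]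
      _ = C₂ * ρ g * B₂ * (C₂ * ρ h * B₂) := by
          rw [← e]
          simp only [Matrix.mul_assoc]

theorem spl [TopologicalSpace Γ] [TopologicalSpace E] [IsTopologicalRing E] {n : ℕ}
    (ρ : Γ →* Matrix (Fin n) (Fin n) E) (W : Submodule E (Fin n → E))
    (hW : ∀ g, ∀ x ∈ W, ρ g *ᵥ x ∈ W) (h0 : W ≠ ⊥) (h1 : W ≠ ⊤) :
    ∃ (n₁ n₂ : ℕ) (ρ₁ : Γ →* Matrix (Fin n₁) (Fin n₁) E) (ρ₂ : Γ →* Matrix (Fin n₂) (Fin n₂) E),
      n₁ + n₂ = n ∧ 0 < n₁ ∧ 0 < n₂ ∧ (∀ g, chi ρ g = chi ρ₁ g + chi ρ₂ g) ∧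
      (∀ g, ρ g = 1 → ρ₁ g = 1 ∧ ρ₂ g = 1) ∧ (Continuous ρ → Continuous ρ₁ ∧ Continuous ρ₂) := by
  classical
  obtain ⟨W', hc⟩ := Submodule.exists_isCompl W
  have hn : Module.finrank E W + Module.finrank E W' = n := by
    have := Submodule.finrank_add_eq_of_isCompl hc
    rw [this, Module.finrank_fin_fun]
  have hp1 : 0 < Module.finrank E W := by
    rw [Nat.pos_iff_ne_zero]
    intro h
    exact h0 (Submodule.finrank_eq_zero.1 h)
  have hp2 : 0 < Module.finrank E W' := by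
    rw [Nat.pos_iff_ne_zero]
    intro h
    have h3 := Submodule.finrank_eq_zero.1 h
    rw [h3] at hc
    exact h1 (eq_top_of_isCompl_bot hc)
  let b := Module.finBasis E W
  let b' := Module.finBasis E W'
  let P₁ : (Fin n → E) →ₗ[E] (Fin (Module.finrank E W) → E) :=
    b.equivFun.toLinearMap ∘ₗ W.projectionOnto W' hc
  let P₂ : (Fin n → E) →ₗ[E] (Fin (Module.finrank E W') → E) :=
    b'.equivFun.toLinearMap ∘ₗ W'.projectionOnto W hc.symm
  let J₁ : (Fin (Module.finrank E W) → E) →ₗ[E] (Fin n → E) :=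
    W.subtype ∘ₗ b.equivFun.symm.toLinearMap
  let J₂ : (Fin (Module.finrank E W') → E) →ₗ[E] (Fin n → E) :=
    W'.subtype ∘ₗ b'.equivFun.symm.toLinearMap
  have e1 : P₁ ∘ₗ J₁ = LinearMap.id := by
    refine LinearMap.ext fun x => ?_
    simp only [P₁, J₁, LinearMap.comp_apply, LinearEquiv.coe_coe, Submodule.subtype_apply,
      Submodule.projectionOnto_apply_left, LinearEquiv.apply_symm_apply, LinearMap.id_apply]
  have e2 : P₂ ∘ₗ J₂ = LinearMap.id := by
    refine LinearMap.ext fun x => ?_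
    simp only [P₂, J₂, LinearMap.comp_apply, LinearEquiv.coe_coe, Submodule.subtype_apply,
      Submodule.projectionOnto_apply_left, LinearEquiv.apply_symm_apply, LinearMap.id_apply]
  have e3 : J₁ ∘ₗ P₁ + J₂ ∘ₗ P₂ = LinearMap.id := by
    refine LinearMap.ext fun x => ?_
    simp only [P₁, P₂, J₁, J₂, LinearMap.add_apply, LinearMap.comp_apply, LinearEquiv.coe_coe,
      LinearEquiv.symm_apply_apply, Submodule.subtype_apply, LinearMap.id_apply]
    exact Submodule.projection_add_projection_eq_self hc x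
  have e4 : ∀ x ∈ W, P₂ x = 0 := by
    intro x hx
    simp only [P₂, LinearMap.comp_apply, LinearEquiv.coe_coe]
    rw [(Submodule.projectionOnto_apply_eq_zero_iff hc.symm).2 hx, map_zero]
  have e5 : ∀ x, J₁ x ∈ W := by
    intro x
    simp only [J₁, LinearMap.comp_apply, Submodule.subtype_apply]
    exact Subtype.coe_prop _
  have m1 : LinearMap.toMatrix' P₁ * LinearMap.toMatrix' J₁ = 1 := by
    rw [← LinearMap.toMatrix'_comp, e1, LinearMap.toMatrix'_id]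
  have m2 : LinearMap.toMatrix' P₂ * LinearMap.toMatrix' J₂ = 1 := by
    rw [← LinearMap.toMatrix'_comp, e2, LinearMap.toMatrix'_id]
  have m3 : LinearMap.toMatrix' J₁ * LinearMap.toMatrix' P₁ +
      LinearMap.toMatrix' J₂ * LinearMap.toMatrix' P₂ = 1 := by
    rw [← LinearMap.toMatrix'_comp, ← LinearMap.toMatrix'_comp, ← map_add, e3,
      LinearMap.toMatrix'_id]
  have m4 : ∀ g, LinearMap.toMatrix' P₂ * ρ g * LinearMap.toMatrix' J₁ = 0 := by
    intro g
    have : P₂ ∘ₗ (Matrix.toLin' (ρ g)) ∘ₗ J₁ = 0 := by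
      refine LinearMap.ext fun x => ?_
      simp only [LinearMap.comp_apply, Matrix.toLin'_apply, LinearMap.zero_apply]
      exact e4 _ (hW g _ (e5 x))
    have h := congrArg LinearMap.toMatrix' this
    rw [LinearMap.toMatrix'_comp, LinearMap.toMatrix'_comp, LinearMap.toMatrix'_toLin',
      map_zero, ← Matrix.mul_assoc] at h
    exact h
  obtain ⟨ρ₁, ρ₂, r1, r2⟩ := spl_aux ρ _ _ _ _ m1 m2 m3 m4
  refine ⟨_, _, ρ₁, ρ₂, hn, hp1, hp2, ?_, ?_, ?_⟩
  · intro g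
    unfold chi
    rw [r1, r2]
    calc (ρ g).trace = ((LinearMap.toMatrix' J₁ * LinearMap.toMatrix' P₁ +
          LinearMap.toMatrix' J₂ * LinearMap.toMatrix' P₂) * ρ g).trace := by
          rw [m3, Matrix.one_mul]
      _ = _ := by
          rw [Matrix.add_mul, Matrix.trace_add, Matrix.mul_assoc, Matrix.mul_assoc,
            Matrix.trace_mul_comm (LinearMap.toMatrix' J₁),
            Matrix.trace_mul_comm (LinearMap.toMatrix' J₂)]
  · intro g hg
    rw [r1, r2, hg, Matrix.mul_one, Matrix.mul_one]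
    exact ⟨m1, m2⟩
  · intro hρ
    constructor
    · have : (ρ₁ : Γ → Matrix _ _ E) = fun g => LinearMap.toMatrix' P₁ * ρ g * LinearMap.toMatrix' J₁ :=
        funext r1
      rw [this]
      exact (continuous_const.matrix_mul hρ).matrix_mul continuous_const
    · have : (ρ₂ : Γ → Matrix _ _ E) = fun g => LinearMap.toMatrix' P₂ * ρ g * LinearMap.toMatrix' J₂ :=
        funext r2
      rw [this]
      exact (continuous_const.matrix_mul hρ).matrix_mul continuous_const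

end Pool.Agent.H89.IP
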