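import Pool.Agent.H89.IP.Defs

/-!
# IP.Sys : abstract systems

`H` is a topological group (in the application `G_K`), `X` a torsion abelian group (of characters of `H`), `Y` a finite set (the
nontrivial cosets of `H` in `G`), `P y` a subgroup of `H` (the elements `g` with `x⁻¹ g x ∈ H`), `ψ y χ g = χ (x⁻¹ g x) χ(g)⁻¹`, `T χ` the twisted
trace of `R_χ` on `H`, `a` the given function and `b y g = a (x⁻¹ g x)`; `m χ` the multiplicities of the irreducible characters in `T χ`.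
`S.B C y` : the `g ∈ P y` with `ψ y χ g = 1` for all `χ ∈ C`; `S.Bad C` their union; `S.Bad2 C` the exceptional set in `H × H`;
`S.V C` an open normal subgroup contained in all `S.B C y`; `S.mu`, `S.cov` mean and covariance of the multiplicities over `C`.
-/

set_option autoImplicit false

namespace Pool.Agent.H89.IP

/-- an abstract system -/
structure Sys (H E X Y : Type*) [Group H] [TopologicalSpace H] [Field E] [TopologicalSpace E]
    [CommGroup X] [Fintype Y] where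
  P : Y → Subgroup H
  ψ : Y → X → H → E
  D : X → Set H
  T : X → H → E
  a : H → E
  b : Y → H → E
  N : ℕ
  m : X → (H → E) →₀ ℕ
  ψ1 : ∀ y, ∀ g ∈ P y, ψ y 1 g = 1
  ψm : ∀ y, ∀ g ∈ P y, ∀ χ χ', ψ y (χ * χ') g = ψ y χ g * ψ y χ' g
  ψg : ∀ y χ, ∀ g ∈ P y, ∀ g' ∈ P y, ψ y χ (g * g') = ψ y χ g * ψ y χ g'
  ψo : ∀ y χ, IsOpen {g | g ∈ P y ∧ ψ y χ g = 1}
  tor : ∀ χ : X, IsOfFinOrder χ
  big : ∀ y, ∀ K : Subgroup H, IsOpen (K : Set H) → K ≤ P y → ∃ g ∈ K, ∃ χ, ψ y χ g ≠ 1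
  den : ∀ F : Finset X, Dense (⋂ χ ∈ F, D χ)
  cT : ∀ χ, Continuous (T χ)
  hb : ∀ y, ∀ g, g ∉ P y → b y g = 0
  tr : ∀ χ, ∀ g ∈ D χ, T χ g = a g + ∑ y, b y g * ψ y χ g
  mT : ∀ χ g, T χ g = ∑ θ ∈ (m χ).support, (m χ θ : E) * θ g
  mI : ∀ χ, ∀ θ ∈ (m χ).support, Ich θ
  mN : ∀ χ, ∑ θ ∈ (m χ).support, m χ θ * dg θ ≤ N

variable {H E X Y : Type*} [Group H] [TopologicalSpace H] [Field E] [TopologicalSpace E]
  [CommGroup X] [Fintype Y] (S : Sys H E X Y)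

namespace Sys

theorem ψ_ne {y : Y} {g : H} (hg : g ∈ S.P y) (χ : X) : S.ψ y χ g ≠ 0 := by
  intro h
  have h1 := S.ψm y g hg χ χ⁻¹
  rw [mul_inv_cancel, S.ψ1 y g hg, h, zero_mul] at h1
  exact one_ne_zero h1

theorem ψ_one (y : Y) (χ : X) : S.ψ y χ 1 = 1 := by
  have h1 := S.ψg y χ 1 (S.P y).one_mem 1 (S.P y).one_mem
  rw [one_mul] at h1
  have h2 := S.ψ_ne (S.P y).one_mem χ
  exact (mul_right_eq_self₀.1 h1.symm).resolve_right h2

theorem ψ_inv {y : Y} {g : H} (hg : g ∈ S.P y) (χ : X) : S.ψ y χ g * S.ψ y χ g⁻¹ = 1 := by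
  rw [← S.ψg y χ g hg g⁻¹ ((S.P y).inv_mem hg), mul_inv_cancel, S.ψ_one]

/-- the elements of `P y` on which the `ψ y χ`, `χ ∈ C`, are trivial -/
def B (C : Finset X) (y : Y) : Subgroup H where
  carrier := {g | g ∈ S.P y ∧ ∀ χ ∈ C, S.ψ y χ g = 1}
  mul_mem' := by
    rintro g h ⟨hg, hg'⟩ ⟨hh, hh'⟩
    refine ⟨(S.P y).mul_mem hg hh, fun χ hχ => ?_⟩
    rw [S.ψg y χ g hg h hh, hg' χ hχ, hh' χ hχ, one_mul]
  one_mem' := ⟨(S.P y).one_mem, fun χ _ => S.ψ_one y χ⟩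
  inv_mem' := by
    rintro g ⟨hg, hg'⟩
    refine ⟨(S.P y).inv_mem hg, fun χ hχ => ?_⟩
    have h1 := S.ψ_inv hg χ
    rw [hg' χ hχ, one_mul] at h1
    exact h1

theorem mem_B {C : Finset X} {y : Y} {g : H} :
    g ∈ S.B C y ↔ g ∈ S.P y ∧ ∀ χ ∈ C, S.ψ y χ g = 1 := Iff.rfl

theorem B_anti {C C' : Finset X} (h : C ⊆ C') (y : Y) : S.B C' y ≤ S.B C y :=
  fun _ hg => ⟨hg.1, fun χ hχ => hg.2 χ (h hχ)⟩

/-- the exceptional set -/
def Bad (C : Finset X) : Set H := {g | ∃ y, g ∈ S.B C y}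

/-- the exceptional set in `H × H` -/
def Bad2 (C : Finset X) : Set (H × H) :=
  {p | (∃ y, p.1 ∈ S.B C y) ∨ (∃ z, p.2 ∈ S.B C z) ∨
    ∃ y z, p.1 ∈ S.P y ∧ p.2 ∈ S.P z ∧ ∀ χ ∈ C, S.ψ y χ p.1 * S.ψ z χ p.2 = 1}

/-- a normal subgroup contained in all `S.B C y` -/
noncomputable def V (C : Finset X) : Subgroup H := (⨅ y, S.B C y).normalCore

instance (C : Finset X) : (S.V C).Normal := Subgroup.normalCore_normal _

theorem V_le (C : Finset X) (y : Y) : S.V C ≤ S.B C y :=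
  (Subgroup.normalCore_le _).trans (iInf_le _ y)

/-- the mean multiplicity -/
noncomputable def mu (C : Finset X) (θ : H → E) : ℚ := (∑ χ ∈ C, (S.m χ θ : ℚ)) / (C.card : ℚ)

/-- the covariance of the multiplicities -/
noncomputable def cov (C : Finset X) (θ θ' : H → E) : ℚ :=
  (∑ χ ∈ C, (S.m χ θ : ℚ) * (S.m χ θ' : ℚ)) / (C.card : ℚ) - S.mu C θ * S.mu C θ'

end Sys

end Pool.Agent.H89.IP
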